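import Pool.Agent.Lib.MP_8b575b_co.Hom.Spec

/-! # MP_8b575b_co, Hom/Bt: partial spreads through a point (helper16) -/

set_option autoImplicit false
set_option linter.unusedSectionVars false

namespace Pool.Agent.MP8bH

open Finset Polynomial Pool.Agent.MP8bT

open scoped Classical

private theorem Bt_card {K M : Type} [Field K] [Fintype K] [AddCommGroup M] [Module K M] [Fintype M]
    (W : Submodule K M) :
    (univ.filter fun v : M => v ∈ W).card = Fintype.card K ^ Module.finrank K W := by
  have h1 : Fintype.card W = Fintype.card K ^ Module.finrank K W := Module.card_eq_pow_finrank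
  rw [← h1, Fintype.card_subtype]

variable {K V : Type} [Field K] [Fintype K] [AddCommGroup V] [Module K V] [Fintype V]

private theorem Bt_off {v : V} (hv : v ≠ 0) (W : Submodule K V) (hvW : v ∈ W) :
    (univ.filter fun x : V => x ∈ W ∧ x ∉ Submodule.span K {v}).card + Fintype.card K =
      Fintype.card K ^ Module.finrank K W := by
  have h1 := Finset.card_filter_add_card_filter_not (s := univ.filter fun x : V => x ∈ W)
    (fun x : V => x ∈ Submodule.span K {v})
  rw [Bt_card W] at h1
  have h2 : ((univ.filter fun x : V => x ∈ W).filter fun x : V => x ∈ Submodule.span K {v}) =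
      univ.filter fun x : V => x ∈ Submodule.span K {v} := by
    ext x
    simp only [mem_filter, mem_univ, true_and, and_iff_right_iff_imp]
    intro hx
    exact (Submodule.span_singleton_le_iff_mem v W).2 hvW hx
  have h3 : (univ.filter fun x : V => x ∈ Submodule.span K {v}).card = Fintype.card K := by
    rw [Bt_card, finrank_span_singleton hv, pow_one]
  have h4 : ((univ.filter fun x : V => x ∈ W).filter fun x : V => ¬ x ∈ Submodule.span K {v}) =
      univ.filter fun x : V => x ∈ W ∧ x ∉ Submodule.span K {v} := by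
    rw [Finset.filter_filter]
  rw [h2, h3, h4] at h1
  omega

private theorem Bt_two {v x : V} (hv : v ≠ 0) (hx : x ∉ Submodule.span K {v}) (W : Submodule K V)
    (hvW : v ∈ W) (hxW : x ∈ W) : 2 ≤ Module.finrank K W := by
  have hli : LinearIndependent K ![x, v] := by
    rw [LinearIndependent.pair_iff]
    intro s t hst
    have hs : s = 0 := by
      by_contra hs
      refine hx (Submodule.mem_span_singleton.2 ⟨-(s⁻¹ * t), ?_⟩)
      have h1 : s • x = -(t • v) := eq_neg_of_add_eq_zero_left hst
      have h2 : x = s⁻¹ • (s • x) := (inv_smul_smul₀ hs x).symm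
      rw [h2, h1, smul_neg, smul_smul, neg_smul]
    subst hs
    rw [zero_smul, zero_add] at hst
    exact ⟨rfl, (smul_eq_zero.1 hst).resolve_right hv⟩
  have h1 : Submodule.span K (Set.range ![x, v]) ≤ W := by
    rw [Submodule.span_le]
    rintro y ⟨i, rfl⟩
    fin_cases i
    · exact hxW
    · exact hvW
  have h2 := Submodule.finrank_mono h1
  rw [finrank_span_eq_card hli, Fintype.card_fin] at h2
  exact h2

/-- the members of `R` in the kernel of a form -/
private theorem Bt_form {k : ℕ} {v : V} {R : Finset (Submodule K V)} (hk : 3 ≤ k)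
    (hV : Module.finrank K V = 2 * k) (hv : v ≠ 0)
    (hR : ∀ U ∈ R, Module.finrank K U = k ∧ v ∈ U)
    (hI : ∀ U ∈ R, ∀ W ∈ R, U ≠ W → Module.finrank K ↥(U ⊓ W) ≤ 1)
    (hcon : Fintype.card K ^ k + 2 ≤ R.card) (φ : Module.Dual K V) (hφ : φ ≠ 0) (hφv : φ v = 0) :
    (R.filter fun U => U ≤ LinearMap.ker φ).card ≤ Fintype.card K := by
  set q := Fintype.card K with hq
  have hq2 : 2 ≤ q := Fintype.one_lt_card
  set H : Submodule K V := LinearMap.ker φ with hH
  have hvH : v ∈ H := LinearMap.mem_ker.2 hφv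
  have hHd : Module.finrank K H + 1 = 2 * k := by
    rw [← hV]
    exact Module.Dual.finrank_ker_add_one_of_ne_zero hφ
  have hdis : ∀ U ∈ R, ∀ W ∈ R, U ≠ W →
      Disjoint (univ.filter fun x : V => x ∈ U ⊓ H ∧ x ∉ Submodule.span K {v})
        (univ.filter fun x : V => x ∈ W ⊓ H ∧ x ∉ Submodule.span K {v}) := by
    intro U hU W hW hne
    rw [Finset.disjoint_left]
    intro x hx hx'
    rw [mem_filter] at hx hx'
    have h1 := Bt_two hv hx.2.2 (U ⊓ W) ⟨(hR U hU).2, (hR W hW).2⟩ ⟨hx.2.1.1, hx'.2.1.1⟩
    have h2 := hI U hU W hW hne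
    omega
  have hsum : ∑ U ∈ R, (univ.filter fun x : V => x ∈ U ⊓ H ∧ x ∉ Submodule.span K {v}).card ≤
      (univ.filter fun x : V => x ∈ H ∧ x ∉ Submodule.span K {v}).card := by
    rw [← Finset.card_biUnion (fun U hU W hW hne => hdis U hU W hW hne)]
    refine Finset.card_le_card fun x hx => ?_
    obtain ⟨U, hU, hxU⟩ := Finset.mem_biUnion.1 hx
    rw [mem_filter] at hxU ⊢
    exact ⟨mem_univ _, hxU.2.1.2, hxU.2.2⟩
  have hHc := Bt_off hv H hvH
  have hHd' : Module.finrank K H = 2 * k - 1 := by omega
  rw [hHd'] at hHc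
  -- the lower bound for one member
  have hone : ∀ U ∈ R, q ^ (k - 1) + (if U ≤ H then q ^ k - q ^ (k - 1) else 0) ≤
      (univ.filter fun x : V => x ∈ U ⊓ H ∧ x ∉ Submodule.span K {v}).card + q := by
    intro U hU
    rw [Bt_off hv (U ⊓ H) ⟨(hR U hU).2, hvH⟩]
    have hp : q ^ (k - 1) ≤ q ^ k := Nat.pow_le_pow_right (by omega) (by omega)
    split_ifs with hle
    · have h1 : U ⊓ H = U := inf_eq_left.2 hle
      rw [h1, (hR U hU).1, ← hq]
      omega
    · rw [add_zero]
      refine Nat.pow_le_pow_right (by omega) ?_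
      have h1 := Submodule.finrank_sup_add_finrank_inf_eq U H
      have h2 : Module.finrank K ↥(U ⊔ H) ≤ Module.finrank K V := Submodule.finrank_le _
      have h3 := (hR U hU).1
      omega
  have hS := Finset.sum_le_sum hone
  rw [Finset.sum_add_distrib, Finset.sum_add_distrib, Finset.sum_const, Finset.sum_const,
    ← Finset.sum_filter, Finset.sum_const, smul_eq_mul, smul_eq_mul, smul_eq_mul] at hS
  by_contra hlt
  set n := (R.filter fun U => U ≤ H).card with hn
  set r := R.card with hr
  have hn' : q + 1 ≤ n := by omega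
  obtain ⟨j, rfl⟩ : ∃ j, k = j + 3 := ⟨k - 3, by omega⟩
  have e1 : j + 3 - 1 = j + 2 := by omega
  have e2 : 2 * (j + 3) - 1 = (j + 3) + (j + 2) := by omega
  rw [e1] at hS
  rw [e2] at hHc
  set a := q ^ (j + 2) with ha
  have ha3 : q ^ (j + 3) = q * a := by rw [ha]; ring
  have ha5 : q ^ ((j + 3) + (j + 2)) = q * a * a := by rw [pow_add, ha3]
  rw [ha3] at hS hcon
  rw [ha5] at hHc
  have haq : q * q ≤ a := by
    rw [ha]
    calc q * q = q ^ 2 := by ring
      _ ≤ q ^ (j + 2) := Nat.pow_le_pow_right (by omega) (by omega)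
  -- everything over the integers
  have hqa : a ≤ q * a := Nat.le_mul_of_pos_left a (by omega)
  zify [hqa] at hS hHc hsum hcon hn' haq hq2
  have h5 : (r : ℤ) * a + n * (q * a - a) + q ≤ q * a * a + r * q := by linarith
  have h6 : ((q : ℤ) + 1) * (q * a - a) ≤ n * (q * a - a) := by
    refine mul_le_mul_of_nonneg_right hn' ?_
    nlinarith
  have h7 : ((q : ℤ) * a + 2) * (a - q) ≤ r * (a - q) := by
    refine mul_le_mul_of_nonneg_right hcon ?_
    nlinarith
  nlinarith

theorem tBt : S_Bt := by
  intro K V _ _ _ _ _ k v R hk hV hv hR hI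
  by_contra hlt
  have hcon : Fintype.card K ^ k + 2 ≤ R.card := by omega
  set q := Fintype.card K with hq
  have hq2 : 2 ≤ q := Fintype.one_lt_card
  have hfin : Finite (Module.Dual K V) := Module.finite_of_finite K
  let _ : Fintype (Module.Dual K V) := Fintype.ofFinite _
  set Φ : Finset (Module.Dual K V) := univ.filter fun φ => φ ≠ 0 ∧ φ v = 0 with hΦ
  -- the number of the forms
  have hcount : ∀ W : Submodule K V,
      (univ.filter fun φ : Module.Dual K V => φ ≠ 0 ∧ W ≤ LinearMap.ker φ).card + 1 =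
        q ^ (Module.finrank K V - Module.finrank K W) := by
    intro W
    have h1 := Bt_card (K := K) W.dualAnnihilator
    have h2 := Subspace.finrank_add_finrank_dualAnnihilator_eq W
    have h3 : Module.finrank K W.dualAnnihilator = Module.finrank K V - Module.finrank K W := by
      omega
    rw [h3] at h1
    rw [hq, ← h1]
    have h4 : (univ.filter fun φ : Module.Dual K V => φ ∈ W.dualAnnihilator) =
        insert 0 (univ.filter fun φ : Module.Dual K V => φ ≠ 0 ∧ W ≤ LinearMap.ker φ) := by
      ext φ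
      simp only [mem_filter, mem_univ, true_and, mem_insert, Submodule.mem_dualAnnihilator]
      constructor
      · intro h
        by_cases h0 : φ = 0
        · exact Or.inl h0
        · exact Or.inr ⟨h0, fun x hx => LinearMap.mem_ker.2 (h x hx)⟩
      · rintro (h | h)
        · intro x _
          rw [h, LinearMap.zero_apply]
        · intro x hx
          exact LinearMap.mem_ker.1 (h.2 hx)
    rw [h4, Finset.card_insert_of_notMem]
    simp
  have hΦc : Φ.card + 1 = q ^ (2 * k - 1) := by
    have h1 := hcount (Submodule.span K {v})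
    rw [finrank_span_singleton hv, hV] at h1
    rw [← h1, hΦ]
    congr 2
    ext φ
    simp only [mem_filter, mem_univ, true_and, Submodule.span_singleton_le_iff_mem,
      LinearMap.mem_ker]
  have hdouble : ∑ φ ∈ Φ, (R.filter fun U => U ≤ LinearMap.ker φ).card =
      ∑ U ∈ R, (Φ.filter fun φ => U ≤ LinearMap.ker φ).card := by
    simp_rw [Finset.card_filter]
    exact Finset.sum_comm
  have hleft : ∑ φ ∈ Φ, (R.filter fun U => U ≤ LinearMap.ker φ).card ≤ Φ.card * q := by
    rw [← smul_eq_mul, ← Finset.sum_const]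
    refine Finset.sum_le_sum fun φ hφ => ?_
    rw [hΦ, mem_filter] at hφ
    exact Bt_form hk hV hv hR hI hcon φ hφ.2.1 hφ.2.2
  have hright : ∀ U ∈ R, (Φ.filter fun φ => U ≤ LinearMap.ker φ).card + 1 = q ^ k := by
    intro U hU
    have h1 := hcount U
    rw [(hR U hU).1, hV] at h1
    have h2 : 2 * k - k = k := by omega
    rw [h2] at h1
    rw [← h1, hΦ, Finset.filter_filter]
    congr 2
    ext φ
    simp only [mem_filter, mem_univ, true_and]
    constructor
    · rintro ⟨⟨h3, -⟩, h4⟩
      exact ⟨h3, h4⟩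
    · rintro ⟨h3, h4⟩
      exact ⟨⟨h3, LinearMap.mem_ker.1 (h4 (hR U hU).2)⟩, h4⟩
  have hsum : ∑ U ∈ R, (Φ.filter fun φ => U ≤ LinearMap.ker φ).card + R.card = R.card * q ^ k := by
    calc ∑ U ∈ R, (Φ.filter fun φ => U ≤ LinearMap.ker φ).card + R.card
        = ∑ U ∈ R, ((Φ.filter fun φ => U ≤ LinearMap.ker φ).card + 1) := by
          rw [Finset.sum_add_distrib, Finset.sum_const, smul_eq_mul, mul_one]
      _ = ∑ _U ∈ R, q ^ k := Finset.sum_congr rfl hright
      _ = R.card * q ^ k := by rw [Finset.sum_const, smul_eq_mul]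
  have hpow : q ^ (2 * k - 1) * q = q ^ k * q ^ k := by
    rw [← pow_succ, ← pow_add]
    congr 1
    omega
  have hqk : 1 ≤ q ^ k := Nat.one_le_pow _ _ (by omega)
  set Q := q ^ k with hQ
  zify at hsum hleft hdouble hΦc hpow hcon hqk hq2
  have h8 : ((Q : ℤ) + 2) * (Q - 1) ≤ R.card * (Q - 1) :=
    mul_le_mul_of_nonneg_right hcon (by linarith)
  nlinarith

end Pool.Agent.MP8bH
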