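import Pool.Agent.Lib.MP_8b575b_co.Hom.Spec

/-! # MP_8b575b_co, Hom/Ca: sets of hyperplanes (helper74) -/

set_option autoImplicit false
set_option linter.unusedSectionVars false

namespace Pool.Agent.MP8bH

open Finset Polynomial Pool.Agent.MP8bT

open scoped Classical

variable {K M : Type} [Field K] [Fintype K] [AddCommGroup M] [Module K M] [Fintype M]

private theorem Ca_card (W : Submodule K M) :
    (univ.filter fun v : M => v ∈ W).card = Fintype.card K ^ Module.finrank K W := by
  have h1 : Fintype.card W = Fintype.card K ^ Module.finrank K W := Module.card_eq_pow_finrank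
  rw [← h1, Fintype.card_subtype]

private theorem Ca_in {x : M} (hx : x ≠ 0) (x' : M) :
    In2 K x x' ↔ x' ∉ Submodule.span K {x} := by
  constructor
  · intro h hm
    obtain ⟨c, hc⟩ := Submodule.mem_span_singleton.1 hm
    have h1 := h c (-1) (by rw [hc, neg_smul, one_smul, add_neg_cancel])
    exact one_ne_zero (neg_eq_zero.1 h1.2)
  · intro h a b hab
    have hb : b = 0 := by
      by_contra hb
      refine h (Submodule.mem_span_singleton.2 ⟨-(b⁻¹ * a), ?_⟩)
      have h1 : b • x' = -(a • x) := eq_neg_of_add_eq_zero_right hab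
      have h2 : x' = b⁻¹ • (b • x') := (inv_smul_smul₀ hb x').symm
      rw [h2, h1, smul_neg, smul_smul, neg_smul]
    subst hb
    rw [zero_smul, add_zero] at hab
    exact ⟨(smul_eq_zero.1 hab).resolve_right hx, rfl⟩

private theorem Ca_t1 (T : Finset (Submodule K M)) (x : M) :
    t1 T x = ∑ H ∈ T, if x ∈ H then 1 else 0 := by
  unfold t1
  rw [Finset.card_filter]

private theorem Ca_t2 (T : Finset (Submodule K M)) (x x' : M) :
    t2 T x x' = ∑ H ∈ T, if x ∈ H ∧ x' ∈ H then 1 else 0 := by
  unfold t2
  rw [Finset.card_filter]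

/-- one hyperplane -/
private theorem Ca_one {k : ℕ} (hM : Module.finrank K M = k) (H : Submodule K M)
    (hH : Module.finrank K H + 1 = k) (x x' : M) :
    ((if x ∈ H then 1 else 0) + ∑ c : K, if x' - c • x ∈ H then 1 else 0 : ℕ) =
      1 + Fintype.card K * if x ∈ H ∧ x' ∈ H then 1 else 0 := by
  by_cases hx : x ∈ H
  · by_cases hx' : x' ∈ H
    · have h1 : ∀ c : K, x' - c • x ∈ H := fun c => H.sub_mem hx' (H.smul_mem c hx)
      simp [hx, hx', h1]
    · have h1 : ∀ c : K, ¬ x' - c • x ∈ H := fun c h => hx' (by
        have h2 := H.add_mem h (H.smul_mem c hx)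
        rwa [sub_add_cancel] at h2)
      simp [hx, hx', h1]
  · have h1 : H ⊔ Submodule.span K {x} = ⊤ := by
      apply Submodule.eq_top_of_finrank_eq
      have h2 : H < H ⊔ Submodule.span K {x} := by
        refine lt_of_le_of_ne le_sup_left fun h => hx ?_
        rw [h]
        exact Submodule.mem_sup_right (Submodule.mem_span_singleton_self x)
      have h3 := Submodule.finrank_lt_finrank_of_lt h2
      have h4 := Submodule.finrank_le (H ⊔ Submodule.span K {x})
      omega
    obtain ⟨c₀, hc₀⟩ : ∃ c : K, x' - c • x ∈ H := by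
      have h2 : x' ∈ H ⊔ Submodule.span K {x} := by rw [h1]; exact Submodule.mem_top
      obtain ⟨y, hy, z, hz, hyz⟩ := Submodule.mem_sup.1 h2
      obtain ⟨c, rfl⟩ := Submodule.mem_span_singleton.1 hz
      exact ⟨c, by rw [← hyz, add_sub_cancel_right]; exact hy⟩
    have h2 : ∀ c : K, x' - c • x ∈ H ↔ c = c₀ := by
      intro c
      constructor
      · intro hc
        by_contra hne
        apply hx
        have h3 := H.sub_mem hc₀ hc
        have h4 : x' - c₀ • x - (x' - c • x) = (c - c₀) • x := by
          rw [sub_smul]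
          abel
        rw [h4] at h3
        exact (H.smul_mem_iff (sub_ne_zero.2 hne)).1 h3
      · rintro rfl
        exact hc₀
    simp [hx, h2]

private theorem Ca_dual {k : ℕ} (hM : Module.finrank K M = k)
    (H : Submodule K M) (hH : Module.finrank K H + 1 = k) :
    ∃ φ : M →ₗ[K] K, φ ≠ 0 ∧ LinearMap.ker φ = H := by
  have h1 : H < ⊤ := by
    refine lt_top_iff_ne_top.2 fun h => ?_
    rw [h, finrank_top] at hH
    omega
  obtain ⟨φ, h2, h3⟩ := Submodule.exists_le_ker_of_lt_top H h1
  refine ⟨φ, h2, (Submodule.eq_of_le_of_finrank_le h3 ?_).symm⟩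
  have h4 := LinearMap.finrank_range_add_finrank_ker φ
  have h5 : LinearMap.range φ ≠ ⊥ := fun h => h2 (LinearMap.range_eq_bot.1 h)
  have h6 : 0 < Module.finrank K (LinearMap.range φ) :=
    Module.finrank_pos_iff.2 (Submodule.nontrivial_iff_ne_bot.2 h5)
  omega

theorem tCa : S_Ca := by
  intro K M _ _ _ _ _ k T hk hM hT
  have hq : 2 ≤ Fintype.card K := Fintype.one_lt_card
  have hMc : Fintype.card M = Fintype.card K ^ k := by
    rw [← hM]
    exact Module.card_eq_pow_finrank
  have hHk : ∀ H ∈ T, Module.finrank K H = k - 1 := fun H hH => by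
    have := hT H hH
    omega
  refine ⟨?_, ?_, ?_, ?_⟩
  · simp only [Ca_t1]
    rw [Finset.sum_comm, Finset.sum_const_nat (m := Fintype.card K ^ (k - 1) - 1)]
    intro H hH
    rw [← Finset.card_filter, Finset.filter_filter]
    have h1 : (univ.filter fun x : M => x ≠ 0 ∧ x ∈ H) =
        (univ.filter fun x : M => x ∈ H).erase 0 := by
      ext x
      simp
    rw [h1, Finset.card_erase_of_mem (Finset.mem_filter.2 ⟨Finset.mem_univ _, H.zero_mem⟩),
      Ca_card, hHk H hH]
  · intro x x' _
    simp only [Ca_t1, Ca_t2]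
    rw [Finset.sum_comm, ← Finset.sum_add_distrib, Finset.sum_congr rfl fun H hH =>
      Ca_one hM H (hT H hH) x x', Finset.sum_add_distrib, Finset.mul_sum]
    simp
  · choose! φ hφ0 hφ using fun H (hH : H ∈ T) => Ca_dual hM H (hT H hH)
    have hfin : Finite (M →ₗ[K] K) := Module.finite_of_finite K
    have : Fintype (M →ₗ[K] K) := Fintype.ofFinite _
    have hdc : Fintype.card (M →ₗ[K] K) = Fintype.card K ^ k := by
      have h1 : Module.finrank K (M →ₗ[K] K) = k := by
        rw [← hM]
        exact Subspace.dual_finrank_eq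
      rw [← h1]
      exact Module.card_eq_pow_finrank
    have h1 : ((T ×ˢ (univ.filter fun c : K => c ≠ 0)).card) ≤
        (univ.filter fun ψ : M →ₗ[K] K => ψ ≠ 0).card := by
      refine Finset.card_le_card_of_injOn (fun p => p.2 • φ p.1) ?_ ?_
      · rintro ⟨H, c⟩ hp
        obtain ⟨hH, hc⟩ := Finset.mem_product.1 hp
        have hc' : c ≠ 0 := (Finset.mem_filter.1 hc).2
        exact Finset.mem_coe.2 (Finset.mem_filter.2 ⟨Finset.mem_univ _,
          smul_ne_zero hc' (hφ0 H hH)⟩)
      · rintro ⟨H, c⟩ hp ⟨H', c'⟩ hp' h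
        obtain ⟨hH, hc⟩ := Finset.mem_product.1 hp
        obtain ⟨hH', hc'⟩ := Finset.mem_product.1 hp'
        have hc1 : c ≠ 0 := (Finset.mem_filter.1 hc).2
        have hc2 : c' ≠ 0 := (Finset.mem_filter.1 hc').2
        change c • φ H = c' • φ H' at h
        have h2 : LinearMap.ker (c • φ H) = LinearMap.ker (c' • φ H') := by rw [h]
        rw [LinearMap.ker_smul _ _ hc1, LinearMap.ker_smul _ _ hc2, hφ H hH, hφ H' hH'] at h2
        change H = H' at h2
        subst h2
        obtain ⟨v, hv⟩ : ∃ v, φ H v ≠ 0 := by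
          by_contra hcon
          push Not at hcon
          exact hφ0 H hH (LinearMap.ext hcon)
        have h3 : c * φ H v = c' * φ H v := LinearMap.congr_fun h v
        rw [mul_right_cancel₀ hv h3]
    rw [Finset.card_product, Finset.filter_ne', Finset.card_erase_of_mem (Finset.mem_univ _),
      Finset.card_univ, Finset.filter_ne', Finset.card_erase_of_mem (Finset.mem_univ _),
      Finset.card_univ, hdc, mul_comm] at h1
    have h2 : 0 < Fintype.card K ^ k := Nat.pow_pos (by omega)
    change (Fintype.card K - 1) * T.card ≤ _ at h1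
    omega
  · intro x hx
    have hsp : Module.finrank K (Submodule.span K {x}) = 1 := finrank_span_singleton hx
    have hcnt : ∀ W : Submodule K M, x ∈ W →
        (univ.filter fun x' : M => In2 K x x' ∧ x' ∈ W).card =
          Fintype.card K ^ Module.finrank K W - Fintype.card K := by
      intro W hW
      have h1 : (univ.filter fun x' : M => In2 K x x' ∧ x' ∈ W) =
          (univ.filter fun x' : M => x' ∈ W) \
            (univ.filter fun x' : M => x' ∈ Submodule.span K {x}) := by
        ext x'
        simp only [Finset.mem_filter, Finset.mem_univ, true_and, Finset.mem_sdiff, Ca_in hx]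
        tauto
      rw [h1, Finset.card_sdiff_of_subset, Ca_card, Ca_card, hsp, pow_one]
      intro x' hx'
      refine Finset.mem_filter.2 ⟨Finset.mem_univ _, ?_⟩
      obtain ⟨c, rfl⟩ := Submodule.mem_span_singleton.1 (Finset.mem_filter.1 hx').2
      exact W.smul_mem c hW
    constructor
    · simp only [Ca_t2]
      rw [Finset.sum_comm]
      have h1 : ∀ H ∈ T, (∑ x' ∈ univ.filter (fun x' : M => In2 K x x'),
          if x ∈ H ∧ x' ∈ H then 1 else 0) =
          (if x ∈ H then 1 else 0) * (Fintype.card K ^ (k - 1) - Fintype.card K) := by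
        intro H hH
        by_cases hxH : x ∈ H
        · rw [if_pos hxH, one_mul, ← hHk H hH, ← hcnt H hxH, ← Finset.filter_filter,
            Finset.card_filter (fun x' => x' ∈ H)]
          exact Finset.sum_congr rfl fun x' _ => by simp [hxH]
        · simp [hxH]
      rw [Finset.sum_congr rfl h1, ← Finset.sum_mul, Ca_t1]
    · have h1 := hcnt ⊤ Submodule.mem_top
      rw [finrank_top, hM] at h1
      rw [← h1]
      refine congrArg Finset.card (Finset.ext fun x' => ?_)
      simp

end Pool.Agent.MP8bH
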