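import Pool.Agent.Lib.MP_8b575b_co.Hom.Spec

/-!
# MP_8b575b_co, Hom/Co: the combinatorial conclusion
-/

set_option autoImplicit false

namespace Pool.Agent.MP8bH

open Finset Polynomial Pool.Agent.MP8bT

open scoped Classical

private theorem Co_ar1 (q R a s : ℕ) (hq : 1 ≤ q) (hR : 1 ≤ R)
    (h : s + q * (a * (R - 1)) = (q * R - 1) * a) : s = (q - 1) * a := by
  obtain ⟨q', rfl⟩ := Nat.exists_eq_add_of_le hq
  obtain ⟨R', rfl⟩ := Nat.exists_eq_add_of_le hR
  have h1 : (1 + q') * (1 + R') - 1 = q' + R' + q' * R' := by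
    have : (1 + q') * (1 + R') = q' + R' + q' * R' + 1 := by ring
    omega
  rw [h1, Nat.add_sub_cancel_left] at h
  rw [Nat.add_sub_cancel_left]
  nlinarith

private theorem Co_ar2 (q R t : ℕ) (hq : 1 ≤ q) (h : (q - 1) * (q * t + 1) + 1 = q * R) :
    (q - 1) * t + 1 = R := by
  obtain ⟨q', rfl⟩ := Nat.exists_eq_add_of_le hq
  rw [Nat.add_sub_cancel_left] at h ⊢
  have h1 : (1 + q') * (q' * t + 1) = (1 + q') * R := by
    rw [← h]
    ring
  exact Nat.eq_of_mul_eq_mul_left (by omega) h1

section lin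

variable {K M : Type} [Field K] [AddCommGroup M] [Module K M]

private theorem Co_l1 {x x' : M} (h : In2 K x x') : x ≠ 0 := by
  rintro rfl
  have := (h 1 0 (by simp)).1
  exact one_ne_zero this

private theorem Co_l3 {x x' : M} (h : In2 K x x') : x' ≠ 0 := by
  rintro rfl
  have := (h 0 1 (by simp)).2
  exact one_ne_zero this

private theorem Co_l2 {x x' : M} (h : In2 K x x') (c : K) : In2 K x (x' - c • x) := by
  intro a b hab
  have h1 : (a - b * c) • x + b • x' = 0 := by
    rw [← hab, smul_sub, sub_smul, mul_smul]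
    abel
  obtain ⟨h2, h3⟩ := h _ _ h1
  refine ⟨?_, h3⟩
  rw [h3, zero_mul, sub_zero] at h2
  exact h2

private theorem Co_l2' {x x' : M} (c : K) : In2 K x x' ↔ In2 K x (x' - c • x) := by
  refine ⟨fun h => Co_l2 h c, fun h => ?_⟩
  have h1 := Co_l2 h (-c)
  rwa [neg_smul, sub_neg_eq_add, sub_add_cancel] at h1

variable [Fintype K] [Fintype M]

omit [Fintype K] in
private theorem Co_sh (g : M → ℕ) (x : M) (c : K) :
    ∑ x' ∈ univ.filter (fun x' : M => In2 K x x'), g (x' - c • x) =
      ∑ x' ∈ univ.filter (fun x' : M => In2 K x x'), g x' := by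
  refine Finset.sum_equiv (Equiv.subRight (c • x)) (fun x' => ?_) (fun x' _ => rfl)
  simp only [mem_filter, mem_univ, true_and, Equiv.subRight_apply]
  exact Co_l2' c

private theorem Co_cnt (g : M → ℕ) (x : M)
    (h : ∀ x', In2 K x x' → 1 ≤ ∑ c : K, g (x' - c • x)) :
    (univ.filter (fun x' : M => In2 K x x')).card ≤
      Fintype.card K * ∑ x' ∈ univ.filter (fun x' : M => In2 K x x'), g x' := by
  calc (univ.filter (fun x' : M => In2 K x x')).card
      = ∑ x' ∈ univ.filter (fun x' : M => In2 K x x'), 1 := by rw [card_eq_sum_ones]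
    _ ≤ ∑ x' ∈ univ.filter (fun x' : M => In2 K x x'), ∑ c : K, g (x' - c • x) :=
        sum_le_sum fun x' hx' => h x' (mem_filter.mp hx').2
    _ = ∑ c : K, ∑ x' ∈ univ.filter (fun x' : M => In2 K x x'), g (x' - c • x) := sum_comm
    _ = ∑ _c : K, ∑ x' ∈ univ.filter (fun x' : M => In2 K x x'), g x' :=
        sum_congr rfl fun c _ => Co_sh g x c
    _ = Fintype.card K * ∑ x' ∈ univ.filter (fun x' : M => In2 K x x'), g x' := by
        rw [sum_const, card_univ, smul_eq_mul]

omit [Fintype K] in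
private theorem Co_sub (x : M) : (univ.filter (fun x' : M => In2 K x x')) ⊆
    univ.filter (fun x' : M => x' ≠ 0) := by
  intro x' hx'
  rw [mem_filter] at hx' ⊢
  exact ⟨mem_univ _, Co_l3 hx'.2⟩

end lin

theorem tCo : S_Ca → S_Co := by
  intro hCa K M _ _ _ _ _ k μ κ T hk hfin hT hκ hP hL hM
  obtain ⟨h1, h2, h3, h4⟩ := hCa K M k T (by omega) hfin hT
  have hcM : Fintype.card M = Fintype.card K ^ k := by
    rw [← hfin]
    exact Module.card_eq_pow_finrank
  set q : ℕ := Fintype.card K with hqdef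
  have hq2 : 2 ≤ q := Fintype.one_lt_card
  obtain ⟨R, hRd⟩ : ∃ R, R = q ^ (k - 1) := ⟨_, rfl⟩
  have hQ : q ^ k = q * R := by
    rw [hRd, ← pow_succ']
    congr 1
    omega
  have hR8 : 8 ≤ R := by
    rw [hRd]
    calc 8 = 2 ^ 3 := by norm_num
      _ ≤ q ^ 3 := Nat.pow_le_pow_left hq2 3
      _ ≤ q ^ (k - 1) := Nat.pow_le_pow_right (by omega) (by omega)
  have hQ16 : 16 ≤ q ^ k := by
    rw [hQ]
    nlinarith
  rw [← hRd] at h1
  have hnz : (univ.filter (fun x : M => x ≠ 0)).card = q ^ k - 1 := by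
    rw [Finset.filter_ne', card_erase_of_mem (mem_univ _), card_univ, hcM]
  set a : ℕ := T.card with hadef
  have hPM : ∀ x, x ≠ 0 → q * t1 T x + 1 ≤ a + κ x := by
    intro x hx
    have := hP x hx
    omega
  obtain ⟨ψ, hψ⟩ : ∃ ψ : M → ℕ, ∀ x, ψ x = a - q * t1 T x := ⟨_, fun _ => rfl⟩
  have hψ' : ∀ x, x ≠ 0 → ψ x + q * t1 T x = a := by
    intro x hx
    have e1 := hPM x hx
    have e2 := hκ x
    rw [hψ]
    omega
  have hsum : ∑ x ∈ univ.filter (fun x : M => x ≠ 0), ψ x = (q - 1) * a := by
    have e1 : ∑ x ∈ univ.filter (fun x : M => x ≠ 0), (ψ x + q * t1 T x) =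
        ∑ x ∈ univ.filter (fun x : M => x ≠ 0), a :=
      sum_congr rfl fun x hx => hψ' x (mem_filter.mp hx).2
    rw [sum_add_distrib, ← mul_sum, h1, sum_const, hnz, smul_eq_mul, hQ] at e1
    exact Co_ar1 q R a _ (by omega) (by omega) e1
  -- the claim that there are elements independent of a given one
  have hind : ∀ x : M, x ≠ 0 → ∃ x' : M, In2 K x x' := by
    intro x hx
    have e1 := (h4 x hx).2
    have e2 : 0 < (univ.filter (fun x' : M => In2 K x x')).card := by
      rw [e1, hQ]
      have : q < q * R := by nlinarith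
      omega
    obtain ⟨x', hx'⟩ := card_pos.mp e2
    exact ⟨x', (mem_filter.mp hx').2⟩
  by_cases hA : ∀ x, x ≠ 0 → 1 ≤ ψ x
  · -- case A
    have e1 : q ^ k - 1 ≤ (q - 1) * a := by
      rw [← hsum, ← hnz, card_eq_sum_ones]
      exact sum_le_sum fun x hx => hA x (mem_filter.mp hx).2
    have ha : (q - 1) * a + 1 = q ^ k := by omega
    have hψ1 : ∀ x, x ≠ 0 → ψ x = 1 := by
      intro x hx
      by_contra hne
      have e2 : 1 < ψ x := by
        have := hA x hx
        omega
      have e3 : ∑ _x ∈ univ.filter (fun x : M => x ≠ 0), 1 <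
          ∑ x ∈ univ.filter (fun x : M => x ≠ 0), ψ x :=
        sum_lt_sum (fun y hy => hA y (mem_filter.mp hy).2)
          ⟨x, mem_filter.mpr ⟨mem_univ _, hx⟩, e2⟩
      rw [← card_eq_sum_ones, hnz, hsum] at e3
      omega
    have ht : ∀ x, x ≠ 0 → q * t1 T x + 1 = a := by
      intro x hx
      have e2 := hψ' x hx
      rw [hψ1 x hx] at e2
      omega
    have ht2 : ∀ x, x ≠ 0 → (q - 1) * t1 T x + 1 = R := by
      intro x hx
      apply Co_ar2 q R _ (by omega)
      rw [ht x hx, ha, hQ]
    have hst : ∀ x x' : M, In2 K x x' → 1 ≤ κ x + ∑ c : K, κ (x' - c • x) := by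
      intro x x' hi
      have e2 : ∑ c : K, (q * t1 T (x' - c • x) + 1) = ∑ _c : K, a :=
        sum_congr rfl fun c _ => ht _ (Co_l3 (Co_l2 hi c))
      rw [sum_add_distrib, ← mul_sum, sum_const, sum_const, card_univ, smul_eq_mul, smul_eq_mul,
        mul_one, ← hqdef] at e2
      have e3 := ht x (Co_l1 hi)
      have e4 : q * (t1 T x + ∑ c : K, t1 T (x' - c • x)) = q * (a + q * t2 T x x') := by
        rw [h2 x x' hi]
      have e5 := hL x x' hi
      have e6 : q ^ 2 * t2 T x x' + q + 1 = a := by nlinarith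
      omega
    refine ⟨fun hq => ?_, fun hq => ?_⟩
    · -- q = 2
      have : Nontrivial M := Fintype.one_lt_card_iff_nontrivial.mp (by rw [hcM]; omega)
      obtain ⟨y, hy⟩ := exists_ne (0 : M)
      have hμ : μ ≤ 4 := by
        have e2 := hP y hy
        have e3 := ht y hy
        have e4 := hκ y
        rw [hq] at ha
        rw [hq] at e2 e3
        omega
      by_cases hall : ∀ x, x ≠ 0 → κ x = 1
      · have e2 : ∑ x ∈ univ.filter (fun x : M => x ≠ 0), κ x = q ^ k - 1 := by
          rw [← hnz, card_eq_sum_ones]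
          exact sum_congr rfl fun x hx => hall x (mem_filter.mp hx).2
        omega
      · push Not at hall
        obtain ⟨x, hx, hκx⟩ := hall
        have hκ0 : κ x = 0 := by
          have := hκ x
          omega
        have e2 := Co_cnt κ x (fun x' hi => by
          have := hst x x' hi
          rw [hκ0, zero_add] at this
          exact this)
        rw [(h4 x hx).2, ← hqdef] at e2
        have e3 : ∑ x' ∈ univ.filter (fun x' : M => In2 K x x'), κ x' ≤
            ∑ x' ∈ univ.filter (fun x' : M => x' ≠ 0), κ x' :=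
          sum_le_sum_of_subset (Co_sub x)
        rw [hq] at e2 hQ16
        omega
    · -- q ≥ 3
      have : Nontrivial M := Fintype.one_lt_card_iff_nontrivial.mp (by rw [hcM]; omega)
      obtain ⟨y, hy⟩ := exists_ne (0 : M)
      obtain ⟨y', hy'⟩ := hind y hy
      have hz : ∃ z : M, z ≠ 0 ∧ κ z = 1 := by
        have e2 := hst y y' hy'
        by_contra hno
        push Not at hno
        have e3 : ∀ z : M, z ≠ 0 → κ z = 0 := by
          intro z hz
          have e4 := hno z hz
          have e5 := hκ z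
          omega
        have e4 : ∑ c : K, κ (y' - c • y) = 0 :=
          sum_eq_zero fun c _ => e3 _ (Co_l3 (Co_l2 hy' c))
        rw [e3 y hy, e4] at e2
        omega
      obtain ⟨z, hz0, hz1⟩ := hz
      obtain ⟨w, hw⟩ := hind z hz0
      have hi : In2 K w (z - w) := by
        intro a b hab
        have e2 : b • z + (a - b) • w = 0 := by
          rw [← hab, smul_sub, sub_smul]
          abel
        obtain ⟨e3, e4⟩ := hw _ _ e2
        rw [e3, sub_zero] at e4
        exact ⟨e4, e3⟩
      refine ⟨w, z - w, hi, ?_, ?_⟩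
      · rw [add_sub_cancel]
        exact hz1
      · have key : ∀ x, x ≠ 0 → (q - 1) * t1 T x + 1 = q ^ (k - 1) ∧
            q ^ k + 1 ≤ μ + q * t1 T x := by
          intro x hx
          refine ⟨by rw [← hRd]; exact ht2 x hx, ?_⟩
          have := ht x hx
          omega
        rintro x (rfl | rfl | rfl)
        · exact key _ (Co_l1 hi)
        · exact key _ (Co_l3 hi)
        · refine key _ ?_
          rw [add_sub_cancel]
          exact hz0
  · -- case B
    push Not at hA
    obtain ⟨x₀, hx₀, hψ0⟩ := hA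
    have hψ00 : ψ x₀ = 0 := by omega
    have hqt : ∀ x, x ≠ 0 → ψ x = 0 → q * t1 T x = a := by
      intro x hx h0
      have := hψ' x hx
      omega
    have hκ1 : ∀ x, x ≠ 0 → ψ x = 0 → κ x = 1 := by
      intro x hx h0
      have e1 := hPM x hx
      have e2 := hqt x hx h0
      have e3 := hκ x
      omega
    obtain ⟨S, hS⟩ : ∃ S : Finset M, ∀ x, x ∈ S ↔ x ≠ 0 ∧ ψ x ≠ 0 :=
      ⟨univ.filter fun x => x ≠ 0 ∧ ψ x ≠ 0, fun x => by simp⟩
    have hnS : ∀ x, x ≠ 0 → x ∉ S → ψ x = 0 := by
      intro x hx hxS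
      by_contra h0
      exact hxS ((hS x).mpr ⟨hx, h0⟩)
    have hSsub : S ⊆ univ.filter (fun x : M => x ≠ 0) := fun x hx =>
      mem_filter.mpr ⟨mem_univ _, ((hS x).mp hx).1⟩
    have ht0 := hqt x₀ hx₀ hψ00
    have hSq : ∀ x ∈ S, q ≤ ψ x := by
      intro x hx
      have e1 := ((hS x).mp hx).2
      have e2 : ψ x = q * (t1 T x₀ - t1 T x) := by
        rw [hψ, Nat.mul_sub, ht0]
      rw [e2] at e1 ⊢
      have e3 : t1 T x₀ - t1 T x ≠ 0 := fun h0 => e1 (by rw [h0, mul_zero])
      exact Nat.le_mul_of_pos_right q (by omega)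
    have hclaim : ∀ x x' : M, In2 K x x' → x ∉ S → ∃ c : K, x' - c • x ∈ S := by
      intro x x' hi hxS
      by_contra hno
      push Not at hno
      have e0 : ∀ c : K, ψ (x' - c • x) = 0 := fun c => hnS _ (Co_l3 (Co_l2 hi c)) (hno c)
      have e1 : ∑ c : K, (q * t1 T (x' - c • x)) = ∑ _c : K, a :=
        sum_congr rfl fun c _ => hqt _ (Co_l3 (Co_l2 hi c)) (e0 c)
      rw [← mul_sum, sum_const, card_univ, smul_eq_mul, ← hqdef] at e1
      have e2 := hqt x (Co_l1 hi) (hnS x (Co_l1 hi) hxS)
      have e3 : q * (t1 T x + ∑ c : K, t1 T (x' - c • x)) = q * (a + q * t2 T x x') := by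
        rw [h2 x x' hi]
      have e4 : q ^ 2 * t2 T x x' = a := by nlinarith
      have e5 := hL x x' hi
      have e6 : ∑ c : K, κ (x' - c • x) = q := by
        rw [sum_congr rfl fun c _ => hκ1 _ (Co_l3 (Co_l2 hi c)) (e0 c), sum_const, card_univ,
          smul_eq_mul, mul_one]
      have e7 := hκ1 x (Co_l1 hi) (hnS x (Co_l1 hi) hxS)
      omega
    have hx₀S : x₀ ∉ S := fun h0 => ((hS x₀).mp h0).2 hψ00
    have hcount : q ^ k - q ≤ q * S.card := by
      have e1 := Co_cnt (fun x => if x ∈ S then 1 else 0) x₀ (fun x' hi => by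
        obtain ⟨c, hc⟩ := hclaim x₀ x' hi hx₀S
        calc 1 = (if x' - c • x₀ ∈ S then 1 else 0) := by rw [if_pos hc]
          _ ≤ ∑ c : K, (if x' - c • x₀ ∈ S then 1 else 0) :=
            single_le_sum (f := fun c : K => if x' - c • x₀ ∈ S then 1 else 0)
              (fun _ _ => Nat.zero_le _) (mem_univ c))
      rw [(h4 x₀ hx₀).2, ← hqdef] at e1
      refine e1.trans (Nat.mul_le_mul_left _ ?_)
      rw [← card_filter]
      exact card_le_card fun x hx => (mem_filter.mp hx).2
    have hqS : q * S.card ≤ (q - 1) * a := by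
      rw [← hsum]
      calc q * S.card = ∑ _x ∈ S, q := by rw [sum_const, smul_eq_mul, mul_comm]
        _ ≤ ∑ x ∈ S, ψ x := sum_le_sum hSq
        _ ≤ ∑ x ∈ univ.filter (fun x : M => x ≠ 0), ψ x := sum_le_sum_of_subset hSsub
    have hw : (q - 1) * t1 T x₀ + 1 = R := by
      have e1 : (q - 1) * a = q * ((q - 1) * t1 T x₀) := by
        rw [← ht0]
        ring
      rw [e1] at h3 hqS
      rw [hQ] at h3 hcount
      have e2 : q * ((q - 1) * t1 T x₀) < q * R := by omega
      have e3 := Nat.lt_of_mul_lt_mul_left e2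
      have e4 : q * R ≤ q * ((q - 1) * t1 T x₀ + 1) := by
        rw [mul_add, mul_one]
        omega
      have e5 := Nat.le_of_mul_le_mul_left e4 (by omega)
      omega
    have ha : (q - 1) * a + q = q ^ k := by
      rw [hQ, ← hw, ← ht0]
      ring
    have hScard : q * S.card + q = q ^ k := by
      have : q ≤ q ^ k := by
        rw [hQ]
        nlinarith
      omega
    refine ⟨fun hq => ?_, fun hq => ?_⟩
    · -- q = 2
      have hμ : μ ≤ 4 := by
        have e2 := hP x₀ hx₀
        have e4 := hκ x₀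
        rw [hq] at ha
        rw [ht0] at e2
        rw [hq] at e2
        omega
      have e1 : (univ.filter (fun x : M => x ≠ 0) \ S).card ≤
          ∑ x ∈ univ.filter (fun x : M => x ≠ 0), κ x := by
        calc (univ.filter (fun x : M => x ≠ 0) \ S).card
            = ∑ _x ∈ univ.filter (fun x : M => x ≠ 0) \ S, 1 := by rw [card_eq_sum_ones]
          _ = ∑ x ∈ univ.filter (fun x : M => x ≠ 0) \ S, κ x := by
              refine sum_congr rfl fun x hx => ?_
              obtain ⟨hx1, hx2⟩ := mem_sdiff.mp hx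
              have hx3 := (mem_filter.mp hx1).2
              exact (hκ1 x hx3 (hnS x hx3 hx2)).symm
          _ ≤ ∑ x ∈ univ.filter (fun x : M => x ≠ 0), κ x :=
              sum_le_sum_of_subset sdiff_subset
      rw [card_sdiff_of_subset hSsub, hnz] at e1
      rw [hq] at hScard hQ16 e1
      omega
    · -- q ≥ 3
      have hx2 : ∃ x₂ : M, In2 K x₀ x₂ ∧ x₂ ∉ S ∧ x₀ + x₂ ∉ S := by
        by_contra hno
        push Not at hno
        have e1 : univ.filter (fun x' : M => In2 K x₀ x') ⊆ S ∪ S.image (fun y => y - x₀) := by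
          intro x' hx'
          have hi := (mem_filter.mp hx').2
          rw [mem_union]
          by_cases hS1 : x' ∈ S
          · exact Or.inl hS1
          · refine Or.inr (mem_image.mpr ⟨x₀ + x', hno x' hi hS1, ?_⟩)
            abel
        have e2 := card_le_card e1
        have e3 := card_union_le S (S.image (fun y => y - x₀))
        have e4 : (S.image (fun y => y - x₀)).card ≤ S.card := card_image_le
        rw [(h4 x₀ hx₀).2] at e2
        have e5 : 3 * S.card ≤ q * S.card := Nat.mul_le_mul_right _ hq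
        have e6 : S.card = 0 := by omega
        rw [e6, mul_zero, zero_add, hQ] at hScard
        nlinarith
      obtain ⟨x₂, hi, hn1, hn2⟩ := hx2
      have hne : x₀ + x₂ ≠ 0 := by
        intro h0
        have := (hi 1 1 (by rw [one_smul, one_smul]; exact h0)).1
        exact one_ne_zero this
      have key : ∀ x, x ≠ 0 → x ∉ S → (q - 1) * t1 T x + 1 = q ^ (k - 1) ∧
          q ^ k + 1 ≤ μ + q * t1 T x := by
        intro x hx hxS
        have e1 := hqt x hx (hnS x hx hxS)
        have e2 : t1 T x = t1 T x₀ :=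
          Nat.eq_of_mul_eq_mul_left (by omega) (e1.trans ht0.symm)
        refine ⟨by rw [e2, ← hRd]; exact hw, ?_⟩
        omega
      refine ⟨x₀, x₂, hi, hκ1 _ hne (hnS _ hne hn2), ?_⟩
      rintro x (rfl | rfl | rfl)
      · exact key _ hx₀ hx₀S
      · exact key _ (Co_l3 hi) hn1
      · exact key _ hne hn2

end Pool.Agent.MP8bH
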