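import Pool.Agent.Lib.MP_8b575b_co.Hom.SpecB

/-!
# MP_8b575b_co: differences
-/

set_option autoImplicit false

namespace Pool.Agent.MP8bH

open Finset Polynomial Pool.Agent.MP8bT

open scoped Classical

private theorem d3_zero {K L : Type} [Field K] [Field L] [Algebra K L] (f : L → L)
    (hf : f ∈ Pd K L 0) (u v : L) : f u = f v := by
  refine Submodule.span_induction (p := fun f _ => f u = f v) ?_ rfl ?_ ?_ hf
  · rintro g ⟨l, hl, rfl⟩
    have h0 : l = [] := List.length_eq_zero_iff.1 (Nat.le_zero.1 hl)
    subst h0
    rfl
  · intro g h _ _ hg hh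
    rw [Pi.add_apply, Pi.add_apply, hg, hh]
  · intro a g _ hg
    rw [Pi.smul_apply, Pi.smul_apply, hg]

private theorem d3_one {K L : Type} [Field K] [Field L] [Algebra K L] (f : L → L)
    (hf : f ∈ Pd K L 1) (a b u : L) : f (a + u) - f a = f (b + u) - f b := by
  refine Submodule.span_induction (p := fun f _ => f (a + u) - f a = f (b + u) - f b)
    ?_ ?_ ?_ ?_ hf
  · rintro g ⟨l, hl, rfl⟩
    match l, hl with
    | [], _ => rfl
    | [φ], _ =>
      simp only [List.map_cons, List.map_nil, List.prod_cons, List.prod_nil, mul_one, map_add]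
      ring
    | _ :: _ :: _, hl =>
      simp only [List.length_cons] at hl
      omega
  · simp only [Pi.zero_apply]
  · intro g h _ _ hg hh
    simp only [Pi.add_apply]
    linear_combination hg + hh
  · intro c g _ hg
    simp only [Pi.smul_apply, smul_eq_mul]
    linear_combination c * hg

private theorem d3_two {K L : Type} [Field K] [Field L] [Algebra K L] (f : L → L)
    (hf : f ∈ Pd K L 2) (a u v w : L) :
    f (a + u + v + w) - f (a + u + v) - f (a + u + w) - f (a + v + w) +
      f (a + u) + f (a + v) + f (a + w) - f a = 0 := by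
  refine Submodule.span_induction (p := fun f _ =>
    f (a + u + v + w) - f (a + u + v) - f (a + u + w) - f (a + v + w) +
      f (a + u) + f (a + v) + f (a + w) - f a = 0) ?_ ?_ ?_ ?_ hf
  · rintro g ⟨l, hl, rfl⟩
    match l, hl with
    | [], _ =>
      simp only [List.map_nil, List.prod_nil, map_one]
      ring
    | [φ], _ =>
      simp only [List.map_cons, List.map_nil, List.prod_cons, List.prod_nil, mul_one, map_add]
      ring
    | [φ, ψ], _ =>
      simp only [List.map_cons, List.map_nil, List.prod_cons, List.prod_nil, mul_one, map_add,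
        map_mul]
      ring
    | _ :: _ :: _ :: _, hl =>
      simp only [List.length_cons] at hl
      omega
  · simp only [Pi.zero_apply]
    ring
  · intro g h _ _ hg hh
    simp only [Pi.add_apply]
    linear_combination hg + hh
  · intro c g _ hg
    simp only [Pi.smul_apply, smul_eq_mul]
    linear_combination c * hg

theorem tD3 : S_D3 := by
  intro K L _ _ _ _ _ f
  exact ⟨fun hf u v => d3_zero f hf u v, fun hf a b u => d3_one f hf a b u,
    fun hf a u v w => d3_two f hf a u v w⟩

end Pool.Agent.MP8bH
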