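import Pool.Agent.Lib.MP_8b575b_co.Hom.Spec

/-! MP_8b575b_co, module `Hom/Dh`: the codewords above a hyperplane. -/

set_option autoImplicit false

namespace Pool.Agent.MP8bH

open Finset Polynomial Pool.Agent.MP8bT

open scoped Classical

private theorem dh_sc {K L : Type} [Field K] [Field L] [Algebra K L] (a b : L) (v : L × L) :
    sc K a b v = (a * v.1, b * v.2) := rfl

private theorem dh_ax1 {K L : Type} [Field K] [Field L] [Algebra K L] (v : L × L) :
    v ∈ ax1 K L ↔ v.2 = 0 := by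
  unfold ax1
  rw [LinearMap.mem_range]
  constructor
  · rintro ⟨x, rfl⟩
    rfl
  · intro h
    exact ⟨v.1, Prod.ext rfl h.symm⟩

private theorem dh_ax2 {K L : Type} [Field K] [Field L] [Algebra K L] (v : L × L) :
    v ∈ ax2 K L ↔ v.1 = 0 := by
  unfold ax2
  rw [LinearMap.mem_range]
  constructor
  · rintro ⟨x, rfl⟩
    rfl
  · intro h
    exact ⟨v.2, Prod.ext h.symm rfl⟩

private theorem dh_inj {K L : Type} [Field K] [Field L] [Algebra K L] {a b : L} (ha : a ≠ 0)
    (hb : b ≠ 0) : Function.Injective (sc K a b) := by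
  intro v w h
  rw [dh_sc, dh_sc] at h
  have h1 := congrArg Prod.fst h
  have h2 := congrArg Prod.snd h
  exact Prod.ext (mul_left_cancel₀ ha h1) (mul_left_cancel₀ hb h2)

private theorem dh_map1 {K L : Type} [Field K] [Field L] [Algebra K L] {a b : L} (ha : a ≠ 0) :
    (ax1 K L).map (sc K a b) = ax1 K L := by
  ext v
  rw [Submodule.mem_map, dh_ax1]
  constructor
  · rintro ⟨w, hw, rfl⟩
    rw [dh_ax1] at hw
    rw [dh_sc, hw, mul_zero]
  · intro h
    refine ⟨(a⁻¹ * v.1, 0), ?_, ?_⟩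
    · rw [dh_ax1]
    · rw [dh_sc]
      refine Prod.ext ?_ ?_
      · exact mul_inv_cancel_left₀ ha v.1
      · change b * 0 = v.2
        rw [mul_zero, h]

private theorem dh_map2 {K L : Type} [Field K] [Field L] [Algebra K L] {a b : L} (hb : b ≠ 0) :
    (ax2 K L).map (sc K a b) = ax2 K L := by
  ext v
  rw [Submodule.mem_map, dh_ax2]
  constructor
  · rintro ⟨w, hw, rfl⟩
    rw [dh_ax2] at hw
    rw [dh_sc, hw, mul_zero]
  · intro h
    refine ⟨(0, b⁻¹ * v.2), ?_, ?_⟩
    · rw [dh_ax2]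
    · rw [dh_sc]
      refine Prod.ext ?_ ?_
      · change a * 0 = v.1
        rw [mul_zero, h]
      · exact mul_inv_cancel_left₀ hb v.2

/-- The codewords above `H`. -/
private noncomputable def dh_E {K L : Type} [Field K] [Field L] [Algebra K L]
    (D : Finset (Submodule K (L × L))) (H : Submodule K L) : Finset (Submodule K (L × L)) :=
  (D1 D).filter fun U => U.map (LinearMap.fst K L L) = H

private theorem dh_mem {K L : Type} [Field K] [Field L] [Algebra K L]
    {D : Finset (Submodule K (L × L))} {H : Submodule K L} {U : Submodule K (L × L)} :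
    U ∈ dh_E D H ↔ (U ∈ D ∧ U ≠ ax1 K L ∧ U ≠ ax2 K L) ∧ U ⊓ ax2 K L ≠ ⊥ ∧
      U.map (LinearMap.fst K L L) = H := by
  unfold dh_E D1 Do
  rw [Finset.mem_filter, Finset.mem_filter, Finset.mem_filter, and_assoc]

private theorem dh_inv {K L : Type} [Field K] [Field L] [Algebra K L] {k : ℕ}
    {D : Finset (Submodule K (L × L))} (hD : Hm k D) {H : Submodule K L} {b : L} (hb : b ≠ 0)
    {U : Submodule K (L × L)} (hU : U ∈ dh_E D H) : U.map (sc K 1 b) ∈ dh_E D H := by
  have hinj := Submodule.map_injective_of_injective (dh_inj (K := K) (one_ne_zero (α := L)) hb)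
  rw [dh_mem] at hU ⊢
  obtain ⟨⟨h1, h2, h3⟩, h4, h5⟩ := hU
  refine ⟨⟨hD.2.2.2.2 b hb U h1, ?_, ?_⟩, ?_, ?_⟩
  · intro h
    exact h2 (hinj (h.trans (dh_map1 one_ne_zero).symm))
  · intro h
    exact h3 (hinj (h.trans (dh_map2 hb).symm))
  · obtain ⟨v, hv, hv0⟩ := (Submodule.ne_bot_iff _).1 h4
    rw [Submodule.ne_bot_iff]
    refine ⟨sc K 1 b v, ⟨⟨v, hv.1, rfl⟩, ?_⟩, ?_⟩
    · have h6 := (dh_ax2 v).1 hv.2
      rw [SetLike.mem_coe, dh_ax2, dh_sc, h6, mul_zero]
    · intro h
      apply hv0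
      apply dh_inj (K := K) (one_ne_zero (α := L)) hb
      rw [h, map_zero]
  · rw [← h5, ← Submodule.map_comp]
    congr 1
    apply LinearMap.ext
    intro v
    change 1 * v.1 = v.1
    rw [one_mul]

private theorem dh_bij {K L : Type} [Field K] [Field L] [Algebra K L] {k : ℕ}
    {D : Finset (Submodule K (L × L))} (hD : Hm k D) (H : Submodule K L) {b : L} (hb : b ≠ 0)
    (x y : L) : ((dh_E D H).filter fun U => ((x, y) : L × L) ∈ U).card ≤
      ((dh_E D H).filter fun U => ((x, b * y) : L × L) ∈ U).card := by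
  have hinj := Submodule.map_injective_of_injective (dh_inj (K := K) (one_ne_zero (α := L)) hb)
  apply Finset.card_le_card_of_injOn (fun U => U.map (sc K 1 b))
  · intro U hU
    rw [Finset.mem_coe, Finset.mem_filter] at hU
    rw [Finset.mem_coe, Finset.mem_filter]
    refine ⟨dh_inv hD hb hU.1, ⟨(x, y), hU.2, ?_⟩⟩
    rw [dh_sc, one_mul]
  · intro U _ W _ h
    exact hinj h

private theorem dh_form {K L : Type} [Field K] [Field L] [Algebra K L]
    [FiniteDimensional K L] {k : ℕ} (hL : Module.finrank K L = k) (H : Submodule K L)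
    (η : L →ₗ[K] K) (x0 : L) (hx0 : x0 ∈ H) (hη : η x0 ≠ 0) (U : Submodule K (L × L))
    (hU : Module.finrank K U = k) (hU1 : U ⊓ ax1 K L = ⊥)
    (hUH : U.map (LinearMap.fst K L L) = H) :
    ∃ f : L →ₗ[K] K, f ≠ 0 ∧ ∀ v ∈ U, f v.2 = η v.1 := by
  have hinj : Function.Injective ((LinearMap.snd K L L).comp U.subtype) := by
    rw [← LinearMap.ker_eq_bot, LinearMap.ker_eq_bot']
    rintro ⟨v, hv⟩ h
    have h1 : v.2 = 0 := h
    have h2 : v ∈ U ⊓ ax1 K L := ⟨hv, (dh_ax1 v).2 h1⟩
    rw [hU1, Submodule.mem_bot] at h2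
    exact Subtype.ext h2
  let e : U ≃ₗ[K] L := LinearEquiv.ofInjectiveOfFinrankEq _ hinj (by rw [hU, hL])
  refine ⟨(η.comp ((LinearMap.fst K L L).comp U.subtype)).comp e.symm.toLinearMap, ?_, ?_⟩
  · intro h
    have h1 : x0 ∈ U.map (LinearMap.fst K L L) := by rw [hUH]; exact hx0
    obtain ⟨v, hv, hvx⟩ := h1
    apply hη
    have h2 := congrArg (fun g : L →ₗ[K] K => g (e ⟨v, hv⟩)) h
    have h3 : η v.1 = 0 := by simpa using h2
    rw [← hvx]
    exact h3
  · intro v hv
    have h1 : e ⟨v, hv⟩ = v.2 := rfl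
    rw [← h1]
    simp

private theorem dh_key {K L : Type} [Field K] [Field L] [Algebra K L]
    [FiniteDimensional K L] {k : ℕ} (hL : Module.finrank K L = k) (H : Submodule K L)
    (hH : H ≠ ⊤) (η f : L →ₗ[K] K) (hf : f ≠ 0) (U W : Submodule K (L × L))
    (hU : Module.finrank K U = k) (hW : Module.finrank K W = k)
    (hUH : U.map (LinearMap.fst K L L) = H) (hWH : W.map (LinearMap.fst K L L) = H)
    (hU1 : ∀ v ∈ U, f v.2 = η v.1) (hW1 : ∀ v ∈ W, f v.2 = η v.1) :
    2 ≤ Module.finrank K ↥(U ⊓ W) := by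
  have h1 := Submodule.finrank_sup_add_finrank_inf_eq U W
  have hg : ∀ v, v ∈ LinearMap.ker (f.comp (LinearMap.snd K L L) - η.comp (LinearMap.fst K L L))
      ↔ f v.2 = η v.1 := by
    intro v
    rw [LinearMap.mem_ker, LinearMap.sub_apply, sub_eq_zero]
    rfl
  set G := LinearMap.ker (f.comp (LinearMap.snd K L L) - η.comp (LinearMap.fst K L L)) with hG
  set P := H.comap (LinearMap.fst K L L) with hP
  have h2 : U ⊔ W ≤ P ⊓ G := by
    apply sup_le
    · intro v hv
      refine ⟨?_, (hg v).2 (hU1 v hv)⟩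
      rw [SetLike.mem_coe, hP, Submodule.mem_comap, ← hUH]
      exact ⟨v, hv, rfl⟩
    · intro v hv
      refine ⟨?_, (hg v).2 (hW1 v hv)⟩
      rw [SetLike.mem_coe, hP, Submodule.mem_comap, ← hWH]
      exact ⟨v, hv, rfl⟩
  have h3 : P ⊓ G < P := by
    refine lt_of_le_of_ne inf_le_left ?_
    intro h
    apply hf
    apply LinearMap.ext
    intro y
    have h4 : ((0, y) : L × L) ∈ P := by
      rw [hP, Submodule.mem_comap]
      exact H.zero_mem
    rw [← h] at h4
    have h5 := (hg _).1 h4.2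
    rw [LinearMap.zero_apply, ← map_zero η]
    exact h5
  have h4 : P < ⊤ := by
    rw [lt_top_iff_ne_top]
    intro h
    apply hH
    rw [eq_top_iff]
    intro x _
    have h5 : ((x, 0) : L × L) ∈ P := by rw [h]; exact Submodule.mem_top
    exact h5
  have h5 := Submodule.finrank_lt_finrank_of_lt h3
  have h6 := Submodule.finrank_lt h4.ne
  have h7 := Submodule.finrank_mono h2
  rw [Module.finrank_prod, hL] at h6
  omega

private theorem dh_le {K L : Type} [Field K] [Fintype K] [Field L] [Fintype L] [Algebra K L]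
    {k : ℕ} {D : Finset (Submodule K (L × L))} (hD : Hm k D) (hHx : S_Hx) {H : Submodule K L}
    (hH : Module.finrank K H + 1 = k) : (dh_E D H).card ≤ Fintype.card K ^ k - 1 := by
  obtain ⟨hk, hL, hfr, hint, hinv⟩ := hD
  have hHt : H ≠ ⊤ := by
    rintro rfl
    rw [finrank_top] at hH
    omega
  have hHb : H ≠ ⊥ := by
    rintro rfl
    rw [finrank_bot] at hH
    omega
  obtain ⟨x0, hx0, hx00⟩ := (Submodule.ne_bot_iff _).1 hHb
  obtain ⟨η, hη⟩ : ∃ η : L →ₗ[K] K, η x0 ≠ 0 := by
    by_contra h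
    push Not at h
    exact hx00 ((Module.forall_dual_apply_eq_zero_iff K x0).1 h)
  have hex : ∀ U ∈ dh_E D H, ∃ f : L →ₗ[K] K, f ≠ 0 ∧ ∀ v ∈ U, f v.2 = η v.1 := by
    intro U hU
    rw [dh_mem] at hU
    obtain ⟨hU0, hU2, hUH⟩ := hU
    have hUDo : U ∈ Do D := Finset.mem_filter.2 hU0
    have h1 := (hHx K L k D ⟨hk, hL, hfr, hint, hinv⟩ U hUDo).2.2.1
    rcases h1 with h1 | h1
    · exact dh_form hL H η x0 hx0 hη U (hfr U hU0.1) h1 hUH
    · exact absurd h1 hU2
  choose! F hF0 hF1 using hex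
  have hfi : Finite (Module.Dual K L) := Module.finite_of_finite K
  have hfin : Fintype (Module.Dual K L) := Fintype.ofFinite _
  have hcd : Fintype.card (Module.Dual K L) = Fintype.card K ^ k := by
    rw [Module.card_eq_pow_finrank (K := K) (V := Module.Dual K L), Subspace.dual_finrank_eq, hL]
  have h2 : (dh_E D H).card ≤ ((univ : Finset (Module.Dual K L)).erase 0).card := by
    apply Finset.card_le_card_of_injOn F
    · intro U hU
      rw [Finset.mem_coe, Finset.mem_erase]
      exact ⟨hF0 U hU, Finset.mem_univ _⟩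
    · intro U hU W hW hUW
      rw [Finset.mem_coe] at hU hW
      have hU' := dh_mem.1 hU
      have hW' := dh_mem.1 hW
      by_contra hne
      have h3 := hint U hU'.1.1 W hW'.1.1 hne
      have h4 := dh_key hL H hHt η (F U) (hF0 U hU) U W (hfr U hU'.1.1) (hfr W hW'.1.1)
        hU'.2.2 hW'.2.2 (hF1 U hU) (by rw [hUW]; exact hF1 W hW)
      omega
  rw [Finset.card_erase_of_mem (Finset.mem_univ _), Finset.card_univ, hcd] at h2
  exact h2

theorem tDh : S_Hx → S_Fr → S_Fb → S_Dh := by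
  intro hHx hFr hFb K L _ _ _ _ _ k D hD H hH
  have hD' := hD
  obtain ⟨hk, hL, hfr, hint, hinv⟩ := hD'
  have hcL : Fintype.card L = Fintype.card K ^ k := by
    rw [Module.card_eq_pow_finrank (K := K) (V := L), hL]
  have hq : 1 < Fintype.card K := Fintype.one_lt_card
  have hqk : 1 < Fintype.card K ^ k := Nat.one_lt_pow (by omega) hq
  obtain ⟨hb0, hb1⟩ := hFb K L k D hD
  have hH' : ∃ U ∈ D1 D, U.map (LinearMap.fst K L L) = H := Finset.mem_image.1 hH
  obtain ⟨U0, hU0, hU0H⟩ := hH'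
  have hHk : Module.finrank K H + 1 = k := by
    have h := (hb1 U0 hU0).1
    rwa [hU0H] at h
  have hsub : dh_E D H ⊆ Do D := by
    intro U hU
    exact Finset.mem_filter.2 (dh_mem.1 hU).1
  have hdvd := hFr K L k D hD (dh_E D H) hsub (fun b hb U hU => dh_inv hD hb hU)
  have hpos : 0 < (dh_E D H).card := Finset.card_pos.2 ⟨U0, Finset.mem_filter.2 ⟨hU0, hU0H⟩⟩
  have hcard : (dh_E D H).card = Fintype.card K ^ k - 1 :=
    le_antisymm (dh_le hD hHx hHk) (Nat.le_of_dvd hpos hdvd)
  refine ⟨hcard, ?_⟩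
  intro x hxH hx0
  set N := ((dh_E D H).filter fun U => ((x, 1) : L × L) ∈ U).card with hN
  have hgoal : ((D1 D).filter fun U => U.map (LinearMap.fst K L L) = H ∧
      ((x, 1) : L × L) ∈ U).card = N := by
    rw [hN]
    unfold dh_E
    rw [Finset.filter_filter]
  rw [hgoal]
  have hy : ∀ y : L, y ≠ 0 → ((dh_E D H).filter fun U => ((x, y) : L × L) ∈ U).card = N := by
    intro y hy0
    apply le_antisymm
    · have h := dh_bij hD H (inv_ne_zero hy0) x y
      rwa [inv_mul_cancel₀ hy0] at h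
    · have h := dh_bij hD H hy0 x 1
      rwa [mul_one] at h
  have hy0 : ((dh_E D H).filter fun U => ((x, 0) : L × L) ∈ U).card = 0 := by
    rw [Finset.card_eq_zero, Finset.filter_eq_empty_iff]
    intro U hU hm
    have hU' := dh_mem.1 hU
    have h1 := (hHx K L k D hD U (hsub hU)).2.2.1
    rcases h1 with h1 | h1
    · have h2 : ((x, 0) : L × L) ∈ U ⊓ ax1 K L := ⟨hm, (dh_ax1 _).2 rfl⟩
      rw [h1, Submodule.mem_bot] at h2
      exact hx0 (congrArg Prod.fst h2)
    · exact hU'.2.1 h1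
  have hswap : ∑ y : L, ((dh_E D H).filter fun U => ((x, y) : L × L) ∈ U).card =
      ∑ U ∈ dh_E D H, (univ.filter fun y : L => ((x, y) : L × L) ∈ U).card :=
    Finset.sum_card_bipartiteAbove_eq_sum_card_bipartiteBelow
      (fun (y : L) (U : Submodule K (L × L)) => ((x, y) : L × L) ∈ U)
  have hR : ∑ U ∈ dh_E D H, (univ.filter fun y : L => ((x, y) : L × L) ∈ U).card =
      (Fintype.card K ^ k - 1) * Fintype.card K := by
    rw [Finset.sum_congr rfl (g := fun _ => Fintype.card K), Finset.sum_const, smul_eq_mul, hcard]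
    intro U hU
    have hU' := Finset.mem_filter.1 hU
    apply ((hb1 U hU'.1).2 x).1
    rw [hU'.2]
    exact hxH
  have hLs : ∑ y : L, ((dh_E D H).filter fun U => ((x, y) : L × L) ∈ U).card =
      (Fintype.card K ^ k - 1) * N := by
    rw [← Finset.add_sum_erase _ _ (Finset.mem_univ (0 : L)), hy0, zero_add,
      Finset.sum_congr rfl (g := fun _ => N) (fun y h => hy y (Finset.ne_of_mem_erase h)),
      Finset.sum_const, smul_eq_mul, Finset.card_erase_of_mem (Finset.mem_univ _),
      Finset.card_univ, hcL]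
  have hfin : (Fintype.card K ^ k - 1) * N = (Fintype.card K ^ k - 1) * Fintype.card K := by
    rw [← hLs, hswap, hR]
  exact Nat.eq_of_mul_eq_mul_left (by omega) hfin

end Pool.Agent.MP8bH
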