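import Pool.Agent.Lib.MP_8b575b_co.Hom.Spec

/-!
# MP_8b575b_co: the number of the holes above `x'` (module Ec, helper13)
-/

set_option autoImplicit false

namespace Pool.Agent.MP8bH

open Finset Polynomial Pool.Agent.MP8bT

open scoped Classical

/-- A sum of numbers at most `θ` with the maximal value. -/
private theorem ec_sum {ι : Type} (s : Finset ι) (f : ι → ℕ) (θ : ℕ) (h : ∀ i ∈ s, f i ≤ θ)
    (hs : ∑ i ∈ s, f i = s.card * θ) : ∀ i ∈ s, f i = θ := by
  have h1 : ∑ i ∈ s, f i = ∑ i ∈ s, θ := by rw [hs, sum_const, smul_eq_mul]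
  exact (Finset.sum_eq_sum_iff_of_le h).1 h1

/-- The arithmetic. -/
private theorem ec_theta (q k : ℕ) (hq : 2 ≤ q) (hk : 4 ≤ k) (t : ℕ)
    (ht : (q - 1) * t + 1 = q ^ (k - 1)) :
    ∃ θ : ℕ, t = 1 + q * θ ∧ t * (q ^ (k - 1) - q) = (q ^ k - q) * θ := by
  obtain ⟨n, rfl⟩ : ∃ n, k = n + 2 := ⟨k - 2, by omega⟩
  obtain ⟨p, rfl⟩ : ∃ p, q = p + 1 := ⟨q - 1, by omega⟩
  have hp : 1 ≤ p := by omega
  refine ⟨∑ i ∈ range n, (p + 1) ^ i, ?_⟩
  have hg : p * ∑ i ∈ range n, (p + 1) ^ i + 1 = (p + 1) ^ n := by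
    have h := geom_sum_mul_add p n
    rw [mul_comm]
    exact h
  generalize ∑ i ∈ range n, (p + 1) ^ i = θ at hg ⊢
  have e1 : n + 2 - 1 = n + 1 := by omega
  have e2 : p + 1 - 1 = p := by omega
  rw [e1, e2] at ht
  rw [e1]
  have h1 : (p + 1) ^ (n + 1) = p * ((p + 1) * θ + 1) + 1 := by
    rw [pow_succ, ← hg]; ring
  have h2 : t = 1 + (p + 1) * θ := by
    have h3 : p * t = p * (1 + (p + 1) * θ) := by
      rw [h1] at ht
      have : p * t = p * ((p + 1) * θ + 1) := by omega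
      rw [this]; ring
    exact Nat.eq_of_mul_eq_mul_left (by omega) h3
  refine ⟨h2, ?_⟩
  have h4 : (p + 1) ^ (n + 1) - (p + 1) = (p + 1) * (p * θ) := by
    have : (p + 1) ^ (n + 1) = (p + 1) * (p * θ) + (p + 1) := by rw [h1]; ring
    omega
  have h5 : (p + 1) ^ (n + 2) - (p + 1) = (p + 1) * (p * (1 + (p + 1) * θ)) := by
    have : (p + 1) ^ (n + 2) = (p + 1) * (p * (1 + (p + 1) * θ)) + (p + 1) := by
      rw [pow_succ, h1]; ring
    omega
  rw [h4, h5, h2]; ring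

theorem tEc : S_Fb → S_Rc → S_Ca → S_Ec := by
  intro hFb hRc hCa K L _ _ _ _ _ k D hD x hx x' hx'
  have hD' := hD
  obtain ⟨hk, hfr, -, -, -⟩ := hD'
  obtain ⟨hx0, ht, hr1, hr2⟩ := hx
  have hq : 2 ≤ Fintype.card K := Fintype.one_lt_card
  have hyp : ∀ H ∈ HH D, Module.finrank K H + 1 = k := by
    intro H hH
    obtain ⟨U, hU, rfl⟩ := Finset.mem_image.1 hH
    exact ((hFb K L k D hD).2 U hU).1
  obtain ⟨-, -, -, hC⟩ := hCa K L k (HH D) (by omega) hfr hyp
  obtain ⟨hC1, hC2⟩ := hC x hx0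
  obtain ⟨hR1, hR2⟩ := hRc K L k D hD x hx0
  obtain ⟨θ, h1, h2⟩ := ec_theta (Fintype.card K) k hq hk (t1 (HH D) x) ht
  have key : ∀ y : L, In2 K x y → (hx D x y).card + (RX D x).card +
      Fintype.card K ^ 2 * t2 (HH D) x y =
      Fintype.card K ^ k + Fintype.card K + Fintype.card K ^ 2 * θ := by
    intro y hy
    have h := hR2 y hy
    rw [h1] at hR1
    have e : Fintype.card K * (1 + Fintype.card K * θ) =
      Fintype.card K + Fintype.card K ^ 2 * θ := by ring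
    rw [e] at hR1
    omega
  have hle : ∀ y ∈ univ.filter (fun x' : L => In2 K x x'), t2 (HH D) x y ≤ θ := by
    intro y hy
    have h := key y (Finset.mem_filter.1 hy).2
    by_contra hc
    have hc' : θ + 1 ≤ t2 (HH D) x y := by omega
    have h3 := Nat.mul_le_mul_left (Fintype.card K ^ 2) hc'
    rw [Nat.mul_add, Nat.mul_one] at h3
    have h4 : Fintype.card K < Fintype.card K ^ 2 := by
      rw [pow_two]
      exact lt_mul_of_one_lt_left (by omega) (by omega)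
    omega
  have hall := ec_sum _ (fun y => t2 (HH D) x y) θ hle (by
    rw [hC2, hC1, h2])
  have h := key x' hx'
  have h5 : t2 (HH D) x x' = θ := hall x' (Finset.mem_filter.2 ⟨mem_univ _, hx'⟩)
  rw [h5] at h
  omega

end Pool.Agent.MP8bH
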