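import Pool.Agent.Lib.MP_8b575b_co.Hom.SpecB

set_option autoImplicit false

namespace Pool.Agent.MP8bH

open Finset Polynomial Pool.Agent.MP8bT

open scoped Classical

private theorem eq_uniq {L : Type} [Field L] (P H : L[X]) (e : ℕ → L) (N : ℕ)
    (hP : P.coeff 0 = 1) (h0 : e 0 = H.coeff 0)
    (h1 : ∀ j, 1 ≤ j → j ≤ N → (P * ∑ i ∈ range (j + 1), C (e i) * X ^ i).coeff j = 0)
    (h2 : ∀ j, 1 ≤ j → j ≤ N → (P * H).coeff j = 0) : ∀ j ≤ N, e j = H.coeff j := by
  intro j
  induction j using Nat.strong_induction_on with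
  | _ j ih =>
    intro hj
    rcases Nat.eq_zero_or_pos j with rfl | hpos
    · exact h0
    have a1 := h1 j hpos hj
    have a2 := h2 j hpos hj
    rw [Finset.mul_sum, Polynomial.finsetSum_coeff, Finset.sum_range_succ] at a1
    have ha : ∀ i ≤ j, (P * (C (e i) * X ^ i)).coeff j = P.coeff (j - i) * e i := by
      intro i hi
      rw [← mul_assoc, Polynomial.coeff_mul_X_pow', if_pos hi, Polynomial.coeff_mul_C]
    rw [ha j le_rfl, Nat.sub_self, hP, one_mul] at a1
    rw [mul_comm, Polynomial.coeff_mul, Finset.Nat.sum_antidiagonal_eq_sum_range_succ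
      (fun a b => H.coeff a * P.coeff b), Finset.sum_range_succ, Nat.sub_self, hP, mul_one] at a2
    have hs : ∑ i ∈ range j, (P * (C (e i) * X ^ i)).coeff j =
        ∑ i ∈ range j, H.coeff i * P.coeff (j - i) := by
      refine Finset.sum_congr rfl fun i hi => ?_
      have hi' := Finset.mem_range.1 hi
      rw [ha i hi'.le, ih i hi' (by omega), mul_comm]
    rw [hs] at a1
    linear_combination a1 - a2

theorem tEq : S_Hx → S_Pi → S_Hp → S_H4 → S_Eq := by
  intro hHx hPi hHp hH4 K L _ _ _ _ _ k D hT hq3 x hx hcard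
  have hq : 2 ≤ Fintype.card K := by omega
  have hRD : ∀ U ∈ RX D x, U ∈ Do D := by
    intro U hU
    have hU' := Finset.mem_filter.1 hU
    refine Finset.mem_filter.2 ⟨hU'.1, ?_, ?_⟩
    · rintro rfl
      obtain ⟨y, hy⟩ := hU'.2
      have := congrArg Prod.snd hy
      simp at this
    · rintro rfl
      obtain ⟨y, hy⟩ := hU'.2
      have := congrArg Prod.fst hy
      simp at this
      exact hx.1 this.symm
  obtain ⟨ε, e1, e2, -, e4⟩ := hPi K L k (RX D x) hq3 hT.2.1 (fun U hU =>
    ⟨hT.2.2.1 U (Finset.mem_filter.1 hU).1, (hHx K L k D hT U (hRD U hU)).2.1⟩)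
  have hP0 : ∀ z : L, (∏ U ∈ RX D x, pu U z).coeff 0 = 1 := by
    intro z
    rw [Polynomial.coeff_zero_prod]
    refine Finset.prod_eq_one fun U _ => ?_
    unfold pu
    rw [Polynomial.coeff_zero_prod]
    exact Finset.prod_eq_one fun y _ => by simp
  have hk : 4 ≤ k := hT.1
  have hqk : Fintype.card K + 1 ≤ Fintype.card K ^ k - 1 := by
    have h1 : Fintype.card K ^ 2 ≤ Fintype.card K ^ k :=
      Nat.pow_le_pow_right (by omega) (by omega)
    have h2 : Fintype.card K + 2 ≤ Fintype.card K ^ 2 := by nlinarith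
    omega
  have hfr : ∀ d : L, ((1 - C d * X) ^ (Fintype.card K ^ k) : L[X]) =
      1 - C (d ^ (Fintype.card K ^ k)) * X ^ (Fintype.card K ^ k) := by
    intro d
    obtain ⟨p, hp⟩ := CharP.exists K
    obtain ⟨e, hpp, he⟩ := FiniteField.card K p
    have : CharP L p := charP_of_injective_algebraMap (algebraMap K L).injective p
    have : Fact p.Prime := ⟨hpp⟩
    rw [he, ← pow_mul, sub_pow_char_pow, one_pow, mul_pow, C_pow]
  refine ⟨ε, e1, ?_, ?_⟩
  · intro x' hx'
    refine eq_uniq (∏ U ∈ RX D x, pu U x') _ (fun j => ε j x') _ (hP0 x') ?_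
      (fun j hj _ => e4 x' j hj) ?_
    · show ε 0 x' = _
      rw [e2, Polynomial.coeff_zero_prod]
      symm
      exact Finset.prod_eq_one fun y _ => by simp
    · intro j hj hjq
      rw [hHp K L k D hT x x' hx', Polynomial.coeff_sub, Polynomial.coeff_one,
        if_neg (by omega), Polynomial.coeff_X_pow, if_neg (by omega), sub_zero]
  · intro c
    have hH := hH4 K L k D hT x hx c
    rw [hcard, hfr] at hH
    have hc : ∀ j ≤ Fintype.card K, ε j (c • x) = (1 - X ^ (Fintype.card K - 1) : L[X]).coeff j := by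
      refine eq_uniq (∏ U ∈ RX D x, pu U (c • x)) (1 - X ^ (Fintype.card K - 1))
        (fun j => ε j (c • x)) (Fintype.card K) (hP0 (c • x)) ?_
        (fun j hj _ => e4 (c • x) j hj) ?_
      · rw [Polynomial.coeff_sub, Polynomial.coeff_one, if_pos rfl, Polynomial.coeff_X_pow,
          if_neg (by omega), sub_zero]
        exact e2 (c • x)
      · intro j hj1 hjq
        rw [hH]
        obtain ⟨a, ha⟩ : ∃ a, Fintype.card K ^ k = (Fintype.card K + 1) + a :=
          ⟨Fintype.card K ^ k - (Fintype.card K + 1), by omega⟩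
        obtain ⟨b, hb⟩ : ∃ b, Fintype.card K ^ k - 1 = (Fintype.card K + 1) + b :=
          ⟨Fintype.card K ^ k - 1 - (Fintype.card K + 1), by omega⟩
        rw [hb, ha]
        have hS : ∀ d : L, ((1 - C d * X ^ (Fintype.card K + 1 + a)) *
            (1 - X ^ (Fintype.card K + 1 + b)) : L[X]) = 1 + X ^ (Fintype.card K + 1) *
            (-(C d * X ^ a + X ^ b) + X ^ (Fintype.card K + 1) * (C d * X ^ a * X ^ b)) := by
          intro d
          rw [pow_add, pow_add]; ring
        rw [hS, Polynomial.coeff_add, Polynomial.coeff_one, if_neg (by omega),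
          Polynomial.coeff_X_pow_mul', if_neg (by omega), add_zero]
    constructor
    · rw [hc _ le_rfl, Polynomial.coeff_sub, Polynomial.coeff_one, if_neg (by omega),
        Polynomial.coeff_X_pow, if_neg (by omega), sub_zero]
    · rw [hc _ (by omega), Polynomial.coeff_sub, Polynomial.coeff_one, if_neg (by omega),
        Polynomial.coeff_X_pow, if_pos rfl, zero_sub]

end Pool.Agent.MP8bH
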