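import Pool.Agent.Lib.MP_8b575b_co.Hom.Spec

/-!
# MP_8b575b_co, Hom, module Ex: good points
-/

set_option autoImplicit false

namespace Pool.Agent.MP8bH

open Finset Polynomial Pool.Agent.MP8bT

open scoped Classical

private theorem Ex_ne1 {K M : Type} [Field K] [AddCommGroup M] [Module K M] {x x' : M}
    (h : In2 K x x') : x ≠ 0 := by
  intro h0
  have h1 := (h 1 0 (by rw [h0, smul_zero, zero_smul, add_zero])).1
  exact one_ne_zero h1

private theorem Ex_ne2 {K M : Type} [Field K] [AddCommGroup M] [Module K M] {x x' : M}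
    (h : In2 K x x') : x' ≠ 0 := by
  intro h0
  have h1 := (h 0 1 (by rw [h0, smul_zero, zero_smul, add_zero])).2
  exact one_ne_zero h1

private theorem Ex_ne3 {K M : Type} [Field K] [AddCommGroup M] [Module K M] {x x' : M}
    (h : In2 K x x') : x + x' ≠ 0 := by
  intro h0
  have h1 := (h 1 1 (by rw [one_smul, one_smul]; exact h0)).1
  exact one_ne_zero h1

private theorem Ex_kap {K L : Type} [Field K] [Field L] [Algebra K L]
    (D : Finset (Submodule K (L × L))) (x : L) : kap D x ≤ 1 := by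
  unfold kap
  split_ifs
  · exact le_rfl
  · exact Nat.zero_le _

theorem tEx : S_Fb → S_Mu → S_Rc → S_Rh → S_Bt → S_Co → S_Ex := by
  intro hFb hMu hRc hRh hBt hCo K L _ _ _ _ _ k D hD hbig
  obtain ⟨hk, hL, hdim, hint, hinv⟩ := hD
  have hD : Hm k D := ⟨hk, hL, hdim, hint, hinv⟩
  obtain ⟨hmu1, hmu2, hmu3⟩ := hMu K L k D hD
  have hq2 : 2 ≤ Fintype.card K := Fintype.one_lt_card
  have hQ : 2 ≤ Fintype.card K ^ k :=
    le_trans hq2 (Nat.le_self_pow (by omega) _)
  have hLL : Module.finrank K (L × L) = 2 * k := by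
    have : FiniteDimensional K L := Module.finite_of_finrank_pos (by omega)
    rw [Module.finrank_prod, hL]
    ring
  -- upper bound for the number of codewords
  have hup : ∀ x : L, (RX D x).card ≤ Fintype.card K ^ k + 1 := by
    intro x
    refine hBt K (L × L) k (x, 1) (RX D x) (by omega) hLL ?_ ?_ ?_
    · intro h
      exact one_ne_zero (congrArg Prod.snd h)
    · intro U hU
      have hU' := Finset.mem_filter.mp hU
      exact ⟨hdim U hU'.1, hU'.2⟩
    · intro U hU W hW hUW
      exact hint U (Finset.mem_filter.mp hU).1 W (Finset.mem_filter.mp hW).1 hUW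
  have hHH : ∀ H ∈ HH D, Module.finrank K H + 1 = k := by
    intro H hH
    obtain ⟨U, hU, rfl⟩ := Finset.mem_image.mp hH
    exact ((hFb K L k D hD).2 U hU).1
  have hP : ∀ x : L, x ≠ 0 → mu D + Fintype.card K * t1 (HH D) x ≤
      Fintype.card K ^ k + 1 + kap D x := by
    intro x hx
    have h1 := (hRc K L k D hD x hx).1
    have h2 := hmu1 x hx
    have h3 := hup x
    omega
  have hLc : ∀ x x' : L, In2 K x x' → mu D + Fintype.card K ^ 2 * t2 (HH D) x x' +
      Fintype.card K ≤ Fintype.card K ^ k + kap D x + ∑ c : K, kap D (x' - c • x) := by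
    intro x x' hxx
    have hx := Ex_ne1 hxx
    have h1 := (hRc K L k D hD x hx).2 x' hxx
    have h2 := hmu1 x hx
    have h3 := hRh K L k D hD x x' hxx
    omega
  have hM : Fintype.card K ^ k + 2 ≤ mu D + (HH D).card := by
    rw [hmu2] at hbig
    exact Nat.le_of_mul_le_mul_left hbig (by omega)
  obtain ⟨c1, c2⟩ := hCo K L k (mu D) (kap D) (HH D) hk hL hHH (Ex_kap D) hP hLc hM
  have hq3 : 3 ≤ Fintype.card K := by
    by_contra hlt
    have hq : Fintype.card K = 2 := by omega
    have h1 := c1 hq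
    rw [hq] at hmu3
    omega
  refine ⟨hq3, ?_⟩
  obtain ⟨x₁, x₂, hi, hk1, hg⟩ := c2 hq3
  have good : ∀ x : L, x ≠ 0 → (x = x₁ ∨ x = x₂ ∨ x = x₁ + x₂) → Gd k D x := by
    intro x hx hxx
    obtain ⟨h1, h2⟩ := hg x hxx
    refine ⟨hx, h1, ?_, hup x⟩
    have h3 := (hRc K L k D hD x hx).1
    have h4 := hmu1 x hx
    have h5 := Ex_kap D x
    omega
  exact ⟨x₁, x₂, hi, hk1, good x₁ (Ex_ne1 hi) (Or.inl rfl),
    good x₂ (Ex_ne2 hi) (Or.inr (Or.inl rfl)), good (x₁ + x₂) (Ex_ne3 hi) (Or.inr (Or.inr rfl))⟩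

end Pool.Agent.MP8bH
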