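import Pool.Agent.Lib.MP_8b575b_co.Hom.SpecB

/-! Hom/F1: the function `FF` on the plane. -/

set_option autoImplicit false

namespace Pool.Agent.MP8bH

open Finset Polynomial Pool.Agent.MP8bT

open scoped Classical

private theorem f1_deg {L : Type} [Field L] (S : Finset L) :
    (∏ y ∈ S, (1 - C y * X) : L[X]).natDegree ≤ S.card := by
  refine (natDegree_prod_le _ _).trans ?_
  calc ∑ y ∈ S, (1 - C y * X : L[X]).natDegree ≤ ∑ _y ∈ S, 1 :=
        Finset.sum_le_sum fun y _ => by compute_degree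
    _ = S.card := by simp

private theorem f1_c {L : Type} [Field L] (a : L) (P : L[X]) (n : ℕ) :
    ((1 - C a * X) * P).coeff n = P.coeff n - a * (X * P).coeff n := by
  rw [sub_mul, one_mul, coeff_sub, mul_assoc, coeff_C_mul]

private theorem f1_id {L : Type} [Field L] (S : Finset L) : (0 : L) ∉ S →
    (X * ∏ y ∈ S, (1 - C y * X) : L[X]).coeff S.card =
      -(∑ y ∈ S, y⁻¹) * (∏ y ∈ S, (1 - C y * X) : L[X]).coeff S.card := by
  induction S using Finset.induction_on with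
  | empty =>
    intro _
    simp
  | insert a S ha ih =>
    intro h0
    have ha0 : a ≠ 0 := fun h => h0 (by rw [h]; exact Finset.mem_insert_self _ _)
    have ih := ih fun h => h0 (Finset.mem_insert_of_mem h)
    rw [Finset.prod_insert ha, Finset.sum_insert ha, Finset.card_insert_of_notMem ha]
    obtain ⟨P, hP⟩ : ∃ P : L[X], P = ∏ y ∈ S, (1 - C y * X) := ⟨_, rfl⟩
    rw [← hP] at ih ⊢
    have hPn : P.coeff (S.card + 1) = 0 := by
      refine coeff_eq_zero_of_natDegree_lt ?_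
      rw [hP]
      exact Nat.lt_succ_of_le (f1_deg S)
    rw [coeff_X_mul, f1_c, f1_c, coeff_X_mul, hPn, ih]
    field_simp
    ring

private theorem f1_top {L : Type} [Field L] (S : Finset L) :
    (∏ y ∈ S, (1 - C y * X) : L[X]).coeff S.card = ∏ y ∈ S, (-y) := by
  induction S using Finset.induction_on with
  | empty => simp
  | insert a S ha ih =>
    rw [Finset.prod_insert ha, Finset.prod_insert ha, Finset.card_insert_of_notMem ha]
    obtain ⟨P, hP⟩ : ∃ P : L[X], P = ∏ y ∈ S, (1 - C y * X) := ⟨_, rfl⟩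
    rw [← hP] at ih ⊢
    have hPn : P.coeff (S.card + 1) = 0 := by
      refine coeff_eq_zero_of_natDegree_lt ?_
      rw [hP]
      exact Nat.lt_succ_of_le (f1_deg S)
    rw [f1_c, coeff_X_mul, hPn, ih]
    ring

private theorem f1_symm {K M : Type} [Field K] [AddCommGroup M] [Module K M] {x y : M}
    (h : In2 K x y) : In2 K y x := fun a b hab => (h b a (by rw [add_comm, hab])).symm

private theorem f1_ne {K M : Type} [Field K] [AddCommGroup M] [Module K M] {x y : M}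
    (h : In2 K x y) : x ≠ 0 := by
  rintro rfl
  exact one_ne_zero (h 1 0 (by simp)).1

theorem tF1 : S_Pa → S_Ec → S_Hl → S_Hi → S_Su → S_F1 := by
  intro hPa hEc hHl hHi hSu K L _ _ _ _ _ k D hD hq x₁ x₂ hin g1 g2 g3 n1 n2 n3 m ε1 ε2 ε3
    hn1 hn2 hn3 hm hε hv1 hv2 hv3
  obtain ⟨q, hqe⟩ : ∃ q, q = Fintype.card K := ⟨_, rfl⟩
  obtain ⟨x₃, hx3⟩ : ∃ x₃, x₃ = x₁ + x₂ := ⟨_, rfl⟩
  rw [← hx3] at g3 hn3 hv3
  have hfr : Module.finrank K L = k := hD.2.1
  have hk4 : 4 ≤ k := hD.1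
  obtain ⟨pa1, pa2, pa3, pa4, pa5⟩ := hPa K L
  have hnum : ∀ (x : L) (n : ℕ), Gd k D x → n + (RX D x).card = Fintype.card K ^ k + Fintype.card K →
      n ≤ q ∧ 2 ≤ n := by
    intro x n g hn
    obtain ⟨-, -, h1, h2⟩ := g
    rw [← hqe] at h1 h2 hn hq
    omega
  obtain ⟨b1, c1⟩ := hnum x₁ n1 g1 hn1
  obtain ⟨b2, c2⟩ := hnum x₂ n2 g2 hn2
  obtain ⟨b3, c3⟩ := hnum x₃ n3 g3 hn3
  have hall : ∀ (x : L) (n : ℕ) (ε : ℕ → L → L), Gd k D x →
      n + (RX D x).card = Fintype.card K ^ k + Fintype.card K → n ≤ q → 2 ≤ n →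
      (∀ x', In2 K x x' → ∀ j ≤ Fintype.card K,
        ε j x' = (∏ y ∈ hx D x x', (1 - C y * X) : L[X]).coeff j) →
      ∀ x', In2 K x x' → (kap D x' = 0 → ε n x' = 0) ∧
        (kap D x' ≠ 0 → ε (n - 1) x' = -(∑ y ∈ hx D x' x, y) * ε n x') := by
    intro x n ε g hn hnq hn2 h2 x' hx'
    rw [← hqe] at h2
    have hc : (hx D x x').card = n := by
      have := hEc K L k D hD x g x' hx'
      omega
    have e1 : ε n x' = ∏ y ∈ hx D x x', (-y) := by
      rw [h2 x' hx' n hnq, ← f1_top, hc]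
    obtain ⟨i1, i2⟩ := hHi K L k D hD x x' hx'
    refine ⟨fun h0 => ?_, fun h0 => ?_⟩
    · rw [e1]
      exact Finset.prod_eq_zero (i2.2 h0) neg_zero
    · have hz : (0 : L) ∉ hx D x x' := fun h => h0 (i2.1 h)
      have e2 : ∑ y ∈ hx D x' x, y = ∑ y ∈ hx D x x', y⁻¹ := by
        have e3 : (hx D x' x).erase 0 = (hx D x x').image (fun y => y⁻¹) := by
          ext y
          rw [Finset.mem_erase, Finset.mem_image]
          constructor
          · rintro ⟨hy0, hy⟩
            refine ⟨y⁻¹, ?_, inv_inv y⟩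
            rw [i1 _ (inv_ne_zero hy0), inv_inv]
            exact hy
          · rintro ⟨z, hz1, rfl⟩
            have hz0 : z ≠ 0 := by
              rintro rfl
              exact hz hz1
            exact ⟨inv_ne_zero hz0, (i1 z hz0).1 hz1⟩
        rw [← Finset.sum_erase (hx D x' x) (f := fun y => y) (a := 0) rfl, e3,
          Finset.sum_image fun a _ b _ hab => inv_injective hab]
      have h5 := f1_id (hx D x x') hz
      rw [hc] at h5
      rw [e2, h2 x' hx' n hnq, ← h5, h2 x' hx' (n - 1) (by omega)]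
      have hn' : n = (n - 1) + 1 := by omega
      conv_rhs => rw [hn', coeff_X_mul]
  have v1 := hall x₁ n1 ε1 g1 hn1 b1 c1 hv1
  have v2 := hall x₂ n2 ε2 g2 hn2 b2 c2 hv2
  have v3 := hall x₃ n3 ε3 g3 hn3 b3 c3 hv3
  -- the value at independent elements
  have key : ∀ x', In2 K x₁ x' → In2 K x₂ x' → In2 K x₃ x' →
      FF n1 n2 n3 ε1 ε2 ε3 x' = 0 := by
    intro x' i1 i2 i3
    unfold FF
    by_cases h0 : kap D x' = 0
    · have t1 := (v1 x' i1).1 h0
      have t3 := (v3 x' i3).1 h0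
      simp only [t1, t3, zero_mul, mul_zero, sub_zero]
    · obtain ⟨A, hA⟩ := hHl K L k D hD hq x' (f1_ne (f1_symm i1))
      have s1 := (v1 x' i1).2 h0
      have s2 := (v2 x' i2).2 h0
      have s3 := (v3 x' i3).2 h0
      rw [hA x₁ (f1_symm i1)] at s1
      rw [hA x₂ (f1_symm i2)] at s2
      rw [hA x₃ (f1_symm i3), hx3, map_add] at s3
      simp only [s1, s2, s3]
      ring
  -- the degree
  have hFd : FF n1 n2 n3 ε1 ε2 ε3 ∈ Pd K L (n1 + n2 + n3 - 1) := by
    rw [← hqe] at hε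
    have d1 : (fun x => ε3 (n3 - 1) x * ε1 n1 x * ε2 n2 x) ∈ Pd K L (n1 + n2 + n3 - 1) :=
      pa3 _ _ (by omega) (pa2 (n3 - 1 + n1) n2 _ _ (pa2 (n3 - 1) n1 _ _
        (hε (n3 - 1) (by omega)).2.2 (hε n1 b1).1) (hε n2 b2).2.1)
    have d2 : (fun x => ε1 (n1 - 1) x * ε2 n2 x) ∈ Pd K L (n1 + n2 - 1) :=
      pa3 _ _ (by omega) (pa2 (n1 - 1) n2 _ _ (hε _ (by omega)).1 (hε _ b2).2.1)
    have d3 : (fun x => ε2 (n2 - 1) x * ε1 n1 x) ∈ Pd K L (n1 + n2 - 1) :=
      pa3 _ _ (by omega) (pa2 (n2 - 1) n1 _ _ (hε _ (by omega)).2.1 (hε _ b1).1)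
    have d4 : (fun x => ε1 (n1 - 1) x * ε2 n2 x + ε2 (n2 - 1) x * ε1 n1 x) ∈
        Pd K L (n1 + n2 - 1) := Submodule.add_mem _ d2 d3
    have d5 : (fun x => ε3 n3 x * (ε1 (n1 - 1) x * ε2 n2 x + ε2 (n2 - 1) x * ε1 n1 x)) ∈
        Pd K L (n1 + n2 + n3 - 1) :=
      pa3 _ _ (by omega) (pa2 n3 (n1 + n2 - 1) _ _ (hε _ b3).2.2 d4)
    exact Submodule.sub_mem _ d1 d5
  -- the plane and its complement
  obtain ⟨P, hP⟩ : ∃ P : Submodule K L, P = Submodule.span K {x₁, x₂} := ⟨_, rfl⟩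
  obtain ⟨W, hW⟩ := Submodule.exists_isCompl P
  have hPx1 : x₁ ∈ P := by rw [hP]; exact Submodule.subset_span (by simp)
  have hPx2 : x₂ ∈ P := by rw [hP]; exact Submodule.subset_span (by simp)
  have hPx3 : x₃ ∈ P := by rw [hx3]; exact P.add_mem hPx1 hPx2
  have hPd : Module.finrank K P ≤ 2 := by
    have h1 := finrank_span_finset_le_card (R := K) ({x₁, x₂} : Finset L)
    rw [Set.finrank, Finset.coe_insert, Finset.coe_singleton, ← hP] at h1
    exact h1.trans Finset.card_le_two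
  have hWd : k - 2 ≤ Module.finrank K W := by
    have h1 := Submodule.finrank_add_eq_of_isCompl hW
    rw [hfr] at h1
    omega
  have hx1 : x₁ ≠ 0 := f1_ne hin
  have hx2 : x₂ ≠ 0 := f1_ne (f1_symm hin)
  have hx30 : x₃ ≠ 0 := by
    intro h
    have h1 := hin 1 1 (by rw [one_smul, one_smul, ← hx3, h])
    exact one_ne_zero h1.1
  -- outside of the plane
  have hout : ∀ x ∈ P, x ≠ 0 → ∀ x', x' ∉ P → In2 K x x' := by
    intro x hx hx0 x' hx' a b hab
    have hb : b = 0 := by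
      by_contra hb
      apply hx'
      have h1 : b • x' = -(a • x) := by
        rw [eq_neg_iff_add_eq_zero, add_comm]
        exact hab
      have h2 : x' = b⁻¹ • (-(a • x)) := by
        rw [← h1, smul_smul, inv_mul_cancel₀ hb, one_smul]
      rw [h2]
      exact P.smul_mem _ (P.neg_mem (P.smul_mem _ hx))
    rw [hb, zero_smul, add_zero] at hab
    exact ⟨(smul_eq_zero.1 hab).resolve_right hx0, hb⟩
  have hG := hSu K L (n1 + n2 + n3 - 1) m (FF n1 n2 n3 ε1 ε2 ε3) W hFd (by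
    have h1 : (Fintype.card K - 1) * (k - 2) ≤ (Fintype.card K - 1) * Module.finrank K W :=
      Nat.mul_le_mul_left _ hWd
    omega)
  refine ⟨_, hG, ?_⟩
  intro s t
  have hu : s • x₁ + t • x₂ ∈ P := P.add_mem (P.smul_mem _ hPx1) (P.smul_mem _ hPx2)
  have hGu : ∑ w ∈ univ.filter (fun w => w ∈ W), FF n1 n2 n3 ε1 ε2 ε3 (s • x₁ + t • x₂ + w) =
      FF n1 n2 n3 ε1 ε2 ε3 (s • x₁ + t • x₂) := by
    rw [Finset.sum_eq_single (0 : L), add_zero]
    · intro w hw hw0
      have hwW : w ∈ W := (Finset.mem_filter.1 hw).2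
      have hn : s • x₁ + t • x₂ + w ∉ P := by
        intro h
        have hwP : w ∈ P := by
          have h2 := P.sub_mem h hu
          rwa [add_sub_cancel_left] at h2
        exact hw0 (Submodule.disjoint_def.1 hW.disjoint w hwP hwW)
      exact key _ (hout _ hPx1 hx1 _ hn) (hout _ hPx2 hx2 _ hn) (hout _ hPx3 hx30 _ hn)
    · intro h
      exact absurd (Finset.mem_filter.2 ⟨Finset.mem_univ _, W.zero_mem⟩) h
  refine ⟨hGu, fun hs ht hst => ?_⟩
  refine hGu.trans (key _ ?_ ?_ ?_)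
  · intro a b hab
    have h1 := hin (a + b * s) (b * t) (by rw [← hab]; module)
    have hb : b = 0 := (mul_eq_zero.1 h1.2).resolve_right ht
    have ha := h1.1
    rw [hb, zero_mul, add_zero] at ha
    exact ⟨ha, hb⟩
  · intro a b hab
    have h1 := hin (b * s) (a + b * t) (by rw [← hab]; module)
    have hb : b = 0 := (mul_eq_zero.1 h1.1).resolve_right hs
    have ha := h1.2
    rw [hb, zero_mul, add_zero] at ha
    exact ⟨ha, hb⟩
  · intro a b hab
    rw [hx3] at hab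
    have h1 := hin (a + b * s) (a + b * t) (by rw [← hab]; module)
    have h2 : b * (s - t) = 0 := by linear_combination h1.1 - h1.2
    have hb : b = 0 := (mul_eq_zero.1 h2).resolve_right (sub_ne_zero.2 hst)
    have ha := h1.1
    rw [hb, zero_mul, add_zero] at ha
    exact ⟨ha, hb⟩

end Pool.Agent.MP8bH
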