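import Pool.Agent.Lib.MP_8b575b_co.Hom.SpecB

set_option autoImplicit false

namespace Pool.Agent.MP8bH

open Finset Polynomial Pool.Agent.MP8bT

open scoped Classical

private theorem F2_in2 {K M : Type} [Field K] [AddCommGroup M] [Module K M] {x₁ x₂ : M}
    (h : In2 K x₁ x₂) {α β γ δ : K} (hd : α * δ - β * γ ≠ 0) :
    In2 K (α • x₁ + β • x₂) (γ • x₁ + δ • x₂) := by
  intro a b hab
  have h1 : (a * α + b * γ) • x₁ + (a * β + b * δ) • x₂ = 0 := by
    rw [← hab]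
    module
  obtain ⟨h2, h3⟩ := h _ _ h1
  constructor
  · refine (mul_eq_zero.1 ?_).resolve_right hd
    linear_combination δ * h2 - γ * h3
  · refine (mul_eq_zero.1 ?_).resolve_right hd
    linear_combination α * h3 - β * h2

private theorem F2_coeff {L : Type} [Field L] (S : Finset L) :
    (∏ y ∈ S, (1 - C y * X) : L[X]).coeff S.card = ∏ y ∈ S, (-y) := by
  have h := Polynomial.coeff_prod_of_natDegree_le (s := S) (fun y : L => (1 - C y * X : L[X])) 1
    (fun y _ => by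
      refine (Polynomial.natDegree_sub_le _ _).trans (max_le ?_ ?_)
      · simp
      · exact (Polynomial.natDegree_C_mul_le _ _).trans Polynomial.natDegree_X_le)
  rw [mul_one] at h
  rw [h]
  refine Finset.prod_congr rfl fun y _ => ?_
  rw [Polynomial.coeff_sub, Polynomial.coeff_C_mul, Polynomial.coeff_X_one,
    Polynomial.coeff_one, if_neg one_ne_zero, mul_one, zero_sub]

private theorem F2_kap {K L : Type} [Field K] [Field L] [Algebra K L]
    (D : Finset (Submodule K (L × L))) (x : L) {c : K} (hc : c ≠ 0) : kap D (c • x) = kap D x := by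
  have h : ∀ U : Submodule K (L × L), ((c • x, 0) : L × L) ∈ U ↔ ((x, 0) : L × L) ∈ U := by
    intro U
    have h1 : ((c • x, 0) : L × L) = c • ((x, 0) : L × L) := by
      rw [Prod.smul_mk, smul_zero]
    rw [h1]
    exact Submodule.smul_mem_iff U hc
  unfold kap
  simp only [h]

theorem tF2 : S_Ec → S_He → S_Hi → S_F1 → S_F2 := by
  intro hEc hHe hHi hF1 K L _ _ _ _ _ k D hD hq x₁ x₂ hI g1 g2 g3 m hm
  set q := Fintype.card K with hqd
  have r1 := g1.2.2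
  have r2 := g2.2.2
  have r3 := g3.2.2
  rw [← hqd] at r1 r2 r3
  obtain ⟨n₁, h1⟩ : ∃ n, n + (RX D x₁).card = q ^ k + q := ⟨q ^ k + q - (RX D x₁).card, by omega⟩
  obtain ⟨n₂, h2⟩ : ∃ n, n + (RX D x₂).card = q ^ k + q := ⟨q ^ k + q - (RX D x₂).card, by omega⟩
  obtain ⟨n₃, h3⟩ : ∃ n, n + (RX D (x₁ + x₂)).card = q ^ k + q :=
    ⟨q ^ k + q - (RX D (x₁ + x₂)).card, by omega⟩
  obtain ⟨ε₁, a1, b1, c1, d1⟩ := hHe K L k n₁ D hD hq x₁ g1 h1
  obtain ⟨ε₂, a2, b2, c2, d2⟩ := hHe K L k n₂ D hD hq x₂ g2 h2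
  obtain ⟨ε₃, a3, b3, c3, d3⟩ := hHe K L k n₃ D hD hq (x₁ + x₂) g3 h3
  have hle : n₁ + n₂ + n₃ ≤ (q - 1) * (k - 2) + m + 1 := by omega
  obtain ⟨G, hG, hGs⟩ := hF1 K L k D hD hq x₁ x₂ hI g1 g2 g3 n₁ n₂ n₃ m ε₁ ε₂ ε₃ h1 h2 h3 hle
    (fun j hj => ⟨a1 j hj, a2 j hj, a3 j hj⟩) b1 b2 b3
  have hpe : ∀ x : L, Gd k D x → ∀ n : ℕ, n + (RX D x).card = q ^ k + q → ∀ ε : ℕ → L → L,
      (∀ x' : L, In2 K x x' → ∀ j ≤ q, ε j x' = (∏ y ∈ hx D x x', (1 - C y * X) : L[X]).coeff j) →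
      ∀ x' : L, In2 K x x' → (ε n x' = 0 ↔ kap D x' = 0) := by
    intro x hg n hn ε hb x' hi
    have e1 := hEc K L k D hD x hg x' hi
    have e0 := hg.2.2
    rw [← hqd] at e0 e1
    have e2 : (hx D x x').card = n := by omega
    have e3 := F2_coeff (hx D x x')
    rw [e2] at e3
    rw [hb x' hi n (by omega), e3, Finset.prod_eq_zero_iff, ← (hHi K L k D hD x x' hi).2]
    constructor
    · rintro ⟨y, hy, hy0⟩
      rw [neg_eq_zero] at hy0
      rwa [hy0] at hy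
    · intro h0
      exact ⟨0, h0, neg_zero⟩
  have e1 := hpe x₁ g1 n₁ h1 ε₁ b1
  have e2 := hpe x₂ g2 n₂ h2 ε₂ b2
  have e3 := hpe (x₁ + x₂) g3 n₃ h3 ε₃ b3
  -- independence
  have i12 : ∀ c : K, c ≠ 0 → In2 K x₁ (c • x₂) := by
    intro c hc
    have := F2_in2 hI (α := 1) (β := 0) (γ := 0) (δ := c) (by simpa using hc)
    simpa using this
  have i13 : In2 K x₁ (x₁ + x₂) := by
    have := F2_in2 hI (α := 1) (β := 0) (γ := 1) (δ := 1) (by simp)
    simpa using this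
  have i21 : ∀ c : K, c ≠ 0 → In2 K x₂ (c • x₁) := by
    intro c hc
    have := F2_in2 hI (α := 0) (β := 1) (γ := c) (δ := 0) (by simpa using hc)
    simpa using this
  have i23 : In2 K x₂ (x₁ + x₂) := by
    have := F2_in2 hI (α := 0) (β := 1) (γ := 1) (δ := 1) (by simp)
    simpa using this
  have i31 : ∀ c : K, c ≠ 0 → In2 K (x₁ + x₂) (c • x₁) := by
    intro c hc
    have := F2_in2 hI (α := 1) (β := 1) (γ := c) (δ := 0) (by simpa using hc)
    simpa using this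
  have i32 : ∀ c : K, c ≠ 0 → In2 K (x₁ + x₂) (c • x₂) := by
    intro c hc
    have := F2_in2 hI (α := 1) (β := 1) (γ := 0) (δ := c) (by simpa using hc)
    simpa using this
  refine ⟨G, hG, fun s t hs ht hst => (hGs s t).2 hs ht hst, ?_, ?_, ?_⟩
  · intro hk h0
    have u1 := (hGs 1 1).1
    rw [one_smul, one_smul, h0, FF, c3, zero_mul, sub_zero] at u1
    have v1 : ε₁ n₁ (x₁ + x₂) ≠ 0 := fun h => by
      rw [e1 _ i13, hk] at h
      exact one_ne_zero h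
    have v2 : ε₂ n₂ (x₁ + x₂) ≠ 0 := fun h => by
      rw [e2 _ i23, hk] at h
      exact one_ne_zero h
    exact mul_ne_zero (mul_ne_zero d3 v1) v2 u1.symm
  · intro hk c hc
    have u1 := (hGs c 0).1
    have v2 : ε₂ n₂ (c • x₁) = 0 := by rw [e2 _ (i21 c hc), F2_kap D x₁ hc, hk]
    have v3 : ε₃ n₃ (c • x₁) = 0 := by rw [e3 _ (i31 c hc), F2_kap D x₁ hc, hk]
    rw [zero_smul, add_zero, FF, v2, v3, mul_zero, zero_mul, sub_zero] at u1
    exact u1
  · intro hk c hc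
    have u1 := (hGs 0 c).1
    have v1 : ε₁ n₁ (c • x₂) = 0 := by rw [e1 _ (i12 c hc), F2_kap D x₂ hc, hk]
    have v3 : ε₃ n₃ (c • x₂) = 0 := by rw [e3 _ (i32 c hc), F2_kap D x₂ hc, hk]
    rw [zero_smul, zero_add, FF, v1, v3, mul_zero, zero_mul, zero_mul, sub_zero] at u1
    exact u1

end Pool.Agent.MP8bH
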