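import Pool.Agent.Lib.MP_8b575b_co.Hom.SpecB

set_option autoImplicit false

namespace Pool.Agent.MP8bH

open Finset Polynomial Pool.Agent.MP8bT

open scoped Classical

private theorem F3_in2 {K M : Type} [Field K] [AddCommGroup M] [Module K M] {x₁ x₂ : M}
    (h : In2 K x₁ x₂) {α β γ δ : K} (hd : α * δ - β * γ ≠ 0) :
    In2 K (α • x₁ + β • x₂) (γ • x₁ + δ • x₂) := by
  intro a b hab
  have h1 : (a * α + b * γ) • x₁ + (a * β + b * δ) • x₂ = 0 := by
    rw [← hab]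
    module
  obtain ⟨h2, h3⟩ := h _ _ h1
  constructor
  · refine (mul_eq_zero.1 ?_).resolve_right hd
    linear_combination δ * h2 - γ * h3
  · refine (mul_eq_zero.1 ?_).resolve_right hd
    linear_combination α * h3 - β * h2

private theorem F3_coeff {L : Type} [Field L] (S : Finset L) :
    (∏ y ∈ S, (1 - C y * X) : L[X]).coeff S.card = ∏ y ∈ S, (-y) := by
  have h := Polynomial.coeff_prod_of_natDegree_le (s := S) (fun y : L => (1 - C y * X : L[X])) 1
    (fun y _ => by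
      refine (Polynomial.natDegree_sub_le _ _).trans (max_le ?_ ?_)
      · simp
      · exact (Polynomial.natDegree_C_mul_le _ _).trans Polynomial.natDegree_X_le)
  rw [mul_one] at h
  rw [h]
  refine Finset.prod_congr rfl fun y _ => ?_
  rw [Polynomial.coeff_sub, Polynomial.coeff_C_mul, Polynomial.coeff_X_one,
    Polynomial.coeff_one, if_neg one_ne_zero, mul_one, zero_sub]

theorem tF3 : S_Ec → S_Eq → S_F1 → S_F3 := by
  intro hEc hEq hF1 K L _ _ _ _ _ k D hD hk hq x₁ x₂ hI hx'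
  obtain ⟨g1, r1⟩ := hx' x₁ (Or.inl rfl)
  obtain ⟨g2, r2⟩ := hx' x₂ (Or.inr (Or.inl rfl))
  obtain ⟨g3, r3⟩ := hx' (x₁ + x₂) (Or.inr (Or.inr rfl))
  obtain ⟨ε₁, a1, b1, c1⟩ := hEq K L k D hD hq x₁ g1 r1
  obtain ⟨ε₂, a2, b2, c2⟩ := hEq K L k D hD hq x₂ g2 r2
  obtain ⟨ε₃, a3, b3, c3⟩ := hEq K L k D hD hq (x₁ + x₂) g3 r3
  set q := Fintype.card K with hqd
  have hle : q + q + q ≤ (q - 1) * (k - 2) + 2 + 1 := by
    have h1 : (q - 1) * 3 ≤ (q - 1) * (k - 2) := Nat.mul_le_mul_left _ (by omega)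
    omega
  obtain ⟨G, hG, hGs⟩ := hF1 K L k D hD hq x₁ x₂ hI g1 g2 g3 q q q 2 ε₁ ε₂ ε₃
    (by rw [r1]; exact add_comm _ _) (by rw [r2]; exact add_comm _ _) (by rw [r3]; exact add_comm _ _) hle
    (fun j hj => ⟨a1 j hj, a2 j hj, a3 j hj⟩) b1 b2 b3
  have hpe : ∀ x : L, Gd k D x → (RX D x).card = q ^ k → ∀ ε : ℕ → L → L,
      (∀ x' : L, In2 K x x' → ∀ j ≤ q, ε j x' = (∏ y ∈ hx D x x', (1 - C y * X) : L[X]).coeff j) →
      ∀ x' : L, In2 K x x' → ε q x' = pe D x x' := by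
    intro x hg hr ε hb x' hi
    have h1 := hEc K L k D hD x hg x' hi
    rw [hr] at h1
    have h1' : (hx D x x').card + q ^ k = q + q ^ k := h1.trans (add_comm _ _)
    have h2 : (hx D x x').card = q := Nat.add_right_cancel h1'
    have h3 := F3_coeff (hx D x x')
    rw [h2] at h3
    rw [hb x' hi q le_rfl, h3, pe]
  have e1 := hpe x₁ g1 r1 ε₁ b1
  have e2 := hpe x₂ g2 r2 ε₂ b2
  have e3 := hpe (x₁ + x₂) g3 r3 ε₃ b3
  -- independence
  have i12 : ∀ c : K, c ≠ 0 → In2 K x₁ (c • x₂) := by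
    intro c hc
    have := F3_in2 hI (α := 1) (β := 0) (γ := 0) (δ := c) (by simpa using hc)
    simpa using this
  have i13 : ∀ c : K, c ≠ 0 → In2 K x₁ (c • (x₁ + x₂)) := by
    intro c hc
    have := F3_in2 hI (α := 1) (β := 0) (γ := c) (δ := c) (by simpa using hc)
    rw [← smul_add] at this
    simpa using this
  have i21 : ∀ c : K, c ≠ 0 → In2 K x₂ (c • x₁) := by
    intro c hc
    have := F3_in2 hI (α := 0) (β := 1) (γ := c) (δ := 0) (by simpa using hc)
    simpa using this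
  have i23 : ∀ c : K, c ≠ 0 → In2 K x₂ (c • (x₁ + x₂)) := by
    intro c hc
    have := F3_in2 hI (α := 0) (β := 1) (γ := c) (δ := c) (by simpa using hc)
    rw [← smul_add] at this
    simpa using this
  have i31 : ∀ c : K, c ≠ 0 → In2 K (x₁ + x₂) (c • x₁) := by
    intro c hc
    have := F3_in2 hI (α := 1) (β := 1) (γ := c) (δ := 0) (by simpa using hc)
    simpa using this
  have i32 : ∀ c : K, c ≠ 0 → In2 K (x₁ + x₂) (c • x₂) := by
    intro c hc
    have := F3_in2 hI (α := 1) (β := 1) (γ := 0) (δ := c) (by simpa using hc)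
    simpa using this
  refine ⟨G, hG, fun s t hs ht hst => (hGs s t).2 hs ht hst, ?_, fun c hc => ⟨?_, ?_, ?_⟩⟩
  · have h1 := (hGs 0 0).1
    have h2 := (c1 0).1
    have h3 := (c3 0).1
    rw [zero_smul] at h2 h3
    rw [zero_smul, zero_smul, zero_add, FF, h2, h3] at h1
    rw [h1]
    ring
  · have h1 := (hGs c 0).1
    rw [zero_smul, add_zero, FF, (c1 c).1, (c1 c).2, e2 _ (i21 c hc), e3 _ (i31 c hc)] at h1
    rw [h1]
    ring
  · have h1 := (hGs 0 c).1
    rw [zero_smul, zero_add, FF, (c2 c).1, (c2 c).2, e1 _ (i12 c hc), e3 _ (i32 c hc)] at h1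
    rw [h1]
    ring
  · have h1 := (hGs c c).1
    rw [← smul_add, FF, (c3 c).1, (c3 c).2, e1 _ (i13 c hc), e2 _ (i23 c hc)] at h1
    rw [h1]
    ring

end Pool.Agent.MP8bH
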