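import Pool.Agent.Lib.MP_8b575b_co.Hom.Spec

set_option autoImplicit false

namespace Pool.Agent.MP8bH

open Finset Polynomial Pool.Agent.MP8bT

open scoped Classical

/-- the dimension formula for the first projection -/
private theorem Fb_rank {K L : Type} [Field K] [Fintype K] [Field L] [Fintype L] [Algebra K L]
    (U : Submodule K (L × L)) :
    Module.finrank K ↥(U.map (LinearMap.fst K L L)) + Module.finrank K ↥(U ⊓ ax2 K L) =
      Module.finrank K U := by
  have hfd : FiniteDimensional K L := inferInstance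
  have h := LinearMap.finrank_range_add_finrank_ker ((LinearMap.fst K L L).comp U.subtype)
  have h1 : LinearMap.range ((LinearMap.fst K L L).comp U.subtype) =
      U.map (LinearMap.fst K L L) := by
    rw [LinearMap.range_comp, Submodule.range_subtype]
  have h2 : (LinearMap.ker ((LinearMap.fst K L L).comp U.subtype)).map U.subtype =
      U ⊓ ax2 K L := by
    ext v
    constructor
    · rintro ⟨w, hw, rfl⟩
      refine ⟨w.2, ?_⟩
      have h3 : (w : L × L).1 = 0 := hw
      exact ⟨(w : L × L).2, Prod.ext h3.symm rfl⟩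
    · rintro ⟨hv, hv2⟩
      obtain ⟨y, rfl⟩ := hv2
      exact ⟨⟨_, hv⟩, rfl, rfl⟩
  have h3 : Module.finrank K ↥((LinearMap.ker ((LinearMap.fst K L L).comp U.subtype)).map
      U.subtype) = Module.finrank K ↥(LinearMap.ker ((LinearMap.fst K L L).comp U.subtype)) :=
    (LinearEquiv.finrank_eq (Submodule.equivMapOfInjective U.subtype U.injective_subtype _)).symm
  rw [h1, ← h3, h2] at h
  exact h

/-- the fibre above zero -/
private theorem Fb_zero {K L : Type} [Field K] [Fintype K] [Field L] [Fintype L] [Algebra K L]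
    (U : Submodule K (L × L)) :
    (univ.filter fun z : L => ((0, z) : L × L) ∈ U).card =
      Fintype.card K ^ Module.finrank K ↥(U ⊓ ax2 K L) := by
  have h1 : Module.finrank K ↥(U ⊓ ax2 K L) =
      Module.finrank K ↥(U.comap (LinearMap.inr K L L)) := by
    have h2 : (U.comap (LinearMap.inr K L L)).map (LinearMap.inr K L L) = U ⊓ ax2 K L := by
      rw [Submodule.map_comap_eq, inf_comm]
      rfl
    rw [← h2]
    exact (LinearEquiv.finrank_eq
      (Submodule.equivMapOfInjective (LinearMap.inr K L L) LinearMap.inr_injective _)).symm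
  rw [h1, ← Module.card_eq_pow_finrank (K := K) (V := ↥(U.comap (LinearMap.inr K L L)))]
  rw [← Fintype.card_coe]
  apply Fintype.card_congr
  refine ⟨fun y => ⟨y.1, (Finset.mem_filter.mp y.2).2⟩,
    fun y => ⟨y.1, Finset.mem_filter.mpr ⟨Finset.mem_univ _, y.2⟩⟩, fun y => rfl, fun y => rfl⟩

/-- the fibre above `x` -/
private theorem Fb_fib {K L : Type} [Field K] [Fintype K] [Field L] [Fintype L] [Algebra K L]
    (U : Submodule K (L × L)) (x : L) (hx : x ∈ U.map (LinearMap.fst K L L)) :
    (univ.filter fun y : L => ((x, y) : L × L) ∈ U).card =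
      Fintype.card K ^ Module.finrank K ↥(U ⊓ ax2 K L) := by
  obtain ⟨v, hv, hvx⟩ := hx
  have hv' : v = (x, v.2) := Prod.ext hvx rfl
  rw [← Fb_zero]
  apply Finset.card_bij' (fun y _ => y - v.2) (fun z _ => v.2 + z)
  · intro y hy
    have h1 := U.sub_mem (Finset.mem_filter.mp hy).2 hv
    refine Finset.mem_filter.mpr ⟨Finset.mem_univ _, ?_⟩
    rw [hv'] at h1
    have h2 : ((x, y) : L × L) - (x, v.2) = (0, y - v.2) := by
      rw [Prod.mk_sub_mk, sub_self]
    rw [h2] at h1
    exact h1
  · intro z hz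
    have h1 := U.add_mem hv (Finset.mem_filter.mp hz).2
    refine Finset.mem_filter.mpr ⟨Finset.mem_univ _, ?_⟩
    rw [hv'] at h1
    have h2 : ((x, v.2) : L × L) + (0, z) = (x, v.2 + z) := by
      rw [Prod.mk_add_mk, add_zero]
    rw [h2] at h1
    exact h1
  · intro y _
    ring
  · intro z _
    ring

theorem tFb : S_Hx → S_Fb := by
  intro hHx K L _ _ _ _ _ k D hD
  have hfd : FiniteDimensional K L := inferInstance
  refine ⟨?_, ?_⟩
  · intro U hU x
    obtain ⟨hUo, hU2⟩ := Finset.mem_filter.mp hU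
    have hUD : U ∈ D := (Finset.mem_filter.mp hUo).1
    have h0 : Module.finrank K ↥(U ⊓ ax2 K L) = 0 := by
      rw [hU2]
      exact finrank_bot K _
    have h1 := Fb_rank U
    rw [h0, add_zero, hD.2.2.1 U hUD] at h1
    have h2 : U.map (LinearMap.fst K L L) = ⊤ :=
      Submodule.eq_top_of_finrank_eq (by rw [h1, hD.2.1])
    have h3 := Fb_fib U x (by rw [h2]; exact Submodule.mem_top)
    rw [h0, pow_zero] at h3
    exact h3
  · intro U hU
    obtain ⟨hUo, hU2⟩ := Finset.mem_filter.mp hU
    have hUD : U ∈ D := (Finset.mem_filter.mp hUo).1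
    have h0 : Module.finrank K ↥(U ⊓ ax2 K L) = 1 := by
      have h3 := (hHx K L k D hD U hUo).2.1
      have h4 : Module.finrank K ↥(U ⊓ ax2 K L) ≠ 0 := by
        intro h5
        exact hU2 (Submodule.finrank_eq_zero.mp h5)
      omega
    have h1 := Fb_rank U
    rw [h0, hD.2.2.1 U hUD] at h1
    refine ⟨h1, fun x => ⟨fun hx => ?_, fun hx => ?_⟩⟩
    · have h3 := Fb_fib U x hx
      rw [h0, pow_one] at h3
      exact h3
    · rw [Finset.card_eq_zero, Finset.filter_eq_empty_iff]
      intro y _ hy
      exact hx ⟨(x, y), hy, rfl⟩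

end Pool.Agent.MP8bH
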