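import Pool.Agent.Lib.MP_8b575b_co.Hom.Spec

/-! Hom/Fi: the end of the proof. -/

set_option autoImplicit false

namespace Pool.Agent.MP8bH

open Finset Polynomial Pool.Agent.MP8bT

open scoped Classical

private theorem fi_card {K L : Type} [Field K] [Field L] [Algebra K L]
    (D : Finset (Submodule K (L × L))) : D.card ≤ (Do D).card + 2 := by
  have h1 : D ⊆ Do D ∪ {ax1 K L, ax2 K L} := by
    intro U hU
    by_cases h2 : U = ax1 K L
    · exact mem_union_right _ (by rw [h2]; simp)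
    by_cases h3 : U = ax2 K L
    · exact mem_union_right _ (by rw [h3]; simp)
    exact mem_union_left _ (mem_filter.2 ⟨hU, h2, h3⟩)
  exact (card_le_card h1).trans ((card_union_le _ _).trans (Nat.add_le_add_left card_le_two _))

/-- **Fi** -/
theorem tFi : S_Mu → S_Ex → S_Hf → S_Fi := by
  intro hMu hEx hHf K L _ _ _ _ _ k hk hfr hq D hD hmeet hinv
  have hH : Hm k D := by
    refine ⟨hk, hfr, hD, hmeet, fun b hb U hU => ?_⟩
    have h1 : sc K (1 : L) b = LinearMap.id.prodMap (LinearMap.mulLeft K b) := by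
      unfold sc
      rw [LinearMap.mulLeft_one]
    rw [h1]
    exact hinv b hb U hU
  by_contra hcon
  push Not at hcon
  have h2 := fi_card D
  obtain ⟨-, h3, -⟩ := hMu K L k D hH
  have hq2 : 2 ≤ Fintype.card K := Fintype.one_lt_card
  obtain ⟨Q, hQ⟩ : ∃ Q, Q = Fintype.card K ^ k := ⟨_, rfl⟩
  have hQ1 : 1 ≤ Q := by
    rw [hQ]
    exact Nat.one_le_pow _ _ (by omega)
  have hQQ : Fintype.card K ^ (2 * k) = Q * Q := by
    rw [hQ, ← pow_add]
    congr 1
    ring
  obtain ⟨R, hR⟩ : ∃ R, Q = R + 1 := ⟨Q - 1, by omega⟩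
  obtain ⟨N, hN⟩ : ∃ N, N = mu D + (HH D).card := ⟨_, rfl⟩
  rw [← hQ, ← hN, hR, Nat.add_sub_cancel] at h3
  rw [hQQ, hR] at hcon
  have h4 : (R + 1) * (R + 1) ≤ R * N := by
    rw [← h3]
    omega
  have h5 : R + 3 ≤ N := by
    by_contra h
    have h6 : N ≤ R + 2 := by omega
    have h7 : R * N ≤ R * (R + 2) := Nat.mul_le_mul_left R h6
    nlinarith
  have h8 : (Fintype.card K ^ k - 1) * (Fintype.card K ^ k + 2) ≤ (Do D).card := by
    rw [← hQ, h3, hR, Nat.add_sub_cancel]
    exact Nat.mul_le_mul_left R h5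
  obtain ⟨h9, x₁, x₂, h10, h11, h12, h13, h14⟩ := hEx K L k D hH h8
  have h15 : 3 * Fintype.card K < (Fintype.card K - 1) * (k - 1) := by
    rcases hq with h | h
    · omega
    · exact h
  exact hHf K L k D hH h9 h15 x₁ x₂ h10 h12 h13 h14 h11

end Pool.Agent.MP8bH
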