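import Pool.Agent.Lib.MP_8b575b_co.Hom.Spec

/-! # MP_8b575b_co, Hom/Fr: invariant sets of codewords (helper97) -/

set_option autoImplicit false

namespace Pool.Agent.MP8bH

open Finset Polynomial Pool.Agent.MP8bT

open scoped Classical

variable {K L : Type} [Field K] [Field L] [Algebra K L]

private theorem fr_mul (b c : L) : sc K 1 (b * c) = (sc K 1 b).comp (sc K 1 c) := by
  refine LinearMap.ext fun v => ?_
  change ((1 : L) * v.1, b * c * v.2) = ((1 : L) * ((1 : L) * v.1), b * (c * v.2))
  simp only [one_mul, mul_assoc]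

private theorem fr_one : sc K (1 : L) 1 = LinearMap.id := by
  refine LinearMap.ext fun v => ?_
  change ((1 : L) * v.1, (1 : L) * v.2) = v
  simp only [one_mul]

private theorem fr_comp (b c : L) (U : Submodule K (L × L)) :
    (U.map (sc K 1 c)).map (sc K 1 b) = U.map (sc K 1 (b * c)) := by
  rw [fr_mul, Submodule.map_comp]

private theorem fr_inv (b : L) (hb : b ≠ 0) (U : Submodule K (L × L)) :
    (U.map (sc K 1 b)).map (sc K 1 b⁻¹) = U := by
  rw [fr_comp, inv_mul_cancel₀ hb, fr_one, Submodule.map_id]

theorem tFr : S_Hx → S_Fr := by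
  intro hHx K L _ _ _ _ _ k D hm E
  have hcL : Fintype.card L = Fintype.card K ^ k := by
    rw [← hm.2.1]
    exact Module.card_eq_pow_finrank
  induction E using Finset.strongInduction with
  | H E ih =>
    intro hE hinv
    rcases E.eq_empty_or_nonempty with rfl | ⟨U, hU⟩
    · simp
    · have hOE : ((univ.filter fun b : L => b ≠ 0).image fun b => U.map (sc K 1 b)) ⊆ E := by
        intro W hW
        obtain ⟨b, hb, rfl⟩ := Finset.mem_image.1 hW
        exact hinv b (Finset.mem_filter.1 hb).2 U hU
      have hUO : U ∈ (univ.filter fun b : L => b ≠ 0).image fun b => U.map (sc K 1 b) :=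
        Finset.mem_image.2 ⟨1, by simp, by rw [fr_one, Submodule.map_id]⟩
      have hOc : ((univ.filter fun b : L => b ≠ 0).image fun b => U.map (sc K 1 b)).card =
          Fintype.card K ^ k - 1 := by
        rw [Finset.card_image_of_injOn, Finset.filter_ne',
          Finset.card_erase_of_mem (Finset.mem_univ _), Finset.card_univ, hcL]
        intro b hb c hc h
        have hb' : b ≠ 0 := (Finset.mem_filter.1 hb).2
        have hc' : c ≠ 0 := (Finset.mem_filter.1 hc).2
        have h1 : U.map (sc K 1 (b⁻¹ * c)) = U := by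
          rw [← fr_comp, ← show U.map (sc K 1 b) = U.map (sc K 1 c) from h, fr_inv b hb']
        have h2 := (hHx K L k D hm U (hE hU)).2.2.2 (b⁻¹ * c)
          (mul_ne_zero (inv_ne_zero hb') hc') h1
        rwa [inv_mul_eq_one₀ hb'] at h2
      have hinv' : ∀ b : L, b ≠ 0 →
          ∀ W ∈ E \ ((univ.filter fun b : L => b ≠ 0).image fun b => U.map (sc K 1 b)),
          W.map (sc K 1 b) ∈
            E \ ((univ.filter fun b : L => b ≠ 0).image fun b => U.map (sc K 1 b)) := by
        intro b hb W hW
        obtain ⟨hW1, hW2⟩ := Finset.mem_sdiff.1 hW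
        refine Finset.mem_sdiff.2 ⟨hinv b hb W hW1, fun h => hW2 ?_⟩
        obtain ⟨c, hc, hcW⟩ := Finset.mem_image.1 h
        refine Finset.mem_image.2 ⟨b⁻¹ * c, Finset.mem_filter.2 ⟨Finset.mem_univ _,
          mul_ne_zero (inv_ne_zero hb) (Finset.mem_filter.1 hc).2⟩, ?_⟩
        rw [← fr_comp, show U.map (sc K 1 c) = W.map (sc K 1 b) from hcW, fr_inv b hb]
      have h1 := ih _ (Finset.sdiff_ssubset hOE ⟨U, hUO⟩) (Finset.sdiff_subset.trans hE) hinv'
      have h2 := Finset.card_sdiff_add_card_eq_card hOE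
      rw [hOc] at h2
      rw [← h2]
      exact dvd_add h1 dvd_rfl

end Pool.Agent.MP8bH
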