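import Pool.Agent.Lib.MP_8b575b_co.Hom.SpecB

/-!
# MP_8b575b_co: the product above `c x` (module H4, helper13; adapted from Hom/H1.lean)
-/

set_option autoImplicit false

namespace Pool.Agent.MP8bH

open Finset Polynomial Pool.Agent.MP8bT

open scoped Classical

private theorem h4_prod {L : Type} [Field L] [Fintype L] :
    (∏ y : L, (X - C y) : L[X]) = X ^ Fintype.card L - X := by
  have h2 := FiniteField.roots_X_pow_card_sub_X L
  have h3 : Multiset.card (X ^ Fintype.card L - X : L[X]).roots =
      (X ^ Fintype.card L - X : L[X]).natDegree := by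
    rw [h2, FiniteField.X_pow_card_sub_X_natDegree_eq L Fintype.one_lt_card]
    rfl
  have h4 : (X ^ Fintype.card L - X : L[X]).Monic := by
    apply Polynomial.monic_X_pow_sub
    rw [Polynomial.degree_X]
    exact_mod_cast Fintype.one_lt_card
  have h5 := Polynomial.prod_multiset_X_sub_C_of_monic_of_roots_card_eq h4 h3
  rw [h2] at h5
  exact h5

/-- The product over all elements. -/
private theorem h4_all {L : Type} [Field L] [Fintype L] :
    (∏ y : L, (1 - C y * X) : L[X]) = 1 - X ^ (Fintype.card L - 1) := by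
  have hn : 1 < Fintype.card L := Fintype.one_lt_card
  have hP : (∏ y ∈ univ.erase (0 : L), (X - C y) : L[X]) = X ^ (Fintype.card L - 1) - 1 := by
    have h := h4_prod (L := L)
    rw [← Finset.mul_prod_erase univ _ (Finset.mem_univ (0 : L)), map_zero, sub_zero] at h
    have h' : (X : L[X]) * ∏ y ∈ univ.erase (0 : L), (X - C y) =
        X * (X ^ (Fintype.card L - 1) - 1) := by
      rw [h, mul_sub, ← pow_succ', Nat.sub_add_cancel (by omega), mul_one]
    exact mul_left_cancel₀ X_ne_zero h'
  have h1 : (∏ y : L, (1 - C y * X) : L[X]) = ∏ y ∈ univ.erase (0 : L), (1 - C y * X) := by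
    rw [← Finset.mul_prod_erase univ _ (Finset.mem_univ (0 : L))]
    simp
  have h2 : (∏ y ∈ univ.erase (0 : L), (1 - C y * X) : L[X]) =
      C (∏ y ∈ univ.erase (0 : L), (-y)) * ∏ y ∈ univ.erase (0 : L), (X - C (y⁻¹)) := by
    rw [map_prod, ← Finset.prod_mul_distrib]
    refine Finset.prod_congr rfl fun y hy => ?_
    have hy0 : y ≠ 0 := (Finset.mem_erase.1 hy).1
    rw [mul_sub, ← C_mul, neg_mul, mul_inv_cancel₀ hy0]
    simp only [map_neg, map_one]
    ring
  have h3 : (∏ y ∈ univ.erase (0 : L), (X - C (y⁻¹)) : L[X]) =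
      ∏ y ∈ univ.erase (0 : L), (X - C y) := by
    refine Finset.prod_bij (fun y _ => y⁻¹) ?_ ?_ ?_ ?_
    · intro y hy
      exact Finset.mem_erase.2 ⟨inv_ne_zero (Finset.mem_erase.1 hy).1, Finset.mem_univ _⟩
    · intro a _ b _ h; exact inv_injective h
    · intro b hb
      exact ⟨b⁻¹, Finset.mem_erase.2 ⟨inv_ne_zero (Finset.mem_erase.1 hb).1,
        Finset.mem_univ _⟩, inv_inv b⟩
    · intro a _; rfl
  rw [h1, h2, h3, hP]
  have h4 : (∏ y ∈ univ.erase (0 : L), (-y)) = -1 := by
    have h := congrArg (Polynomial.eval 0) (h2.trans (by rw [h3, hP]))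
    rw [Polynomial.eval_prod] at h
    simp only [eval_sub, eval_one, eval_mul, eval_C, eval_X, mul_zero, sub_zero,
      Finset.prod_const_one, eval_pow, zero_pow (Nat.sub_ne_zero_of_lt hn)] at h
    linear_combination h
  rw [h4]
  simp only [map_neg, map_one]
  ring

/-- Shift of the product over all elements. -/
private theorem h4_shift {L : Type} [Field L] [Fintype L] (a : L) :
    (∏ z : L, (1 - C (a + z) * X) : L[X]) = 1 - X ^ (Fintype.card L - 1) := by
  rw [← h4_all]
  exact Fintype.prod_equiv (Equiv.addLeft a) _ _ fun z => rfl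


private theorem h4_card {K L : Type} [Field K] [Fintype K] [Field L] [Fintype L] [Algebra K L]
    (W : Submodule K (L × L)) :
    (univ.filter fun v : L × L => v ∈ W).card = Fintype.card K ^ Module.finrank K W := by
  have h1 : Fintype.card W = Fintype.card K ^ Module.finrank K W := Module.card_eq_pow_finrank
  rw [← h1, Fintype.card_subtype]

private theorem h4_mem1 {K L : Type} [Field K] [Field L] [Algebra K L] (v : L × L) :
    v ∈ ax1 K L ↔ v.2 = 0 := by
  unfold ax1
  rw [LinearMap.mem_range]
  constructor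
  · rintro ⟨y, rfl⟩
    rfl
  · intro h
    exact ⟨v.1, Prod.ext rfl h.symm⟩

private theorem h4_mem2 {K L : Type} [Field K] [Field L] [Algebra K L] (v : L × L) :
    v ∈ ax2 K L ↔ v.1 = 0 := by
  unfold ax2
  rw [LinearMap.mem_range]
  constructor
  · rintro ⟨y, rfl⟩
    rfl
  · intro h
    exact ⟨v.2, Prod.ext h.symm rfl⟩

/-- The number of the elements above `0`. -/
private theorem h4_fib {K L : Type} [Field K] [Fintype K] [Field L] [Fintype L] [Algebra K L]
    (U : Submodule K (L × L)) :
    (univ.filter fun z : L => ((0 : L), z) ∈ U).card =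
      Fintype.card K ^ Module.finrank K ↥(U ⊓ ax2 K L) := by
  rw [← h4_card (U ⊓ ax2 K L)]
  refine Finset.card_bij (fun z _ => ((0 : L), z)) ?_ ?_ ?_
  · intro z hz
    rw [Finset.mem_filter] at hz ⊢
    exact ⟨Finset.mem_univ _, hz.2, (h4_mem2 _).2 rfl⟩
  · intro a _ b _ h
    exact (Prod.ext_iff.1 h).2
  · rintro ⟨a, b⟩ hv
    rw [Finset.mem_filter] at hv
    have ha : a = 0 := (h4_mem2 _).1 hv.2.2
    subst ha
    exact ⟨b, Finset.mem_filter.2 ⟨Finset.mem_univ _, hv.2.1⟩, rfl⟩

/-- The nonzero elements above `0`. -/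
private theorem h4_fib0 {K L : Type} [Field K] [Fintype K] [Field L] [Fintype L] [Algebra K L]
    (U : Submodule K (L × L)) (h : Module.finrank K ↥(U ⊓ ax2 K L) ≤ 1) :
    (univ.filter fun z : L => z ≠ 0 ∧ ((0 : L), z) ∈ U).card =
      if U ⊓ ax2 K L = ⊥ then 0 else Fintype.card K - 1 := by
  have h2 : univ.filter (fun z : L => ((0 : L), z) ∈ U) =
      insert 0 (univ.filter (fun z : L => z ≠ 0 ∧ ((0 : L), z) ∈ U)) := by
    ext z
    simp only [Finset.mem_filter, Finset.mem_univ, true_and, Finset.mem_insert]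
    constructor
    · intro h
      by_cases hz : z = 0
      · exact Or.inl hz
      · exact Or.inr ⟨hz, h⟩
    · rintro (rfl | h)
      · exact U.zero_mem
      · exact h.2
  have h3 := h4_fib U
  rw [h2, Finset.card_insert_of_notMem (by simp)] at h3
  split_ifs with hb
  · rw [hb, finrank_bot, pow_zero] at h3
    omega
  · have h4 : Module.finrank K ↥(U ⊓ ax2 K L) ≠ 0 := by
      intro h0
      exact hb (Submodule.finrank_eq_zero.1 h0)
    have h5 : Module.finrank K ↥(U ⊓ ax2 K L) = 1 := by omega
    rw [h5, pow_one] at h3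
    omega

/-- The number of the nonscalar elements. -/
private theorem h4_ns {K L : Type} [Field K] [Fintype K] [Field L] [Fintype L] [Algebra K L] :
    (univ.filter fun z : L => Ns K z).card + Fintype.card K = Fintype.card L := by
  have h1 := Finset.card_filter_add_card_filter_not (s := (univ : Finset L)) (fun z : L => Ns K z)
  have h2 : (univ.filter fun z : L => ¬ Ns K z).card = Fintype.card K := by
    rw [← Finset.card_univ (α := K)]
    symm
    refine Finset.card_bij (fun c _ => algebraMap K L c) ?_ ?_ ?_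
    · intro c _
      rw [Finset.mem_filter]
      exact ⟨Finset.mem_univ _, fun h => h ⟨c, rfl⟩⟩
    · intro a _ b _ h; exact (algebraMap K L).injective h
    · intro z hz
      have hz' := (Finset.mem_filter.1 hz).2
      unfold Ns at hz'
      rw [not_not] at hz'
      obtain ⟨c, hc⟩ := hz'
      exact ⟨c, Finset.mem_univ _, hc⟩
  rw [h2, Finset.card_univ] at h1
  exact h1

theorem tH4 : S_Hx → S_Rc → S_H4 := by
  intro hHx hRc K L _ _ _ _ _ k D hH x hG c₀
  obtain ⟨hk4, hfr, hdim, hint, -⟩ := id hH
  obtain ⟨hx0, hGt, -, -⟩ := hG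
  have hcard : Fintype.card L = Fintype.card K ^ k := by
    have := Module.card_eq_pow_finrank (K := K) (V := L)
    rw [this, hfr]
  have hq : 2 ≤ Fintype.card K := Fintype.one_lt_card
  have hRD : ∀ U ∈ RX D x, U ∈ D ∧ ((x, 1) : L × L) ∈ U := fun U hU => Finset.mem_filter.1 hU
  have hDo : ∀ U ∈ RX D x, U ∈ Do D := by
    intro U hU
    obtain ⟨h1, h2⟩ := hRD U hU
    refine Finset.mem_filter.2 ⟨h1, ?_, ?_⟩
    · rintro rfl
      exact one_ne_zero ((h4_mem1 _).1 h2)
    · rintro rfl
      exact hx0 ((h4_mem2 _).1 h2)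
  -- the fibres over `x`
  have hpu : ∀ U ∈ RX D x, pu U (c₀ • x) =
      (1 - C (algebraMap K L c₀) * X) *
        ∏ z ∈ univ.filter (fun z : L => z ≠ 0 ∧ ((0 : L), z) ∈ U),
        (1 - C (algebraMap K L c₀ + z) * X) := by
    intro U hU
    have hU1 : ((c₀ • x, algebraMap K L c₀) : L × L) ∈ U := by
      have h0 := U.smul_mem c₀ (hRD U hU).2
      rw [Prod.smul_mk, Algebra.smul_def c₀ (1 : L), mul_one] at h0
      exact h0
    have h1 : pu U (c₀ • x) = ∏ z ∈ univ.filter (fun z : L => ((0 : L), z) ∈ U),
        (1 - C (algebraMap K L c₀ + z) * X) := by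
      unfold pu
      refine Finset.prod_bij (fun y _ => y - algebraMap K L c₀) ?_ ?_ ?_ ?_
      · intro y hy
        rw [Finset.mem_filter] at hy ⊢
        refine ⟨Finset.mem_univ _, ?_⟩
        have := U.sub_mem hy.2 hU1
        simpa using this
      · intro a _ b _ h
        exact sub_left_injective h
      · intro z hz
        rw [Finset.mem_filter] at hz
        refine ⟨algebraMap K L c₀ + z, ?_, by ring⟩
        rw [Finset.mem_filter]
        refine ⟨Finset.mem_univ _, ?_⟩
        have := U.add_mem hU1 hz.2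
        simpa using this
      · intro y _
        rw [show algebraMap K L c₀ + (y - algebraMap K L c₀) = y by ring]
    rw [h1]
    have h2 : univ.filter (fun z : L => ((0 : L), z) ∈ U) =
        insert 0 (univ.filter (fun z : L => z ≠ 0 ∧ ((0 : L), z) ∈ U)) := by
      ext z
      simp only [Finset.mem_filter, Finset.mem_univ, true_and, Finset.mem_insert]
      constructor
      · intro h
        by_cases hz : z = 0
        · exact Or.inl hz
        · exact Or.inr ⟨hz, h⟩
      · rintro (rfl | h)
        · exact U.zero_mem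
        · exact h.2
    rw [h2, Finset.prod_insert (by simp)]
    simp
  have hdisj : (RX D x : Set (Submodule K (L × L))).PairwiseDisjoint
      fun U => univ.filter (fun z : L => z ≠ 0 ∧ ((0 : L), z) ∈ U) := by
    intro U hU W hW hUW
    rw [Function.onFun, Finset.disjoint_left]
    intro z hz hz'
    rw [Finset.mem_filter] at hz hz'
    have hU' := hRD U (Finset.mem_coe.1 hU)
    have hW' := hRD W (Finset.mem_coe.1 hW)
    have h1 := hint U hU'.1 W hW'.1 hUW
    have hli : LinearIndependent K ![(⟨((x, 1) : L × L), hU'.2, hW'.2⟩ : ↥(U ⊓ W)),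
        ⟨((0, z) : L × L), hz.2.2, hz'.2.2⟩] := by
      rw [LinearIndependent.pair_iff]
      intro s t hst
      have h2 := congrArg (fun v : ↥(U ⊓ W) => (v : L × L).1) hst
      have h2' := congrArg (fun v : ↥(U ⊓ W) => (v : L × L).2) hst
      simp only [Submodule.coe_add, Submodule.coe_smul, Prod.fst_add, Prod.smul_fst,
        ZeroMemClass.coe_zero, Prod.fst_zero, Prod.snd_add, Prod.smul_snd,
        Prod.snd_zero] at h2 h2'
      have hs : s = 0 := by
        rw [smul_zero, add_zero, Algebra.smul_def] at h2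
        rcases mul_eq_zero.1 h2 with h | h
        · exact (map_eq_zero _).1 h
        · exact absurd h hx0
      refine ⟨hs, ?_⟩
      rw [hs, zero_smul, zero_add, Algebra.smul_def] at h2'
      rcases mul_eq_zero.1 h2' with h | h
      · exact (map_eq_zero _).1 h
      · exact absurd h hz.2.1
    have h3 := hli.fintype_card_le_finrank
    simp at h3
    omega
  -- the elements above `0` are not scalar
  have hns : ∀ z : L, z ≠ 0 → (∃ U ∈ RX D x, ((0 : L), z) ∈ U) → Ns K z := by
    rintro z hz ⟨U, hU, hzU⟩ ⟨c, rfl⟩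
    have hc : c ≠ 0 := by
      rintro rfl
      exact hz (map_zero _)
    have h1 : ((0 : L), (1 : L)) ∈ U := by
      have h2 := U.smul_mem c⁻¹ hzU
      have h3 : c⁻¹ • ((0 : L), algebraMap K L c) = ((0 : L), (1 : L)) := by
        rw [Prod.smul_mk, smul_zero, Algebra.smul_def, ← map_mul, inv_mul_cancel₀ hc, map_one]
      rwa [h3] at h2
    have h4 : ((x, 0) : L × L) ∈ U := by
      have h5 := U.sub_mem (hRD U hU).2 h1
      simpa using h5
    obtain ⟨-, -, h6, -⟩ := hHx K L k D hH U (hDo U hU)
    rcases h6 with h6 | h6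
    · have h7 : ((x, 0) : L × L) ∈ U ⊓ ax1 K L := ⟨h4, (h4_mem1 _).2 rfl⟩
      rw [h6, Submodule.mem_bot] at h7
      exact hx0 (Prod.ext_iff.1 h7).1
    · have h7 : ((0, 1) : L × L) ∈ U ⊓ ax2 K L := ⟨h1, (h4_mem2 _).2 rfl⟩
      rw [h6, Submodule.mem_bot] at h7
      exact one_ne_zero (Prod.ext_iff.1 h7).2
  -- the union
  have hUn : (RX D x).biUnion (fun U => univ.filter (fun z : L => z ≠ 0 ∧ ((0 : L), z) ∈ U)) =
      univ.filter (fun z : L => Ns K z) := by
    apply Finset.eq_of_subset_of_card_le
    · intro z hz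
      simp only [Finset.mem_biUnion, Finset.mem_filter, Finset.mem_univ, true_and] at hz ⊢
      obtain ⟨U, hU, hz0, hzU⟩ := hz
      exact hns z hz0 ⟨U, hU, hzU⟩
    · rw [Finset.card_biUnion (fun U hU W hW h => hdisj hU hW h)]
      have e1 : ∑ U ∈ RX D x, (univ.filter (fun z : L => z ≠ 0 ∧ ((0 : L), z) ∈ U)).card =
          ((RX D x).filter fun U => ¬ U ⊓ ax2 K L = ⊥).card * (Fintype.card K - 1) := by
        rw [← smul_eq_mul, ← Finset.sum_const, Finset.sum_filter]
        refine Finset.sum_congr rfl fun U hU => ?_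
        rw [h4_fib0 U (hHx K L k D hH U (hDo U hU)).2.1]
        by_cases hb : U ⊓ ax2 K L = ⊥
        · rw [if_pos hb, if_neg (not_not.2 hb)]
        · rw [if_neg hb, if_pos hb]
      have e2 := Finset.card_filter_add_card_filter_not (s := RX D x)
        (fun U => U ⊓ ax2 K L = ⊥)
      have e3 : ((RX D x).filter fun U => U ⊓ ax2 K L = ⊥).card = m0 D x := by
        unfold m0
        refine congrArg Finset.card (Finset.ext fun U => ?_)
        unfold D0
        simp only [Finset.mem_filter]
        constructor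
        · rintro ⟨h1, h2⟩
          exact ⟨⟨hDo U h1, h2⟩, (hRD U h1).2⟩
        · rintro ⟨⟨h1, h2⟩, h3⟩
          exact ⟨Finset.mem_filter.2 ⟨(Finset.mem_filter.1 h1).1, h3⟩, h2⟩
      have e4 := (hRc K L k D hH x hx0).1
      have e5 : ((RX D x).filter fun U => ¬ U ⊓ ax2 K L = ⊥).card =
          Fintype.card K * t1 (HH D) x := by
        omega
      have e6 := h4_ns (K := K) (L := L)
      rw [e1, e5]
      have e7 : Fintype.card K * t1 (HH D) x * (Fintype.card K - 1) + Fintype.card K =
          Fintype.card K ^ k := by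
        obtain ⟨k', rfl⟩ : ∃ k', k = k' + 1 := ⟨k - 1, by omega⟩
        rw [Nat.add_sub_cancel] at hGt
        rw [pow_succ, ← hGt]
        ring
      omega
  have hA : (∏ U ∈ RX D x, pu U (c₀ • x)) = (1 - C (algebraMap K L c₀) * X) ^ (RX D x).card *
      ∏ z ∈ univ.filter (fun z : L => Ns K z), (1 - C (algebraMap K L c₀ + z) * X) := by
    rw [Finset.prod_congr rfl hpu, Finset.prod_mul_distrib, Finset.prod_const,
      ← Finset.prod_biUnion hdisj, hUn]
  have hB : (∏ z ∈ univ.filter (fun z : L => ¬ Ns K z),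
      (1 - C (algebraMap K L c₀ + z) * X) : L[X]) = 1 - X ^ (Fintype.card K - 1) := by
    have h1 : (∏ z ∈ univ.filter (fun z : L => ¬ Ns K z),
        (1 - C (algebraMap K L c₀ + z) * X) : L[X]) =
        ∏ c : K, (1 - C (algebraMap K L c₀ + algebraMap K L c) * X) := by
      symm
      refine Finset.prod_bij (fun c _ => algebraMap K L c) ?_ ?_ ?_ ?_
      · intro c _
        rw [Finset.mem_filter]
        exact ⟨Finset.mem_univ _, fun h => h ⟨c, rfl⟩⟩
      · intro a _ b _ h; exact (algebraMap K L).injective h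
      · intro z hz
        have hz' := (Finset.mem_filter.1 hz).2
        unfold Ns at hz'
        rw [not_not] at hz'
        obtain ⟨c, hc⟩ := hz'
        exact ⟨c, Finset.mem_univ _, hc⟩
      · intro c _; rfl
    rw [h1]
    have h2 := congrArg (Polynomial.map (algebraMap K L)) (h4_shift (L := K) c₀)
    rw [Polynomial.map_prod] at h2
    simp only [Polynomial.map_sub, Polynomial.map_one, Polynomial.map_mul, Polynomial.map_C,
      Polynomial.map_X, Polynomial.map_pow, Polynomial.map_add, map_add] at h2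
    simp only [map_add]
    exact h2
  rw [hA, ← hB, mul_assoc, Finset.prod_filter_mul_prod_filter_not, h4_shift, hcard]

end Pool.Agent.MP8bH
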