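import Pool.Agent.Lib.MP_8b575b_co.Hom.Spec

set_option autoImplicit false

namespace Pool.Agent.MP8bH

open Finset Polynomial Pool.Agent.MP8bT

open scoped Classical

private theorem he_uniq {L : Type} [Field L] (P H : L[X]) (e : ℕ → L) (N : ℕ)
    (hP : P.coeff 0 = 1) (h0 : e 0 = H.coeff 0)
    (h1 : ∀ j, 1 ≤ j → j ≤ N → (P * ∑ i ∈ range (j + 1), C (e i) * X ^ i).coeff j = 0)
    (h2 : ∀ j, 1 ≤ j → j ≤ N → (P * H).coeff j = 0) : ∀ j ≤ N, e j = H.coeff j := by
  intro j
  induction j using Nat.strong_induction_on with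
  | _ j ih =>
    intro hj
    rcases Nat.eq_zero_or_pos j with rfl | hpos
    · exact h0
    have a1 := h1 j hpos hj
    have a2 := h2 j hpos hj
    rw [Finset.mul_sum, Polynomial.finsetSum_coeff, Finset.sum_range_succ] at a1
    have ha : ∀ i ≤ j, (P * (C (e i) * X ^ i)).coeff j = P.coeff (j - i) * e i := by
      intro i hi
      rw [← mul_assoc, Polynomial.coeff_mul_X_pow', if_pos hi, Polynomial.coeff_mul_C]
    rw [ha j le_rfl, Nat.sub_self, hP, one_mul] at a1
    rw [mul_comm, Polynomial.coeff_mul, Finset.Nat.sum_antidiagonal_eq_sum_range_succ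
      (fun a b => H.coeff a * P.coeff b), Finset.sum_range_succ, Nat.sub_self, hP, mul_one] at a2
    have hs : ∑ i ∈ range j, (P * (C (e i) * X ^ i)).coeff j =
        ∑ i ∈ range j, H.coeff i * P.coeff (j - i) := by
      refine Finset.sum_congr rfl fun i hi => ?_
      have hi' := Finset.mem_range.1 hi
      rw [ha i hi'.le, ih i hi' (by omega), mul_comm]
    rw [hs] at a1
    linear_combination a1 - a2

theorem tHe : S_Hx → S_Pi → S_Hp → S_H1 → S_He := by
  intro hHx hPi hHp hH1 K L _ _ _ _ _ k n D hT hq x hx hn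
  have hRD : ∀ U ∈ RX D x, U ∈ Do D := by
    intro U hU
    have hU' := Finset.mem_filter.1 hU
    refine Finset.mem_filter.2 ⟨hU'.1, ?_, ?_⟩
    · rintro rfl
      obtain ⟨y, hy⟩ := hU'.2
      have := congrArg Prod.snd hy
      simp at this
    · rintro rfl
      obtain ⟨y, hy⟩ := hU'.2
      have := congrArg Prod.fst hy
      simp at this
      exact hx.1 this.symm
  obtain ⟨ε, e1, e2, -, e4⟩ := hPi K L k (RX D x) hq hT.2.1 (fun U hU =>
    ⟨hT.2.2.1 U (Finset.mem_filter.1 hU).1, (hHx K L k D hT U (hRD U hU)).2.1⟩)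
  have hP0 : ∀ z : L, (∏ U ∈ RX D x, pu U z).coeff 0 = 1 := by
    intro z
    rw [Polynomial.coeff_zero_prod]
    refine Finset.prod_eq_one fun U _ => ?_
    unfold pu
    rw [Polynomial.coeff_zero_prod]
    exact Finset.prod_eq_one fun y _ => by simp
  have hk : 4 ≤ k := hT.1
  have hqk : Fintype.card K + 1 ≤ Fintype.card K ^ k - 1 := by
    have h1 : Fintype.card K ^ 2 ≤ Fintype.card K ^ k :=
      Nat.pow_le_pow_right (by omega) (by omega)
    have h2 : Fintype.card K + 2 ≤ Fintype.card K ^ 2 := by nlinarith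
    omega
  have hfr : ((1 - X) ^ (Fintype.card K ^ k) : L[X]) = 1 - X ^ (Fintype.card K ^ k) := by
    obtain ⟨p, hp⟩ := CharP.exists K
    obtain ⟨e, hpp, he⟩ := FiniteField.card K p
    haveI : CharP L p := charP_of_injective_algebraMap (algebraMap K L).injective p
    haveI : Fact p.Prime := ⟨hpp⟩
    rw [he, ← pow_mul, sub_pow_char_pow, one_pow]
  have hH := hH1 K L k D hT x hx
  obtain ⟨hx0, -, hr1, hr2⟩ := hx
  -- the two cases in one
  have hmain : ∀ H : L[X], H.coeff 0 = 1 →
      (∏ U ∈ RX D x, pu U x) * H =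
        (1 - X ^ (Fintype.card K ^ k)) * (1 - X ^ (Fintype.card K ^ k - 1)) →
      ∀ j ≤ Fintype.card K, ε j x = H.coeff j := by
    intro H hH0 hHH
    refine he_uniq (∏ U ∈ RX D x, pu U x) H (fun j => ε j x) (Fintype.card K) (hP0 x) ?_
      (fun j hj _ => e4 x j hj) ?_
    · rw [hH0]
      exact e2 x
    · intro j hj1 hjq
      rw [hHH]
      obtain ⟨a, ha⟩ : ∃ a, Fintype.card K ^ k = (Fintype.card K + 1) + a :=
        ⟨Fintype.card K ^ k - (Fintype.card K + 1), by omega⟩
      obtain ⟨b, hb⟩ : ∃ b, Fintype.card K ^ k - 1 = (Fintype.card K + 1) + b :=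
        ⟨Fintype.card K ^ k - 1 - (Fintype.card K + 1), by omega⟩
      rw [hb, ha]
      have hS : ((1 - X ^ (Fintype.card K + 1 + a)) *
          (1 - X ^ (Fintype.card K + 1 + b)) : L[X]) = 1 + X ^ (Fintype.card K + 1) *
          (-(X ^ a + X ^ b) + X ^ (Fintype.card K + 1) * (X ^ a * X ^ b)) := by
        rw [pow_add, pow_add]; ring
      rw [hS, Polynomial.coeff_add, Polynomial.coeff_one, if_neg (by omega),
        Polynomial.coeff_X_pow_mul', if_neg (by omega), add_zero]
  refine ⟨ε, e1, ?_, ?_⟩
  · intro x' hx'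
    refine he_uniq (∏ U ∈ RX D x, pu U x') _ (fun j => ε j x') _ (hP0 x') ?_
      (fun j hj _ => e4 x' j hj) ?_
    · change ε 0 x' = _
      rw [e2, Polynomial.coeff_zero_prod]
      symm
      exact Finset.prod_eq_one fun y _ => by simp
    · intro j hj hjq
      rw [hHp K L k D hT x x' hx', Polynomial.coeff_sub, Polynomial.coeff_one,
        if_neg (by omega), Polynomial.coeff_X_pow, if_neg (by omega), sub_zero]
  · rcases Nat.lt_or_ge (RX D x).card (Fintype.card K ^ k + 1) with hlt | hge
    · -- `n = q`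
      have hrk : (RX D x).card = Fintype.card K ^ k := by omega
      have hnq : n = Fintype.card K := by omega
      rw [hrk, hfr] at hH
      have hc := hmain (1 - X ^ (Fintype.card K - 1)) (by
        rw [Polynomial.coeff_sub, Polynomial.coeff_one, if_pos rfl, Polynomial.coeff_X_pow,
          if_neg (by omega), sub_zero]) hH
      rw [hnq]
      constructor
      · rw [hc _ le_rfl, Polynomial.coeff_sub, Polynomial.coeff_one, if_neg (by omega),
          Polynomial.coeff_X_pow, if_neg (by omega), sub_zero]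
      · rw [hc _ (by omega), Polynomial.coeff_sub, Polynomial.coeff_one, if_neg (by omega),
          Polynomial.coeff_X_pow, if_pos rfl, zero_sub]
        exact neg_ne_zero.2 one_ne_zero
    · -- `n = q - 1`
      have hrk : (RX D x).card = Fintype.card K ^ k + 1 := by omega
      have hnq : n = Fintype.card K - 1 := by omega
      rw [hrk, pow_succ, hfr] at hH
      have hgeo : ((∑ i ∈ range (Fintype.card K - 1), X ^ i) * (1 - X) : L[X]) =
          1 - X ^ (Fintype.card K - 1) := geom_sum_mul_neg X (Fintype.card K - 1)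
      have hne : (1 - X : L[X]) ≠ 0 := by
        intro h
        have := congrArg (fun p : L[X] => p.coeff 0) h
        simp at this
      have hco : ∀ j, (∑ i ∈ range (Fintype.card K - 1), X ^ i : L[X]).coeff j =
          if j < Fintype.card K - 1 then 1 else 0 := by
        intro j
        rw [Polynomial.finsetSum_coeff]
        simp only [Polynomial.coeff_X_pow]
        rw [Finset.sum_ite_eq]
        simp only [Finset.mem_range]
      have hc := hmain (∑ i ∈ range (Fintype.card K - 1), X ^ i) (by
        rw [hco, if_pos (by omega)]) (by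
        rw [← hgeo] at hH
        refine mul_right_cancel₀ hne ?_
        rw [mul_assoc, hH]
        ring)
      rw [hnq]
      constructor
      · rw [hc _ (by omega), hco, if_neg (by omega)]
      · rw [hc _ (by omega), hco, if_pos (by omega)]
        exact one_ne_zero

end Pool.Agent.MP8bH
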