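import Pool.Agent.Lib.MP_8b575b_co.Hom.Spec

/-! Hom/Hf: the main step. -/

set_option autoImplicit false

namespace Pool.Agent.MP8bH

open Finset Polynomial Pool.Agent.MP8bT

open scoped Classical

private theorem hf_deg {L : Type} [Field L] (S : Finset L) :
    (∏ y ∈ S, (1 - C y * X) : L[X]).natDegree ≤ S.card := by
  refine (natDegree_prod_le _ _).trans ?_
  calc ∑ y ∈ S, (1 - C y * X : L[X]).natDegree ≤ ∑ _y ∈ S, 1 :=
        Finset.sum_le_sum fun y _ => by compute_degree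
    _ = S.card := by simp

private theorem hf_c {L : Type} [Field L] (a : L) (P : L[X]) (n : ℕ) :
    ((1 - C a * X) * P).coeff n = P.coeff n - a * (X * P).coeff n := by
  rw [sub_mul, one_mul, coeff_sub, mul_assoc, coeff_C_mul]

private theorem hf_id {L : Type} [Field L] (S : Finset L) : (0 : L) ∉ S →
    (X * ∏ y ∈ S, (1 - C y * X) : L[X]).coeff S.card =
      -(∑ y ∈ S, y⁻¹) * (∏ y ∈ S, (1 - C y * X) : L[X]).coeff S.card := by
  induction S using Finset.induction_on with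
  | empty =>
    intro _
    simp
  | insert a S ha ih =>
    intro h0
    have ha0 : a ≠ 0 := fun h => h0 (by rw [h]; exact Finset.mem_insert_self _ _)
    have ih := ih fun h => h0 (Finset.mem_insert_of_mem h)
    rw [Finset.prod_insert ha, Finset.sum_insert ha, Finset.card_insert_of_notMem ha]
    obtain ⟨P, hP⟩ : ∃ P : L[X], P = ∏ y ∈ S, (1 - C y * X) := ⟨_, rfl⟩
    rw [← hP] at ih ⊢
    have hPn : P.coeff (S.card + 1) = 0 := by
      refine coeff_eq_zero_of_natDegree_lt ?_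
      rw [hP]
      exact Nat.lt_succ_of_le (hf_deg S)
    rw [coeff_X_mul, hf_c, hf_c, coeff_X_mul, hPn, ih]
    field_simp
    ring

private theorem hf_top {L : Type} [Field L] (S : Finset L) :
    (∏ y ∈ S, (1 - C y * X) : L[X]).coeff S.card = ∏ y ∈ S, (-y) := by
  induction S using Finset.induction_on with
  | empty => simp
  | insert a S ha ih =>
    rw [Finset.prod_insert ha, Finset.prod_insert ha, Finset.card_insert_of_notMem ha]
    obtain ⟨P, hP⟩ : ∃ P : L[X], P = ∏ y ∈ S, (1 - C y * X) := ⟨_, rfl⟩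
    rw [← hP] at ih ⊢
    have hPn : P.coeff (S.card + 1) = 0 := by
      refine coeff_eq_zero_of_natDegree_lt ?_
      rw [hP]
      exact Nat.lt_succ_of_le (hf_deg S)
    rw [hf_c, coeff_X_mul, hPn, ih]
    ring

private theorem hf_form {K M : Type} [Field K] [AddCommGroup M] [Module K M] {x y : M}
    (h : In2 K x y) : ∃ f : M →ₗ[K] K, f x = 0 ∧ f y = 1 := by
  have hy : y ∉ Submodule.span K {x} := by
    rw [Submodule.mem_span_singleton]
    rintro ⟨c, rfl⟩
    have := h c (-1) (by simp)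
    exact one_ne_zero (neg_eq_zero.1 this.2)
  obtain ⟨f, hf, hk⟩ := Submodule.exists_le_ker_of_notMem hy
  refine ⟨(f y)⁻¹ • f, ?_, ?_⟩
  · have : f x = 0 := hk (Submodule.mem_span_singleton_self x)
    rw [LinearMap.smul_apply, this, smul_zero]
  · rw [LinearMap.smul_apply, smul_eq_mul, inv_mul_cancel₀ hf]

private theorem hf_symm {K M : Type} [Field K] [AddCommGroup M] [Module K M] {x y : M}
    (h : In2 K x y) : In2 K y x := fun a b hab => (h b a (by rw [add_comm, hab])).symm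

private theorem hf_ne {K M : Type} [Field K] [AddCommGroup M] [Module K M] {x y : M}
    (h : In2 K x y) : x ≠ 0 := by
  rintro rfl
  exact one_ne_zero (h 1 0 (by simp)).1

theorem tHf : S_Pa → S_Ec → S_He → S_Hl → S_Hi → S_Hz → S_Hf := by
  intro hPa hEc hHe hHl hHi hHz K L _ _ _ _ _ k D hD hq hk x₁ x₂ hin g1 g2 g3 hkap
  obtain ⟨q, hqe⟩ : ∃ q, q = Fintype.card K := ⟨_, rfl⟩
  obtain ⟨x₃, hx3⟩ : ∃ x₃, x₃ = x₁ + x₂ := ⟨_, rfl⟩
  rw [← hx3] at g3 hkap
  have hfr : Module.finrank K L = k := hD.2.1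
  obtain ⟨pa1, pa2, pa3, pa4, pa5⟩ := hPa K L
  -- the numbers
  have hnum : ∀ x, Gd k D x → ∃ n, n + (RX D x).card = q ^ k + q ∧ n ≤ q ∧ 2 ≤ n := by
    intro x g
    obtain ⟨-, -, h1, h2⟩ := g
    rw [← hqe] at h1 h2
    rw [← hqe] at hq
    exact ⟨q ^ k + q - (RX D x).card, by omega, by omega, by omega⟩
  have hall : ∀ x, Gd k D x → ∃ (n : ℕ) (ε : ℕ → L → L), n ≤ q ∧ 2 ≤ n ∧
      (∀ j ≤ q, ε j ∈ Pd K L j) ∧ ε n x = 0 ∧ ε (n - 1) x ≠ 0 ∧
      ∀ x', In2 K x x' → ε n x' = ∏ y ∈ hx D x x', (-y) ∧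
        (kap D x' = 0 → ε n x' = 0) ∧
        (kap D x' ≠ 0 → ε n x' ≠ 0 ∧ ε (n - 1) x' = -(∑ y ∈ hx D x' x, y) * ε n x') := by
    intro x g
    obtain ⟨n, hn, hnq, hn2⟩ := hnum x g
    obtain ⟨ε, h1, h2, h3, h4⟩ := hHe K L k n D hD hq x g (by rw [← hqe]; exact hn)
    rw [← hqe] at h1 h2
    refine ⟨n, ε, hnq, hn2, h1, h3, h4, fun x' hx' => ?_⟩
    have hc : (hx D x x').card = n := by
      have := hEc K L k D hD x g x' hx'
      rw [← hqe] at this
      omega
    have e1 : ε n x' = ∏ y ∈ hx D x x', (-y) := by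
      rw [h2 x' hx' n hnq, ← hf_top, hc]
    obtain ⟨i1, i2⟩ := hHi K L k D hD x x' hx'
    refine ⟨e1, fun h0 => ?_, fun h0 => ?_⟩
    · rw [e1]
      exact Finset.prod_eq_zero (i2.2 h0) neg_zero
    · have hz : (0 : L) ∉ hx D x x' := fun h => h0 (i2.1 h)
      refine ⟨?_, ?_⟩
      · rw [e1, Finset.prod_ne_zero_iff]
        intro y hy h
        rw [neg_eq_zero] at h
        exact hz (h ▸ hy)
      · have e2 : ∑ y ∈ hx D x' x, y = ∑ y ∈ hx D x x', y⁻¹ := by
          have e3 : (hx D x' x).erase 0 = (hx D x x').image (fun y => y⁻¹) := by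
            ext y
            rw [Finset.mem_erase, Finset.mem_image]
            constructor
            · rintro ⟨hy0, hy⟩
              refine ⟨y⁻¹, ?_, inv_inv y⟩
              rw [i1 _ (inv_ne_zero hy0), inv_inv]
              exact hy
            · rintro ⟨z, hz1, rfl⟩
              have hz0 : z ≠ 0 := by
                rintro rfl
                exact hz hz1
              exact ⟨inv_ne_zero hz0, (i1 z hz0).1 hz1⟩
          rw [← Finset.sum_erase (hx D x' x) (f := fun y => y) (a := 0) rfl, e3,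
            Finset.sum_image fun a _ b _ hab => inv_injective hab]
        have h5 := hf_id (hx D x x') hz
        rw [hc] at h5
        rw [e2, h2 x' hx' n hnq, ← h5, h2 x' hx' (n - 1) (by omega)]
        have hn' : n = (n - 1) + 1 := by omega
        conv_rhs => rw [hn', coeff_X_mul]
  obtain ⟨n1, ε1, b1, c1, p1, -, -, v1⟩ := hall x₁ g1
  obtain ⟨n2, ε2, b2, c2, p2, -, -, v2⟩ := hall x₂ g2
  obtain ⟨n3, ε3, b3, c3, p3, z3, w3, v3⟩ := hall x₃ g3
  obtain ⟨l1, l11, l12⟩ := hf_form hin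
  obtain ⟨l2, l22, l21⟩ := hf_form (hf_symm hin)
  have l13 : l1 x₃ = 1 := by rw [hx3, map_add, l11, l12, zero_add]
  have l23 : l2 x₃ = 1 := by rw [hx3, map_add, l21, l22, add_zero]
  have hx1 : x₁ ≠ 0 := hf_ne hin
  have hx2 : x₂ ≠ 0 := hf_ne (hf_symm hin)
  -- the hyperplane
  have hW : Module.finrank K (LinearMap.ker l1) + 1 = k := by
    have h1 := LinearMap.finrank_range_add_finrank_ker l1
    have h2 : LinearMap.range l1 = ⊤ := by
      rw [LinearMap.range_eq_top]
      intro c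
      exact ⟨c • x₂, by rw [map_smul, l12, smul_eq_mul, mul_one]⟩
    rw [h2, finrank_top, Module.finrank_self, hfr] at h1
    omega
  -- the function
  obtain ⟨F, hF⟩ : ∃ F : L → L, F = fun x => algebraMap K L (l2 x) *
      (ε3 (n3 - 1) x * (ε1 n1 x * ε2 n2 x) -
        ε3 n3 x * (ε1 (n1 - 1) x * ε2 n2 x + ε2 (n2 - 1) x * ε1 n1 x)) := ⟨_, rfl⟩
  have hFd : F ∈ Pd K L (3 * q) := by
    have d0 : (fun x => algebraMap K L (l2 x)) ∈ Pd K L 1 := by
      have := pa4 ((Algebra.linearMap K L) ∘ₗ l2)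
      exact this
    have d1 : (fun x => ε3 (n3 - 1) x * (ε1 n1 x * ε2 n2 x)) ∈ Pd K L (3 * q - 1) :=
      pa3 _ _ (by omega) (pa2 (n3 - 1) (n1 + n2) _ _ (p3 _ (by omega))
        (pa2 n1 n2 _ _ (p1 _ b1) (p2 _ b2)))
    have d2 : (fun x => ε1 (n1 - 1) x * ε2 n2 x) ∈ Pd K L (n1 + n2 - 1) :=
      pa3 _ _ (by omega) (pa2 (n1 - 1) n2 _ _ (p1 _ (by omega)) (p2 _ b2))
    have d3 : (fun x => ε2 (n2 - 1) x * ε1 n1 x) ∈ Pd K L (n1 + n2 - 1) :=
      pa3 _ _ (by omega) (pa2 (n2 - 1) n1 _ _ (p2 _ (by omega)) (p1 _ b1))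
    have d4 : (fun x => ε1 (n1 - 1) x * ε2 n2 x + ε2 (n2 - 1) x * ε1 n1 x) ∈
        Pd K L (n1 + n2 - 1) := Submodule.add_mem _ d2 d3
    have d5 : (fun x => ε3 n3 x * (ε1 (n1 - 1) x * ε2 n2 x + ε2 (n2 - 1) x * ε1 n1 x)) ∈
        Pd K L (3 * q - 1) :=
      pa3 _ _ (by omega) (pa2 n3 (n1 + n2 - 1) _ _ (p3 _ b3) d4)
    have d6 : (fun x => ε3 (n3 - 1) x * (ε1 n1 x * ε2 n2 x) -
        ε3 n3 x * (ε1 (n1 - 1) x * ε2 n2 x + ε2 (n2 - 1) x * ε1 n1 x)) ∈
        Pd K L (3 * q - 1) := Submodule.sub_mem _ d1 d5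
    rw [hF]
    exact pa3 _ _ (by omega) (pa2 1 (3 * q - 1) _ _ d0 d6)
  have hz := hHz K L k (3 * q) F (LinearMap.ker l1) x₃ hW (by rw [hqe]; exact hk) hFd ?_
  · have i1 : In2 K x₁ x₃ := by
      intro a b hab
      have h1 := congrArg l1 hab
      rw [map_add, map_smul, map_smul, l11, l13, map_zero, smul_zero, zero_add, smul_eq_mul,
        mul_one] at h1
      rw [h1, zero_smul, add_zero] at hab
      exact ⟨(smul_eq_zero.1 hab).resolve_right hx1, h1⟩
    have i2 : In2 K x₂ x₃ := by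
      intro a b hab
      have h1 := congrArg l2 hab
      rw [map_add, map_smul, map_smul, l22, l23, map_zero, smul_zero, zero_add, smul_eq_mul,
        mul_one] at h1
      rw [h1, zero_smul, add_zero] at hab
      exact ⟨(smul_eq_zero.1 hab).resolve_right hx2, h1⟩
    have hk3 : kap D x₃ ≠ 0 := by rw [hkap]; exact one_ne_zero
    have t1 := ((v1 x₃ i1).2.2 hk3).1
    have t2 := ((v2 x₃ i2).2.2 hk3).1
    rw [hF] at hz
    simp only [l23, map_one, z3, zero_mul, sub_zero, one_mul] at hz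
    exact mul_ne_zero w3 (mul_ne_zero t1 t2) hz
  · intro w hw hw0
    rw [LinearMap.mem_ker] at hw
    obtain ⟨x', hx'⟩ : ∃ x', x' = x₃ + w := ⟨_, rfl⟩
    have l1' : l1 x' = 1 := by rw [hx', map_add, l13, hw, add_zero]
    rw [← hx', hF]
    by_cases h20 : l2 x' = 0
    · simp only [h20, map_zero, zero_mul]
    have i1 : In2 K x₁ x' := by
      intro a b hab
      have h1 := congrArg l1 hab
      rw [map_add, map_smul, map_smul, l11, l1', map_zero, smul_zero, zero_add, smul_eq_mul,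
        mul_one] at h1
      rw [h1, zero_smul, add_zero] at hab
      exact ⟨(smul_eq_zero.1 hab).resolve_right hx1, h1⟩
    have i2 : In2 K x₂ x' := by
      intro a b hab
      have h1 := congrArg l2 hab
      rw [map_add, map_smul, map_smul, l22, map_zero, smul_zero, zero_add, smul_eq_mul] at h1
      have h2 : b = 0 := (mul_eq_zero.1 h1).resolve_right h20
      rw [h2, zero_smul, add_zero] at hab
      exact ⟨(smul_eq_zero.1 hab).resolve_right hx2, h2⟩
    have i3 : In2 K x₃ x' := by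
      intro a b hab
      have h1 := congrArg l1 hab
      rw [map_add, map_smul, map_smul, l13, l1', map_zero, smul_eq_mul, smul_eq_mul, mul_one,
        mul_one] at h1
      have h2 : b = -a := by rw [eq_neg_iff_add_eq_zero, add_comm]; exact h1
      rw [hx', h2, smul_add, neg_smul, neg_smul, ← add_assoc, add_neg_cancel, zero_add,
        neg_eq_zero] at hab
      have h3 : a = 0 := (smul_eq_zero.1 hab).resolve_right hw0
      exact ⟨h3, by rw [h2, h3, neg_zero]⟩
    by_cases h0 : kap D x' = 0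
    · have t1 := (v1 x' i1).2.1 h0
      have t3 := (v3 x' i3).2.1 h0
      simp only [t1, t3, zero_mul, mul_zero, sub_zero]
    · obtain ⟨A, hA⟩ := hHl K L k D hD hq x' (hf_ne (hf_symm i1))
      have s1 := ((v1 x' i1).2.2 h0).2
      have s2 := ((v2 x' i2).2.2 h0).2
      have s3 := ((v3 x' i3).2.2 h0).2
      rw [hA x₁ (hf_symm i1)] at s1
      rw [hA x₂ (hf_symm i2)] at s2
      rw [hA x₃ (hf_symm i3), hx3, map_add] at s3
      simp only [s1, s2, s3]
      ring

end Pool.Agent.MP8bH
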