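import Pool.Agent.Lib.MP_8b575b_co.Hom.Spec

/-! # MP_8b575b_co, Hom/Hi: the inversion (helper72) -/

set_option autoImplicit false
set_option linter.unusedSectionVars false

namespace Pool.Agent.MP8bH

open Finset Polynomial Pool.Agent.MP8bT

open scoped Classical

variable {K L : Type} [Field K] [Fintype K] [Field L] [Fintype L] [Algebra K L]

private theorem Hi_mem {b : L} (hb : b ≠ 0) (U : Submodule K (L × L)) (u v : L) :
    (u, v) ∈ U.map (sc K 1 b) ↔ (u, b⁻¹ * v) ∈ U := by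
  constructor
  · rintro ⟨w, hw, h⟩
    have h1 : (1 : L) * w.1 = u := congrArg Prod.fst h
    have h2 : b * w.2 = v := congrArg Prod.snd h
    rw [one_mul] at h1
    rw [← h1, ← h2, inv_mul_cancel_left₀ hb]
    exact hw
  · intro h
    refine ⟨_, h, ?_⟩
    show ((1 : L) * u, b * (b⁻¹ * v)) = (u, v)
    rw [mul_inv_cancel_left₀ hb, one_mul]

private theorem Hi_ax1 (v : L × L) : v ∈ ax1 K L ↔ v.2 = 0 := by
  constructor
  · rintro ⟨x, rfl⟩
    rfl
  · intro h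
    exact ⟨v.1, Prod.ext rfl h.symm⟩

private theorem Hi_ax2 (v : L × L) : v ∈ ax2 K L ↔ v.1 = 0 := by
  constructor
  · rintro ⟨x, rfl⟩
    rfl
  · intro h
    exact ⟨v.2, Prod.ext h.symm rfl⟩

private theorem Hi_hx (D : Finset (Submodule K (L × L))) (x x' y : L) :
    y ∉ hx D x x' ↔ ∃ U ∈ D, ((x, 1) : L × L) ∈ U ∧ (x', y) ∈ U := by
  unfold hx RX
  simp only [mem_filter, mem_univ, true_and, not_forall, not_not, exists_prop, and_assoc]

private theorem Hi_imp {k : ℕ} {D : Finset (Submodule K (L × L))} (hD : Hm k D) {x x' y : L} (hy : y ≠ 0)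
    (h : ∃ U ∈ D, ((x, 1) : L × L) ∈ U ∧ (x', y) ∈ U) :
    ∃ U ∈ D, ((x', 1) : L × L) ∈ U ∧ (x, y⁻¹) ∈ U := by
  obtain ⟨U, hU, h1, h2⟩ := h
  have hy' : y⁻¹ ≠ 0 := inv_ne_zero hy
  refine ⟨U.map (sc K 1 y⁻¹), hD.2.2.2.2 _ hy' U hU, ?_, ?_⟩
  · rw [Hi_mem hy', inv_inv, mul_one]
    exact h2
  · rw [Hi_mem hy', inv_inv, mul_inv_cancel₀ hy]
    exact h1

private theorem Hi_in2 {x x' : L} (h : In2 K x x') : In2 K x' x := fun a b hab => by
  have := h b a (by rw [add_comm]; exact hab)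
  exact ⟨this.2, this.1⟩

private theorem Hi_ne {x x' : L} (h : In2 K x x') : x ≠ 0 := by
  rintro rfl
  have := h 1 0 (by simp)
  exact one_ne_zero this.1

theorem tHi : S_Hx → S_Hi := by
  intro hHx K L _ _ _ _ _ k D hD x x' hin
  have hx0 : x ≠ 0 := Hi_ne hin
  have hx0' : x' ≠ 0 := Hi_ne (Hi_in2 hin)
  refine ⟨fun y hy => ?_, ?_, ?_⟩
  · rw [← not_iff_not, Hi_hx, Hi_hx]
    refine ⟨Hi_imp hD hy, fun h => ?_⟩
    have h1 := Hi_imp hD (inv_ne_zero hy) h
    rw [inv_inv] at h1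
    exact h1
  · intro h0
    by_contra hk
    have hex : ∃ U ∈ Do D, ((x', 0) : L × L) ∈ U := by
      by_contra hc
      exact hk (by unfold kap; rw [if_neg hc])
    obtain ⟨U₀, hU0, hm⟩ := hex
    have hUD : U₀ ∈ D := (mem_filter.1 hU0).1
    obtain ⟨hi1, _, hor, _⟩ := hHx K L k D hD U₀ hU0
    have h2 : U₀ ⊓ ax2 K L = ⊥ := by
      rcases hor with h | h
      · exfalso
        have : ((x', 0) : L × L) ∈ U₀ ⊓ ax1 K L := ⟨hm, (Hi_ax1 _).2 rfl⟩
        rw [h, Submodule.mem_bot] at this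
        exact hx0' (congrArg Prod.fst this)
      · exact h
    set f : U₀ →ₗ[K] L := (LinearMap.fst K L L).comp U₀.subtype with hf
    have hinj : Function.Injective f := by
      rw [← LinearMap.ker_eq_bot, Submodule.eq_bot_iff]
      intro u hu
      have h3 : (u : L × L).1 = 0 := hu
      have h4 : (u : L × L) ∈ U₀ ⊓ ax2 K L := ⟨u.2, (Hi_ax2 _).2 h3⟩
      rw [h2, Submodule.mem_bot] at h4
      exact Subtype.ext h4
    have hfin : Module.finrank K U₀ = Module.finrank K L := by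
      rw [hD.2.2.1 U₀ hUD, hD.2.1]
    have hsur : Function.Surjective f :=
      (LinearMap.injective_iff_surjective_of_finrank_eq_finrank hfin).1 hinj
    obtain ⟨u, hu⟩ := hsur x
    obtain ⟨⟨u1, z⟩, huU⟩ := u
    have hu1 : u1 = x := hu
    subst hu1
    have hz : z ≠ 0 := by
      rintro rfl
      have ha : ((u1, 0) : L × L) ∈ U₀ ⊓ ax1 K L := ⟨huU, (Hi_ax1 _).2 rfl⟩
      have hb : ((x', 0) : L × L) ∈ U₀ ⊓ ax1 K L := ⟨hm, (Hi_ax1 _).2 rfl⟩
      have hli : LinearIndependent K (![⟨_, ha⟩, ⟨_, hb⟩] : Fin 2 → ↥(U₀ ⊓ ax1 K L)) := by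
        rw [LinearIndependent.pair_iff]
        intro s t hst
        have h5 := congrArg (fun w : ↥(U₀ ⊓ ax1 K L) => (w : L × L).1) hst
        exact hin s t h5
      have h6 := hli.fintype_card_le_finrank
      rw [Fintype.card_fin] at h6
      omega
    have hz' : z⁻¹ ≠ 0 := inv_ne_zero hz
    have h7 : ∃ U ∈ D, ((u1, 1) : L × L) ∈ U ∧ (x', (0 : L)) ∈ U := by
      refine ⟨U₀.map (sc K 1 z⁻¹), hD.2.2.2.2 _ hz' U₀ hUD, ?_, ?_⟩
      · rw [Hi_mem hz', inv_inv, mul_one]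
        exact huU
      · rw [Hi_mem hz', mul_zero]
        exact hm
    exact ((Hi_hx D u1 x' 0).2 h7) h0
  · intro hk
    by_contra h0
    obtain ⟨U, hU, h1, h2⟩ := (Hi_hx D x x' 0).1 h0
    have hUo : U ∈ Do D := by
      refine mem_filter.2 ⟨hU, ?_, ?_⟩
      · rintro rfl
        exact one_ne_zero ((Hi_ax1 _).1 h1)
      · rintro rfl
        exact hx0 ((Hi_ax2 _).1 h1)
    unfold kap at hk
    rw [if_pos ⟨U, hUo, h2⟩] at hk
    exact one_ne_zero hk

end Pool.Agent.MP8bH
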