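import Pool.Agent.Lib.MP_8b575b_co.Hom.Spec

set_option autoImplicit false

namespace Pool.Agent.MP8bH

open Finset Polynomial Pool.Agent.MP8bT

open scoped Classical

private lemma Hl_prod {R : Type} [CommRing R] {ι : Type} (s : Finset ι) (f : ι → R[X])
    (h : ∀ i ∈ s, (f i).coeff 0 = 1) :
    (∏ i ∈ s, f i).coeff 0 = 1 ∧ (∏ i ∈ s, f i).coeff 1 = ∑ i ∈ s, (f i).coeff 1 := by
  induction s using Finset.induction_on with
  | empty => simp [Polynomial.coeff_one]
  | insert a s ha ih =>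
    have h0 := h a (Finset.mem_insert_self a s)
    obtain ⟨h1, h2⟩ := ih fun i hi => h i (Finset.mem_insert_of_mem hi)
    rw [Finset.prod_insert ha, Finset.sum_insert ha]
    refine ⟨?_, ?_⟩
    · rw [Polynomial.mul_coeff_zero, h0, h1, mul_one]
    · rw [Polynomial.mul_coeff_one, h0, h1, h2, one_mul, mul_one, add_comm]

private lemma Hl_lin {L : Type} [Field L] (s : Finset L) :
    (∏ y ∈ s, (1 - C y * X : L[X])).coeff 0 = 1 ∧
      (∏ y ∈ s, (1 - C y * X : L[X])).coeff 1 = - ∑ y ∈ s, y := by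
  have h := Hl_prod s (fun y : L => (1 - C y * X : L[X])) fun y _ => by simp
  refine ⟨h.1, ?_⟩
  rw [h.2, ← Finset.sum_neg_distrib]
  refine Finset.sum_congr rfl fun y _ => ?_
  rw [Polynomial.coeff_sub, Polynomial.coeff_C_mul, Polynomial.coeff_X_one, Polynomial.coeff_one]
  simp

theorem tHl (hHx : S_Hx) (hPc : S_Pc) (hHp : S_Hp) : S_Hl := by
  intro K L _ _ _ _ _ k D hD hq x hx0
  have hDo : ∀ U ∈ RX D x, U ∈ D ∧ U ∈ Do D := by
    intro U hU
    unfold RX at hU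
    rw [Finset.mem_filter] at hU
    refine ⟨hU.1, ?_⟩
    unfold Do
    rw [Finset.mem_filter]
    refine ⟨hU.1, ?_, ?_⟩
    · rintro rfl
      have h := hU.2
      simp [ax1] at h
    · rintro rfl
      have h := hU.2
      simp [ax2] at h
      exact hx0 h.symm
  have hex : ∀ U : Submodule K (L × L), ∃ ψ : L →ₗ[K] L, U ∈ RX D x → ∀ x', (pu U x').coeff 1 = ψ x' := by
    intro U
    by_cases hU : U ∈ RX D x
    · obtain ⟨hUD, hUDo⟩ := hDo U hU
      obtain ⟨ψ, hψ⟩ := (hPc K L k U hq hD.2.1 (hD.2.2.1 U hUD) (hHx K L k D hD U hUDo).2.1).2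
      exact ⟨ψ, fun _ => hψ⟩
    · exact ⟨0, fun h => absurd h hU⟩
  choose ψ hψ using hex
  refine ⟨∑ U ∈ RX D x, ψ U, fun x' hxx' => ?_⟩
  have h1 := hHp K L k D hD x x' hxx'
  have h2 := congrArg (fun P : L[X] => P.coeff 1) h1
  have h3 : ∀ U ∈ RX D x, (pu U x').coeff 0 = 1 := fun U _ => (Hl_lin _).1
  obtain ⟨h4, h5⟩ := Hl_prod (RX D x) (fun U => pu U x') h3
  obtain ⟨h6, h7⟩ := Hl_lin (hx D x x')
  have h8 : ((1 : L[X]) - X ^ (Fintype.card K ^ k - 1)).coeff 1 = 0 := by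
    have h9 : 81 ≤ Fintype.card K ^ k :=
      calc 81 = 3 ^ 4 := by norm_num
        _ ≤ Fintype.card K ^ 4 := Nat.pow_le_pow_left hq 4
        _ ≤ Fintype.card K ^ k := Nat.pow_le_pow_right (by omega) hD.1
    rw [Polynomial.coeff_sub, Polynomial.coeff_one, Polynomial.coeff_X_pow, if_neg (by omega),
      if_neg (by omega), sub_zero]
  rw [h8, Polynomial.mul_coeff_one, h4, h5, h6, h7, one_mul, mul_one] at h2
  rw [LinearMap.sum_apply]
  have h10 : ∑ U ∈ RX D x, (pu U x').coeff 1 = ∑ U ∈ RX D x, ψ U x' :=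
    Finset.sum_congr rfl fun U hU => hψ U hU x'
  rw [← h10]
  linear_combination -h2

end Pool.Agent.MP8bH
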