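import Pool.Agent.Lib.MP_8b575b_co.Hom.Spec

set_option autoImplicit false

namespace Pool.Agent.MP8bH

open Finset Polynomial Pool.Agent.MP8bT

open scoped Classical

private theorem Hp_prod {L : Type} [Field L] [Fintype L] :
    (∏ y : L, (X - C y) : L[X]) = X ^ Fintype.card L - X := by
  have h2 := FiniteField.roots_X_pow_card_sub_X L
  have h3 : Multiset.card (X ^ Fintype.card L - X : L[X]).roots =
      (X ^ Fintype.card L - X : L[X]).natDegree := by
    rw [h2, FiniteField.X_pow_card_sub_X_natDegree_eq L Fintype.one_lt_card]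
    rfl
  have h4 : (X ^ Fintype.card L - X : L[X]).Monic := by
    apply Polynomial.monic_X_pow_sub
    rw [Polynomial.degree_X]
    exact_mod_cast Fintype.one_lt_card
  have h5 := Polynomial.prod_multiset_X_sub_C_of_monic_of_roots_card_eq h4 h3
  rw [h2] at h5
  exact h5

/-- The product over all elements. -/
private theorem Hp_all {L : Type} [Field L] [Fintype L] :
    (∏ y : L, (1 - C y * X) : L[X]) = 1 - X ^ (Fintype.card L - 1) := by
  have hn : 1 < Fintype.card L := Fintype.one_lt_card
  have hP : (∏ y ∈ univ.erase (0 : L), (X - C y) : L[X]) = X ^ (Fintype.card L - 1) - 1 := by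
    have h := Hp_prod (L := L)
    rw [← Finset.mul_prod_erase univ _ (Finset.mem_univ (0 : L)), map_zero, sub_zero] at h
    have h' : (X : L[X]) * ∏ y ∈ univ.erase (0 : L), (X - C y) =
        X * (X ^ (Fintype.card L - 1) - 1) := by
      rw [h, mul_sub, ← pow_succ', Nat.sub_add_cancel (by omega), mul_one]
    exact mul_left_cancel₀ X_ne_zero h'
  have h1 : (∏ y : L, (1 - C y * X) : L[X]) = ∏ y ∈ univ.erase (0 : L), (1 - C y * X) := by
    rw [← Finset.mul_prod_erase univ _ (Finset.mem_univ (0 : L))]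
    simp
  have h2 : (∏ y ∈ univ.erase (0 : L), (1 - C y * X) : L[X]) =
      C (∏ y ∈ univ.erase (0 : L), (-y)) * ∏ y ∈ univ.erase (0 : L), (X - C (y⁻¹)) := by
    rw [map_prod, ← Finset.prod_mul_distrib]
    refine Finset.prod_congr rfl fun y hy => ?_
    have hy0 : y ≠ 0 := (Finset.mem_erase.1 hy).1
    rw [mul_sub, ← C_mul, neg_mul, mul_inv_cancel₀ hy0]
    simp only [map_neg, map_one]
    ring
  have h3 : (∏ y ∈ univ.erase (0 : L), (X - C (y⁻¹)) : L[X]) =
      ∏ y ∈ univ.erase (0 : L), (X - C y) := by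
    refine Finset.prod_bij (fun y _ => y⁻¹) ?_ ?_ ?_ ?_
    · intro y hy
      exact Finset.mem_erase.2 ⟨inv_ne_zero (Finset.mem_erase.1 hy).1, Finset.mem_univ _⟩
    · intro a _ b _ h; exact inv_injective h
    · intro b hb
      exact ⟨b⁻¹, Finset.mem_erase.2 ⟨inv_ne_zero (Finset.mem_erase.1 hb).1,
        Finset.mem_univ _⟩, inv_inv b⟩
    · intro a _; rfl
  rw [h1, h2, h3, hP]
  have h4 : (∏ y ∈ univ.erase (0 : L), (-y)) = -1 := by
    have h := congrArg (Polynomial.eval 0) (h2.trans (by rw [h3, hP]))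
    rw [Polynomial.eval_prod] at h
    simp only [eval_sub, eval_one, eval_mul, eval_C, eval_X, mul_zero, sub_zero,
      Finset.prod_const_one, eval_pow, zero_pow (Nat.sub_ne_zero_of_lt hn)] at h
    linear_combination h
  rw [h4]
  simp only [map_neg, map_one]
  ring

theorem tHp : S_Hp := by
  intro K L _ _ _ _ _ k D hT x x' hx
  have hcard : Fintype.card L = Fintype.card K ^ k := by
    have := Module.card_eq_pow_finrank (K := K) (V := L)
    rw [this, hT.2.1]
  rw [← hcard, ← Hp_all]
  have hdisj : (RX D x : Set (Submodule K (L × L))).PairwiseDisjoint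
      fun U => univ.filter (fun y : L => (x', y) ∈ U) := by
    intro U hU W hW hUW
    rw [Function.onFun, Finset.disjoint_left]
    intro y hy hy'
    rw [Finset.mem_filter] at hy hy'
    have hU' := Finset.mem_filter.1 (Finset.mem_coe.1 hU)
    have hW' := Finset.mem_filter.1 (Finset.mem_coe.1 hW)
    have h1 := hT.2.2.2.1 U hU'.1 W hW'.1 hUW
    have hli : LinearIndependent K ![(⟨((x, 1) : L × L), hU'.2, hW'.2⟩ : ↥(U ⊓ W)),
        ⟨((x', y) : L × L), hy.2, hy'.2⟩] := by
      rw [LinearIndependent.pair_iff]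
      intro s t hst
      have h2 := congrArg (fun v : ↥(U ⊓ W) => (v : L × L).1) hst
      simp only [Submodule.coe_add, Submodule.coe_smul, Prod.fst_add, Prod.smul_fst,
        ZeroMemClass.coe_zero, Prod.fst_zero] at h2
      exact hx s t h2
    have h3 := hli.fintype_card_le_finrank
    simp at h3
    omega
  have hprod : (∏ U ∈ RX D x, pu U x') =
      ∏ y ∈ (RX D x).biUnion fun U => univ.filter (fun y : L => (x', y) ∈ U),
        (1 - C y * X) := by
    rw [Finset.prod_biUnion hdisj]
    rfl
  rw [hprod, ← Finset.prod_union]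
  · refine Finset.prod_congr ?_ fun _ _ => rfl
    ext y
    simp only [MP8bH.hx, Finset.mem_union, Finset.mem_biUnion, Finset.mem_filter,
      Finset.mem_univ, true_and, iff_true]
    by_cases h : ∃ U ∈ RX D x, (x', y) ∈ U
    · exact Or.inl h
    · push Not at h
      exact Or.inr h
  · rw [Finset.disjoint_left]
    intro y hy hy'
    obtain ⟨U, hU, hUy⟩ := Finset.mem_biUnion.1 hy
    exact (Finset.mem_filter.1 hy').2 U hU (Finset.mem_filter.1 hUy).2

end Pool.Agent.MP8bH
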