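import Pool.Agent.Lib.MP_8b575b_co.Hom.Spec

/-! # MP_8b575b_co, Hom/Hx: intersections with the axes (helper74) -/

set_option autoImplicit false
set_option linter.unusedSectionVars false

namespace Pool.Agent.MP8bH

open Finset Polynomial Pool.Agent.MP8bT

open scoped Classical

variable {K L : Type} [Field K] [Fintype K] [Field L] [Fintype L] [Algebra K L]

private theorem Hx_big {L : Type} [Field L] [Fintype L] (h : 2 < Fintype.card L) (y z : L) :
    ∃ w : L, w ≠ y ∧ z - w ≠ y := by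
  have h1 : ({y, z - y} : Finset L).card < (univ : Finset L).card :=
    lt_of_le_of_lt Finset.card_le_two (by rw [Finset.card_univ]; exact h)
  obtain ⟨w, _, hw⟩ := Finset.exists_mem_notMem_of_card_lt_card h1
  rw [Finset.mem_insert, Finset.mem_singleton, not_or] at hw
  refine ⟨w, hw.1, ?_⟩
  intro h2
  apply hw.2
  rw [← h2]
  ring

private theorem Hx_mem {b : L} (hb : b ≠ 0) (U : Submodule K (L × L)) (u v : L) :
    (u, v) ∈ U.map (sc K 1 b) ↔ (u, b⁻¹ * v) ∈ U := by
  constructor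
  · rintro ⟨w, hw, h⟩
    have h1 : 1 * w.1 = u := congrArg Prod.fst h
    have h2 : b * w.2 = v := congrArg Prod.snd h
    rw [one_mul] at h1
    rw [← h1, ← h2, inv_mul_cancel_left₀ hb]
    exact hw
  · intro h
    refine ⟨_, h, ?_⟩
    show (1 * u, b * (b⁻¹ * v)) = (u, v)
    rw [one_mul, mul_inv_cancel_left₀ hb]

private theorem Hx_ax1 (v : L × L) : v ∈ ax1 K L ↔ v.2 = 0 := by
  constructor
  · rintro ⟨x, rfl⟩
    rfl
  · intro h
    exact ⟨v.1, Prod.ext rfl h.symm⟩

private theorem Hx_ax2 (v : L × L) : v ∈ ax2 K L ↔ v.1 = 0 := by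
  constructor
  · rintro ⟨x, rfl⟩
    rfl
  · intro h
    exact ⟨v.2, Prod.ext h.symm rfl⟩

private theorem Hx_pair {k : ℕ} {D : Finset (Submodule K (L × L))} (hT : Hm k D)
    {U W : Submodule K (L × L)} (hU : U ∈ D) (hW : W ∈ D) {s t : L × L} (hs : s ≠ 0)
    (ht : ∀ c : K, c • s ≠ t) (h1 : s ∈ U) (h2 : t ∈ U) (h3 : s ∈ W) (h4 : t ∈ W) : U = W := by
  by_contra hne
  have h5 := hT.2.2.2.1 U hU W hW hne
  have hli : LinearIndependent K ![s, t] := by
    rw [LinearIndependent.pair_iff' hs]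
    exact ht
  have hli2 : LinearIndependent K
      (![⟨s, h1, h3⟩, ⟨t, h2, h4⟩] : Fin 2 → ↥(U ⊓ W)) := by
    apply LinearIndependent.of_comp (U ⊓ W).subtype
    have : ((U ⊓ W).subtype ∘ (![⟨s, h1, h3⟩, ⟨t, h2, h4⟩] : Fin 2 → ↥(U ⊓ W))) = ![s, t] := by
      funext i
      fin_cases i <;> rfl
    rw [this]
    exact hli
  have := hli2.fintype_card_le_finrank
  rw [Fintype.card_fin] at this
  omega

private theorem Hx_rk (U A A' : Submodule K (L × L)) (g : (L × L) →ₗ[K] (L × L))
    (h1 : ∀ v ∈ U, g v = 0 → v ∈ A) (h2 : ∀ v ∈ U, g v ∈ U ⊓ A') :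
    Module.finrank K U ≤ Module.finrank K ↥(U ⊓ A) + Module.finrank K ↥(U ⊓ A') := by
  have hr := LinearMap.finrank_range_add_finrank_ker (g.domRestrict U)
  have e1 : Module.finrank K (LinearMap.range (g.domRestrict U)) ≤
      Module.finrank K ↥(U ⊓ A') := by
    refine Submodule.finrank_mono ?_
    rintro _ ⟨v, rfl⟩
    exact h2 v v.2
  have e2 : Module.finrank K (LinearMap.ker (g.domRestrict U)) ≤ Module.finrank K ↥(U ⊓ A) := by
    rw [LinearEquiv.finrank_eq ((Submodule.equivSubtypeMap U (LinearMap.ker (g.domRestrict U))))]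
    refine Submodule.finrank_mono ?_
    rintro _ ⟨v, hv, rfl⟩
    exact ⟨v.2, h1 v v.2 hv⟩
  omega

private theorem Hx_rng (U : Submodule K (L × L)) (hU : 3 ≤ Module.finrank K U)
    (hA : Module.finrank K ↥(U ⊓ ax1 K L) ≤ 1) (y : L) :
    ∃ v ∈ U, ∀ a : K, a • y ≠ v.2 := by
  by_contra hcon
  push Not at hcon
  have hr := LinearMap.finrank_range_add_finrank_ker ((LinearMap.snd K L L).domRestrict U)
  have e1 : Module.finrank K (LinearMap.range ((LinearMap.snd K L L).domRestrict U)) ≤ 1 := by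
    refine le_trans (Submodule.finrank_mono (t := Submodule.span K {y}) ?_) ?_
    · rintro _ ⟨v, rfl⟩
      obtain ⟨a, ha⟩ := hcon v v.2
      exact Submodule.mem_span_singleton.2 ⟨a, ha⟩
    · have := finrank_span_le_card (R := K) ({y} : Set L)
      simpa using this
  have e2 : Module.finrank K (LinearMap.ker ((LinearMap.snd K L L).domRestrict U)) ≤ 1 := by
    refine le_trans ?_ hA
    rw [LinearEquiv.finrank_eq ((Submodule.equivSubtypeMap U (LinearMap.ker
      ((LinearMap.snd K L L).domRestrict U))))]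
    refine Submodule.finrank_mono ?_
    rintro _ ⟨v, hv, rfl⟩
    exact ⟨v.2, (Hx_ax1 _).2 hv⟩
  omega

theorem tHx : S_Hx := by
  intro K L _ _ _ _ _ k D hT U hU
  obtain ⟨hk, hL, hfr, hint, hinv⟩ := hT
  obtain ⟨hUD, hU1, hU2⟩ := Finset.mem_filter.mp hU
  have hcL : 2 < Fintype.card L := by
    rw [Module.card_eq_pow_finrank (K := K) (V := L), hL]
    have h1 : 2 ^ 4 ≤ 2 ^ k := Nat.pow_le_pow_right (by norm_num) hk
    have h2 : 2 ^ k ≤ Fintype.card K ^ k := Nat.pow_le_pow_left Fintype.one_lt_card k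
    omega
  have hd1 : Module.finrank K (ax1 K L) = k := by
    unfold ax1
    rw [LinearMap.finrank_range_of_inj LinearMap.inl_injective, hL]
  have hd2 : Module.finrank K (ax2 K L) = k := by
    unfold ax2
    rw [LinearMap.finrank_range_of_inj LinearMap.inr_injective, hL]
  have hsc : ∀ (b : L) (v : L × L), sc K 1 b v = (v.1, b * v.2) := fun b v =>
    Prod.ext (one_mul _) rfl
  -- not all the maps fix `U`
  have hall : ¬ ∀ b : L, b ≠ 0 → U.map (sc K 1 b) = U := by
    intro hfix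
    obtain ⟨v, hv, hv0⟩ : ∃ v ∈ U, v.2 ≠ 0 := by
      by_contra h
      push Not at h
      apply hU1
      apply Submodule.eq_of_le_of_finrank_eq
      · intro v hv
        exact (Hx_ax1 v).mpr (h v hv)
      · rw [hfr U hUD, hd1]
    have hz : ∀ z : L, z ≠ v.2 → ((0, z) : L × L) ∈ U := by
      intro z hz
      have hb : 1 - z / v.2 ≠ 0 := by
        intro h
        apply hz
        have h4 : z / v.2 = 1 := (sub_eq_zero.mp h).symm
        exact (div_eq_one_iff_eq hv0).mp h4
      have h5 : sc K 1 (1 - z / v.2) v ∈ U := by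
        have h6 : sc K 1 (1 - z / v.2) v ∈ U.map (sc K 1 (1 - z / v.2)) := ⟨v, hv, rfl⟩
        rwa [hfix _ hb] at h6
      have h7 := U.sub_mem hv h5
      have h8 : v - sc K 1 (1 - z / v.2) v = (0, z) := by
        rw [hsc]
        apply Prod.ext
        · simp
        · change v.2 - (1 - z / v.2) * v.2 = z
          field_simp
          ring
      rwa [h8] at h7
    have hle : ax2 K L ≤ U := by
      rintro ⟨x, z⟩ hx
      have h1 : x = 0 := (Hx_ax2 _).mp hx
      subst h1
      obtain ⟨w, hw1, hw2⟩ := Hx_big hcL v.2 z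
      have h2 := U.add_mem (hz w hw1) (hz (z - w) hw2)
      have h3 : ((0, w) : L × L) + (0, z - w) = (0, z) := by
        apply Prod.ext
        · simp
        · change w + (z - w) = z
          ring
      rwa [h3] at h2
    exact hU2 (Submodule.eq_of_le_of_finrank_eq hle (by rw [hfr U hUD, hd2])).symm
  -- the first axis
  have hi : Module.finrank K ↥(U ⊓ ax1 K L) ≤ 1 := by
    by_contra hcon
    rw [not_le] at hcon
    refine hall fun b hb => ?_
    by_contra hne
    have h1 := hint _ (hinv b hb U hUD) U hUD hne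
    have h2 : U ⊓ ax1 K L ≤ U.map (sc K 1 b) ⊓ U := by
      intro x hx
      refine ⟨⟨x, hx.1, ?_⟩, hx.1⟩
      have h3 := (Hx_ax1 x).mp hx.2
      rw [hsc, h3, mul_zero]
      exact Prod.ext rfl h3.symm
    have h3 := Submodule.finrank_mono h2
    omega
  -- the second axis
  have hj : Module.finrank K ↥(U ⊓ ax2 K L) ≤ 1 := by
    by_contra hcon
    rw [not_le] at hcon
    refine hall fun b hb => ?_
    by_contra hne
    have h1 := hint _ (hinv b hb U hUD) U hUD hne
    have h2 : U.map (sc K 1 b) ⊔ U ≤ U ⊔ ax2 K L := by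
      refine sup_le ?_ le_sup_left
      rintro _ ⟨v, hv, rfl⟩
      have h4 : sc K 1 b v = v + (0, (b - 1) * v.2) := by
        rw [hsc]
        refine Prod.ext ?_ ?_
        · simp
        · change b * v.2 = v.2 + (b - 1) * v.2
          ring
      rw [h4]
      exact Submodule.add_mem_sup hv ((Hx_ax2 _).2 rfl)
    have h3 := Submodule.finrank_mono h2
    have h5 := Submodule.finrank_sup_add_finrank_inf_eq (U.map (sc K 1 b)) U
    have h6 := Submodule.finrank_sup_add_finrank_inf_eq U (ax2 K L)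
    rw [hfr _ (hinv b hb U hUD), hfr U hUD] at h5
    rw [hfr U hUD, hd2] at h6
    omega
  -- the stabilizers are trivial
  have hfree : ∀ b : L, b ≠ 0 → U.map (sc K 1 b) = U → b = 1 := by
    intro b _ h
    by_contra hb1
    have hb1' : 1 - b ≠ 0 := fun h0 => hb1 (sub_eq_zero.1 h0).symm
    have hr := Hx_rk U (ax1 K L) (ax2 K L) (LinearMap.id - sc K 1 b) ?_ ?_
    · rw [hfr U hUD] at hr
      omega
    · intro v _ hv
      refine (Hx_ax1 _).2 ?_
      have h7 : v.2 - b * v.2 = 0 := congrArg Prod.snd hv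
      have h8 : (1 - b) * v.2 = 0 := by
        rw [← h7]
        ring
      exact (mul_eq_zero.1 h8).resolve_left hb1'
    · intro v hv
      refine ⟨U.sub_mem hv ?_, (Hx_ax2 _).2 ?_⟩
      · have h6 : sc K 1 b v ∈ U.map (sc K 1 b) := ⟨v, hv, rfl⟩
        rwa [h] at h6
      · change v.1 - 1 * v.1 = 0
        ring
  refine ⟨hi, hj, ?_, hfree⟩
  by_contra hcon
  rw [not_or] at hcon
  obtain ⟨⟨s, s'⟩, hs, hs0⟩ := Submodule.exists_mem_ne_zero_of_ne_bot hcon.1
  obtain ⟨⟨e', e⟩, he, he0⟩ := Submodule.exists_mem_ne_zero_of_ne_bot hcon.2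
  have hs' : s' = 0 := (Hx_ax1 _).1 hs.2
  have he' : e' = 0 := (Hx_ax2 _).1 he.2
  subst hs' he'
  have hs1 : s ≠ 0 := fun h => hs0 (Prod.ext h rfl)
  have he1 : e ≠ 0 := fun h => he0 (Prod.ext rfl h)
  obtain ⟨v, hv, hvy⟩ := Hx_rng U (by rw [hfr U hUD]; omega) hi e
  have hw0 : v.2 ≠ 0 := by
    intro h
    exact hvy 0 (by rw [zero_smul, h])
  have hwy : v.2 + e ≠ 0 := by
    intro h
    refine hvy (-1) ?_
    rw [neg_smul, one_smul]
    exact (eq_neg_of_add_eq_zero_left h).symm
  have hb0 : (v.2 + e) / v.2 ≠ 0 := div_ne_zero hwy hw0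
  have hW : U.map (sc K 1 ((v.2 + e) / v.2)) = U := by
    refine Hx_pair ⟨hk, hL, hfr, hint, hinv⟩ (hinv _ hb0 U hUD) hUD (s := (s, 0))
      (t := (v.1, v.2 + e)) ?_ ?_ ?_ ?_ hs.1 ?_
    · intro h
      exact hs1 (congrArg Prod.fst h)
    · intro c h
      have h3 : c • (0 : L) = v.2 + e := congrArg Prod.snd h
      rw [smul_zero] at h3
      exact hwy h3.symm
    · rw [Hx_mem hb0, mul_zero]
      exact hs.1
    · rw [Hx_mem hb0, inv_div, div_mul_cancel₀ _ hwy]
      exact hv
    · have h3 := U.add_mem hv he.1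
      have h4 : v + ((0 : L), e) = (v.1, v.2 + e) := Prod.ext (add_zero _) rfl
      rwa [h4] at h3
  have h9 := hfree _ hb0 hW
  rw [div_eq_one_iff_eq hw0] at h9
  exact he1 (by simpa using h9)

end Pool.Agent.MP8bH
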