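import Pool.Agent.Lib.MP_8b575b_co.Hom.Spec

set_option autoImplicit false

namespace Pool.Agent.MP8bH

open Finset Polynomial Pool.Agent.MP8bT

open scoped Classical

private theorem hz_deg {K σ : Type} [Field K] [Fintype σ] (ψ : (σ → K)) (c : K) :
    (MvPolynomial.C c + ∑ i, MvPolynomial.C (ψ i) * MvPolynomial.X i :
      MvPolynomial σ K).totalDegree ≤ 1 := by
  refine (MvPolynomial.totalDegree_add _ _).trans (max_le (by simp) ?_)
  refine MvPolynomial.totalDegree_finsetSum_le fun i _ => ?_
  refine (MvPolynomial.totalDegree_mul _ _).trans ?_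
  simp [MvPolynomial.totalDegree_X]

private theorem hz_list {K σ : Type} [Field K] [Fintype σ] (l : List (MvPolynomial σ K))
    (h : ∀ p ∈ l, p.totalDegree ≤ 1) : l.prod.totalDegree ≤ l.length := by
  induction l with
  | nil => simp
  | cons a l ih =>
    rw [List.prod_cons, List.length_cons]
    refine (MvPolynomial.totalDegree_mul _ _).trans ?_
    have h1 := h a (by simp)
    have h2 := ih fun p hp => h p (by simp [hp])
    omega

theorem tHz : S_Hz := by
  intro K L _ _ _ _ _ k d f W x₀ hW hd hf h0
  have : Module.Finite K L := Module.Finite.of_finite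
  have hW1 : Module.finrank K W = k - 1 := by omega
  let b : Module.Basis (Fin (k - 1)) K W := Module.finBasisOfFinrankEq K W hW1
  let x : (Fin (k - 1) → K) → L := fun t => x₀ + ∑ i, t i • (b i : L)
  have key : ∑ t, f (x t) = 0 := by
    clear h0
    induction hf using Submodule.span_induction with
    | mem f hf =>
      obtain ⟨l, hl, rfl⟩ := hf
      simp only
      rw [← map_sum]
      have hp : ∀ t : Fin (k - 1) → K, (l.map fun φ => φ (x t)).prod =
          MvPolynomial.eval t ((l.map fun φ => (MvPolynomial.C (φ x₀) +
            ∑ i, MvPolynomial.C (φ (b i : L)) * MvPolynomial.X i :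
              MvPolynomial (Fin (k - 1)) K)).prod) := by
        intro t
        rw [map_list_prod, List.map_map]
        congr 1
        refine List.map_congr_left fun φ _ => ?_
        simp only [x, Function.comp, map_add, map_sum, map_mul, MvPolynomial.eval_C,
          MvPolynomial.eval_X, map_smul, smul_eq_mul]
        congr 1
        exact Finset.sum_congr rfl fun i _ => mul_comm _ _
      simp only [hp]
      rw [MvPolynomial.sum_eval_eq_zero, map_zero]
      refine lt_of_le_of_lt (hz_list _ ?_) ?_
      · intro p hp
        obtain ⟨φ, _, rfl⟩ := List.mem_map.1 hp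
        exact hz_deg _ _
      · rw [List.length_map, Fintype.card_fin]; omega
    | zero => simp
    | add f g _ _ hf hg => simp only [Pi.add_apply, Finset.sum_add_distrib, hf, hg, add_zero]
    | smul c f _ hf => simp only [Pi.smul_apply, smul_eq_mul, ← Finset.mul_sum, hf, mul_zero]
  have h2 : ∑ t, f (x t) = f (x 0) := by
    refine Finset.sum_eq_single_of_mem 0 (Finset.mem_univ _) fun t _ ht => ?_
    refine h0 _ (Submodule.sum_mem _ fun i _ => Submodule.smul_mem _ _ (b i).2) fun h3 => ?_
    have h4 : ∑ i, t i • b i = 0 := by
      apply Subtype.ext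
      simpa using h3
    exact ht (_root_.funext (Fintype.linearIndependent_iff.1 b.linearIndependent t h4))
  rw [key] at h2
  simpa [x] using h2.symm

end Pool.Agent.MP8bH
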