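import Pool.Agent.Lib.MP_8b575b_co.Hom.SpecB

/-! Hom/I2: the end of the proof of Theorem H2. -/

set_option autoImplicit false

namespace Pool.Agent.MP8bH

open Finset Polynomial Pool.Agent.MP8bT

open scoped Classical

private theorem i2_card {K L : Type} [Field K] [Field L] [Algebra K L]
    (D : Finset (Submodule K (L × L))) : D.card ≤ (Do D).card + 2 := by
  have h1 : D ⊆ Do D ∪ {ax1 K L, ax2 K L} := by
    intro U hU
    by_cases h2 : U = ax1 K L
    · exact mem_union_right _ (by rw [h2]; simp)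
    by_cases h3 : U = ax2 K L
    · exact mem_union_right _ (by rw [h3]; simp)
    exact mem_union_left _ (mem_filter.2 ⟨hU, h2, h3⟩)
  exact (card_le_card h1).trans ((card_union_le _ _).trans (Nat.add_le_add_left card_le_two _))

private theorem i2_ind {K L : Type} [Field K] [Field L] [Algebra K L]
    (h : 1 < Module.finrank K L) : ∃ x₁ x₂ : L, In2 K x₁ x₂ := by
  obtain ⟨y, hy⟩ := exists_linearIndependent_pair_of_one_lt_finrank (R := K) (M := L) h
    (one_ne_zero (α := L))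
  exact ⟨1, y, fun a b hab => LinearIndependent.pair_iff.1 hy a b hab⟩

private theorem i2_num (q k : ℕ) (hq : 3 ≤ q) (hk : 5 ≤ k) (h3 : ¬ (k = 5 ∧ q = 3))
    (h4 : ¬ (k = 5 ∧ q = 4)) : 3 * q < (q - 1) * (k - 1) := by
  obtain ⟨a, rfl⟩ : ∃ a, q = a + 3 := ⟨q - 3, by omega⟩
  obtain ⟨b, rfl⟩ : ∃ b, k = b + 5 := ⟨k - 5, by omega⟩
  have e1 : a + 3 - 1 = a + 2 := by omega
  have e2 : b + 5 - 1 = b + 4 := by omega
  rw [e1, e2]
  rcases Nat.eq_zero_or_pos b with hb | hb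
  · subst hb
    omega
  · nlinarith

/-- **I2** -/
theorem tI2 : S_Mu → S_Ex → S_Hf → S_Mx → S_K3 → S_K4 → S_I2 := by
  intro hMu hEx hHf hMx hK3 hK4 K L _ _ _ _ _ k hk hfr hq D hD hmeet hinv
  have hH : Hm k D := by
    refine ⟨hk, hfr, hD, hmeet, fun b hb U hU => ?_⟩
    have h1 : sc K (1 : L) b = LinearMap.id.prodMap (LinearMap.mulLeft K b) := by
      unfold sc
      rw [LinearMap.mulLeft_one]
    rw [h1]
    exact hinv b hb U hU
  by_contra hcon
  push Not at hcon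
  have h2 := i2_card D
  obtain ⟨-, h3, -⟩ := hMu K L k D hH
  have hq2 : 2 ≤ Fintype.card K := Fintype.one_lt_card
  obtain ⟨Q, hQ⟩ : ∃ Q, Q = Fintype.card K ^ k := ⟨_, rfl⟩
  have hQ1 : 1 ≤ Q := by
    rw [hQ]
    exact Nat.one_le_pow _ _ (by omega)
  have hQQ : Fintype.card K ^ (2 * k) = Q * Q := by
    rw [hQ, ← pow_add]
    congr 1
    ring
  obtain ⟨R, hR⟩ : ∃ R, Q = R + 1 := ⟨Q - 1, by omega⟩
  obtain ⟨N, hN⟩ : ∃ N, N = mu D + (HH D).card := ⟨_, rfl⟩
  rw [← hQ, ← hN, hR, Nat.add_sub_cancel] at h3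
  rw [hQQ, hR] at hcon
  have h4 : (R + 1) * (R + 1) ≤ R * N := by
    rw [← h3]
    omega
  have h5 : R + 3 ≤ N := by
    by_contra h
    have h6 : N ≤ R + 2 := by omega
    have h7 : R * N ≤ R * (R + 2) := Nat.mul_le_mul_left R h6
    nlinarith
  have h8 : (Fintype.card K ^ k - 1) * (Fintype.card K ^ k + 2) ≤ (Do D).card := by
    rw [← hQ, h3, hR, Nat.add_sub_cancel]
    exact Nat.mul_le_mul_left R h5
  obtain ⟨h9, -⟩ := hEx K L k D hH h8
  have hk5 : 5 ≤ k := by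
    rcases hq with h | h
    · omega
    · exact h
  have hall := hMx K L k D hH hk5 h9 h8
  by_cases c3 : k = 5 ∧ Fintype.card K = 3
  · obtain ⟨rfl, c3⟩ := c3
    exact hK3 K L D hH c3 hall
  by_cases c4 : k = 5 ∧ Fintype.card K = 4
  · obtain ⟨rfl, c4⟩ := c4
    exact hK4 K L D hH c4 hall
  have h15 := i2_num (Fintype.card K) k h9 hk5 c3 c4
  obtain ⟨x₁, x₂, h10⟩ := i2_ind (K := K) (L := L) (by rw [hfr]; omega)
  have n1 : x₁ ≠ 0 := by
    intro h0
    have := (h10 1 0 (by simp [h0])).1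
    exact one_ne_zero this
  have n2 : x₂ ≠ 0 := by
    intro h0
    have := (h10 0 1 (by simp [h0])).2
    exact one_ne_zero this
  have n3 : x₁ + x₂ ≠ 0 := by
    intro h0
    have := (h10 1 1 (by simpa using h0)).1
    exact one_ne_zero this
  exact hHf K L k D hH h9 h15 x₁ x₂ h10 (hall x₁ n1).1 (hall x₂ n2).1 (hall _ n3).1
    (hall _ n3).2.2

end Pool.Agent.MP8bH
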