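import Pool.Agent.Lib.MP_8b575b_co.Hom.SpecB

/-!
# MP_8b575b_co, codes with a group of homologies: the case `q = 3`, `k = 5`
-/

set_option autoImplicit false

namespace Pool.Agent.MP8bH

open Finset Polynomial Pool.Agent.MP8bT

open scoped Classical

private theorem K3_ne {K M : Type} [Field K] [AddCommGroup M] [Module K M] {x x' : M}
    (h : In2 K x x') : x ≠ 0 ∧ x' ≠ 0 ∧ x + x' ≠ 0 := by
  refine ⟨fun h0 => ?_, fun h0 => ?_, fun h0 => ?_⟩
  · exact one_ne_zero (h 1 0 (by rw [h0, smul_zero, zero_smul, add_zero])).1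
  · exact one_ne_zero (h 0 1 (by rw [h0, smul_zero, zero_smul, add_zero])).2
  · exact one_ne_zero (h 1 1 (by rw [one_smul, one_smul]; exact h0)).1

private theorem K3_in {K M : Type} [Field K] [AddCommGroup M] [Module K M] {x x' : M}
    (h : In2 K x x') (c : K) : In2 K x (x' + c • x) := by
  intro a b hab
  have h1 : (a + b * c) • x + b • x' = 0 := by
    rw [← hab, add_smul, mul_smul, smul_add]
    abel
  obtain ⟨h2, h3⟩ := h _ _ h1
  rw [h3, zero_mul, add_zero] at h2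
  exact ⟨h2, h3⟩

private theorem K3_in' {K M : Type} [Field K] [AddCommGroup M] [Module K M] {x x' : M}
    (h : In2 K x x') : In2 K (x + x') x' := by
  intro a b hab
  have h1 : a • x + (a + b) • x' = 0 := by
    rw [← hab, add_smul, smul_add]
    abel
  obtain ⟨h2, h3⟩ := h _ _ h1
  rw [h2, zero_add] at h3
  exact ⟨h2, h3⟩

private theorem K3_three {K L : Type} [Field K] [Fintype K] [Field L] [Algebra K L]
    (h : Fintype.card K = 3) : (3 : L) = 0 := by
  have h1 : ((Fintype.card K : ℕ) : K) = 0 := Nat.cast_card_eq_zero K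
  rw [h] at h1
  have h2 := congrArg (algebraMap K L) h1
  rw [map_natCast, map_zero] at h2
  exact_mod_cast h2

private theorem K3_cube {L : Type} [Field L] (h : (3 : L) = 0) {a b : L}
    (hab : a ^ 3 = b ^ 3) : a = b := by
  have h1 : (a - b) ^ 3 = 0 := by
    linear_combination hab - (a ^ 2 * b - a * b ^ 2) * h
  exact sub_eq_zero.mp (pow_eq_zero_iff (three_ne_zero) |>.mp h1)

private theorem K3_step {K L : Type} [Field K] [Fintype K] [Field L] [Fintype L] [Algebra K L]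
    (hD3 : S_D3) (hF3 : S_F3) (hPr : S_Pr)
    (D : Finset (Submodule K (L × L))) (hD : Hm 5 D) (hq : Fintype.card K = 3)
    (hG : ∀ x : L, x ≠ 0 → Gd 5 D x ∧ (RX D x).card = Fintype.card K ^ 5 ∧ kap D x = 1)
    (x₁ x₂ : L) (hx12 : In2 K x₁ x₂) :
    ∏ y ∈ hx D x₁ x₂, (y + 1) = ∏ y ∈ hx D x₁ x₂, y + 1 := by
  have h3L : (3 : L) = 0 := K3_three (K := K) hq
  have h3K : (3 : K) = 0 := K3_three (K := K) hq
  have h12 : (1 : K) ≠ -1 := by
    intro h
    have h2 : (2 : K) = 0 := by linear_combination h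
    exact one_ne_zero (show (1 : K) = 0 by linear_combination h3K - h2)
  have hm1 : (-1 : K) ≠ 0 := neg_ne_zero.mpr one_ne_zero
  obtain ⟨n1, n2, n3⟩ := K3_ne hx12
  obtain ⟨G, hGP, hG0, hGz, hGc⟩ := hF3 K L 5 D hD le_rfl (by omega) x₁ x₂ hx12 (by
    rintro x (rfl | rfl | rfl)
    · exact ⟨(hG _ n1).1, (hG _ n1).2.1⟩
    · exact ⟨(hG _ n2).1, (hG _ n2).2.1⟩
    · exact ⟨(hG _ n3).1, (hG _ n3).2.1⟩)
  have hdiff := (hD3 K L G).2.2 hGP (-x₂) x₂ x₂ x₁
  have e1 : -x₂ + x₂ + x₂ + x₁ = x₁ + x₂ := by ring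
  have e2 : -x₂ + x₂ + x₂ = x₂ := by ring
  have e3 : -x₂ + x₂ + x₁ = x₁ := by ring
  have e4 : -x₂ + x₂ = 0 := by ring
  rw [e1, e2, e3, e4] at hdiff
  have e5 : G (-x₂ + x₁) = 0 := by
    have h := hG0 1 (-1) one_ne_zero hm1 h12
    rw [one_smul, neg_smul, one_smul] at h
    rw [add_comm]
    exact h
  rw [e5, hGz] at hdiff
  obtain ⟨hP, hP2, hP3, hP4⟩ := hPr K L 5 D hD hG x₁ x₂ hx12
  obtain ⟨-, -, -, hP5⟩ := hPr K L 5 D hD hG (x₁ + x₂) x₂ (K3_in' hx12)
  obtain ⟨hA, hA1, hA2⟩ := hP 0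
  obtain ⟨hB, hB1, hB2⟩ := hP 1
  rw [map_zero, zero_smul, add_zero] at hA1
  rw [map_zero, zero_smul, add_zero] at hA2
  rw [map_zero] at hA
  simp only [add_zero] at hA hA1 hA2
  rw [map_one, one_smul, add_comm x₂ x₁] at hB1 hB2
  rw [map_one] at hB
  obtain ⟨g1, g2, g3⟩ := hGc 1 one_ne_zero
  rw [one_smul] at g1 g2 g3
  obtain ⟨-, g4, -⟩ := hGc (-1) hm1
  rw [hP5 (-1) hm1, hP4 (-1) hm1, neg_smul, one_smul, map_neg, map_one] at g4
  rw [hB2, hA2] at g1
  rw [hP3, hA1] at g2 g4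
  rw [hB1, hP2] at g3
  rw [g1, g2, g3, g4] at hdiff
  set A := ∏ y ∈ hx D x₁ x₂, y with hAdef
  set B := ∏ y ∈ hx D x₁ x₂, (y + 1) with hBdef
  have key : B ^ 3 = (A + 1) ^ 3 := by
    field_simp at hdiff
    linear_combination (-1 : L) * hdiff - (A ^ 2 + A + A ^ 3 + 1) * h3L
  exact K3_cube h3L key

private theorem K3_exists {K L : Type} [Field K] [Field L] [Algebra K L] {k : ℕ}
    (h : Module.finrank K L = k) (hk : 2 ≤ k) : ∃ x₁ x₂ : L, In2 K x₁ x₂ := by
  have hfin : Module.Finite K L := Module.finite_of_finrank_pos (by omega)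
  let b := Module.finBasisOfFinrankEq K L h
  refine ⟨b ⟨0, by omega⟩, b ⟨1, by omega⟩, fun a c hac => ?_⟩
  have hne : (⟨0, by omega⟩ : Fin k) ≠ ⟨1, by omega⟩ := by
    intro h
    have := congrArg Fin.val h
    simp at this
  have h1 := congrArg (fun v => b.repr v ⟨0, by omega⟩) hac
  have h2 := congrArg (fun v => b.repr v ⟨1, by omega⟩) hac
  simp only [map_add, map_smul, Module.Basis.repr_self, Finsupp.add_apply, Finsupp.smul_apply,
    Finsupp.single_eq_same, map_zero, Finsupp.zero_apply, smul_eq_mul, mul_one] at h1 h2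
  rw [Finsupp.single_eq_of_ne hne, mul_zero, add_zero] at h1
  rw [Finsupp.single_eq_of_ne hne.symm, mul_zero, zero_add] at h2
  exact ⟨h1, h2⟩

theorem tK3 : S_Ec → S_D3 → S_F3 → S_Tr → S_Pr → S_K3 := by
  intro hEc hD3 hF3 hTr hPr K L _ _ _ _ _ D hD hq hG
  have h3L : (3 : L) = 0 := K3_three (K := K) hq
  obtain ⟨x₁, x₂, h12⟩ := K3_exists hD.2.1 (by norm_num)
  have hcard : (hx D x₁ x₂).card = 3 := by
    have h := hEc K L 5 D hD x₁ (hG x₁ (K3_ne h12).1).1 x₂ h12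
    rw [(hG x₁ (K3_ne h12).1).2.1] at h
    omega
  have hs1 := K3_step hD3 hF3 hPr D hD hq hG x₁ x₂ h12
  have hs2 := K3_step hD3 hF3 hPr D hD hq hG x₁ (x₂ + (-1 : K) • x₁) (K3_in h12 _)
  have himg : hx D x₁ (x₂ + (-1 : K) • x₁) =
      (hx D x₁ x₂).image fun y => y + algebraMap K L (-1) := by
    ext y
    rw [Finset.mem_image]
    constructor
    · intro hy
      refine ⟨y - algebraMap K L (-1), ?_, sub_add_cancel _ _⟩
      rw [← (hTr K L D x₁ x₂ (y - algebraMap K L (-1)) (-1)).1, sub_add_cancel]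
      exact hy
    · rintro ⟨z, hz, rfl⟩
      exact (hTr K L D x₁ x₂ z (-1)).1.2 hz
  rw [himg, Finset.prod_image fun a _ b _ hab => add_right_cancel hab,
    Finset.prod_image fun a _ b _ hab => add_right_cancel hab, map_neg, map_one] at hs2
  obtain ⟨y₁, y₂, y₃, hy12, hy13, hy23, hB⟩ := Finset.card_eq_three.mp hcard
  rw [hB, Finset.prod_insert (by simp [hy12, hy13]), Finset.prod_insert (by simp [hy23]),
    Finset.prod_singleton, Finset.prod_insert (by simp [hy12, hy13]),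
    Finset.prod_insert (by simp [hy23]), Finset.prod_singleton] at hs1 hs2
  have e1 : y₁ + y₂ + y₃ = 0 := by
    linear_combination (-1 : L) * hs1 + hs2 + (y₁ + y₂ + y₃) * h3L
  have e2 : y₁ * y₂ + y₁ * y₃ + y₂ * y₃ = 0 := by
    linear_combination hs1 - e1
  have c1 : y₁ ^ 3 = y₁ * y₂ * y₃ := by
    linear_combination y₁ ^ 2 * e1 - y₁ * e2
  have c2 : y₂ ^ 3 = y₁ * y₂ * y₃ := by
    linear_combination y₂ ^ 2 * e1 - y₂ * e2
  exact hy12 (K3_cube h3L (c1.trans c2.symm))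

end Pool.Agent.MP8bH
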