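import Pool.Agent.Lib.MP_8b575b_co.Hom.SpecB

/-!
# MP_8b575b_co, codes with a group of homologies: the case `q = 4`, `k = 5`
-/

set_option autoImplicit false

namespace Pool.Agent.MP8bH

open Finset Polynomial Pool.Agent.MP8bT

open scoped Classical

private theorem K4_ne {K M : Type} [Field K] [AddCommGroup M] [Module K M] {x x' : M}
    (h : In2 K x x') : x ≠ 0 ∧ x' ≠ 0 ∧ x + x' ≠ 0 := by
  refine ⟨fun h0 => ?_, fun h0 => ?_, fun h0 => ?_⟩
  · exact one_ne_zero (h 1 0 (by rw [h0, smul_zero, zero_smul, add_zero])).1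
  · exact one_ne_zero (h 0 1 (by rw [h0, smul_zero, zero_smul, add_zero])).2
  · exact one_ne_zero (h 1 1 (by rw [one_smul, one_smul]; exact h0)).1

private theorem K4_in {K M : Type} [Field K] [AddCommGroup M] [Module K M] {x x' : M}
    (h : In2 K x x') (c : K) : In2 K x (x' + c • x) := by
  intro a b hab
  have h1 : (a + b * c) • x + b • x' = 0 := by
    rw [← hab, add_smul, mul_smul, smul_add]
    abel
  obtain ⟨h2, h3⟩ := h _ _ h1
  rw [h3, zero_mul, add_zero] at h2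
  exact ⟨h2, h3⟩

private theorem K4_in' {K M : Type} [Field K] [AddCommGroup M] [Module K M] {x x' : M}
    (h : In2 K x x') : In2 K (x + x') x' := by
  intro a b hab
  have h1 : a • x + (a + b) • x' = 0 := by
    rw [← hab, add_smul, smul_add]
    abel
  obtain ⟨h2, h3⟩ := h _ _ h1
  rw [h2, zero_add] at h3
  exact ⟨h2, h3⟩

private theorem K4_symm {K M : Type} [Field K] [AddCommGroup M] [Module K M] {x x' : M}
    (h : In2 K x x') : In2 K x' x := by
  intro a b hab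
  obtain ⟨h2, h3⟩ := h b a (by rw [← hab]; abel)
  exact ⟨h3, h2⟩

private theorem K4_in3 {K M : Type} [Field K] [AddCommGroup M] [Module K M] {x x' : M}
    (h : In2 K x x') : In2 K x (x + x') := by
  have h1 := K4_in h 1
  rwa [one_smul, add_comm x' x] at h1

private theorem K4_two {K L : Type} [Field K] [Fintype K] [Field L] [Algebra K L]
    (h : Fintype.card K = 4) : (2 : L) = 0 := by
  have h1 : ((Fintype.card K : ℕ) : K) = 0 := Nat.cast_card_eq_zero K
  rw [h] at h1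
  have h2 := congrArg (algebraMap K L) h1
  rw [map_natCast, map_zero] at h2
  have h3 : (2 : L) ^ 2 = 0 := by
    have h4 : ((4 : ℕ) : L) = 4 := by norm_num
    rw [h4] at h2
    linear_combination h2
  exact pow_eq_zero_iff (two_ne_zero) |>.mp h3

private theorem K4_omega {K : Type} [Field K] [Fintype K] (h : Fintype.card K = 4) :
    ∃ w : K, w ≠ 0 ∧ w ≠ 1 ∧ w ^ 2 + w + 1 = 0 ∧ w ^ 3 = 1 := by
  have h1 : ∃ w : K, w ∉ ({0, 1} : Finset K) := by
    by_contra hcon
    push_neg at hcon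
    have h2 : (univ : Finset K) ⊆ {0, 1} := fun x _ => hcon x
    have h3 := Finset.card_le_card h2
    have h4 : ({0, 1} : Finset K).card ≤ 2 := Finset.card_le_two
    rw [Finset.card_univ, h] at h3
    omega
  obtain ⟨w, hw⟩ := h1
  rw [Finset.mem_insert, Finset.mem_singleton, not_or] at hw
  have h5 : w ^ 3 = 1 := by
    have h6 := FiniteField.pow_card_sub_one_eq_one w hw.1
    rwa [h] at h6
  refine ⟨w, hw.1, hw.2, ?_, h5⟩
  have h7 : (w - 1) * (w ^ 2 + w + 1) = 0 := by linear_combination h5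
  exact (mul_eq_zero.1 h7).resolve_left (sub_ne_zero.2 hw.2)

/-- The relation from the third difference. -/
private theorem K4_rel {K L : Type} [Field K] [Fintype K] [Field L] [Fintype L] [Algebra K L]
    (hD3 : S_D3) (hq : Fintype.card K = 4) (x₁ x₂ : L) (G : L → L) (hGP : G ∈ Pd K L 2)
    (hG0 : ∀ s t : K, s ≠ 0 → t ≠ 0 → s ≠ t → G (s • x₁ + t • x₂) = 0) (hGz : G 0 = 0)
    (w : K) (hw0 : w ≠ 0) (hw1 : w ≠ 1) (hw2 : w ^ 2 + w + 1 = 0) :
    G x₁ - G (w • x₂) - G (w ^ 2 • (x₁ + x₂)) = 0 := by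
  have h2K : (2 : K) = 0 := K4_two (K := K) hq
  have hdiff := (hD3 K L G).2.2 hGP 0 x₁ (x₁ + w • x₂) (w • x₁ + w ^ 2 • x₂)
  have e1 : 0 + x₁ + (x₁ + w • x₂) + (w • x₁ + w ^ 2 • x₂) = w • x₁ + (1 : K) • x₂ := by
    have h : 0 + x₁ + (x₁ + w • x₂) + (w • x₁ + w ^ 2 • x₂) =
        (2 : K) • x₁ + w • x₁ + (w ^ 2 + w + 1) • x₂ - (2 : K) • x₂ + (1 : K) • x₂ := by
      module
    rw [h, h2K, hw2]
    module
  have e2 : 0 + x₁ + (x₁ + w • x₂) = w • x₂ := by
    have h : 0 + x₁ + (x₁ + w • x₂) = (2 : K) • x₁ + w • x₂ := by module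
    rw [h, h2K]
    module
  have e3 : 0 + x₁ + (w • x₁ + w ^ 2 • x₂) = w ^ 2 • (x₁ + x₂) := by
    have h : 0 + x₁ + (w • x₁ + w ^ 2 • x₂) =
        (w ^ 2 + w + 1) • x₁ - (2 : K) • (w ^ 2 • x₁) + w ^ 2 • (x₁ + x₂) := by module
    rw [h, h2K, hw2]
    module
  have e4 : 0 + (x₁ + w • x₂) + (w • x₁ + w ^ 2 • x₂) = w ^ 2 • x₁ + (1 : K) • x₂ := by
    have h : 0 + (x₁ + w • x₂) + (w • x₁ + w ^ 2 • x₂) =
        (w ^ 2 + w + 1) • x₁ - (2 : K) • (w ^ 2 • x₁) + w ^ 2 • x₁ +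
          (w ^ 2 + w + 1) • x₂ - (2 : K) • x₂ + (1 : K) • x₂ := by module
    rw [h, h2K, hw2]
    module
  have e5 : 0 + x₁ = x₁ := zero_add _
  have e6 : 0 + (x₁ + w • x₂) = (1 : K) • x₁ + w • x₂ := by module
  have e7 : 0 + (w • x₁ + w ^ 2 • x₂) = w • x₁ + w ^ 2 • x₂ := zero_add _
  have hw3 : w ^ 2 ≠ 0 := pow_ne_zero 2 hw0
  have hw4 : w ^ 2 ≠ 1 := by
    intro h
    refine hw0 ?_
    linear_combination hw2 - h - h2K
  have hw5 : w ≠ w ^ 2 := by
    intro h
    refine hw1 ?_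
    have h6 : w * (w - 1) = 0 := by linear_combination -h
    exact sub_eq_zero.1 ((mul_eq_zero.1 h6).resolve_left hw0)
  rw [e1, e2, e3, e4, e6, e7, e5, hGz, hG0 w 1 hw0 one_ne_zero hw1,
    hG0 (w ^ 2) 1 hw3 one_ne_zero hw4, hG0 1 w one_ne_zero hw0 (Ne.symm hw1),
    hG0 w (w ^ 2) hw0 hw3 hw5] at hdiff
  linear_combination hdiff

private theorem K4_step {K L : Type} [Field K] [Fintype K] [Field L] [Fintype L] [Algebra K L]
    (hD3 : S_D3) (hF3 : S_F3) (hPr : S_Pr)
    (D : Finset (Submodule K (L × L))) (hD : Hm 5 D) (hq : Fintype.card K = 4)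
    (hG : ∀ x : L, x ≠ 0 → Gd 5 D x ∧ (RX D x).card = Fintype.card K ^ 5 ∧ kap D x = 1)
    (x₁ x₂ : L) (hx12 : In2 K x₁ x₂) :
    (∏ y ∈ hx D x₁ x₂, y) ^ 3 = 1 := by
  have h2L : (2 : L) = 0 := K4_two (K := K) hq
  have h2K : (2 : K) = 0 := K4_two (K := K) hq
  obtain ⟨n1, n2, n3⟩ := K4_ne hx12
  obtain ⟨G, hGP, hG0, hGz, hGc⟩ := hF3 K L 5 D hD le_rfl (by omega) x₁ x₂ hx12 (by
    rintro x (rfl | rfl | rfl)
    · exact ⟨(hG _ n1).1, (hG _ n1).2.1⟩
    · exact ⟨(hG _ n2).1, (hG _ n2).2.1⟩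
    · exact ⟨(hG _ n3).1, (hG _ n3).2.1⟩)
  obtain ⟨w, hw0, hw1, hw2, hw3⟩ := K4_omega hq
  have r1 := K4_rel hD3 hq x₁ x₂ G hGP hG0 hGz w hw0 hw1 hw2
  have hv0 : w ^ 2 ≠ 0 := pow_ne_zero 2 hw0
  have hv1 : w ^ 2 ≠ 1 := by
    intro h
    refine hw0 ?_
    linear_combination hw2 - h - h2K
  have hv2 : (w ^ 2) ^ 2 + w ^ 2 + 1 = 0 := by
    linear_combination w * hw3 + hw2
  have r2 := K4_rel hD3 hq x₁ x₂ G hGP hG0 hGz (w ^ 2) hv0 hv1 hv2
  have hv3 : (w ^ 2) ^ 2 = w := by linear_combination w * hw3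
  rw [hv3] at r2
  obtain ⟨hP, hP2, hP3, hP4⟩ := hPr K L 5 D hD hG x₁ x₂ hx12
  obtain ⟨-, -, -, hP5⟩ := hPr K L 5 D hD hG (x₁ + x₂) x₂ (K4_in' hx12)
  obtain ⟨-, -, -, hP6⟩ := hPr K L 5 D hD hG x₁ (x₁ + x₂) (K4_in3 hx12)
  obtain ⟨-, -, -, hP7⟩ := hPr K L 5 D hD hG x₂ (x₁ + x₂) (by
    have h := K4_in3 (K4_symm hx12)
    rwa [add_comm x₂ x₁] at h)
  obtain ⟨hA, hA1, hA2⟩ := hP 0
  obtain ⟨hB, hB1, hB2⟩ := hP 1
  rw [map_zero, zero_smul, add_zero] at hA1
  rw [map_zero, zero_smul, add_zero] at hA2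
  rw [map_zero] at hA
  simp only [add_zero] at hA hA1 hA2
  rw [map_one, one_smul, add_comm x₂ x₁] at hB1 hB2
  rw [map_one] at hB
  obtain ⟨g1, -, -⟩ := hGc 1 one_ne_zero
  obtain ⟨-, g2, g3⟩ := hGc w hw0
  obtain ⟨-, g4, g5⟩ := hGc (w ^ 2) hv0
  rw [one_smul] at g1
  rw [hP5 w hw0, hP4 w hw0] at g2
  rw [hP5 (w ^ 2) hv0, hP4 (w ^ 2) hv0] at g4
  rw [hP6 w hw0, hP7 w hw0] at g3
  rw [hP6 (w ^ 2) hv0, hP7 (w ^ 2) hv0] at g5
  rw [hB2, hA2] at g1
  rw [hP3, hA1] at g2 g4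
  rw [hB1, hP2] at g3 g5
  rw [g1, g2, g5] at r1
  rw [g1, g4, g3] at r2
  have hW2 : (algebraMap K L w) ^ 2 + algebraMap K L w + 1 = 0 := by
    have h := congrArg (algebraMap K L) hw2
    rwa [map_add, map_add, map_pow, map_one, map_zero] at h
  rw [map_pow] at r1 r2
  set A := ∏ y ∈ hx D x₁ x₂, y with hAdef
  set B := ∏ y ∈ hx D x₁ x₂, (y + 1) with hBdef
  set W := algebraMap K L w with hWdef
  have hW3 : W ^ 3 = 1 := by linear_combination (W - 1) * hW2
  have k1 : (1 / (A * B)) - W ^ 2 * (A ^ 2 / B) + W * (B ^ 2 / A) = 0 := by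
    have h : (1 / (A * B)) - W ^ 2 * (A ^ 2 / B) + W ^ 4 * (B ^ 2 / A) = 0 := by
      rw [← r1]
      field_simp
      ring
    linear_combination h - W * (B ^ 2 / A) * hW3
  have k2 : (1 / (A * B)) - W * (A ^ 2 / B) + W ^ 2 * (B ^ 2 / A) = 0 := by
    have h : (1 / (A * B)) - W ^ 4 * (A ^ 2 / B) + W ^ 2 * (B ^ 2 / A) = 0 := by
      rw [← r2]
      field_simp
      ring
    linear_combination h + W * (A ^ 2 / B) * hW3
  have k3 : 1 / (A * B) = A ^ 2 / B := by
    linear_combination (-(W ^ 2)) * k1 + W * k2 + (1 / (A * B) + A ^ 2 / B) * hW2 -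
      (1 / (A * B) * W + A ^ 2 / B * (1 + W)) * h2L - A ^ 2 / B * W * hW3
  field_simp at k3
  linear_combination (-1 : L) * k3

private theorem K4_exists {K L : Type} [Field K] [Field L] [Algebra K L] {k : ℕ}
    (h : Module.finrank K L = k) (hk : 2 ≤ k) : ∃ x₁ x₂ : L, In2 K x₁ x₂ := by
  have hfin : Module.Finite K L := Module.finite_of_finrank_pos (by omega)
  let b := Module.finBasisOfFinrankEq K L h
  refine ⟨b ⟨0, by omega⟩, b ⟨1, by omega⟩, fun a c hac => ?_⟩
  have hne : (⟨0, by omega⟩ : Fin k) ≠ ⟨1, by omega⟩ := by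
    intro h
    have := congrArg Fin.val h
    simp at this
  have h1 := congrArg (fun v => b.repr v ⟨0, by omega⟩) hac
  have h2 := congrArg (fun v => b.repr v ⟨1, by omega⟩) hac
  simp only [map_add, map_smul, Module.Basis.repr_self, Finsupp.add_apply, Finsupp.smul_apply,
    Finsupp.single_eq_same, map_zero, Finsupp.zero_apply, smul_eq_mul, mul_one] at h1 h2
  rw [Finsupp.single_eq_of_ne hne, mul_zero, add_zero] at h1
  rw [Finsupp.single_eq_of_ne hne.symm, mul_zero, zero_add] at h2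
  exact ⟨h1, h2⟩

/-- The cube roots of unity are in `K`. -/
private theorem K4_root {K L : Type} [Field K] [Fintype K] [Field L] [Algebra K L]
    (hq : Fintype.card K = 4) (z : L) (hz : z ^ 3 = 1) : ∃ c : K, algebraMap K L c = z := by
  obtain ⟨w, -, -, hw2, hw3⟩ := K4_omega hq
  have hW2 : (algebraMap K L w) ^ 2 + algebraMap K L w + 1 = 0 := by
    have h := congrArg (algebraMap K L) hw2
    rwa [map_add, map_add, map_pow, map_one, map_zero] at h
  have h1 : (z - 1) * ((z - algebraMap K L w) * (z - algebraMap K L (w ^ 2))) = 0 := by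
    rw [map_pow]
    set W := algebraMap K L w
    have hW3 : W ^ 3 = 1 := by linear_combination (W - 1) * hW2
    linear_combination hz - (z ^ 2 - z) * hW2 + (z - 1) * hW3
  rcases mul_eq_zero.1 h1 with h2 | h2
  · exact ⟨1, by rw [map_one]; exact (sub_eq_zero.1 h2).symm⟩
  · rcases mul_eq_zero.1 h2 with h3 | h3
    · exact ⟨w, (sub_eq_zero.1 h3).symm⟩
    · exact ⟨w ^ 2, (sub_eq_zero.1 h3).symm⟩

/-- A monic polynomial of degree four with values in `K` at the four elements of `K`. -/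
private theorem K4_poly {K L : Type} [Field K] [Fintype K] [Field L] [Algebra K L]
    (hq : Fintype.card K = 4) (R : L[X]) (hR : R.Monic) (hdeg : R.natDegree = 4)
    (hv : ∀ c : K, ∃ d : K, algebraMap K L d = R.eval (algebraMap K L c)) :
    ∃ T : K[X], T.Monic ∧ T.natDegree = 4 ∧ T.map (algebraMap K L) = R := by
  choose p hp using hv
  have hinj : Set.InjOn (id : K → K) ((univ : Finset K) : Set K) := Function.injective_id.injOn
  set S : K[X] := Lagrange.interpolate (univ : Finset K) (id : K → K) p with hS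
  have hSd : S.degree < 4 := by
    have h := Lagrange.degree_interpolate_lt p hinj
    rw [Finset.card_univ, hq] at h
    exact h
  have hSe : ∀ c : K, S.eval c = p c := fun c =>
    Lagrange.eval_interpolate_at_node p hinj (Finset.mem_univ c)
  have hd : (S - X).degree < ((4 : ℕ) : WithBot ℕ) := by
    refine lt_of_le_of_lt (Polynomial.degree_sub_le _ _) (max_lt ?_ ?_)
    · exact_mod_cast hSd
    · rw [Polynomial.degree_X]
      norm_num
  have hnd : (X ^ 4 + (S - X) : K[X]).natDegree = 4 := by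
    rw [Polynomial.natDegree_add_eq_left_of_degree_lt (by rw [Polynomial.degree_X_pow]; exact hd),
      Polynomial.natDegree_X_pow]
  refine ⟨X ^ 4 + (S - X), Polynomial.monic_X_pow_add hd, hnd, ?_⟩
  have hT : (X ^ 4 + (S - X) : K[X]).Monic := Polynomial.monic_X_pow_add hd
  have hTm : ((X ^ 4 + (S - X) : K[X]).map (algebraMap K L)).Monic := hT.map _
  have hTd : ((X ^ 4 + (S - X) : K[X]).map (algebraMap K L)).natDegree = 4 := by
    rw [hT.natDegree_map, hnd]
  have hinjL : Function.Injective (algebraMap K L) := (algebraMap K L).injective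
  refine Polynomial.eq_of_degree_sub_lt_of_eval_finset_eq
    ((univ : Finset K).image (algebraMap K L)) ?_ ?_
  · rw [Finset.card_image_of_injective _ hinjL, Finset.card_univ, hq]
    have h := Polynomial.degree_sub_lt_left (p := (X ^ 4 + (S - X) : K[X]).map (algebraMap K L))
      (q := R) (by rw [Polynomial.degree_eq_natDegree hTm.ne_zero,
        Polynomial.degree_eq_natDegree hR.ne_zero, hTd, hdeg]) hTm.ne_zero
      (by rw [hTm.leadingCoeff, hR.leadingCoeff])
    rw [Polynomial.degree_eq_natDegree hTm.ne_zero, hTd] at h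
    exact h
  · intro z hz
    obtain ⟨c, -, rfl⟩ := Finset.mem_image.1 hz
    rw [Polynomial.eval_map, Polynomial.eval₂_hom, ← hp c]
    congr 1
    have hc : c ^ 4 = c := by
      have h := FiniteField.pow_card c
      rwa [hq] at h
    rw [Polynomial.eval_add, Polynomial.eval_sub, Polynomial.eval_pow, Polynomial.eval_X, hSe, hc]
    ring

theorem tK4 : S_Ec → S_D3 → S_F3 → S_Tr → S_Pr → S_Hi → S_K4 := by
  intro hEc hD3 hF3 hTr hPr _ K L _ _ _ _ _ D hD hq hG
  obtain ⟨x₁, x₂, h12⟩ := K4_exists hD.2.1 (by norm_num)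
  have hfin : Module.Finite K L := Module.finite_of_finrank_pos (by rw [hD.2.1]; norm_num)
  have hcard : (hx D x₁ x₂).card = 4 := by
    have h := hEc K L 5 D hD x₁ (hG x₁ (K4_ne h12).1).1 x₂ h12
    rw [(hG x₁ (K4_ne h12).1).2.1] at h
    omega
  have himg : ∀ c : K, hx D x₁ (x₂ + c • x₁) =
      (hx D x₁ x₂).image fun y => y + algebraMap K L c := by
    intro c
    ext y
    rw [Finset.mem_image]
    constructor
    · intro hy
      refine ⟨y - algebraMap K L c, ?_, sub_add_cancel _ _⟩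
      rw [← (hTr K L D x₁ x₂ (y - algebraMap K L c) c).1, sub_add_cancel]
      exact hy
    · rintro ⟨z, hz, rfl⟩
      exact (hTr K L D x₁ x₂ z c).1.2 hz
  have hcube : ∀ c : K, (∏ y ∈ hx D x₁ x₂, (y + algebraMap K L c)) ^ 3 = 1 := by
    intro c
    have h := K4_step hD3 hF3 hPr D hD hq hG x₁ (x₂ + c • x₁) (K4_in h12 _)
    rwa [himg c, Finset.prod_image fun a _ b _ hab => add_right_cancel hab] at h
  have hmon : (∏ y ∈ hx D x₁ x₂, (X + C y : L[X])).Monic :=
    Polynomial.monic_prod_of_monic _ _ fun y _ => Polynomial.monic_X_add_C y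
  have hdeg : (∏ y ∈ hx D x₁ x₂, (X + C y : L[X])).natDegree = 4 := by
    rw [Polynomial.natDegree_prod_of_monic _ _ fun y _ => Polynomial.monic_X_add_C y]
    simp only [Polynomial.natDegree_X_add_C]
    rw [Finset.sum_const, hcard]
    rfl
  have heval : ∀ z : L, (∏ y ∈ hx D x₁ x₂, (X + C y : L[X])).eval z =
      ∏ y ∈ hx D x₁ x₂, (y + z) := by
    intro z
    rw [Polynomial.eval_prod]
    refine Finset.prod_congr rfl fun y _ => ?_
    rw [Polynomial.eval_add, Polynomial.eval_X, Polynomial.eval_C, add_comm]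
  obtain ⟨T, hT, hTd, hTR⟩ := K4_poly hq _ hmon hdeg fun c => by
    rw [heval]
    exact K4_root hq _ (hcube c)
  obtain ⟨y, hy⟩ : (hx D x₁ x₂).Nonempty := Finset.card_pos.1 (by omega)
  have hroot : Polynomial.aeval (-y) T = 0 := by
    rw [Polynomial.aeval_def, ← Polynomial.eval_map, hTR, heval]
    exact Finset.prod_eq_zero hy (add_neg_cancel y)
  have hint : IsIntegral K (-y) := Algebra.IsIntegral.isIntegral _
  have h1 : (minpoly K (-y)).natDegree ∣ 5 := by
    have h := minpoly.degree_dvd (K := K) (L := L) hint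
    rwa [hD.2.1] at h
  have h2 : (minpoly K (-y)).natDegree ≤ 4 := by
    rw [← hTd]
    exact Polynomial.natDegree_le_of_dvd (minpoly.dvd K (-y) hroot) hT.ne_zero
  have h3 : (minpoly K (-y)).natDegree = 1 := by
    rcases (Nat.dvd_prime (by norm_num : Nat.Prime 5)).1 h1 with h | h
    · exact h
    · omega
  obtain ⟨c, hc⟩ := minpoly.natDegree_eq_one_iff.1 h3
  refine (hPr K L 5 D hD hG x₁ x₂ h12).1 c |>.1 ?_
  refine Finset.prod_eq_zero hy ?_
  have hc' : algebraMap K L c = -y := hc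
  rw [hc', add_neg_cancel]

end Pool.Agent.MP8bH
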