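import Pool.Agent.Lib.MP_8b575b_co.Hom.Spec

/-! # MP_8b575b_co, Hom/Ka: the codewords through `(x, 0)` (helper57) -/

set_option autoImplicit false
set_option linter.unusedSectionVars false

namespace Pool.Agent.MP8bH

open Finset Polynomial Pool.Agent.MP8bT

open scoped Classical

variable {K L : Type} [Field K] [Fintype K] [Field L] [Fintype L] [Algebra K L]

private theorem ka_sc (a b : L) (v : L × L) : sc K a b v = (a * v.1, b * v.2) := rfl

private theorem ka_sc_mul (a b a' b' : L) : sc K (a * a') (b * b') = (sc K a b).comp (sc K a' b') := by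
  refine LinearMap.ext fun v => ?_
  rw [LinearMap.comp_apply, ka_sc, ka_sc, ka_sc]
  simp only [mul_assoc]

private theorem ka_sc_one : sc K (1 : L) 1 = LinearMap.id := by
  refine LinearMap.ext fun v => ?_
  rw [ka_sc, one_mul, one_mul]
  rfl

private theorem ka_ax1 (v : L × L) : v ∈ ax1 K L ↔ v.2 = 0 := by
  constructor
  · rintro ⟨x, rfl⟩
    rfl
  · intro h
    exact ⟨v.1, by ext <;> simp [h]⟩

private theorem ka_ax2 (v : L × L) : v ∈ ax2 K L ↔ v.1 = 0 := by
  constructor
  · rintro ⟨x, rfl⟩
    rfl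
  · intro h
    exact ⟨v.2, by ext <;> simp [h]⟩

private theorem ka_map_ax (a b : L) (ha : a ≠ 0) (hb : b ≠ 0) (A : Submodule K (L × L))
    (hA : A = ax1 K L ∨ A = ax2 K L) : A.map (sc K a b) = A := by
  have key : ∀ v, v ∈ A ↔ sc K a b v ∈ A := by
    intro v
    rcases hA with rfl | rfl
    · rw [ka_ax1, ka_ax1, ka_sc]
      simp [hb]
    · rw [ka_ax2, ka_ax2, ka_sc]
      simp [ha]
  ext v
  constructor
  · rintro ⟨w, hw, rfl⟩
    exact (key w).1 hw
  · intro hv
    have h1 : sc K a b (sc K a⁻¹ b⁻¹ v) = v := by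
      rw [← LinearMap.comp_apply, ← ka_sc_mul, mul_inv_cancel₀ ha, mul_inv_cancel₀ hb, ka_sc_one]
      rfl
    refine ⟨sc K a⁻¹ b⁻¹ v, ?_, h1⟩
    rw [SetLike.mem_coe, key, h1]
    exact hv

private theorem ka_do {k : ℕ} {D : Finset (Submodule K (L × L))} (hT : Hm k D) (b : L)
    (hb : b ≠ 0) (U : Submodule K (L × L)) (hU : U ∈ Do D) : U.map (sc K 1 b) ∈ Do D := by
  obtain ⟨h1, h2, h3⟩ := Finset.mem_filter.1 hU
  have hinv : ∀ W : Submodule K (L × L), (W.map (sc K 1 b)).map (sc K 1 b⁻¹) = W := by
    intro W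
    rw [← Submodule.map_comp, ← ka_sc_mul, inv_mul_cancel₀ hb, mul_one, ka_sc_one,
      Submodule.map_id]
  refine Finset.mem_filter.2 ⟨hT.2.2.2.2 b hb U h1, fun h => h2 ?_, fun h => h3 ?_⟩
  · rw [← hinv U, h]
    exact ka_map_ax _ _ one_ne_zero (inv_ne_zero hb) _ (Or.inl rfl)
  · rw [← hinv U, h]
    exact ka_map_ax _ _ one_ne_zero (inv_ne_zero hb) _ (Or.inr rfl)

private theorem ka_card (W : Submodule K (L × L)) :
    (univ.filter fun v : L × L => v ∈ W).card = Fintype.card K ^ Module.finrank K W := by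
  have h1 : Fintype.card W = Fintype.card K ^ Module.finrank K W := Module.card_eq_pow_finrank
  rw [← h1, Fintype.card_subtype]

private theorem ka_card1 (W : Submodule K L) :
    (univ.filter fun v : L => v ∈ W).card = Fintype.card K ^ Module.finrank K W := by
  have h1 : Fintype.card W = Fintype.card K ^ Module.finrank K W := Module.card_eq_pow_finrank
  rw [← h1, Fintype.card_subtype]

private theorem ka_up (hHx : S_Hx) {k : ℕ} {D : Finset (Submodule K (L × L))} (hT : Hm k D)
    (x : L) (hx : x ≠ 0) :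
    ((Do D).filter fun U => ((x, 0) : L × L) ∈ U).card < 2 * (Fintype.card K ^ k - 1) := by
  have hq : 2 ≤ Fintype.card K := Fintype.one_lt_card
  have hax := hHx K L k D hT
  obtain ⟨hk, hLk, hDk, hD1, -⟩ := hT
  have hqk : 2 * Fintype.card K < Fintype.card K ^ k := by
    have h1 : Fintype.card K ^ 4 ≤ Fintype.card K ^ k := Nat.pow_le_pow_right (by omega) hk
    have h2 : 2 * 2 * 2 * Fintype.card K ≤ Fintype.card K ^ 4 := by
      have : Fintype.card K ^ 4 = Fintype.card K * Fintype.card K * Fintype.card K * Fintype.card K := by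
        ring
      rw [this]
      gcongr
    omega
  have hmem : ∀ U ∈ Do D, U ∈ D := fun U hU => (Finset.mem_filter.1 hU).1
  have hcL : Fintype.card L = Fintype.card K ^ k := by
    rw [← hLk]
    exact Module.card_eq_pow_finrank
  have he0 : ((x, 0) : L × L) ≠ 0 := by
    intro h
    exact hx (congrArg Prod.fst h)
  -- the part of a codeword above `K x`
  have c1 : ∀ U ∈ (Do D).filter (fun U => ((x, 0) : L × L) ∈ U),
      Fintype.card K ^ k - Fintype.card K ≤
        (univ.filter fun v : L × L => v ∈ U ∧ v.1 ∉ Submodule.span K {x}).card := by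
    intro U hU
    obtain ⟨h1, h2⟩ := Finset.mem_filter.1 hU
    have h3 : U ⊓ ax2 K L = ⊥ := by
      rcases (hax U h1).2.2.1 with h | h
      · exfalso
        have h4 : ((x, 0) : L × L) ∈ U ⊓ ax1 K L := ⟨h2, (ka_ax1 _).2 rfl⟩
        rw [h, Submodule.mem_bot] at h4
        exact he0 h4
      · exact h
    have e1 := ka_card U
    rw [hDk U (hmem U h1)] at e1
    have e4 := Finset.card_filter_add_card_filter_not (s := univ.filter fun v : L × L => v ∈ U)
      (fun v => v.1 ∈ Submodule.span K {x})
    rw [Finset.filter_filter, Finset.filter_filter, e1] at e4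
    have e5 : (univ.filter fun v : L × L => v ∈ U ∧ v.1 ∈ Submodule.span K {x}).card ≤
        Fintype.card K := by
      have e6 : (univ.filter fun v : L × L => v ∈ U ∧ v.1 ∈ Submodule.span K {x}) ⊆
          (univ : Finset K).image fun c => c • ((x, 0) : L × L) := by
        intro v hv
        obtain ⟨-, hv1, hv2⟩ := Finset.mem_filter.1 hv
        obtain ⟨c, hc⟩ := Submodule.mem_span_singleton.1 hv2
        refine Finset.mem_image.2 ⟨c, Finset.mem_univ _, ?_⟩
        have h5 : v - c • ((x, 0) : L × L) ∈ U ⊓ ax2 K L := by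
          refine ⟨U.sub_mem hv1 (U.smul_mem _ h2), (ka_ax2 _).2 ?_⟩
          rw [Prod.fst_sub, Prod.smul_fst, ← hc, sub_self]
        rw [h3, Submodule.mem_bot, sub_eq_zero] at h5
        exact h5.symm
      refine (Finset.card_le_card e6).trans (Finset.card_image_le.trans ?_)
      rw [Finset.card_univ]
    omega
  have c2 : (((Do D).filter fun U => ((x, 0) : L × L) ∈ U).biUnion
      fun U => univ.filter fun v : L × L => v ∈ U ∧ v.1 ∉ Submodule.span K {x}).card =
      ∑ U ∈ (Do D).filter (fun U => ((x, 0) : L × L) ∈ U),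
        (univ.filter fun v : L × L => v ∈ U ∧ v.1 ∉ Submodule.span K {x}).card := by
    refine Finset.card_biUnion ?_
    intro U hU W hW hUW
    refine Finset.disjoint_left.2 fun v hv hv' => ?_
    obtain ⟨h1, h2⟩ := Finset.mem_filter.1 hU
    obtain ⟨h3, h4⟩ := Finset.mem_filter.1 hW
    obtain ⟨-, hv1, hv2⟩ := Finset.mem_filter.1 hv
    obtain ⟨-, hv3, -⟩ := Finset.mem_filter.1 hv'
    have h5 := hD1 U (hmem U h1) W (hmem W h3) hUW
    have hli : LinearIndependent K ![(⟨(x, 0), h2, h4⟩ : ↥(U ⊓ W)), ⟨v, hv1, hv3⟩] := by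
      rw [LinearIndependent.pair_iff]
      intro s t hst
      have hst' : s • ((x, 0) : L × L) + t • v = 0 := congrArg Subtype.val hst
      have ht : t = 0 := by
        by_contra ht
        apply hv2
        have h6 : v = t⁻¹ • (- (s • ((x, 0) : L × L))) := by
          rw [← eq_neg_of_add_eq_zero_right hst', inv_smul_smul₀ ht]
        have h7 : v.1 = t⁻¹ • (- (s • x)) := by
          rw [h6]
          rfl
        rw [h7]
        exact Submodule.smul_mem _ _ (Submodule.neg_mem _
          (Submodule.smul_mem _ _ (Submodule.mem_span_singleton_self x)))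
      refine ⟨?_, ht⟩
      rw [ht, zero_smul, add_zero] at hst'
      exact (smul_eq_zero.1 hst').resolve_right he0
    have h6 := hli.fintype_card_le_finrank
    rw [Fintype.card_fin] at h6
    omega
  have c3 : (((Do D).filter fun U => ((x, 0) : L × L) ∈ U).biUnion
      fun U => univ.filter fun v : L × L => v ∈ U ∧ v.1 ∉ Submodule.span K {x}).card ≤
      (univ.filter fun v : L × L => v.1 ∉ Submodule.span K {x}).card := by
    refine Finset.card_le_card ?_
    intro v hv
    obtain ⟨U, -, hv⟩ := Finset.mem_biUnion.1 hv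
    exact Finset.mem_filter.2 ⟨Finset.mem_univ _, (Finset.mem_filter.1 hv).2.2⟩
  have c4 := Finset.card_filter_add_card_filter_not (s := (univ : Finset (L × L)))
    (fun v => v.1 ∈ Submodule.span K {x})
  have c5 : (univ.filter fun v : L × L => v.1 ∈ Submodule.span K {x}).card =
      Fintype.card K * Fintype.card K ^ k := by
    have e7 : (univ.filter fun v : L × L => v.1 ∈ Submodule.span K {x}) =
        (univ.filter fun a : L => a ∈ Submodule.span K {x}) ×ˢ (univ : Finset L) := by
      ext v
      simp only [Finset.mem_filter, Finset.mem_univ, true_and, Finset.mem_product, and_true]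
    rw [e7, Finset.card_product, ka_card1, finrank_span_singleton hx, pow_one, Finset.card_univ,
      hcL]
  rw [c5, Finset.card_univ, Fintype.card_prod, hcL] at c4
  have c6 := Finset.card_nsmul_le_sum _ _ _ c1
  rw [smul_eq_mul] at c6
  rw [← c2] at c6
  have c7 := c6.trans c3
  have c8 : ((Do D).filter fun U => ((x, 0) : L × L) ∈ U).card *
      (Fintype.card K ^ k - Fintype.card K) ≤
      Fintype.card K ^ k * (Fintype.card K ^ k - Fintype.card K) := by
    refine c7.trans ?_
    rw [Nat.mul_sub, mul_comm (Fintype.card K ^ k) (Fintype.card K)]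
    omega
  have c9 := Nat.le_of_mul_le_mul_right c8 (by omega)
  omega

/-- **Ka**. The codewords through `(x, 0)`. -/
theorem tKa : S_Hx → S_Fr → S_Ka := by
  intro hHx hFr K L _ _ _ _ _ k D hT x hx
  have hq : 2 ≤ Fintype.card K := Fintype.one_lt_card
  have hqk : 2 ≤ Fintype.card K ^ k :=
    hq.trans (Nat.le_self_pow (by have := hT.1; omega) _)
  have h1 := ka_up hHx hT x hx
  have h2 : (Fintype.card K ^ k - 1) ∣ ((Do D).filter fun U => ((x, 0) : L × L) ∈ U).card := by
    refine hFr K L k D hT _ (Finset.filter_subset _ _) ?_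
    intro b hb U hU
    obtain ⟨h3, h4⟩ := Finset.mem_filter.1 hU
    refine Finset.mem_filter.2 ⟨ka_do hT b hb U h3, ?_⟩
    have h5 : sc K 1 b ((x, 0) : L × L) = (x, 0) := by
      rw [ka_sc]
      simp
    rw [← h5]
    exact Submodule.mem_map_of_mem h4
  obtain ⟨c, hc⟩ := h2
  by_cases hE : ∃ U ∈ Do D, ((x, 0) : L × L) ∈ U
  · have h3 : kap D x = 1 := if_pos hE
    obtain ⟨U, hU, hU'⟩ := hE
    have h4 : 0 < ((Do D).filter fun U => ((x, 0) : L × L) ∈ U).card :=
      Finset.card_pos.2 ⟨U, Finset.mem_filter.2 ⟨hU, hU'⟩⟩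
    rw [h3, one_mul, hc]
    rw [hc] at h1 h4
    have h5 : c = 1 := by
      have h6 : c < 2 := by
        by_contra h7
        rw [not_lt] at h7
        have h8 := Nat.mul_le_mul_left (Fintype.card K ^ k - 1) h7
        omega
      have h9 : c ≠ 0 := by
        rintro rfl
        simp at h4
      omega
    rw [h5, mul_one]
  · have h3 : kap D x = 0 := if_neg hE
    rw [h3, zero_mul, Finset.card_eq_zero]
    refine Finset.filter_eq_empty_iff.2 fun U hU hU' => hE ⟨U, hU, hU'⟩

end Pool.Agent.MP8bH
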