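import Pool.Agent.Lib.MP_8b575b_co.Hom.Spec

/-! MP_8b575b_co, module `Hom/Mu`: the number `mu D`. -/

set_option autoImplicit false

namespace Pool.Agent.MP8bH

open Finset Polynomial Pool.Agent.MP8bT

open scoped Classical

section aux

variable {K L : Type} [Field K] [Field L] [Algebra K L]

private theorem Mu_sc_apply (a b : L) (v : L × L) : sc K a b v = (a * v.1, b * v.2) := rfl

private theorem Mu_mem_ax1 (v : L × L) : v ∈ ax1 K L ↔ v.2 = 0 := by
  unfold ax1
  rw [LinearMap.mem_range]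
  constructor
  · rintro ⟨x, rfl⟩
    rfl
  · intro h
    refine ⟨v.1, ?_⟩
    rw [LinearMap.inl_apply, ← h]

private theorem Mu_mem_ax2 (v : L × L) : v ∈ ax2 K L ↔ v.1 = 0 := by
  unfold ax2
  rw [LinearMap.mem_range]
  constructor
  · rintro ⟨x, rfl⟩
    rfl
  · intro h
    refine ⟨v.2, ?_⟩
    rw [LinearMap.inr_apply, ← h]

private theorem Mu_sc_inj {b : L} (hb : b ≠ 0) : Function.Injective (sc K (1 : L) b) := by
  intro v w h
  rw [Mu_sc_apply, Mu_sc_apply] at h
  have h1 := congrArg Prod.fst h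
  have h2 := congrArg Prod.snd h
  refine Prod.ext ?_ (mul_left_cancel₀ hb h2)
  simpa using h1

private theorem Mu_map_ax1 {b : L} : (ax1 K L).map (sc K (1 : L) b) = ax1 K L := by
  ext v
  rw [Submodule.mem_map, Mu_mem_ax1]
  constructor
  · rintro ⟨w, hw, rfl⟩
    rw [Mu_mem_ax1] at hw
    rw [Mu_sc_apply, hw, mul_zero]
  · intro h
    refine ⟨(v.1, 0), ?_, ?_⟩
    · rw [Mu_mem_ax1]
    · rw [Mu_sc_apply]
      refine Prod.ext ?_ ?_
      · exact one_mul v.1
      · change b * 0 = v.2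
        rw [mul_zero, h]

private theorem Mu_map_ax2 {b : L} (hb : b ≠ 0) :
    (ax2 K L).map (sc K (1 : L) b) = ax2 K L := by
  ext v
  rw [Submodule.mem_map, Mu_mem_ax2]
  constructor
  · rintro ⟨w, hw, rfl⟩
    rw [Mu_mem_ax2] at hw
    rw [Mu_sc_apply, hw, mul_zero]
  · intro h
    refine ⟨(0, b⁻¹ * v.2), ?_, ?_⟩
    · rw [Mu_mem_ax2]
    · rw [Mu_sc_apply]
      refine Prod.ext ?_ ?_
      · change (1 : L) * 0 = v.1
        rw [mul_zero, h]
      · exact mul_inv_cancel_left₀ hb v.2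

private theorem Mu_map_Do {k : ℕ} {D : Finset (Submodule K (L × L))} (hT : Hm k D) {b : L}
    (hb : b ≠ 0) {U : Submodule K (L × L)} (hU : U ∈ Do D) : U.map (sc K 1 b) ∈ Do D := by
  have hinj := Submodule.map_injective_of_injective (Mu_sc_inj (K := K) hb)
  unfold Do at hU ⊢
  rw [Finset.mem_filter] at hU ⊢
  obtain ⟨hD, h1, h2⟩ := hU
  refine ⟨hT.2.2.2.2 b hb U hD, ?_, ?_⟩
  · intro h
    exact h1 (hinj (h.trans Mu_map_ax1.symm))
  · intro h
    exact h2 (hinj (h.trans (Mu_map_ax2 hb).symm))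

private theorem Mu_map_D0 {k : ℕ} {D : Finset (Submodule K (L × L))} (hT : Hm k D) {b : L}
    (hb : b ≠ 0) {U : Submodule K (L × L)} (hU : U ∈ D0 D) : U.map (sc K 1 b) ∈ D0 D := by
  unfold D0 at hU ⊢
  rw [Finset.mem_filter] at hU ⊢
  refine ⟨Mu_map_Do hT hb hU.1, ?_⟩
  have h : (U ⊓ ax2 K L).map (sc K 1 b) = U.map (sc K 1 b) ⊓ ax2 K L := by
    rw [Submodule.map_inf _ (Mu_sc_inj hb), Mu_map_ax2 hb]
  rw [← h, hU.2, Submodule.map_bot]

private theorem Mu_le {k : ℕ} {D : Finset (Submodule K (L × L))} (hT : Hm k D) {b : L}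
    (hb : b ≠ 0) (v : L × L) :
    ((D0 D).filter fun U => v ∈ U).card ≤ ((D0 D).filter fun U => sc K 1 b v ∈ U).card := by
  have hinj := Submodule.map_injective_of_injective (Mu_sc_inj (K := K) hb)
  apply Finset.card_le_card_of_injOn (fun U => U.map (sc K 1 b))
  · intro U hU
    rw [Finset.mem_coe, Finset.mem_filter] at hU ⊢
    exact ⟨Mu_map_D0 hT hb hU.1, Submodule.mem_map_of_mem hU.2⟩
  · intro U _ W _ h
    exact hinj h

private theorem Mu_eq {k : ℕ} {D : Finset (Submodule K (L × L))} (hT : Hm k D) {y : L}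
    (hy : y ≠ 0) (x : L) :
    ((D0 D).filter fun U => ((x, y) : L × L) ∈ U).card = m0 D x := by
  unfold m0
  apply le_antisymm
  · have h := Mu_le hT (inv_ne_zero hy) (x, y)
    rw [Mu_sc_apply] at h
    simp only [one_mul, inv_mul_cancel₀ hy] at h
    exact h
  · have h := Mu_le hT hy (x, 1)
    rw [Mu_sc_apply] at h
    simp only [one_mul, mul_one] at h
    exact h

end aux

variable {K L : Type} [Field K] [Fintype K] [Field L] [Fintype L] [Algebra K L]

private theorem Mu_cardU (U : Submodule K (L × L)) :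
    (univ.filter fun v : L × L => v ∈ U).card = Fintype.card K ^ Module.finrank K U := by
  rw [← Module.card_eq_pow_finrank (K := K) (V := U), ← Fintype.card_subtype]

/-- The codewords through `(x, 0)`. -/
private theorem Mu_zero (hHx : S_Hx) (hKa : S_Ka) {k : ℕ} {D : Finset (Submodule K (L × L))}
    (hT : Hm k D) {x : L} (hx : x ≠ 0) :
    ((D0 D).filter fun U => ((x, 0) : L × L) ∈ U).card =
      kap D x * (Fintype.card K ^ k - 1) := by
  rw [← hKa K L k D hT x hx]
  congr 1
  ext U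
  rw [Finset.mem_filter, Finset.mem_filter]
  unfold D0
  rw [Finset.mem_filter]
  constructor
  · rintro ⟨⟨h1, -⟩, h2⟩
    exact ⟨h1, h2⟩
  · rintro ⟨h1, h2⟩
    refine ⟨⟨h1, ?_⟩, h2⟩
    rcases (hHx K L k D hT U h1).2.2.1 with h | h
    · exfalso
      have h3 : ((x, 0) : L × L) ∈ U ⊓ ax1 K L := ⟨h2, (Mu_mem_ax1 _).2 rfl⟩
      rw [h, Submodule.mem_bot] at h3
      exact hx (congrArg Prod.fst h3)
    · exact h

/-- The number of the elements of `D0 D`. -/
private theorem Mu_cardD0 (hHx : S_Hx) (hKa : S_Ka) (hFb : S_Fb) {k : ℕ}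
    {D : Finset (Submodule K (L × L))} (hT : Hm k D) {x : L} (hx : x ≠ 0) :
    (D0 D).card = (Fintype.card K ^ k - 1) * (m0 D x + kap D x) := by
  have hswap : ∑ y : L, ((D0 D).filter fun U => ((x, y) : L × L) ∈ U).card =
      ∑ U ∈ D0 D, (univ.filter fun y : L => (x, y) ∈ U).card :=
    Finset.sum_card_bipartiteAbove_eq_sum_card_bipartiteBelow
      (fun (y : L) (U : Submodule K (L × L)) => (x, y) ∈ U)
  have hR : ∑ U ∈ D0 D, (univ.filter fun y : L => (x, y) ∈ U).card = (D0 D).card := by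
    rw [Finset.sum_congr rfl (g := fun _ => 1), Finset.sum_const, smul_eq_mul, mul_one]
    intro U hU
    exact (hFb K L k D hT).1 U hU x
  have hcL : ((univ : Finset L).erase 0).card = Fintype.card K ^ k - 1 := by
    rw [Finset.card_erase_of_mem (mem_univ _), Finset.card_univ, ← hT.2.1,
      Module.card_eq_pow_finrank (K := K) (V := L)]
  have hLs : ∑ y : L, ((D0 D).filter fun U => ((x, y) : L × L) ∈ U).card =
      kap D x * (Fintype.card K ^ k - 1) + (Fintype.card K ^ k - 1) * m0 D x := by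
    rw [← Finset.add_sum_erase _ _ (mem_univ (0 : L)), Mu_zero hHx hKa hT hx,
      Finset.sum_congr rfl (fun y hy => Mu_eq hT (Finset.ne_of_mem_erase hy) x),
      Finset.sum_const, hcL, smul_eq_mul]
  rw [← hR, ← hswap, hLs]
  ring

/-- The number of the elements of `D1 D`. -/
private theorem Mu_cardD1 (hDh : S_Dh) {k : ℕ}
    {D : Finset (Submodule K (L × L))} (hT : Hm k D) :
    (D1 D).card = (HH D).card * (Fintype.card K ^ k - 1) := by
  rw [Finset.card_eq_sum_card_image (fun U : Submodule K (L × L) =>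
    U.map (LinearMap.fst K L L)) (D1 D)]
  change ∑ H ∈ HH D, _ = _
  rw [Finset.sum_congr rfl (g := fun _ => Fintype.card K ^ k - 1), Finset.sum_const, smul_eq_mul]
  intro H hH
  exact (hDh K L k D hT H hH).1

private theorem Mu_cardA (hHx : S_Hx) {k : ℕ} {D : Finset (Submodule K (L × L))} (hT : Hm k D)
    {U : Submodule K (L × L)} (hU : U ∈ Do D) :
    ((univ.filter fun x : L => x ≠ 0).filter fun x : L => ((x, 0) : L × L) ∈ U).card ≤
      Fintype.card K - 1 := by
  have hq : 1 < Fintype.card K := Fintype.one_lt_card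
  have h1 : ((univ.filter fun x : L => x ≠ 0).filter fun x : L => ((x, 0) : L × L) ∈ U).card ≤
      ((univ.filter fun v : L × L => v ∈ U ⊓ ax1 K L).erase 0).card := by
    apply Finset.card_le_card_of_injOn (fun x => ((x, 0) : L × L))
    · intro x hx
      rw [Finset.mem_coe, Finset.mem_filter, Finset.mem_filter] at hx
      rw [Finset.mem_coe, Finset.mem_erase, Finset.mem_filter]
      refine ⟨?_, mem_univ _, hx.2, (Mu_mem_ax1 _).2 rfl⟩
      intro h
      exact hx.1.2 (congrArg Prod.fst h)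
    · intro x _ y _ h
      exact congrArg Prod.fst h
  refine h1.trans ?_
  rw [Finset.card_erase_of_mem (Finset.mem_filter.2 ⟨mem_univ _, Submodule.zero_mem _⟩),
    Mu_cardU]
  apply Nat.sub_le_sub_right
  calc Fintype.card K ^ Module.finrank K ↥(U ⊓ ax1 K L) ≤ Fintype.card K ^ 1 :=
        Nat.pow_le_pow_right (by omega) (hHx K L k D hT U hU).1
    _ = Fintype.card K := pow_one _

theorem tMu : S_Hx → S_Ka → S_Fb → S_Dh → S_Mu := by
  intro hHx hKa hFb hDh K L _ _ _ _ _ k D hT
  have hq : 1 < Fintype.card K := Fintype.one_lt_card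
  have hk4 : 4 ≤ k := hT.1
  have hqk : 1 < Fintype.card K ^ k := Nat.one_lt_pow (by omega) hq
  have hN : 0 < Fintype.card K ^ k - 1 := by omega
  have h0 : (D0 D).card = (Fintype.card K ^ k - 1) * mu D :=
    Mu_cardD0 hHx hKa hFb hT one_ne_zero
  refine ⟨?_, ?_, ?_⟩
  · intro x hx
    have h := Mu_cardD0 hHx hKa hFb hT hx
    rw [h0] at h
    exact (Nat.eq_of_mul_eq_mul_left hN h).symm
  · have hs : (D0 D).card + (D1 D).card = (Do D).card := by
      unfold D0 D1
      exact Finset.card_filter_add_card_filter_not _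
    rw [← hs, h0, Mu_cardD1 hDh hT]
    ring
  · have hswap : ∑ x ∈ univ.filter (fun x : L => x ≠ 0),
        ((D0 D).filter fun U => ((x, 0) : L × L) ∈ U).card =
        ∑ U ∈ D0 D, ((univ.filter fun x : L => x ≠ 0).filter
          fun x : L => ((x, 0) : L × L) ∈ U).card :=
      Finset.sum_card_bipartiteAbove_eq_sum_card_bipartiteBelow
        (fun (x : L) (U : Submodule K (L × L)) => (x, 0) ∈ U)
    have hL : ∑ x ∈ univ.filter (fun x : L => x ≠ 0),
        ((D0 D).filter fun U => ((x, 0) : L × L) ∈ U).card =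
        (Fintype.card K ^ k - 1) * ∑ x ∈ univ.filter (fun x : L => x ≠ 0), kap D x := by
      rw [Finset.mul_sum]
      apply Finset.sum_congr rfl
      intro x hx
      rw [Mu_zero hHx hKa hT (Finset.mem_filter.1 hx).2, mul_comm]
    have hR : ∑ U ∈ D0 D, ((univ.filter fun x : L => x ≠ 0).filter
        fun x : L => ((x, 0) : L × L) ∈ U).card ≤ (D0 D).card * (Fintype.card K - 1) := by
      rw [← smul_eq_mul]
      apply Finset.sum_le_card_nsmul
      intro U hU
      exact Mu_cardA hHx hT (Finset.mem_filter.1 hU).1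
    have h : (Fintype.card K ^ k - 1) * ∑ x ∈ univ.filter (fun x : L => x ≠ 0), kap D x ≤
        (Fintype.card K ^ k - 1) * ((Fintype.card K - 1) * mu D) := by
      rw [← hL, hswap]
      refine hR.trans (le_of_eq ?_)
      rw [h0]
      ring
    exact Nat.le_of_mul_le_mul_left h hN

end Pool.Agent.MP8bH
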