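import Pool.Agent.Lib.MP_8b575b_co.Hom.Spec

/-! MP_8b575b_co, module `Hom/Rc`: counting at the point `(x, 1)`. -/

set_option autoImplicit false

namespace Pool.Agent.MP8bH

open Finset Polynomial Pool.Agent.MP8bT

open scoped Classical

private theorem rc_ax1 {K L : Type} [Field K] [Field L] [Algebra K L] (v : L × L) :
    v ∈ ax1 K L ↔ v.2 = 0 := by
  unfold ax1
  rw [LinearMap.mem_range]
  constructor
  · rintro ⟨x, rfl⟩
    rfl
  · intro h
    exact ⟨v.1, Prod.ext rfl h.symm⟩

private theorem rc_ax2 {K L : Type} [Field K] [Field L] [Algebra K L] (v : L × L) :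
    v ∈ ax2 K L ↔ v.1 = 0 := by
  unfold ax2
  rw [LinearMap.mem_range]
  constructor
  · rintro ⟨x, rfl⟩
    rfl
  · intro h
    exact ⟨v.2, Prod.ext h.symm rfl⟩

private theorem rc_split {K L : Type} [Field K] [Field L] [Algebra K L]
    (D : Finset (Submodule K (L × L))) (x : L) (hx : x ≠ 0) :
    RX D x = ((D0 D).filter fun U => ((x, 1) : L × L) ∈ U) ∪
      ((D1 D).filter fun U => ((x, 1) : L × L) ∈ U) := by
  ext U
  unfold RX D0 D1 Do
  simp only [Finset.mem_union, Finset.mem_filter]
  constructor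
  · rintro ⟨hU, hm⟩
    have h1 : U ≠ ax1 K L := by
      rintro rfl
      exact one_ne_zero ((rc_ax1 _).1 hm)
    have h2 : U ≠ ax2 K L := by
      rintro rfl
      exact hx ((rc_ax2 _).1 hm)
    by_cases h3 : U ⊓ ax2 K L = ⊥
    · exact Or.inl ⟨⟨⟨hU, h1, h2⟩, h3⟩, hm⟩
    · exact Or.inr ⟨⟨⟨hU, h1, h2⟩, h3⟩, hm⟩
  · rintro (h | h)
    · exact ⟨h.1.1.1, h.2⟩
    · exact ⟨h.1.1.1, h.2⟩

private theorem rc_disj {K L : Type} [Field K] [Field L] [Algebra K L]
    (D : Finset (Submodule K (L × L))) (x : L) :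
    Disjoint ((D0 D).filter fun U => ((x, 1) : L × L) ∈ U)
      ((D1 D).filter fun U => ((x, 1) : L × L) ∈ U) := by
  rw [Finset.disjoint_left]
  intro U h0 h1
  unfold D0 at h0
  unfold D1 at h1
  simp only [Finset.mem_filter] at h0 h1
  exact h1.1.2 h0.1.2

private theorem rc_fib {K L : Type} [Field K] [Field L] [Algebra K L]
    (D : Finset (Submodule K (L × L))) (x : L) (q : ℕ)
    (h : ∀ H ∈ HH D, x ∈ H → ((D1 D).filter fun U => U.map (LinearMap.fst K L L) = H ∧
      ((x, 1) : L × L) ∈ U).card = q) (P : Submodule K L → Prop) :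
    ((D1 D).filter fun U => ((x, 1) : L × L) ∈ U ∧ P (U.map (LinearMap.fst K L L))).card =
      q * ((HH D).filter fun H => x ∈ H ∧ P H).card := by
  rw [Finset.card_eq_sum_card_fiberwise (f := fun U => U.map (LinearMap.fst K L L))
    (t := (HH D).filter fun H => x ∈ H ∧ P H)]
  · rw [Finset.sum_congr rfl (g := fun _ => q), Finset.sum_const, smul_eq_mul, mul_comm]
    intro H hH
    rw [Finset.mem_filter] at hH
    rw [← h H hH.1 hH.2.1, Finset.filter_filter]
    congr 1
    apply Finset.filter_congr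
    intro U _
    constructor
    · rintro ⟨⟨h1, h2⟩, h3⟩
      exact ⟨h3, h1⟩
    · rintro ⟨h3, h1⟩
      exact ⟨⟨h1, by rw [h3]; exact hH.2.2⟩, h3⟩
  · intro U hU
    rw [Finset.mem_coe, Finset.mem_filter] at hU
    rw [Finset.mem_coe, Finset.mem_filter]
    exact ⟨Finset.mem_image_of_mem _ hU.1, ⟨(x, 1), hU.2.1, rfl⟩, hU.2.2⟩

private theorem rc_pd {K L : Type} [Field K] [Field L] [Fintype L] [Algebra K L]
    (D : Finset (Submodule K (L × L)))
    (hint : ∀ U ∈ D, ∀ W ∈ D, U ≠ W → Module.finrank K ↥(U ⊓ W) ≤ 1) (x x' : L)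
    (hxx : In2 K x x') : (RX D x : Set (Submodule K (L × L))).PairwiseDisjoint
      fun U => univ.filter (fun y : L => (x', y) ∈ U) := by
  intro U hU W hW hUW
  rw [Function.onFun, Finset.disjoint_left]
  intro y hy hy'
  rw [Finset.mem_filter] at hy hy'
  have hU' := Finset.mem_filter.1 (Finset.mem_coe.1 hU)
  have hW' := Finset.mem_filter.1 (Finset.mem_coe.1 hW)
  have h1 := hint U hU'.1 W hW'.1 hUW
  have hli : LinearIndependent K ![(⟨((x, 1) : L × L), hU'.2, hW'.2⟩ : ↥(U ⊓ W)),
      ⟨((x', y) : L × L), hy.2, hy'.2⟩] := by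
    rw [LinearIndependent.pair_iff]
    intro s t hst
    have h2 := congrArg (fun v : ↥(U ⊓ W) => (v : L × L).1) hst
    simp only [Submodule.coe_add, Submodule.coe_smul, Prod.fst_add, Prod.smul_fst,
      ZeroMemClass.coe_zero, Prod.fst_zero] at h2
    exact hxx s t h2
  have h3 := hli.fintype_card_le_finrank
  simp at h3
  omega

theorem tRc : S_Fb → S_Dh → S_Rc := by
  intro hFb hDh K L _ _ _ _ _ k D hH x hx0
  have hq := hDh K L k D hH
  have hf : ∀ H ∈ HH D, x ∈ H → ((D1 D).filter fun U => U.map (LinearMap.fst K L L) = H ∧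
      ((x, 1) : L × L) ∈ U).card = Fintype.card K := fun H hH' hxH => (hq H hH').2 x hxH hx0
  refine ⟨?_, ?_⟩
  · rw [rc_split D x hx0, Finset.card_union_of_disjoint (rc_disj D x)]
    unfold m0 t1
    congr 1
    have h := rc_fib D x (Fintype.card K) hf (fun _ => True)
    simp only [and_true] at h
    exact h
  · intro x' hxx
    obtain ⟨hb0, hb1⟩ := hFb K L k D hH
    have hpd := rc_pd D hH.2.2.2.1 x x' hxx
    have hcL : Fintype.card L = Fintype.card K ^ k := by
      rw [Module.card_eq_pow_finrank (K := K) (V := L), hH.2.1]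
    have hcomp : hx D x x' = univ \ (RX D x).biUnion
        (fun U => univ.filter (fun y : L => (x', y) ∈ U)) := by
      ext y
      unfold hx
      simp only [Finset.mem_filter, Finset.mem_univ, true_and, Finset.mem_sdiff,
        Finset.mem_biUnion, not_exists, not_and]
    have hcard : (hx D x x').card + ∑ U ∈ RX D x,
        (univ.filter (fun y : L => (x', y) ∈ U)).card = Fintype.card K ^ k := by
      rw [← hcL, ← Finset.card_biUnion hpd, hcomp, Finset.card_sdiff_add_card_eq_card
        (Finset.subset_univ _), Finset.card_univ]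
    have hsum : ∑ U ∈ RX D x, (univ.filter (fun y : L => (x', y) ∈ U)).card =
        m0 D x + Fintype.card K ^ 2 * t2 (HH D) x x' := by
      rw [rc_split D x hx0, Finset.sum_union (rc_disj D x)]
      congr 1
      · rw [Finset.sum_congr rfl (g := fun _ => 1), Finset.sum_const, smul_eq_mul, mul_one]
        · rfl
        · intro U hU
          exact hb0 U (Finset.mem_filter.1 hU).1 x'
      · have h1 : ∑ U ∈ (D1 D).filter (fun U => ((x, 1) : L × L) ∈ U),
            (univ.filter (fun y : L => (x', y) ∈ U)).card =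
            ∑ U ∈ (D1 D).filter (fun U => ((x, 1) : L × L) ∈ U),
              if x' ∈ U.map (LinearMap.fst K L L) then Fintype.card K else 0 := by
          apply Finset.sum_congr rfl
          intro U hU
          have h2 := (hb1 U (Finset.mem_filter.1 hU).1).2 x'
          split_ifs with h3
          · exact h2.1 h3
          · exact h2.2 h3
        rw [h1, ← Finset.sum_filter, Finset.sum_const, smul_eq_mul, Finset.filter_filter,
          rc_fib D x (Fintype.card K) hf (fun H => x' ∈ H)]
        unfold t2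
        ring
    rw [hsum] at hcard
    omega

end Pool.Agent.MP8bH
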