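import Pool.Agent.Lib.MP_8b575b_co.Hom.SpecB

set_option autoImplicit false

namespace Pool.Agent.MP8bH

open Finset Polynomial Pool.Agent.MP8bT

open scoped Classical

private theorem Mx_t {K : Type} [Field K] [Fintype K] (h : 3 ≤ Fintype.card K) :
    ∃ t : K, t ≠ 0 ∧ t ≠ 1 := by
  have h1 : ({0, 1} : Finset K).card < (univ : Finset K).card :=
    lt_of_le_of_lt Finset.card_le_two (by rw [Finset.card_univ]; exact h)
  obtain ⟨t, _, ht⟩ := Finset.exists_mem_notMem_of_card_lt_card h1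
  rw [Finset.mem_insert, Finset.mem_singleton, not_or] at ht
  exact ⟨t, ht⟩

private theorem Mx_kap {K L : Type} [Field K] [Field L] [Algebra K L]
    (D : Finset (Submodule K (L × L))) (x : L) : kap D x = 0 ∨ kap D x = 1 := by
  unfold kap
  split_ifs
  · exact Or.inr rfl
  · exact Or.inl rfl

private theorem Mx_ar {q k : ℕ} (hq : 3 ≤ q) (hk : 5 ≤ k) : 3 * q ≤ (q - 1) * (k - 2) + 3 := by
  obtain ⟨k', rfl⟩ := Nat.exists_eq_add_of_le hk
  obtain ⟨q', rfl⟩ := Nat.exists_eq_add_of_le hq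
  have h1 : 3 + q' - 1 = 2 + q' := by omega
  have h2 : 5 + k' - 2 = 3 + k' := by omega
  rw [h1, h2]
  nlinarith [Nat.zero_le (q' * k'), Nat.zero_le k']

private theorem Mx_ne {K L : Type} [Field K] [Field L] [Algebra K L] {x₁ x₂ : L}
    (h : In2 K x₁ x₂) : x₁ ≠ 0 ∧ x₂ ≠ 0 ∧ x₁ + x₂ ≠ 0 := by
  refine ⟨fun h0 => ?_, fun h0 => ?_, fun h0 => ?_⟩
  · exact one_ne_zero (h 1 0 (by rw [h0, smul_zero, zero_smul, add_zero])).1
  · exact one_ne_zero (h 0 1 (by rw [h0, smul_zero, zero_smul, add_zero])).2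
  · exact one_ne_zero (h 1 1 (by rw [one_smul, one_smul, h0])).1

theorem tMx : S_X2 → S_F2 → S_D3 → S_Tr → S_Mx := by
  intro hX2 hF2 hD3 hTr K L _ _ _ _ _ k D hD hk hq hcard
  obtain ⟨t, ht0, ht1⟩ := Mx_t (K := K) hq
  have har := Mx_ar hq hk
  have ht1' : (1 : K) ≠ t := fun h => ht1 h.symm
  rcases hX2 K L k D hD hq hcard with ⟨x₁, x₂, hin, hx⟩ | ⟨hall, z, hz, hzk⟩
  · exfalso
    have h1 := hx x₁ (Or.inl rfl)
    have h2 := hx x₂ (Or.inr (Or.inl rfl))
    have h3 := hx (x₁ + x₂) (Or.inr (Or.inr rfl))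
    obtain ⟨G, hG, hG0, hG1, _, _⟩ := hF2 K L k D hD hq x₁ x₂ hin h1.1 h2.1 h3.1 0 (by
      rw [h1.2.2, h2.2.2, h3.2.2]
      omega)
    have h4 := hG0 1 t one_ne_zero ht0 ht1'
    have h5 := (hD3 K L G).1 hG (x₁ + x₂) ((1 : K) • x₁ + t • x₂)
    exact hG1 h3.2.1 (h5.trans h4)
  · have claim : ∀ x₁ x₂ : L, In2 K x₁ x₂ → kap D (x₁ + x₂) = 1 → kap D x₁ = 1 := by
      intro x₁ x₂ hin hk3
      obtain ⟨hn1, hn2, hn3⟩ := Mx_ne hin
      obtain ⟨g1, r1⟩ := hall x₁ hn1
      obtain ⟨g2, r2⟩ := hall x₂ hn2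
      obtain ⟨g3, r3⟩ := hall (x₁ + x₂) hn3
      rcases Mx_kap D x₁ with hk1 | hk1
      · exfalso
        rcases Mx_kap D x₂ with hk2 | hk2
        · obtain ⟨G, hG, hG0, hG1, _, _⟩ := hF2 K L k D hD hq x₁ x₂ hin g1 g2 g3 0 (by
            omega)
          have h4 := hG0 1 t one_ne_zero ht0 ht1'
          have h5 := (hD3 K L G).1 hG (x₁ + x₂) ((1 : K) • x₁ + t • x₂)
          exact hG1 hk3 (h5.trans h4)
        · obtain ⟨G, hG, hG0, hG1, hG2, _⟩ := hF2 K L k D hD hq x₁ x₂ hin g1 g2 g3 1 (by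
            omega)
          have h4 := hG0 t 1 ht0 one_ne_zero ht1
          have h5 := (hD3 K L G).2.1 hG x₁ (x₁ + x₂) ((t - 1) • x₁)
          have h6 : x₁ + (t - 1) • x₁ = t • x₁ := by
            rw [sub_smul, one_smul]
            ring
          have h7 : x₁ + x₂ + (t - 1) • x₁ = t • x₁ + (1 : K) • x₂ := by
            rw [sub_smul, one_smul, one_smul]
            ring
          have h8 := hG2 hk1 1 one_ne_zero
          rw [one_smul] at h8
          rw [h6, h7, h4, hG2 hk1 t ht0, h8, sub_zero, zero_sub] at h5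
          exact hG1 hk3 (neg_eq_zero.mp h5.symm)
      · exact hk1
    have hkap : ∀ x : L, x ≠ 0 → kap D x = 1 := by
      intro x hx
      by_cases hc : ∃ c : K, x = c • z
      · obtain ⟨c, rfl⟩ := hc
        have hc0 : c ≠ 0 := by
          intro h
          apply hx
          rw [h, zero_smul]
        rw [(hTr K L D z 0 0 c).2.2 hc0]
        exact hzk
      · apply claim x (z - x)
        · intro a b hab
          have h1 : (a - b) • x + b • z = 0 := by
            rw [← hab, sub_smul, smul_sub]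
            ring
          have hab' : a - b = 0 := by
            by_contra hne
            apply hc
            refine ⟨-((a - b)⁻¹ * b), ?_⟩
            have h2 : (a - b)⁻¹ • ((a - b) • x + b • z) = 0 := by rw [h1, smul_zero]
            rw [smul_add, smul_smul, smul_smul, inv_mul_cancel₀ hne, one_smul] at h2
            rw [neg_smul]
            exact eq_neg_of_add_eq_zero_left h2
          rw [hab', zero_smul, zero_add] at h1
          have hb : b = 0 := (smul_eq_zero.mp h1).resolve_right hz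
          refine ⟨?_, hb⟩
          rw [hb, sub_zero] at hab'
          exact hab'
        · rw [add_sub_cancel]
          exact hzk
    intro x hx
    obtain ⟨g, r⟩ := hall x hx
    have h1 := hkap x hx
    refine ⟨g, ?_, h1⟩
    omega

end Pool.Agent.MP8bH
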