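import Pool.Agent.Lib.MP_8b575b_co.Hom.SpecB

/-!
# MP_8b575b_co, `Hom/SpecB.lean`, statement `S_Pr`: the six products
-/

set_option autoImplicit false

namespace Pool.Agent.MP8bH

open Finset Polynomial Pool.Agent.MP8bT

open scoped Classical

private lemma Pr_symm {K L : Type} [Field K] [Field L] [Algebra K L] {x x' : L}
    (h : In2 K x x') : In2 K x' x := by
  intro a b hab
  have := h b a (by rw [add_comm]; exact hab)
  exact ⟨this.2, this.1⟩

private lemma Pr_ne {K L : Type} [Field K] [Field L] [Algebra K L] {x x' : L}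
    (h : In2 K x x') : x ≠ 0 := by
  intro hx
  have := (h 1 0 (by simp [hx])).1
  exact one_ne_zero this

private lemma Pr_add {K L : Type} [Field K] [Field L] [Algebra K L] {x x' : L}
    (h : In2 K x x') (c : K) : In2 K x (x' + c • x) := by
  intro a b hab
  have h1 : (a + b * c) • x + b • x' = 0 := by
    rw [← hab, add_smul, smul_add, mul_smul]
    abel
  obtain ⟨h2, h3⟩ := h _ _ h1
  rw [h3, zero_mul, add_zero] at h2
  exact ⟨h2, h3⟩

/-- products over the inverse set -/
private lemma Pr_inv {K L : Type} [Field K] [Fintype K] [Field L] [Fintype L] [Algebra K L]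
    (D : Finset (Submodule K (L × L))) (x x' : L)
    (h0 : (0 : L) ∉ hx D x' x)
    (hi : ∀ y : L, y ≠ 0 → (y ∈ hx D x' x ↔ y⁻¹ ∈ hx D x x'))
    (h0' : (0 : L) ∉ hx D x x') (f : L → L) :
    ∏ z ∈ hx D x' x, f z = ∏ y ∈ hx D x x', f y⁻¹ := by
  have h1 : hx D x' x = (hx D x x').image (fun y => y⁻¹) := by
    ext z
    rw [Finset.mem_image]
    constructor
    · intro hz
      have hz0 : z ≠ 0 := fun h => h0 (h ▸ hz)
      exact ⟨z⁻¹, (hi z hz0).mp hz, inv_inv z⟩
    · rintro ⟨y, hy, rfl⟩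
      have hy0 : y ≠ 0 := fun h => h0' (h ▸ hy)
      exact (hi y⁻¹ (inv_ne_zero hy0)).mpr (by rwa [inv_inv])
  rw [h1, Finset.prod_image (fun a _ b _ hab => inv_injective hab)]

/-- products over the translated set -/
private lemma Pr_tr {K L : Type} [Field K] [Fintype K] [Field L] [Fintype L] [Algebra K L]
    (hTr : S_Tr) (D : Finset (Submodule K (L × L))) (x x' : L) (c : K) (f : L → L) :
    ∏ z ∈ hx D x (x' + c • x), f z = ∏ y ∈ hx D x x', f (y + algebraMap K L c) := by
  have h1 : hx D x (x' + c • x) = (hx D x x').image (fun y => y + algebraMap K L c) := by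
    ext z
    rw [Finset.mem_image]
    constructor
    · intro hz
      refine ⟨z - algebraMap K L c, ?_, sub_add_cancel z _⟩
      have := (hTr K L D x x' (z - algebraMap K L c) c).1
      rw [sub_add_cancel] at this
      exact this.mp hz
    · rintro ⟨y, hy, rfl⟩
      exact (hTr K L D x x' y c).1.mpr hy
  rw [h1, Finset.prod_image (fun a _ b _ hab => add_right_cancel hab)]

/-- products over the set above a multiple -/
private lemma Pr_mul {K L : Type} [Field K] [Fintype K] [Field L] [Fintype L] [Algebra K L]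
    (hTr : S_Tr) (D : Finset (Submodule K (L × L))) (x x' : L) (c : K) (hc : c ≠ 0)
    (f : L → L) :
    ∏ z ∈ hx D x (c • x'), f z = ∏ y ∈ hx D x x', f (algebraMap K L c * y) := by
  have hc' : algebraMap K L c ≠ 0 := by
    rw [Ne, map_eq_zero]
    exact hc
  have h1 : hx D x (c • x') = (hx D x x').image (fun y => algebraMap K L c * y) := by
    ext z
    rw [Finset.mem_image]
    constructor
    · intro hz
      refine ⟨(algebraMap K L c)⁻¹ * z, ?_, mul_inv_cancel_left₀ hc' z⟩
      have := (hTr K L D x x' ((algebraMap K L c)⁻¹ * z) c).2.1 hc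
      rw [mul_inv_cancel_left₀ hc'] at this
      exact this.mp hz
    · rintro ⟨y, hy, rfl⟩
      exact ((hTr K L D x x' y c).2.1 hc).mpr hy
  rw [h1, Finset.prod_image (fun a _ b _ hab => mul_left_cancel₀ hc' hab)]

theorem tPr : S_Ec → S_Hi → S_Tr → S_Pr := by
  intro hEc hHi hTr K L _ _ _ _ _ k D hD hG x₁ x₂ h12
  -- general facts
  have hcard : ∀ x x' : L, In2 K x x' → (hx D x x').card = Fintype.card K := by
    intro x x' h
    obtain ⟨g1, g2, -⟩ := hG x (Pr_ne h)
    have := hEc K L k D hD x g1 x' h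
    omega
  have h0 : ∀ x x' : L, In2 K x x' → (0 : L) ∉ hx D x x' := by
    intro x x' h hh
    have h1 := ((hHi K L k D hD x x' h).2).mp hh
    have h2 := (hG x' (Pr_ne (Pr_symm h))).2.2
    omega
  have hpow : ∀ c : K, (algebraMap K L c) ^ Fintype.card K = algebraMap K L c := by
    intro c
    rw [← map_pow, FiniteField.pow_card]
  have hneg : (-1 : L) ^ Fintype.card K = -1 := by
    have := hpow (-1)
    rwa [map_neg, map_one] at this
  have hprodc : ∀ (x x' : L) (f : L → L) (a : L), In2 K x x' →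
      ∏ y ∈ hx D x x', (a * f y) = a ^ Fintype.card K * ∏ y ∈ hx D x x', f y := by
    intro x x' f a h
    rw [Finset.prod_mul_distrib, Finset.prod_const, hcard x x' h]
  have hprodn : ∀ (x x' : L) (f : L → L), In2 K x x' →
      ∏ y ∈ hx D x x', (-f y) = -∏ y ∈ hx D x x', f y := by
    intro x x' f h
    have h1 := hprodc x x' f (-1) h
    rw [hneg] at h1
    rw [neg_one_mul] at h1
    rw [← h1]
    exact Finset.prod_congr rfl (fun y _ => (neg_one_mul _).symm)
  have hpe : ∀ x x' : L, In2 K x x' → pe D x x' = -∏ y ∈ hx D x x', y := by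
    intro x x' h
    exact hprodn x x' (fun y => y) h
  have hP0 : ∀ x x' : L, In2 K x x' → ∏ y ∈ hx D x x', y ≠ 0 := by
    intro x x' h
    rw [Finset.prod_ne_zero_iff]
    intro y hy hy0
    exact h0 x x' h (hy0 ▸ hy)
  have hinv : ∀ (x x' : L) (f : L → L), In2 K x x' →
      ∏ z ∈ hx D x' x, f z = ∏ y ∈ hx D x x', f y⁻¹ := by
    intro x x' f h
    exact Pr_inv D x x' (h0 x' x (Pr_symm h)) (hHi K L k D hD x' x (Pr_symm h)).1
      (h0 x x' h) f
  have hPinv : ∀ x x' : L, In2 K x x' →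
      ∏ z ∈ hx D x' x, z = (∏ y ∈ hx D x x', y)⁻¹ := by
    intro x x' h
    rw [hinv x x' (fun z => z) h, Finset.prod_inv_distrib]
  have h21 : In2 K x₂ x₁ := Pr_symm h12
  have h23 : In2 K x₂ (x₁ + x₂) := by
    have := Pr_add h21 1
    rwa [one_smul] at this
  have hP3 : ∏ z ∈ hx D x₂ (x₁ + x₂), z =
      (∏ y ∈ hx D x₁ x₂, (y + 1)) / (∏ y ∈ hx D x₁ x₂, y) := by
    have e1 := Pr_tr hTr D x₂ x₁ 1 (fun z => z)
    rw [one_smul, map_one] at e1
    rw [e1, hinv x₁ x₂ (fun z => z + 1) h12, ← Finset.prod_div_distrib]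
    refine Finset.prod_congr rfl (fun y hy => ?_)
    have hy0 : y ≠ 0 := fun h => h0 x₁ x₂ h12 (h ▸ hy)
    field_simp
    ring
  refine ⟨?_, ?_, ?_, ?_⟩
  · intro c
    have hc := Pr_add h12 c
    have e1 := Pr_tr hTr D x₁ x₂ c (fun z => z)
    refine ⟨?_, ?_, ?_⟩
    · have := hP0 _ _ hc
      rw [e1] at this
      exact this
    · rw [hpe _ _ hc, e1]
    · rw [hpe _ _ (Pr_symm hc), hPinv _ _ hc, e1]
  · rw [hpe _ _ h23, hP3]
  · rw [hpe _ _ (Pr_symm h23), hPinv _ _ h23, hP3, inv_div]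
  · intro c hc
    unfold pe
    rw [Pr_mul hTr D x₁ x₂ c hc (fun z => -z)]
    have h1 := hprodc x₁ x₂ (fun y => -y) (algebraMap K L c) h12
    rw [hpow] at h1
    rw [← h1]
    exact Finset.prod_congr rfl (fun y _ => (mul_neg _ _).symm)

end Pool.Agent.MP8bH
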