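import Pool.Agent.Lib.MP_8b575b_co.Hom.SpecB

set_option autoImplicit false

namespace Pool.Agent.MP8bH

open Finset Polynomial Pool.Agent.MP8bT

open scoped Classical

private theorem su_deg {K σ : Type} [Field K] [Fintype σ] (ψ : (σ → K)) :
    (∑ i, MvPolynomial.C (ψ i) * MvPolynomial.X i :
      MvPolynomial σ K).totalDegree ≤ 1 := by
  refine MvPolynomial.totalDegree_finsetSum_le fun i _ => ?_
  refine (MvPolynomial.totalDegree_mul _ _).trans ?_
  simp [MvPolynomial.totalDegree_X]

private theorem su_list {K σ : Type} [Field K] [Fintype σ] (l : List (MvPolynomial σ K))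
    (h : ∀ p ∈ l, p.totalDegree ≤ 1) : l.prod.totalDegree ≤ l.length := by
  induction l with
  | nil => simp
  | cons a l ih =>
    rw [List.prod_cons, List.length_cons]
    refine (MvPolynomial.totalDegree_mul _ _).trans ?_
    have h1 := h a (by simp)
    have h2 := ih fun p hp => h p (by simp [hp])
    omega

private theorem su_zero {K L : Type} [Field K] [Fintype K] [Field L] [Fintype L] [Algebra K L]
    (W : Submodule K L) (l : List (L →ₗ[K] K))
    (h : l.length < (Fintype.card K - 1) * Module.finrank K W) :
    ∑ w ∈ univ.filter (fun w => w ∈ W), (l.map fun φ => φ w).prod = 0 := by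
  have : Module.Finite K L := Module.Finite.of_finite
  let b : Module.Basis (Fin (Module.finrank K W)) K W := Module.finBasis K W
  have h1 : ∑ w ∈ univ.filter (fun w => w ∈ W), (l.map fun φ => φ w).prod =
      ∑ w : W, (l.map fun φ => φ (w : L)).prod :=
    Finset.sum_subtype _ (by simp) _
  have h2 : ∑ w : W, (l.map fun φ => φ (w : L)).prod =
      ∑ t : Fin (Module.finrank K W) → K,
        (l.map fun φ => φ ((b.equivFun.symm t : W) : L)).prod :=
    (Equiv.sum_comp b.equivFun.symm.toEquiv
      (fun w : W => (l.map fun φ => φ (w : L)).prod)).symm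
  have hp : ∀ t : Fin (Module.finrank K W) → K,
      (l.map fun φ => φ ((b.equivFun.symm t : W) : L)).prod =
        MvPolynomial.eval t ((l.map fun φ => (∑ i, MvPolynomial.C (φ (b i : L)) *
          MvPolynomial.X i : MvPolynomial (Fin (Module.finrank K W)) K)).prod) := by
    intro t
    rw [map_list_prod, List.map_map]
    congr 1
    refine List.map_congr_left fun φ _ => ?_
    rw [Module.Basis.equivFun_symm_apply]
    simp only [Function.comp, map_sum, map_mul, MvPolynomial.eval_C,
      MvPolynomial.eval_X, Submodule.coe_sum, Submodule.coe_smul, map_smul, smul_eq_mul]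
    exact Finset.sum_congr rfl fun i _ => mul_comm _ _
  rw [h1, h2]
  simp only [hp]
  rw [MvPolynomial.sum_eval_eq_zero]
  refine lt_of_le_of_lt (su_list _ ?_) ?_
  · intro p hp
    obtain ⟨φ, _, rfl⟩ := List.mem_map.1 hp
    exact su_deg _
  · rw [List.length_map, Fintype.card_fin]; exact h

private theorem su_const {K L : Type} [Field K] [Field L] [Algebra K L] (m : ℕ) (c : K) :
    (fun _ : L => algebraMap K L c) ∈ Pd K L m := by
  have h : (fun x : L => algebraMap K L ((([] : List (L →ₗ[K] K)).map fun φ => φ x).prod)) ∈
      Pd K L m := Submodule.subset_span ⟨[], by simp, rfl⟩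
  have h2 := Submodule.smul_mem (Pd K L m) (algebraMap K L c) h
  have h3 : (fun _ : L => algebraMap K L c) = algebraMap K L c •
      (fun x : L => algebraMap K L ((([] : List (L →ₗ[K] K)).map fun φ => φ x).prod)) := by
    funext x
    simp
  rw [h3]
  exact h2

private theorem su_mul {K L : Type} [Field K] [Field L] [Algebra K L] (m : ℕ)
    (φ : L →ₗ[K] K) (g : L → L) (hg : g ∈ Pd K L m) :
    (fun x => algebraMap K L (φ x) * g x) ∈ Pd K L (m + 1) := by
  change (fun x => algebraMap K L (φ x)) * g ∈ Pd K L (m + 1)
  induction hg using Submodule.span_induction with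
  | mem g hg =>
    obtain ⟨l, hl, rfl⟩ := hg
    refine Submodule.subset_span ⟨φ :: l, by simpa using hl, ?_⟩
    funext x
    simp
  | zero => simp
  | add x y _ _ hx hy => rw [mul_add]; exact Submodule.add_mem _ hx hy
  | smul c x _ hx => rw [mul_smul_comm]; exact Submodule.smul_mem _ c hx

private theorem su_main {K L : Type} [Field K] [Fintype K] [Field L] [Fintype L] [Algebra K L]
    (W : Submodule K L) (l : List (L →ₗ[K] K)) : ∀ l' : List (L →ₗ[K] K),
    (l.length + l'.length < (Fintype.card K - 1) * Module.finrank K W → ∀ u : L,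
      ∑ w ∈ univ.filter (fun w => w ∈ W), (l'.map fun φ => φ w).prod *
        (l.map fun φ => φ (u + w)).prod = 0) ∧
    (∀ m : ℕ, l.length + l'.length ≤ (Fintype.card K - 1) * Module.finrank K W + m →
      (fun u : L => algebraMap K L (∑ w ∈ univ.filter (fun w => w ∈ W),
        (l'.map fun φ => φ w).prod * (l.map fun φ => φ (u + w)).prod)) ∈ Pd K L m) := by
  induction l with
  | nil =>
    intro l'
    simp only [List.map_nil, List.prod_nil, mul_one, List.length_nil, zero_add]
    exact ⟨fun h _ => su_zero W l' h, fun m _ => su_const m _⟩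
  | cons φ l ih =>
    intro l'
    have hs : ∀ u : L, ∑ w ∈ univ.filter (fun w => w ∈ W), (l'.map fun φ => φ w).prod *
        ((φ :: l).map fun φ => φ (u + w)).prod =
        φ u * ∑ w ∈ univ.filter (fun w => w ∈ W), (l'.map fun φ => φ w).prod *
          (l.map fun φ => φ (u + w)).prod +
        ∑ w ∈ univ.filter (fun w => w ∈ W), ((φ :: l').map fun φ => φ w).prod *
          (l.map fun φ => φ (u + w)).prod := by
      intro u
      rw [Finset.mul_sum, ← Finset.sum_add_distrib]
      refine Finset.sum_congr rfl fun w _ => ?_
      rw [List.map_cons, List.prod_cons, List.map_cons, List.prod_cons, map_add]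
      ring
    constructor
    · intro h u
      rw [List.length_cons] at h
      rw [hs, (ih l').1 (by omega) u, (ih (φ :: l')).1 (by rw [List.length_cons]; omega) u]
      ring
    · intro m h
      rw [List.length_cons] at h
      have h2 := (ih (φ :: l')).2 m (by rw [List.length_cons]; omega)
      have e : (fun u : L => algebraMap K L (∑ w ∈ univ.filter (fun w => w ∈ W),
          (l'.map fun φ => φ w).prod * ((φ :: l).map fun φ => φ (u + w)).prod)) =
          (fun u : L => algebraMap K L (φ u) *
            (algebraMap K L (∑ w ∈ univ.filter (fun w => w ∈ W),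
              (l'.map fun φ => φ w).prod * (l.map fun φ => φ (u + w)).prod))) +
          (fun u : L => algebraMap K L (∑ w ∈ univ.filter (fun w => w ∈ W),
            ((φ :: l').map fun φ => φ w).prod * (l.map fun φ => φ (u + w)).prod)) := by
        funext u
        rw [Pi.add_apply, hs, map_add, map_mul]
      rw [e]
      refine Submodule.add_mem _ ?_ h2
      cases m with
      | zero =>
        have h1 := (ih l').1 (by omega)
        simp only [h1, map_zero, mul_zero]
        exact Submodule.zero_mem _
      | succ m => exact su_mul m φ _ ((ih l').2 m (by omega))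

theorem tSu : S_Su := by
  intro K L _ _ _ _ _ d m f W hf hd
  induction hf using Submodule.span_induction with
  | mem f hf =>
    obtain ⟨l, hl, rfl⟩ := hf
    have h := (su_main W l []).2 m (by simp only [List.length_nil]; omega)
    simpa only [List.map_nil, List.prod_nil, one_mul, map_sum] using h
  | zero =>
    have : (fun u : L => ∑ w ∈ univ.filter (fun w => w ∈ W), (0 : L → L) (u + w)) = 0 := by
      funext u; simp
    rw [this]; exact Submodule.zero_mem _
  | add f g _ _ hf hg =>
    have : (fun u : L => ∑ w ∈ univ.filter (fun w => w ∈ W), (f + g) (u + w)) =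
        (fun u => ∑ w ∈ univ.filter (fun w => w ∈ W), f (u + w)) +
          fun u => ∑ w ∈ univ.filter (fun w => w ∈ W), g (u + w) := by
      funext u; simp [Finset.sum_add_distrib]
    rw [this]; exact Submodule.add_mem _ hf hg
  | smul c f _ hf =>
    have : (fun u : L => ∑ w ∈ univ.filter (fun w => w ∈ W), (c • f) (u + w)) =
        c • (fun u => ∑ w ∈ univ.filter (fun w => w ∈ W), f (u + w)) := by
      funext u; simp [Finset.mul_sum]
    rw [this]; exact Submodule.smul_mem _ c hf

end Pool.Agent.MP8bH
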