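import Pool.Agent.Lib.MP_8b575b_co.Hom.SpecB

/-!
# MP_8b575b_co, module T2: the coordinate free version for all q, k at least five
-/

set_option autoImplicit false

namespace Pool.Agent.MP8bH

open Finset Polynomial Pool.Agent.MP8bT

open scoped Classical

/-- **T2**: the coordinate free version. -/
theorem tT2 (hI2 : S_I2) : S_T2 := by
  intro K L X _ _ _ _ _ _ _ k hk hL hX hq D hD1 hD2 hD3
  have : Module.Finite K L := Module.finite_of_finrank_pos (by omega)
  have : Module.Finite K X := Module.finite_of_finrank_pos (by omega)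
  let e₀ : X ≃ₗ[K] L := LinearEquiv.ofFinrankEq X L (hX.trans hL.symm)
  let e : (X × L) ≃ₗ[K] (L × L) := e₀.prodCongr (LinearEquiv.refl K L)
  have hinj : Function.Injective
      (fun U : Submodule K (X × L) => U.map (e : (X × L) →ₗ[K] (L × L))) :=
    Submodule.map_injective_of_injective e.injective
  have hcomm : ∀ b : L, (LinearMap.id.prodMap (LinearMap.mulLeft K b) : (L × L) →ₗ[K] (L × L)) ∘ₗ
      (e : (X × L) →ₗ[K] (L × L)) = (e : (X × L) →ₗ[K] (L × L)) ∘ₗ
      (LinearMap.id.prodMap (LinearMap.mulLeft K b) : (X × L) →ₗ[K] (X × L)) := by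
    intro b
    apply LinearMap.ext
    rintro ⟨x, y⟩
    rfl
  have key := hI2 K L k hk hL hq
    (D.image fun U : Submodule K (X × L) => U.map (e : (X × L) →ₗ[K] (L × L))) ?_ ?_ ?_
  · rw [Finset.card_image_of_injective _ hinj] at key
    exact key
  · intro U' hU'
    obtain ⟨U, hU, rfl⟩ := Finset.mem_image.mp hU'
    exact (LinearEquiv.finrank_map_eq e U).trans (hD1 U hU)
  · intro U' hU' W' hW' hne
    obtain ⟨U, hU, rfl⟩ := Finset.mem_image.mp hU'
    obtain ⟨W, hW, rfl⟩ := Finset.mem_image.mp hW'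
    have hne' : U ≠ W := by
      rintro rfl
      exact hne rfl
    have h1 : U.map (e : (X × L) →ₗ[K] (L × L)) ⊓ W.map (e : (X × L) →ₗ[K] (L × L)) =
        (U ⊓ W).map (e : (X × L) →ₗ[K] (L × L)) :=
      (Submodule.map_inf _ e.injective).symm
    change Module.finrank K ↥(U.map (e : (X × L) →ₗ[K] (L × L)) ⊓
      W.map (e : (X × L) →ₗ[K] (L × L))) ≤ 1
    rw [h1, LinearEquiv.finrank_map_eq e (U ⊓ W)]
    exact hD2 U hU W hW hne'
  · intro b hb U' hU'
    obtain ⟨U, hU, rfl⟩ := Finset.mem_image.mp hU'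
    refine Finset.mem_image.mpr ⟨_, hD3 b hb U hU, ?_⟩
    change (U.map (LinearMap.id.prodMap (LinearMap.mulLeft K b))).map
      (e : (X × L) →ₗ[K] (L × L)) = _
    rw [← Submodule.map_comp, ← hcomm b, Submodule.map_comp]

end Pool.Agent.MP8bH
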