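import Pool.Agent.Lib.MP_8b575b_co.Tor.Pa
import Pool.Agent.Lib.MP_8b575b_co.Tor.Pc
import Pool.Agent.Lib.MP_8b575b_co.Tor.Pi
import Pool.Agent.Lib.MP_8b575b_co.Hom.Hx
import Pool.Agent.Lib.MP_8b575b_co.Hom.Fr
import Pool.Agent.Lib.MP_8b575b_co.Hom.Ka
import Pool.Agent.Lib.MP_8b575b_co.Hom.Fb
import Pool.Agent.Lib.MP_8b575b_co.Hom.Dh
import Pool.Agent.Lib.MP_8b575b_co.Hom.Mu
import Pool.Agent.Lib.MP_8b575b_co.Hom.Rc
import Pool.Agent.Lib.MP_8b575b_co.Hom.Rh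
import Pool.Agent.Lib.MP_8b575b_co.Hom.Bt
import Pool.Agent.Lib.MP_8b575b_co.Hom.Ca
import Pool.Agent.Lib.MP_8b575b_co.Hom.Co
import Pool.Agent.Lib.MP_8b575b_co.Hom.Ex
import Pool.Agent.Lib.MP_8b575b_co.Hom.Ec
import Pool.Agent.Lib.MP_8b575b_co.Hom.Hp
import Pool.Agent.Lib.MP_8b575b_co.Hom.H1
import Pool.Agent.Lib.MP_8b575b_co.Hom.He
import Pool.Agent.Lib.MP_8b575b_co.Hom.Hl
import Pool.Agent.Lib.MP_8b575b_co.Hom.Hi
import Pool.Agent.Lib.MP_8b575b_co.Hom.Hz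
import Pool.Agent.Lib.MP_8b575b_co.Hom.Hf
import Pool.Agent.Lib.MP_8b575b_co.Hom.C2
import Pool.Agent.Lib.MP_8b575b_co.Hom.X2
import Pool.Agent.Lib.MP_8b575b_co.Hom.Su
import Pool.Agent.Lib.MP_8b575b_co.Hom.D3
import Pool.Agent.Lib.MP_8b575b_co.Hom.H4
import Pool.Agent.Lib.MP_8b575b_co.Hom.Eq
import Pool.Agent.Lib.MP_8b575b_co.Hom.F1
import Pool.Agent.Lib.MP_8b575b_co.Hom.F2
import Pool.Agent.Lib.MP_8b575b_co.Hom.F3
import Pool.Agent.Lib.MP_8b575b_co.Hom.Tr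
import Pool.Agent.Lib.MP_8b575b_co.Hom.Pr
import Pool.Agent.Lib.MP_8b575b_co.Hom.Mx
import Pool.Agent.Lib.MP_8b575b_co.Hom.K3
import Pool.Agent.Lib.MP_8b575b_co.Hom.K4
import Pool.Agent.Lib.MP_8b575b_co.Hom.I2
import Pool.Agent.Lib.MP_8b575b_co.Hom.T2

/-!
# MP_8b575b_co: Theorem H2 (codes with a group of homologies, `q = 2` or `k ≥ 5`)
-/

set_option autoImplicit false

namespace Pool.Agent.MP8bH

open Pool.Agent.MP8bT

theorem thmH2 : S_T2 := by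
  have hx := tHx
  have hfr := tFr hx
  have hka := tKa hx hfr
  have hfb := tFb hx
  have hdh := tDh hx hfr hfb
  have hmu := tMu hx hka hfb hdh
  have hrc := tRc hfb hdh
  have hco := tCo tCa
  have hex := tEx hfb hmu hrc tRh tBt hco
  have hec := tEc hfb hrc tCa
  have h1 := tH1 hx hrc
  have hpc := tPc tPa
  have hpi := tPi tPa hpc
  have he := tHe hx hpi tHp h1
  have hl := tHl hx hpc tHp
  have hi := tHi hx
  have hf := tHf tPa hec he hl hi tHz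
  have hx2 := tX2 hfb hmu hrc tRh tBt (tC2 tCa)
  have hf1 := tF1 tPa hec hl hi tSu
  have heq := tEq hx hpi tHp (tH4 hx hrc)
  have hf2 := tF2 hec he hi hf1
  have hf3 := tF3 hec heq hf1
  have hpr := tPr hec hi tTr
  have hmx := tMx hx2 hf2 tD3 tTr
  have hk3 := tK3 hec tD3 hf3 tTr hpr
  have hk4 := tK4 hec tD3 hf3 tTr hpr hi
  exact tT2 (tI2 hmu hex hf hmx hk3 hk4)

end Pool.Agent.MP8bH
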