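import Pool.Agent.Lib.MP_8b575b_co.Hom.Spec

/-!
# MP_8b575b_co, part Hom: scalar holes
-/

set_option autoImplicit false

namespace Pool.Agent.MP8bH

open Finset Polynomial Pool.Agent.MP8bT

open scoped Classical

private theorem Rh_x {K L : Type} [Field K] [Field L] [Algebra K L] {x x' : L}
    (h : In2 K x x') : x ≠ 0 := by
  rintro rfl
  have := (h 1 0 (by simp)).1
  exact one_ne_zero this

/-- **Rh**. -/
theorem tRh : S_Rh := by
  intro K L _ _ _ _ _ k D hD x x' hx'
  have hx0 := Rh_x hx'
  have h1 : ((univ : Finset K).filter fun c => kap D (x' - c • x) = 0).card ≤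
      (hx D x x').card := by
    refine Finset.card_le_card_of_injOn (fun c => algebraMap K L c) ?_ ?_
    · intro c hc
      have hc' : kap D (x' - c • x) = 0 := (Finset.mem_filter.1 hc).2
      refine Finset.mem_coe.2 (Finset.mem_filter.2 ⟨Finset.mem_univ _, ?_⟩)
      intro U hU hmem
      obtain ⟨hUD, hx1⟩ := Finset.mem_filter.1 hU
      have h2 : ((x' - c • x, 0) : L × L) ∈ U := by
        have h3 := U.sub_mem hmem (U.smul_mem c hx1)
        have h4 : ((x', algebraMap K L c) : L × L) - c • ((x, 1) : L × L) =
            (x' - c • x, 0) := by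
          rw [Prod.smul_mk, Prod.mk_sub_mk, Algebra.smul_def c (1 : L), mul_one, sub_self]
        rw [h4] at h3
        exact h3
      have h5 : U ∈ Do D := by
        rw [Do, Finset.mem_filter]
        refine ⟨hUD, ?_, ?_⟩
        · rintro rfl
          simp [ax1] at hx1
        · rintro rfl
          simp [ax2] at hx1
          exact hx0 hx1.symm
      have h6 : kap D (x' - c • x) = 1 := by
        rw [kap, if_pos ⟨U, h5, h2⟩]
      omega
    · intro a _ b _ hab
      exact (algebraMap K L).injective hab
  have h2 : ((univ : Finset K).filter fun c => ¬ kap D (x' - c • x) = 0).card ≤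
      ∑ c : K, kap D (x' - c • x) := by
    rw [Finset.card_filter]
    refine Finset.sum_le_sum fun c _ => ?_
    split_ifs with h
    · omega
    · omega
  have h3 := Finset.card_filter_add_card_filter_not (s := (univ : Finset K))
    (fun c => kap D (x' - c • x) = 0)
  rw [Finset.card_univ] at h3
  omega

end Pool.Agent.MP8bH
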