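import Pool.Agent.Lib.MP_8b575b_co.Tor.SpecB

/-!
# MP_8b575b_co: codes with a group of homologies

THEOREM H. Let `K` be a field with `q` elements, `k ≥ 4`, `L` a field extension of degree `k`; suppose `q = 2` or
`3 q < (q - 1) (k - 1)` (that is `k ≥ 6`, or `k = 5` and `q ≥ 5`). A set of `k`-dimensional `K`-subspaces of `L × L`,
pairwise meeting in dimension at most one and invariant under all the maps `(x, y) ↦ (x, b y)` (`b ∈ L`, nonzero), has
at most `q ^ (2 k) + 1` elements.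

Notation: `Q = q ^ k`, `A₁ = ax1`, `A₂ = ax2` the axes, `Do D` the codewords which are no axis, `sc 1 b` the map
`(x, y) ↦ (x, b y)` (definitions in `Tor/Spec.lean`); `Pd`, `pu` and the statements `S_Pa`, `S_Pc`, `S_Pi` are in
`Tor/SpecB.lean` (proved there).

PLAN. A codeword of `Do D` meets `A₁ ∪ A₂` in at most one point (`S_Hx`), its orbit has `Q - 1` elements. `D1 D` = the
codewords meeting `A₂`, `D0 D` the others; the first projections of the members of `D1 D` are hyperplanes, each belongs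
to one orbit (`S_Dh`). So the code is described by the set `HH D` of hyperplanes, the set of the `x` with `kap D x = 1`
(some codeword of `Do D` contains `(x, 0)`) and the number `mu D`; `#(Do D) = (Q - 1) (mu + #HH)` (`S_Mu`). Counting at
the points `(x, 1)` and above the pairs `x, x'` gives two inequalities (`S_Rc`, `S_Rh`, `S_Bt`), and these imply, if
`#(Do D) ≥ (Q - 1) (Q + 2)`, that almost all hyperplanes occur (`S_Co`); for `q = 2` this is a contradiction, for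
`q ≥ 3` we get independent `x₁`, `x₂` such that `x₁`, `x₂`, `x₁ + x₂` are good (`S_Ex`). For good `x` the set `hx D x x'` of the
`y` with `(x', y)` and `(x, 1)` in no common codeword has `Q + q - r(x) ∈ {q - 1, q}` elements (`S_Ec`), and its
elementary symmetric functions are polynomial functions of `x'` of low degree (`S_He`). As `y ∈ hx D x x'` iff
`y⁻¹ ∈ hx D x' x` (`S_Hi`) and `∑_{y ∈ hx D x' x} y` is additive in `x` (`S_Hl`), we get an identity between the three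
families of polynomial functions, which is false at `x' = x₁ + x₂` (`S_Hf`).

The proofs are complete in the docstrings; every module is independent (used statements are hypotheses):
file `Hom/<Name>.lean` (import this file only), namespace `Pool.Agent.MP8bH`, `theorem t<Name> : S_X → .. → S_<Name>`
(hypotheses in the order of the docstring), all other declarations `private`.
-/

set_option autoImplicit false

namespace Pool.Agent.MP8bH

open Finset Polynomial Pool.Agent.MP8bT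

open scoped Classical

/-- The setting. -/
def Hm {K L : Type} [Field K] [Field L] [Algebra K L] (k : ℕ)
    (D : Finset (Submodule K (L × L))) : Prop :=
  4 ≤ k ∧ Module.finrank K L = k ∧ (∀ U ∈ D, Module.finrank K U = k) ∧
  (∀ U ∈ D, ∀ W ∈ D, U ≠ W → Module.finrank K ↥(U ⊓ W) ≤ 1) ∧
  ∀ b : L, b ≠ 0 → ∀ U ∈ D, U.map (sc K 1 b) ∈ D

/-- `x` and `x'` are linearly independent. -/
def In2 (K : Type) {M : Type} [Field K] [AddCommGroup M] [Module K M] (x x' : M) : Prop :=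
  ∀ a b : K, a • x + b • x' = 0 → a = 0 ∧ b = 0

/-- The codewords through `(x, 1)`. -/
noncomputable def RX {K L : Type} [Field K] [Field L] [Algebra K L]
    (D : Finset (Submodule K (L × L))) (x : L) : Finset (Submodule K (L × L)) :=
  D.filter fun U => ((x, 1) : L × L) ∈ U

/-- The `y` such that no codeword contains `(x, 1)` and `(x', y)`. -/
noncomputable def hx {K L : Type} [Field K] [Field L] [Fintype L] [Algebra K L]
    (D : Finset (Submodule K (L × L))) (x x' : L) : Finset L :=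
  univ.filter fun y => ∀ U ∈ RX D x, (x', y) ∉ U

/-- `1` if some codeword (not an axis) contains `(x, 0)`, otherwise `0`. -/
noncomputable def kap {K L : Type} [Field K] [Field L] [Algebra K L]
    (D : Finset (Submodule K (L × L))) (x : L) : ℕ :=
  if ∃ U ∈ Do D, ((x, 0) : L × L) ∈ U then 1 else 0

/-- The codewords (no axes) which do not meet the second axis. -/
noncomputable def D0 {K L : Type} [Field K] [Field L] [Algebra K L]
    (D : Finset (Submodule K (L × L))) : Finset (Submodule K (L × L)) :=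
  (Do D).filter fun U => U ⊓ ax2 K L = ⊥

/-- The codewords (no axes) which meet the second axis. -/
noncomputable def D1 {K L : Type} [Field K] [Field L] [Algebra K L]
    (D : Finset (Submodule K (L × L))) : Finset (Submodule K (L × L)) :=
  (Do D).filter fun U => U ⊓ ax2 K L ≠ ⊥

/-- The first projections of the codewords meeting the second axis. -/
noncomputable def HH {K L : Type} [Field K] [Field L] [Algebra K L]
    (D : Finset (Submodule K (L × L))) : Finset (Submodule K L) :=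
  (D1 D).image fun U => U.map (LinearMap.fst K L L)

/-- The number of the codewords of `D0 D` through `(x, 1)`. -/
noncomputable def m0 {K L : Type} [Field K] [Field L] [Algebra K L]
    (D : Finset (Submodule K (L × L))) (x : L) : ℕ :=
  ((D0 D).filter fun U => ((x, 1) : L × L) ∈ U).card

/-- The number of the orbits in `D0 D` (see `S_Mu`). -/
noncomputable def mu {K L : Type} [Field K] [Field L] [Algebra K L]
    (D : Finset (Submodule K (L × L))) : ℕ := m0 D 1 + kap D 1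

/-- The number of the members of `T` containing `x`. -/
noncomputable def t1 {K M : Type} [Field K] [AddCommGroup M] [Module K M]
    (T : Finset (Submodule K M)) (x : M) : ℕ := (T.filter fun H => x ∈ H).card

/-- The number of the members of `T` containing `x` and `x'`. -/
noncomputable def t2 {K M : Type} [Field K] [AddCommGroup M] [Module K M]
    (T : Finset (Submodule K M)) (x x' : M) : ℕ := (T.filter fun H => x ∈ H ∧ x' ∈ H).card

/-- `x` is good: every hyperplane through `x` occurs in `HH D`, and almost the maximal number of codewords contains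
`(x, 1)`. -/
def Gd {K L : Type} [Field K] [Fintype K] [Field L] [Algebra K L] (k : ℕ)
    (D : Finset (Submodule K (L × L))) (x : L) : Prop :=
  x ≠ 0 ∧ (Fintype.card K - 1) * t1 (HH D) x + 1 = Fintype.card K ^ (k - 1) ∧
  Fintype.card K ^ k ≤ (RX D x).card ∧ (RX D x).card ≤ Fintype.card K ^ k + 1

/-- **Hx** (200 lines). Intersections with the axes; stabilizers.

Proof. `U ∈ Do D`, `i = dim (U ∩ A₁)`, `j = dim (U ∩ A₂)`, `Y` = the second projection of `U`, `dim Y = k - i` (its kernel is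
`U ∩ A₁`). (1) If `sc 1 b U = U` for all `b ≠ 0`, then `U` is an axis: `(0, (1 - b) y) = (x, y) - (x, b y) ∈ U` for `(x, y) ∈ U`,
`b ≠ 0`. If some `y ≠ 0`, then `(0, z) ∈ U` for all `z ≠ y` (`b = 1 - z / y`), hence for all `z` (`#L > 2`), so `A₂ ≤ U` and
`U = A₂` (dimensions); otherwise `U ≤ A₁`, `U = A₁`. This contradicts `U ∈ Do D`. (2) `i ≤ 1`: `sc 1 b` fixes `A₁` pointwise, so
if `i ≥ 2` then `sc 1 b U ∩ U` has dimension at least two and `sc 1 b U = U` for all `b ≠ 0`, against (1). (3) `sc 1 b U = U`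
implies `b = 1` (`b ≠ 0`): otherwise `(0, (1 - b) y) ∈ U` for all `y ∈ Y`, so `j ≥ dim Y = k - i ≥ k - 1`; for every `c ≠ 0`
the spaces `U ∩ A₂` and `sc 1 c (U ∩ A₂)` of dimension `≥ k - 1` in `A₂` (dimension `k`) meet in dimension `≥ k - 2 ≥ 2`, so
`sc 1 c U = U` for all `c ≠ 0`, against (1). (4) `j ≤ 1`: let `A = {z | (0, z) ∈ U}` (dimension `j ≥ 2`) and `b ≠ 0, 1`
(`#L > 2`). The space `{(x, y) ∈ U | (b - 1) y ∈ A}` has dimension `i + dim (Y ∩ (b - 1)⁻¹ A) ≥ i + (k - i) + j - k = j ≥ 2`;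
for its elements `(x, b y) = (x, y) + (0, (b - 1) y)` is in `U ∩ sc 1 b U`, and `(x, y) ↦ (x, b y)` is injective. So
`sc 1 b U = U`, against (3). (5) Not both `i = 1` and `j = 1`: let `(s, 0)`, `(0, e) ∈ U`, `s`, `e ≠ 0`; `dim Y ≥ k - 1 ≥ 2`, so
there is `(x, y) ∈ U` with `y ∉ K e`; put `b = (y + e) / y`, `b ≠ 0, 1`. Then `(x, b y) = (x, y) + (0, e) ∈ U ∩ sc 1 b U` and
`(s, 0) ∈ U ∩ sc 1 b U`, and these are independent (`b y ≠ 0`), so `sc 1 b U = U`, against (3). (Compare `Tor/Ax.lean`,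
`Tor/Lx.lean`, where the group is larger.) -/
def S_Hx : Prop :=
  ∀ (K L : Type) [Field K] [Fintype K] [Field L] [Fintype L] [Algebra K L] (k : ℕ)
    (D : Finset (Submodule K (L × L))), Hm k D → ∀ U ∈ Do D,
    Module.finrank K ↥(U ⊓ ax1 K L) ≤ 1 ∧ Module.finrank K ↥(U ⊓ ax2 K L) ≤ 1 ∧
    (U ⊓ ax1 K L = ⊥ ∨ U ⊓ ax2 K L = ⊥) ∧ ∀ b : L, b ≠ 0 → U.map (sc K 1 b) = U → b = 1

/-- **Fr** (100 lines, uses `S_Hx`). Invariant sets of codewords.

Proof. The group `Lˣ` of order `q ^ k - 1` acts on `E` (`b U = sc 1 b U`, `sc 1 (b b') = sc 1 b ∘ sc 1 b'`) and all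
stabilizers are trivial (`S_Hx`), so all orbits have `q ^ k - 1` elements (compare the action in `Tor/Pt.lean`; or:
count the pairs of `Lˣ × E` over `E / ~`). -/
def S_Fr : Prop :=
  ∀ (K L : Type) [Field K] [Fintype K] [Field L] [Fintype L] [Algebra K L] (k : ℕ)
    (D : Finset (Submodule K (L × L))), Hm k D → ∀ E : Finset (Submodule K (L × L)), E ⊆ Do D →
    (∀ b : L, b ≠ 0 → ∀ U ∈ E, U.map (sc K 1 b) ∈ E) → (Fintype.card K ^ k - 1) ∣ E.card

/-- **Ka** (150 lines, uses `S_Hx`, `S_Fr`). The codewords through `(x, 0)`.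

Proof. `E = {U ∈ Do D | (x, 0) ∈ U}` is invariant under `sc 1 b` (which fixes `(x, 0)` and preserves the axes), so
`Q - 1` divides `#E` (`S_Fr`), and it is enough to show `#E < 2 (Q - 1)` (`E` is empty iff `kap D x = 0`). For
`U ∈ E` we have `U ∩ A₂ = 0` (`S_Hx`). Let `B = {(c x, y) | c ∈ K, y ∈ L}`, `#B = q ^ (k + 1)`. `U ∩ B = K (x, 0)`: if
`(c x, y) ∈ U` then `(0, y) ∈ U`, `y = 0`. The sets `U \ B` (`U ∈ E`) have `q ^ k - q` elements, are pairwise disjoint (a common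
element and `(x, 0)` are independent elements of an intersection) and contained in the complement of `B`, with
`q ^ (2 k) - q ^ (k + 1) = q ^ k (q ^ k - q)` elements. So `#E ≤ q ^ k < 2 (q ^ k - 1)`. -/
def S_Ka : Prop :=
  ∀ (K L : Type) [Field K] [Fintype K] [Field L] [Fintype L] [Algebra K L] (k : ℕ)
    (D : Finset (Submodule K (L × L))), Hm k D → ∀ x : L, x ≠ 0 →
    ((Do D).filter fun U => ((x, 0) : L × L) ∈ U).card = kap D x * (Fintype.card K ^ k - 1)

/-- **Fb** (120 lines, uses `S_Hx`). The fibres of the first projection.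

Proof. The first projection of `U` has the kernel `U ∩ A₂`, of dimension zero (`U ∈ D0 D`; then it is bijective onto `L`,
`dim U = k = dim L`) or one (`U ∈ D1 D`, `S_Hx`; then the image has dimension `k - 1`). The nonempty fibres
`{y | (x, y) ∈ U}` are cosets of `{z | (0, z) ∈ U}`. -/
def S_Fb : Prop :=
  ∀ (K L : Type) [Field K] [Fintype K] [Field L] [Fintype L] [Algebra K L] (k : ℕ)
    (D : Finset (Submodule K (L × L))), Hm k D →
    (∀ U ∈ D0 D, ∀ x : L, (univ.filter fun y : L => (x, y) ∈ U).card = 1) ∧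
    ∀ U ∈ D1 D, Module.finrank K ↥(U.map (LinearMap.fst K L L)) + 1 = k ∧ ∀ x : L,
      (x ∈ U.map (LinearMap.fst K L L) →
        (univ.filter fun y : L => (x, y) ∈ U).card = Fintype.card K) ∧
      (x ∉ U.map (LinearMap.fst K L L) → (univ.filter fun y : L => (x, y) ∈ U).card = 0)

/-- **Dh** (250 lines, uses `S_Hx`, `S_Fr`, `S_Fb`). The codewords above a hyperplane.

Proof. `E = {U ∈ D1 D | fst U = H}` is invariant under `sc 1 b` (which preserves the first projection and the axes) and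
not empty, so `Q - 1` divides `#E` (`S_Fr`). (1) `#E ≤ Q - 1`. `U ∈ E` meets `A₂`, so `U ∩ A₁ = 0` (`S_Hx`), the second
projection is bijective on `U` (`dim U = k`), and `U = {(h y, y) | y ∈ L}` with a linear `h = h_U : L → L` with range `H`. Let
`η : L → K` be a linear form which is not zero on `H` (`dim H = k - 1 ≥ 1`). The map `U ↦ η ∘ h_U` from `E` to the nonzero
linear forms on `L` (`Q - 1` of them) is injective: if `η ∘ h_U = η ∘ h_W`, then `h_U - h_W` has its values in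
`H ∩ ker η` (dimension `k - 2`), so its kernel has dimension at least two, and `U ∩ W` contains the `(h_U y, y)` for `y` in
this kernel: `U = W`. (2) Let `x ∈ H`, `x ≠ 0`. Count the pairs `(y, U)` with `U ∈ E`, `(x, y) ∈ U`: `q #E = q (Q - 1)` by `S_Fb`.
`y ≠ 0` for all of them (`U ∩ A₁ = 0`), and for each `y ≠ 0` the number of the `U` is the same as for `y = 1` (bijection
`U ↦ sc 1 y⁻¹ U`). So `q (Q - 1) = (Q - 1) #{U ∈ E | (x, 1) ∈ U}`. -/
def S_Dh : Prop :=
  ∀ (K L : Type) [Field K] [Fintype K] [Field L] [Fintype L] [Algebra K L] (k : ℕ)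
    (D : Finset (Submodule K (L × L))), Hm k D → ∀ H ∈ HH D,
    ((D1 D).filter fun U => U.map (LinearMap.fst K L L) = H).card = Fintype.card K ^ k - 1 ∧
    ∀ x ∈ H, x ≠ 0 → ((D1 D).filter fun U => U.map (LinearMap.fst K L L) = H ∧
      ((x, 1) : L × L) ∈ U).card = Fintype.card K

/-- **Mu** (200 lines, uses `S_Hx`, `S_Ka`, `S_Fb`, `S_Dh`). The number `mu D`.

Proof. (1) Let `x ≠ 0`. Each `U ∈ D0 D` contains exactly one `(x, y)` (`S_Fb`). The number of the `U ∈ D0 D` with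
`(x, 0) ∈ U` is `kap D x (Q - 1)` (`S_Ka`; such a `U ∈ Do D` meets `A₁`, so it is in `D0 D` by `S_Hx`); for `y ≠ 0` the number of the
`U ∈ D0 D` with `(x, y) ∈ U` is `m0 D x` (bijection `U ↦ sc 1 y⁻¹ U` of `D0 D`). So `#(D0 D) = (Q - 1) (m0 D x + kap D x)`
for all `x ≠ 0`, and the right side does not depend on `x`. (2) `#(D1 D) = (Q - 1) #(HH D)` by `S_Dh` (the fibres of
`U ↦ fst U`), `#(Do D) = #(D0 D) + #(D1 D)`. (3) `(Q - 1) ∑_{x ≠ 0} kap D x` is the number of the pairs `(x, U)`, `x ≠ 0`,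
`U ∈ Do D`, `(x, 0) ∈ U` (`S_Ka`). Each such `U` is in `D0 D`, and each `U` belongs to at most `q - 1` pairs
(`dim (U ∩ A₁) ≤ 1`): the number is at most `(q - 1) #(D0 D) = (q - 1) (Q - 1) mu`. -/
def S_Mu : Prop :=
  ∀ (K L : Type) [Field K] [Fintype K] [Field L] [Fintype L] [Algebra K L] (k : ℕ)
    (D : Finset (Submodule K (L × L))), Hm k D →
    (∀ x : L, x ≠ 0 → m0 D x + kap D x = mu D) ∧
    (Do D).card = (Fintype.card K ^ k - 1) * (mu D + (HH D).card) ∧
    ∑ x ∈ univ.filter (fun x : L => x ≠ 0), kap D x ≤ (Fintype.card K - 1) * mu D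

/-- **Rc** (200 lines, uses `S_Fb`, `S_Dh`). Counting at the point `(x, 1)`.

Proof. `x ≠ 0` (also `In2 K x x'` implies `x ≠ 0`, take `a = 1`, `b = 0`). The members of `RX D x` are in `Do D` (`(x, 1)` is on no
axis), so `#(RX D x) = m0 D x + #{U ∈ D1 D | (x, 1) ∈ U}`; the last number is the sum over the `H ∈ HH D` of the numbers of
the `U ∈ D1 D` with `fst U = H`, `(x, 1) ∈ U`, which are `q` for `x ∈ H` (`S_Dh`) and `0` for `x ∉ H`. Let `x'` be independent of `x`.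
The sets `{y | (x', y) ∈ U}`, `U ∈ RX D x`, are pairwise disjoint (`(x, 1)` and `(x', y)` are independent, so they are in
at most one codeword), and `hx D x x'` is the complement of their union. They have one element for `U ∈ D0 D`, `q` elements
for `U ∈ D1 D`, `x' ∈ fst U`, none for the other `U` (`S_Fb`). The number of the `U ∈ D1 D` with `(x, 1) ∈ U`, `x' ∈ fst U` is
`q` times the number of the `H ∈ HH D` containing `x` and `x'`. -/
def S_Rc : Prop :=
  ∀ (K L : Type) [Field K] [Fintype K] [Field L] [Fintype L] [Algebra K L] (k : ℕ)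
    (D : Finset (Submodule K (L × L))), Hm k D → ∀ x : L, x ≠ 0 →
    (RX D x).card = m0 D x + Fintype.card K * t1 (HH D) x ∧ ∀ x' : L, In2 K x x' →
    (hx D x x').card + m0 D x + Fintype.card K ^ 2 * t2 (HH D) x x' = Fintype.card K ^ k

/-- **Rh** (60 lines). Scalar holes.

Proof. For `c ∈ K` with `kap D (x' - c x) = 0` the element `c` (`algebraMap K L c`) is in `hx D x x'`: if `U ∈ D` contains `(x, 1)` and
`(x', c)`, then `(x' - c x, 0) = (x', c) - c (x, 1) ∈ U`, and `U` is no axis (`(x, 1) ∈ U`, `x ≠ 0`), so `kap D (x' - c x) = 1`.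
So `q - ∑_c kap D (x' - c x) = #{c | kap D (x' - c x) = 0} ≤ #(hx D x x')`. -/
def S_Rh : Prop :=
  ∀ (K L : Type) [Field K] [Fintype K] [Field L] [Fintype L] [Algebra K L] (k : ℕ)
    (D : Finset (Submodule K (L × L))), Hm k D → ∀ x x' : L, In2 K x x' →
    Fintype.card K ≤ (hx D x x').card + ∑ c : K, kap D (x' - c • x)

/-- **Bt** (250 lines). The number of the codewords through a point (partial spreads).

Proof. Suppose `#R ≥ Q + 2`. For a linear form `φ ≠ 0` with `φ v = 0` let `n_φ` be the number of the `U ∈ R` with `U ≤ ker φ`. The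
sets `(U ∩ ker φ) \ K v`, `U ∈ R`, are pairwise disjoint (an element of two of them and `v` would be independent in
`U ∩ W`), with `q ^ k - q` elements if `U ≤ ker φ`, otherwise `q ^ (k - 1) - q`; they are contained in `ker φ \ K v` with
`q ^ (2 k - 1) - q` elements. So `n_φ (q ^ k - q ^ (k - 1)) + #R (q ^ (k - 1) - q) ≤ q ^ (2 k - 1) - q`. With `#R ≥ q ^ k + 2` this
gives `n_φ q ^ (k - 1) (q - 1) ≤ q ^ (k + 1) - 2 q ^ (k - 1) + q < (q + 1) (q - 1) q ^ (k - 1)` (`k ≥ 3`), so `n_φ ≤ q`. The sum of the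
`n_φ` over all `φ ≠ 0` with `φ v = 0` is `#R (q ^ k - 1)` (the forms vanishing on `U`: `q ^ (2 k - k)` of them), and there are
`q ^ (2 k - 1) - 1` such `φ`. So `#R (q ^ k - 1) ≤ q (q ^ (2 k - 1) - 1) = q ^ (2 k) - q < (q ^ k + 2) (q ^ k - 1)`:
contradiction. -/
def S_Bt : Prop :=
  ∀ (K V : Type) [Field K] [Fintype K] [AddCommGroup V] [Module K V] [Fintype V] (k : ℕ) (v : V)
    (R : Finset (Submodule K V)), 3 ≤ k → Module.finrank K V = 2 * k → v ≠ 0 →
    (∀ U ∈ R, Module.finrank K U = k ∧ v ∈ U) →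
    (∀ U ∈ R, ∀ W ∈ R, U ≠ W → Module.finrank K ↥(U ⊓ W) ≤ 1) →
    R.card ≤ Fintype.card K ^ k + 1

/-- **Ca** (200 lines). Sets of hyperplanes.

Proof. (1) Each `H ∈ T` has `q ^ (k - 1) - 1` nonzero elements (count the pairs `(x, H)`). (2) For `H ∈ T` the number of the
elements of the family `x`, `x' - c x` (`c ∈ K`) in `H` is `q + 1` if `x`, `x' ∈ H`, otherwise it is one: let `λ` be a linear form
with the kernel `H`; if `x ∈ H`, `x' ∉ H` only `x`; if `x ∉ H` only `c = λ(x') / λ(x)`. (3) Each `H` is the kernel of `q - 1` nonzero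
linear forms, and there are `q ^ k - 1` nonzero linear forms. (4) For `x ∈ H` the number of the `x' ∈ H` which are
independent of `x` is `q ^ (k - 1) - q`. (5) The `x'` which are not independent of `x ≠ 0` are the `q` elements of `K x`. -/
def S_Ca : Prop :=
  ∀ (K M : Type) [Field K] [Fintype K] [AddCommGroup M] [Module K M] [Fintype M] (k : ℕ)
    (T : Finset (Submodule K M)), 2 ≤ k → Module.finrank K M = k →
    (∀ H ∈ T, Module.finrank K H + 1 = k) →
    ∑ x ∈ univ.filter (fun x : M => x ≠ 0), t1 T x = T.card * (Fintype.card K ^ (k - 1) - 1) ∧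
    (∀ x x' : M, In2 K x x' →
      t1 T x + ∑ c : K, t1 T (x' - c • x) = T.card + Fintype.card K * t2 T x x') ∧
    (Fintype.card K - 1) * T.card + 1 ≤ Fintype.card K ^ k ∧
    ∀ x : M, x ≠ 0 → ∑ x' ∈ univ.filter (fun x' : M => In2 K x x'), t2 T x x' =
        t1 T x * (Fintype.card K ^ (k - 1) - Fintype.card K) ∧
      (univ.filter (fun x' : M => In2 K x x')).card = Fintype.card K ^ k - Fintype.card K

/-- **Co** (300 lines, uses `S_Ca`). The combinatorial conclusion.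

Proof. `Q = q ^ k`, `a = #T`, `t x = t1 T x`. (P) `μ + q t x ≤ Q + 1 + κ x` (`x ≠ 0`), (L) `μ + q ^ 2 t2 T x x' + q ≤ Q + κ x +
∑_c κ (x' - c x)` (`x`, `x'` independent), (M) `Q + 2 ≤ μ + a`. Put `ψ x = a - q t x` (an integer). By (P) and (M)
`ψ x ≥ 1 - κ x ≥ 0` for `x ≠ 0`. By `S_Ca` `∑_{x ≠ 0} ψ x = a (Q - 1) - q a (q ^ (k - 1) - 1) = a (q - 1)`, and `(q - 1) a ≤ Q - 1`.

Case A: `ψ x ≥ 1` for all `x ≠ 0`. Then `Q - 1 ≤ (q - 1) a ≤ Q - 1`, so `(q - 1) a = Q - 1` and `ψ x = 1` for all `x ≠ 0`: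
`q t x + 1 = a`, `(q - 1) t x + 1 = q ^ (k - 1)`. For independent `x`, `x'`: `(q + 1) t = a + q t2` (`S_Ca`), so `t = 1 + q t2`, and (L),
(M) give `1 = 2 - a + q t ≤ κ x + ∑_c κ (x' - c x)`: (*) some element `z` of the family `x`, `x' - c x` has `κ z = 1`.
`q ≥ 3`: take such a `z` (`z ≠ 0`, there are independent `x`, `x'`), `x₁` independent of `z`, `x₂ = z - x₁`; by (M)
`μ + q t x = μ + a - 1 ≥ Q + 1`. `q = 2`: `a = Q - 1`, (P) with any `x`: `μ ≤ Q + 2 - (a - 1) = 4`; and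
`∑_{x ≠ 0} κ x ≥ 2 ^ (k - 1) - 1 ≥ 7`: clear if all `κ x = 1`; if `κ x = 0` then `κ x' + κ (x' + x) ≥ 1` for the `2 ^ (k - 1) - 1` pairs
`{x', x' + x}`, `x' ∉ {0, x}`, by (*).

Case B: `ψ x₀ = 0` for some `x₀ ≠ 0`. Then `q` divides `a`, all `ψ x` are divisible by `q`, and `κ x = 1` if `ψ x = 0`, `x ≠ 0`. Let
`S = {x ≠ 0 | ψ x ≠ 0}` (so `ψ x ≥ q` on `S`). Claim: for independent `x`, `x'` some element of the family `x`, `x' - c x` is
in `S`. Otherwise `κ = 1` and `q t = a` on the family, `S_Ca` gives `(q + 1) a = q a + q ^ 2 t2`, `a = q ^ 2 t2`, and (L) gives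
`μ + a + q ≤ Q + 1 + q`, against (M). Apply the claim to `x₀` and `x' ∉ K x₀` (`x₀ ∉ S`): some `x' - c x₀ ∈ S`. So `S` meets every coset
of `K x₀` other than `K x₀`: `#S ≥ q ^ (k - 1) - 1`. So `Q - q ≤ q #S ≤ ∑ ψ x = (q - 1) a ≤ Q - 1`, and `(q - 1) a` is divisible by
`q`: `(q - 1) a = Q - q` and `#S = q ^ (k - 1) - 1`. For `x ∉ S`, `x ≠ 0`: `q t x = a`, so `(q - 1) t x + 1 = q ^ (k - 1)`, `κ x = 1`,
`μ + q t x = μ + a ≥ Q + 2`. `q ≥ 3`: let `x₁ = x₀`; the `x₂` with `x₂ ∈ S ∪ {0}` or `x₁ + x₂ ∈ S ∪ {0}` or `x₂ ∈ K x₁` are at most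
`2 q ^ (k - 1) + q < q ^ k` elements; take another `x₂`. `q = 2`: `a = Q - 2`, (P) for `x₀`: `μ ≤ Q + 2 - a = 4`, and
`∑ κ x ≥ #{x ≠ 0, x ∉ S} = 2 ^ (k - 1) ≥ 8`. -/
def S_Co : Prop :=
  ∀ (K M : Type) [Field K] [Fintype K] [AddCommGroup M] [Module K M] [Fintype M] (k μ : ℕ)
    (κ : M → ℕ) (T : Finset (Submodule K M)), 4 ≤ k → Module.finrank K M = k →
    (∀ H ∈ T, Module.finrank K H + 1 = k) → (∀ x, κ x ≤ 1) →
    (∀ x, x ≠ 0 → μ + Fintype.card K * t1 T x ≤ Fintype.card K ^ k + 1 + κ x) →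
    (∀ x x', In2 K x x' → μ + Fintype.card K ^ 2 * t2 T x x' + Fintype.card K ≤
      Fintype.card K ^ k + κ x + ∑ c : K, κ (x' - c • x)) →
    Fintype.card K ^ k + 2 ≤ μ + T.card →
    (Fintype.card K = 2 → μ < ∑ x ∈ univ.filter (fun x : M => x ≠ 0), κ x) ∧
    (3 ≤ Fintype.card K → ∃ x₁ x₂ : M, In2 K x₁ x₂ ∧ κ (x₁ + x₂) = 1 ∧
      ∀ x, x = x₁ ∨ x = x₂ ∨ x = x₁ + x₂ →
        (Fintype.card K - 1) * t1 T x + 1 = Fintype.card K ^ (k - 1) ∧
        Fintype.card K ^ k + 1 ≤ μ + Fintype.card K * t1 T x)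

/-- **Ex** (100 lines, uses `S_Fb`, `S_Mu`, `S_Rc`, `S_Rh`, `S_Bt`, `S_Co`). Good points.

Proof. `M = L`, `T = HH D` (hyperplanes by `S_Fb`), `κ = kap D`, `μ = mu D`. (P): `m0 D x + q t1 x = #(RX D x) ≤ Q + 1` (`S_Rc`, `S_Bt` with
`V = L × L`, `v = (x, 1)`), `m0 D x = mu D - kap D x` (`S_Mu`). (L): `#(hx D x x') = Q - m0 D x - q ^ 2 t2` and `q ≤ #(hx D x x') +
∑_c kap D (x' - c x)` (`S_Rc`, `S_Rh`). (M): `#(Do D) = (Q - 1) (mu + #HH)` (`S_Mu`). If `q = 2`, `S_Co` contradicts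
`∑ kap D x ≤ mu D` (`S_Mu`). So `q ≥ 3`, and `S_Co` gives `x₁`, `x₂` (`x₁`, `x₂`, `x₁ + x₂ ≠ 0` by independence), with
`#(RX D x) = mu D - kap D x + q t1 x ≥ Q`. -/
def S_Ex : Prop :=
  ∀ (K L : Type) [Field K] [Fintype K] [Field L] [Fintype L] [Algebra K L] (k : ℕ)
    (D : Finset (Submodule K (L × L))), Hm k D →
    (Fintype.card K ^ k - 1) * (Fintype.card K ^ k + 2) ≤ (Do D).card →
    3 ≤ Fintype.card K ∧ ∃ x₁ x₂ : L, In2 K x₁ x₂ ∧ kap D (x₁ + x₂) = 1 ∧
      Gd k D x₁ ∧ Gd k D x₂ ∧ Gd k D (x₁ + x₂)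

/-- **Ec** (120 lines, uses `S_Fb`, `S_Rc`, `S_Ca`). The number of the holes above `x'`.

Proof. Let `r = #(RX D x)`, `u = Q + q - r ∈ {q - 1, q}`, `t = t1 (HH D) x`, `(q - 1) t = q ^ (k - 1) - 1`; put
`θ = (q ^ (k - 2) - 1) / (q - 1)`, so `t = 1 + q θ`. By `S_Rc` `m0 D x = r - q t` and `#(hx D x x') = Q - r + q t - q ^ 2 t2 =
u + q ^ 2 (θ - t2)` (`q t - q = q ^ 2 θ`), with `t2 = t2 (HH D) x x'`. As `#(hx D x x') ≥ 0` and `u < q ^ 2`, `t2 ≤ θ` for all `x'`
independent of `x`. The sum of the `t2` over these `x'` is `t (q ^ (k - 1) - q) = (q ^ k - q) θ` (`S_Ca`; `(q - 1) θ = q ^ (k - 2) - 1`),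
and their number is `q ^ k - q`. So all `t2 = θ` and `#(hx D x x') = u`. -/
def S_Ec : Prop :=
  ∀ (K L : Type) [Field K] [Fintype K] [Field L] [Fintype L] [Algebra K L] (k : ℕ)
    (D : Finset (Submodule K (L × L))), Hm k D → ∀ x : L, Gd k D x → ∀ x' : L, In2 K x x' →
    (hx D x x').card + (RX D x).card = Fintype.card K ^ k + Fintype.card K

/-- **Hp** (100 lines). The product above `x'`.

Proof. As `Tor/Px.lean` (there `x = 1`): every `y ∈ L` is in `hx D x x'` or `(x', y)` belongs to exactly one `U ∈ RX D x` (`(x, 1)`, `(x', y)`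
are independent), and `∏_{y ∈ L} (1 - y X) = 1 - X ^ (#L - 1)`. -/
def S_Hp : Prop :=
  ∀ (K L : Type) [Field K] [Fintype K] [Field L] [Fintype L] [Algebra K L] (k : ℕ)
    (D : Finset (Submodule K (L × L))), Hm k D → ∀ x x' : L, In2 K x x' →
    (∏ U ∈ RX D x, pu U x') * ∏ y ∈ hx D x x', (1 - C y * X) = 1 - X ^ (Fintype.card K ^ k - 1)

/-- **H1** (180 lines, uses `S_Hx`, `S_Rc`). The product above `x`.

Proof. As `Tor/P1.lean`. For `U ∈ RX D x` the `y` with `(x, y) ∈ U` are the `1 + z`, `(0, z) ∈ U`. The nonzero `z` with `(0, z) ∈ U` for some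
`U ∈ RX D x` are exactly the nonscalar `z`, and each belongs to one `U`: (i) if `(0, c) ∈ U`, `c ∈ K`, `c ≠ 0`, then `(0, 1)` and
`(x, 0)` are in `U ∈ Do D`, against `S_Hx`; (ii) `(x, 1)` and `(0, z)` are independent, so they are in at most one codeword;
(iii) the number of the `U ∈ RX D x` meeting `A₂` is `#(RX D x) - m0 D x = q t1 (HH D) x` (`S_Rc`), each contains `q - 1` nonzero
`(0, z)` (`S_Hx`), and `(q - 1) q t1 = q ^ k - q` is the number of the nonscalar `z`. So `∏_{U ∈ RX D x} pu U x = (1 - X) ^ r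
∏_{z nonscalar} (1 - (1 + z) X)`, and `∏_{z ∈ L} (1 - (1 + z) X) = 1 - X ^ (#L - 1)`, `∏_{z ∈ K} (1 - (1 + z) X) =
1 - X ^ (q - 1)`. -/
def S_H1 : Prop :=
  ∀ (K L : Type) [Field K] [Fintype K] [Field L] [Fintype L] [Algebra K L] (k : ℕ)
    (D : Finset (Submodule K (L × L))), Hm k D → ∀ x : L, Gd k D x →
    (∏ U ∈ RX D x, pu U x) * (1 - X ^ (Fintype.card K - 1)) =
      (1 - X) ^ (RX D x).card * (1 - X ^ (Fintype.card K ^ k - 1))

/-- **He** (180 lines, uses `S_Hx`, `S_Pi` (`Tor/SpecB.lean`), `S_Hp`, `S_H1`). The functions `ε j`.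

Proof. As `Tor/Pe.lean`. Take `ε` from `S_Pi` for `R = RX D x` (the members are in `Do D`, `S_Hx`). (1) For `x'` independent of `x` both
`∑_{i ≤ q} ε i x' X ^ i` and `∏_{y ∈ hx D x x'} (1 - y X)` are inverse to `∏ pu U x'` modulo `X ^ (q + 1)` (`q ^ k - 1 > q`). (2) At `x`
let `E = ∑_{i ≤ q} ε i x X ^ i`, `r = #(RX D x) = q ^ k + q - n`, `n ∈ {q - 1, q}`. Modulo `X ^ (q + 1)`: `E (1 - X) ^ r = 1 - X ^ (q - 1)`
(`S_H1`), `(1 - X) ^ (q ^ k) = 1 - X ^ (q ^ k) = 1`, so `E (1 - X) ^ (q - n) = 1 - X ^ (q - 1)`. If `n = q`: `E = 1 - X ^ (q - 1)`,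
`ε q x = 0`, `ε (q - 1) x = - 1`. If `n = q - 1`: `E (1 - X) = 1 - X ^ (q - 1)`, so `ε j x = 1` for `j ≤ q - 2` and
`ε (q - 1) x = 1 - 1 = 0`. -/
def S_He : Prop :=
  ∀ (K L : Type) [Field K] [Fintype K] [Field L] [Fintype L] [Algebra K L] (k n : ℕ)
    (D : Finset (Submodule K (L × L))), Hm k D → 3 ≤ Fintype.card K → ∀ x : L, Gd k D x →
    n + (RX D x).card = Fintype.card K ^ k + Fintype.card K →
    ∃ ε : ℕ → L → L, (∀ j ≤ Fintype.card K, ε j ∈ Pd K L j) ∧
      (∀ x' : L, In2 K x x' → ∀ j ≤ Fintype.card K,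
        ε j x' = (∏ y ∈ hx D x x', (1 - C y * X) : L[X]).coeff j) ∧
      ε n x = 0 ∧ ε (n - 1) x ≠ 0

/-- **Hl** (100 lines, uses `S_Hx`, `S_Pc` (`Tor/SpecB.lean`), `S_Hp`). The sum of the holes is additive.

Proof. `S_Pc` gives for every `U ∈ RX D x` a linear `ψ_U` with `(pu U x').coeff 1 = ψ_U x'`
(`U ∈ Do D`, `S_Hx`). The coefficient of `X` in the identity `S_Hp` (`q ^ k - 1 > 1`, all constant coefficients are `1`):
`∑_U ψ_U x' - ∑_{y ∈ hx D x x'} y = 0`. Put `A = ∑_U ψ_U`. -/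
def S_Hl : Prop :=
  ∀ (K L : Type) [Field K] [Fintype K] [Field L] [Fintype L] [Algebra K L] (k : ℕ)
    (D : Finset (Submodule K (L × L))), Hm k D → 3 ≤ Fintype.card K → ∀ x : L, x ≠ 0 →
    ∃ A : L →ₗ[K] L, ∀ x' : L, In2 K x x' → ∑ y ∈ hx D x x', y = A x'

/-- **Hi** (120 lines, uses `S_Hx`). The inversion.

Proof. Let `y ≠ 0`. If `(x, 1)`, `(x', y) ∈ U ∈ D`, then `sc 1 y⁻¹ U ∈ D` contains `(x, y⁻¹)` and `(x', 1)`; and conversely. Second
statement: if `kap D x' = 0` and `U ∈ D` contains `(x, 1)` and `(x', 0)`, then `U ∈ Do D`: contradiction, so `0 ∈ hx D x x'`. If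
`kap D x' = 1`, let `(x', 0) ∈ U₀ ∈ Do D`. `U₀ ∩ A₂ = 0` (`S_Hx`), so the first projection is bijective on `U₀` and there is
`(x, z) ∈ U₀`; `z ≠ 0`, since otherwise `(x, 0)`, `(x', 0)` are independent elements of `U₀ ∩ A₁` (`S_Hx`). `sc 1 z⁻¹ U₀ ∈ D` contains
`(x, 1)` and `(x', 0)`, so `0 ∉ hx D x x'`. -/
def S_Hi : Prop :=
  ∀ (K L : Type) [Field K] [Fintype K] [Field L] [Fintype L] [Algebra K L] (k : ℕ)
    (D : Finset (Submodule K (L × L))), Hm k D → ∀ x x' : L, In2 K x x' →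
    (∀ y : L, y ≠ 0 → (y ∈ hx D x x' ↔ y⁻¹ ∈ hx D x' x)) ∧ ((0 : L) ∈ hx D x x' ↔ kap D x' = 0)

/-- **Hz** (100 lines). A function of low degree on an affine hyperplane.

Proof. As `Tor/Pz.lean`: `∑_{w ∈ W} f (x₀ + w) = 0` for `f ∈ Pd d`, `d < (q - 1) (k - 1)`. -/
def S_Hz : Prop :=
  ∀ (K L : Type) [Field K] [Fintype K] [Field L] [Fintype L] [Algebra K L] (k d : ℕ)
    (f : L → L) (W : Submodule K L) (x₀ : L), Module.finrank K W + 1 = k →
    d < (Fintype.card K - 1) * (k - 1) → f ∈ Pd K L d →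
    (∀ w ∈ W, w ≠ 0 → f (x₀ + w) = 0) → f x₀ = 0

/-- **Hf** (250 lines, uses `S_Pa` (`Tor/SpecB.lean`), `S_Ec`, `S_He`, `S_Hl`, `S_Hi`, `S_Hz`). The main step.

Proof. Let `x₃ = x₁ + x₂`, `n_i = Q + q - #(RX D x_i) ∈ {q - 1, q}`, `ε^i` from `S_He` for `x_i`. Let `λ₁`, `λ₂` be linear forms on `L` with
`λ₁ x₁ = 0`, `λ₁ x₂ = 1`, `λ₂ x₂ = 0`, `λ₂ x₁ = 1` (extend the independent family `x₁`, `x₂`), `W = ker λ₁` (dimension `k - 1`,
`x₁ ∈ W`, `x₃ ∉ W`), and
`f x = λ₂(x) (ε³_{n₃-1} ε¹_{n₁} ε²_{n₂} - ε³_{n₃} (ε¹_{n₁-1} ε²_{n₂} + ε²_{n₂-1} ε¹_{n₁}))(x)`,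
a function in `Pd (n₁ + n₂ + n₃)`, contained in `Pd (3 q)` (`S_Pa`; `λ₂ ∈ Pd 1` by definition), and `3 q < (q - 1) (k - 1)`.
(1) `f (x₃ + w) = 0` for `w ∈ W`, `w ≠ 0`. Put `x' = x₃ + w`; `x' ∉ W`. If `x' = c x₃` then `(c - 1) x₃ = w ∈ W`, `c = 1`, `w = 0`: excluded.
`x' = c x₁` is excluded (`x' ∉ W`). If `x' = c x₂` then `λ₂ x' = 0`. Otherwise `x'` is independent of `x₁`, `x₂`, `x₃`. Let `B_i = hx D x_i x'`;
`#B_i = n_i` (`S_Ec`), `ε^i_j x'` is the coefficient of `X ^ j` in `∏_{y ∈ B_i} (1 - y X)`; so `ε^i_{n_i} x' = ∏_{y ∈ B_i} (- y)`. If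
`kap D x' = 0`, then `0 ∈ B_i` (`S_Hi`), all `ε^i_{n_i} x' = 0` and `f x' = 0`. If `kap D x' ≠ 0`, then `0 ∉ B_i`, and
`ε^i_{n_i-1} x' = - (∑_{y ∈ B_i} y⁻¹) ε^i_{n_i} x'`; by `S_Hi` `y ↦ y⁻¹` is a bijection from `B_i` to the nonzero elements of
`hx D x' x_i`, so `∑_{y ∈ B_i} y⁻¹ = ∑_{y ∈ hx D x' x_i} y = A x_i` with the linear `A` of `S_Hl` for `x'`. So the bracket is
`- ε¹_{n₁} ε²_{n₂} ε³_{n₃} (A x₃ - A x₁ - A x₂) = 0`. (2) By `S_Hz` `f x₃ = 0`. But `λ₂ x₃ = 1`, `ε³_{n₃} x₃ = 0`, `ε³_{n₃-1} x₃ ≠ 0`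
(`S_He`), and `ε^i_{n_i} x₃ = ∏_{y ∈ hx D x_i x₃} (- y) ≠ 0` for `i = 1, 2` (`x_i`, `x₃` are independent, `0 ∉ hx D x_i x₃` by `S_Hi`, as
`kap D x₃ = 1`): contradiction. -/
def S_Hf : Prop :=
  ∀ (K L : Type) [Field K] [Fintype K] [Field L] [Fintype L] [Algebra K L] (k : ℕ)
    (D : Finset (Submodule K (L × L))), Hm k D → 3 ≤ Fintype.card K →
    3 * Fintype.card K < (Fintype.card K - 1) * (k - 1) → ∀ x₁ x₂ : L, In2 K x₁ x₂ →
    Gd k D x₁ → Gd k D x₂ → Gd k D (x₁ + x₂) → kap D (x₁ + x₂) = 1 → False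

/-- **Fi** (80 lines, uses `S_Mu`, `S_Ex`, `S_Hf`).

Proof. `Hm k D`. `#(Do D) < (Q - 1) (Q + 2)` by `S_Ex`, `S_Hf` (for `q = 2` `S_Ex` is contradictory, as it says `q ≥ 3`), and `#(Do D)` is
`(Q - 1)` times a number (`S_Mu`), so `#(Do D) ≤ (Q - 1) (Q + 1) = q ^ (2 k) - 1`; `#D ≤ #(Do D) + 2`. -/
def S_Fi : Prop :=
  ∀ (K L : Type) [Field K] [Fintype K] [Field L] [Fintype L] [Algebra K L] (k : ℕ), 4 ≤ k →
    Module.finrank K L = k →
    (Fintype.card K = 2 ∨ 3 * Fintype.card K < (Fintype.card K - 1) * (k - 1)) →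
    ∀ D : Finset (Submodule K (L × L)), (∀ U ∈ D, Module.finrank K U = k) →
    (∀ U ∈ D, ∀ W ∈ D, U ≠ W → Module.finrank K ↥(U ⊓ W) ≤ 1) →
    (∀ b : L, b ≠ 0 → ∀ U ∈ D, U.map (LinearMap.id.prodMap (LinearMap.mulLeft K b)) ∈ D) →
    D.card ≤ Fintype.card K ^ (2 * k) + 1

/-- **Th** (120 lines, uses `S_Fi`). The coordinate free version: `X` any vector space of dimension `k`.

Proof. Choose a `K`-linear isomorphism `X ≃ L` (`LinearEquiv.ofFinrankEq`), `e : X × L ≃ L × L`, and apply `S_Fi` to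
`D.image (map e)`. -/
def S_Th : Prop :=
  ∀ (K L X : Type) [Field K] [Fintype K] [Field L] [Fintype L] [Algebra K L] [AddCommGroup X]
    [Module K X] (k : ℕ), 4 ≤ k → Module.finrank K L = k → Module.finrank K X = k →
    (Fintype.card K = 2 ∨ 3 * Fintype.card K < (Fintype.card K - 1) * (k - 1)) →
    ∀ D : Finset (Submodule K (X × L)), (∀ U ∈ D, Module.finrank K U = k) →
    (∀ U ∈ D, ∀ W ∈ D, U ≠ W → Module.finrank K ↥(U ⊓ W) ≤ 1) →
    (∀ b : L, b ≠ 0 → ∀ U ∈ D, U.map (LinearMap.id.prodMap (LinearMap.mulLeft K b)) ∈ D) →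
    D.card ≤ Fintype.card K ^ (2 * k) + 1

end Pool.Agent.MP8bH
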