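import Pool.Agent.Lib.MP_8b575b_co.Hom.Spec

/-!
# MP_8b575b_co: codes with a group of homologies, all `k ≥ 5`

`Hom/Spec.lean` gives Theorem H for `q = 2` or `3 q < (q - 1) (k - 1)`. Here the remaining cases with `k ≥ 5`, that is `k = 5` and
`q ∈ {3, 4}`. THEOREM H2 (`S_T2`): the bound `q ^ (2 k) + 1` holds for all `q` if `k ≥ 5`, and for `q = 2`, `k ≥ 4`.

PLAN. Suppose `#(Do D) ≥ (Q - 1) (Q + 2)`, `q ≥ 3`. `S_C2`, `S_X2`: either (B) there are good `x₁`, `x₂`, `x₁ + x₂` with `kap = 1` and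
`Q + 1` codewords through `(x, 1)`, or (A) all `x ≠ 0` are good, with `Q + 1 - kap D x` codewords through `(x, 1)`, and `kap` is not
zero. Let `FF` be the function of the proof of `S_Hf` (without the linear form). It vanishes outside of the plane `P` of
`x₁`, `x₂`; sums over the translates of a complement of `P` give a function of lower degree (`S_Su`) which is equal to `FF` on `P`
(`S_F1`). For `k ≥ 5` its degree is `0`, `1` or `2`; this excludes (B) and shows `kap = 1` everywhere in (A) (`S_Mx`). For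
`q = 3`, `4` the quadratic relation between the numbers `pe D x_i x_j` implies that the polynomial with the zeros `- y`, `y ∈ hx D x₁ x₂`,
is `X ^ 3 + c` (`q = 3`, `S_K3`) or has its coefficients in `K` (`q = 4`, `S_K4`): contradictions.

The proofs are complete in the docstrings; every module is independent (used statements are hypotheses):
file `Hom/<Name>.lean` (import this file only), namespace `Pool.Agent.MP8bH`, `theorem t<Name> : S_X → .. → S_<Name>`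
(hypotheses in the order of the docstring), all other declarations `private`.
-/

set_option autoImplicit false

namespace Pool.Agent.MP8bH

open Finset Polynomial Pool.Agent.MP8bT

open scoped Classical

/-- The product of the negatives of the holes. -/
noncomputable def pe {K L : Type} [Field K] [Field L] [Fintype L] [Algebra K L]
    (D : Finset (Submodule K (L × L))) (x x' : L) : L := ∏ y ∈ hx D x x', (-y)

/-- The function of the main step. -/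
def FF {L : Type} [Field L] (n₁ n₂ n₃ : ℕ) (ε₁ ε₂ ε₃ : ℕ → L → L) (x : L) : L :=
  ε₃ (n₃ - 1) x * ε₁ n₁ x * ε₂ n₂ x -
    ε₃ n₃ x * (ε₁ (n₁ - 1) x * ε₂ n₂ x + ε₂ (n₂ - 1) x * ε₁ n₁ x)

/-- **C2** (250 lines, uses `S_Ca`; adapt `Hom/Co.lean`). The combinatorial conclusion for `q ≥ 3`.

Proof. Notation of the proof of `S_Co` (`Hom/Spec.lean`): `Q = q ^ k`, `a = #T`, `ψ x = a - q t x`. CASE B of that proof (`ψ x₀ = 0` for some
`x₀ ≠ 0`): with `x₁ = x₀` and `x₂` as there, the elements `x₁`, `x₂`, `x₁ + x₂` are not zero and not in `S`, so `κ = 1`,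
`(q - 1) t + 1 = q ^ (k - 1)`, `μ + q t = μ + a ≥ Q + 2` for them: first alternative. CASE A (`ψ x ≥ 1` for all `x ≠ 0`): `ψ x = 1` for all
`x ≠ 0`, `q t x + 1 = a`, `(q - 1) t x + 1 = q ^ (k - 1)`, and by (*) some `z ≠ 0` has `κ z = 1`. By (M) `μ + q t x = μ + a - 1 ≥ Q + 1`. If
`μ + a - 1 = Q + 1`: second alternative. If `μ + a - 1 ≥ Q + 2`, then `κ x = 1` for all `x ≠ 0` by (P), and any independent `x₁`, `x₂` (they
exist as `k ≥ 2`) give the first alternative. -/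
def S_C2 : Prop :=
  ∀ (K M : Type) [Field K] [Fintype K] [AddCommGroup M] [Module K M] [Fintype M] (k μ : ℕ)
    (κ : M → ℕ) (T : Finset (Submodule K M)), 4 ≤ k → Module.finrank K M = k →
    (∀ H ∈ T, Module.finrank K H + 1 = k) → (∀ x, κ x ≤ 1) →
    (∀ x, x ≠ 0 → μ + Fintype.card K * t1 T x ≤ Fintype.card K ^ k + 1 + κ x) →
    (∀ x x', In2 K x x' → μ + Fintype.card K ^ 2 * t2 T x x' + Fintype.card K ≤
      Fintype.card K ^ k + κ x + ∑ c : K, κ (x' - c • x)) →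
    Fintype.card K ^ k + 2 ≤ μ + T.card → 3 ≤ Fintype.card K →
    (∃ x₁ x₂ : M, In2 K x₁ x₂ ∧ ∀ x, x = x₁ ∨ x = x₂ ∨ x = x₁ + x₂ → κ x = 1 ∧
      (Fintype.card K - 1) * t1 T x + 1 = Fintype.card K ^ (k - 1) ∧
      Fintype.card K ^ k + 2 ≤ μ + Fintype.card K * t1 T x) ∨
    ((∀ x : M, x ≠ 0 → (Fintype.card K - 1) * t1 T x + 1 = Fintype.card K ^ (k - 1) ∧
      μ + Fintype.card K * t1 T x = Fintype.card K ^ k + 1) ∧ ∃ z : M, z ≠ 0 ∧ κ z = 1)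

/-- **X2** (120 lines, uses `S_Fb`, `S_Mu`, `S_Rc`, `S_Rh`, `S_Bt`, `S_C2`; adapt `Hom/Ex.lean`).

Proof. As `Hom/Ex.lean`, with `S_C2` in place of `S_Co`: `#(RX D x) + kap D x = mu D + q t1 x` (`S_Rc`, `S_Mu`) for `x ≠ 0`, and
`#(RX D x) ≤ Q + 1` (`S_Bt`). First alternative: `kap = 1`, `#(RX D x) ≥ Q + 1`, so `= Q + 1`. Second: `#(RX D x) + kap D x = Q + 1`, so
`#(RX D x) ∈ {Q, Q + 1}`. -/
def S_X2 : Prop :=
  ∀ (K L : Type) [Field K] [Fintype K] [Field L] [Fintype L] [Algebra K L] (k : ℕ)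
    (D : Finset (Submodule K (L × L))), Hm k D → 3 ≤ Fintype.card K →
    (Fintype.card K ^ k - 1) * (Fintype.card K ^ k + 2) ≤ (Do D).card →
    (∃ x₁ x₂ : L, In2 K x₁ x₂ ∧ ∀ x, x = x₁ ∨ x = x₂ ∨ x = x₁ + x₂ → Gd k D x ∧ kap D x = 1 ∧
      (RX D x).card = Fintype.card K ^ k + 1) ∨
    ((∀ x : L, x ≠ 0 → Gd k D x ∧ (RX D x).card + kap D x = Fintype.card K ^ k + 1) ∧
      ∃ z : L, z ≠ 0 ∧ kap D z = 1)

/-- **Su** (150 lines). Sums over a subspace reduce the degree.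

Proof. Let `s = (q - 1) dim W`. ZERO: for a list `l` of linear forms with `l.length < s` one has `∑_{w ∈ W} ∏_{φ ∈ l} φ w = 0` (choose a basis
of `W`; the function is a polynomial of degree `< (q - 1) dim W` in `dim W` variables, `MvPolynomial.sum_eval_eq_zero`; see
`Tor/Pz.lean`, `Hom/Hz.lean`). CLAIM: for lists `l`, `l'` of linear forms let `h u = ∑_{w ∈ W} (∏_{φ ∈ l'} φ w) (∏_{φ ∈ l} φ (u + w))` (in `K`, then mapped
to `L`). (a) `h = 0` if `l.length + l'.length < s`; (b) `h ∈ Pd m` if `l.length + l'.length ≤ s + m`. Induction on `l` (for all `l'`, `m`): if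
`l = []`, `h` is a constant, `0` in case (a) by ZERO, and in `Pd 0 ≤ Pd m` in case (b). If `l = φ :: l₁`: `φ (u + w) = φ u + φ w`, so
`h u = φ u * h₁ u + h₂ u` with `h₁` for `(l₁, l')` and `h₂` for `(l₁, φ :: l')`. `h₂` is done by induction; for `h₁`: if `m = 0` in (b) (or in case
(a)) `h₁ = 0` by (a), and if `m ≥ 1` then `h₁ ∈ Pd (m - 1)` and `φ u * h₁ u` is in `Pd m` (a product of lists; `Submodule.span_induction`, or
`S_Pa`-like). Finally `f ∈ Pd d` is an `L`-linear combination of functions `x ↦ ∏_{φ ∈ l} φ x`, `l.length ≤ d`: (b) with `l' = []`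
(`Submodule.span_induction`). -/
def S_Su : Prop :=
  ∀ (K L : Type) [Field K] [Fintype K] [Field L] [Fintype L] [Algebra K L] (d m : ℕ)
    (f : L → L) (W : Submodule K L), f ∈ Pd K L d →
    d ≤ (Fintype.card K - 1) * Module.finrank K W + m →
    (fun u => ∑ w ∈ univ.filter (fun w => w ∈ W), f (u + w)) ∈ Pd K L m

/-- **D3** (60 lines). Differences.

Proof. `Submodule.span_induction`; the identities are linear in `f`. For `f x = ∏_{φ ∈ l} φ x` with `l.length = 0`, `1`, `2` (cases on the list)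
use `φ (u + v) = φ u + φ v`, `ring`. -/
def S_D3 : Prop :=
  ∀ (K L : Type) [Field K] [Fintype K] [Field L] [Fintype L] [Algebra K L] (f : L → L),
    (f ∈ Pd K L 0 → ∀ u v, f u = f v) ∧
    (f ∈ Pd K L 1 → ∀ a b u, f (a + u) - f a = f (b + u) - f b) ∧
    (f ∈ Pd K L 2 → ∀ a u v w, f (a + u + v + w) - f (a + u + v) - f (a + u + w) - f (a + v + w) +
      f (a + u) + f (a + v) + f (a + w) - f a = 0)

/-- **H4** (180 lines, uses `S_Hx`, `S_Rc`; adapt `Hom/H1.lean`). The product above `c x`.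

Proof. As `S_H1` (the case `c = 1`): for `U ∈ RX D x` the `y` with `(c x, y) ∈ U` are the `c + z`, `(0, z) ∈ U`, as `(c x, c) = c (x, 1) ∈ U`. The
nonzero `z` with `(0, z) ∈ U` for some `U ∈ RX D x` are exactly the nonscalar `z`, and each belongs to one `U` (see `S_H1`). So
`∏_{U ∈ RX D x} pu U (c x) = (1 - c X) ^ r ∏_{z nonscalar} (1 - (c + z) X)`, `∏_{z ∈ L} (1 - (c + z) X) = 1 - X ^ (#L - 1)`,
`∏_{z ∈ K} (1 - (c + z) X) = 1 - X ^ (q - 1)`. -/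
def S_H4 : Prop :=
  ∀ (K L : Type) [Field K] [Fintype K] [Field L] [Fintype L] [Algebra K L] (k : ℕ)
    (D : Finset (Submodule K (L × L))), Hm k D → ∀ x : L, Gd k D x → ∀ c : K,
    (∏ U ∈ RX D x, pu U (c • x)) * (1 - X ^ (Fintype.card K - 1)) =
      (1 - C (algebraMap K L c) * X) ^ (RX D x).card * (1 - X ^ (Fintype.card K ^ k - 1))

/-- **Eq** (150 lines, uses `S_Hx`, `S_Pi` (`Tor/SpecB.lean`), `S_Hp`, `S_H4`; adapt `Hom/He.lean`). The functions `ε j` for `#(RX D x) = Q`.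

Proof. As `S_He`. Take `ε` from `S_Pi` for `R = RX D x`. For `x'` independent of `x` as in `S_He`. At `c x` let `E = ∑_{i ≤ q} ε i (c x) X ^ i`;
modulo `X ^ (q + 1)`: `E ∏ pu U (c x) = 1`, so by `S_H4` `E (1 - c X) ^ Q = 1 - X ^ (q - 1)`, and `(1 - c X) ^ Q = 1 - c ^ Q X ^ Q = 1`
(`Q = q ^ k > q` is a power of the characteristic). So `E = 1 - X ^ (q - 1)`: `ε q (c x) = 0`, `ε (q - 1) (c x) = - 1`. -/
def S_Eq : Prop :=
  ∀ (K L : Type) [Field K] [Fintype K] [Field L] [Fintype L] [Algebra K L] (k : ℕ)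
    (D : Finset (Submodule K (L × L))), Hm k D → 3 ≤ Fintype.card K → ∀ x : L, Gd k D x →
    (RX D x).card = Fintype.card K ^ k →
    ∃ ε : ℕ → L → L, (∀ j ≤ Fintype.card K, ε j ∈ Pd K L j) ∧
      (∀ x' : L, In2 K x x' → ∀ j ≤ Fintype.card K,
        ε j x' = (∏ y ∈ hx D x x', (1 - C y * X) : L[X]).coeff j) ∧
      ∀ c : K, ε (Fintype.card K) (c • x) = 0 ∧ ε (Fintype.card K - 1) (c • x) = -1

/-- **F1** (220 lines, uses `S_Pa` (`Tor/SpecB.lean`), `S_Ec`, `S_Hl`, `S_Hi`, `S_Su`; adapt `Hom/Hf.lean`). The function `FF` on the plane.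

Proof. Let `x₃ = x₁ + x₂`, `F = FF n₁ n₂ n₃ ε₁ ε₂ ε₃`. All `n_i ∈ {q - 1, q}` (`Gd`), so `F ∈ Pd (n₁ + n₂ + n₃ - 1)` (`S_Pa`). (1) `F x' = 0` if
`x'` is independent of `x₁`, of `x₂` and of `x₃`: this is shown in the proof of `S_Hf` (part (1), there `F` is multiplied by a linear form;
copy it from `Hom/Hf.lean`). (2) Let `P` be the span of `x₁`, `x₂` and `W` a complement of `P` in `L`, `dim W = k - 2`. Put
`G u = ∑_{w ∈ W} F (u + w)`; `G ∈ Pd m` by `S_Su` (`d = n₁ + n₂ + n₃ - 1`). Let `u = s x₁ + t x₂ ∈ P`. For `w ∈ W`, `w ≠ 0`, `u + w ∉ P`, so `u + w` is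
independent of every nonzero element of `P`, and `F (u + w) = 0`. So `G u = F u`. (3) If `s ≠ 0`, `t ≠ 0`, `s ≠ t`, then `u` is
independent of `x₁`, `x₂`, `x₃`, so `F u = 0`. -/
def S_F1 : Prop :=
  ∀ (K L : Type) [Field K] [Fintype K] [Field L] [Fintype L] [Algebra K L] (k : ℕ)
    (D : Finset (Submodule K (L × L))), Hm k D → 3 ≤ Fintype.card K → ∀ x₁ x₂ : L, In2 K x₁ x₂ →
    Gd k D x₁ → Gd k D x₂ → Gd k D (x₁ + x₂) → ∀ (n₁ n₂ n₃ m : ℕ) (ε₁ ε₂ ε₃ : ℕ → L → L),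
    n₁ + (RX D x₁).card = Fintype.card K ^ k + Fintype.card K →
    n₂ + (RX D x₂).card = Fintype.card K ^ k + Fintype.card K →
    n₃ + (RX D (x₁ + x₂)).card = Fintype.card K ^ k + Fintype.card K →
    n₁ + n₂ + n₃ ≤ (Fintype.card K - 1) * (k - 2) + m + 1 →
    (∀ j ≤ Fintype.card K, ε₁ j ∈ Pd K L j ∧ ε₂ j ∈ Pd K L j ∧ ε₃ j ∈ Pd K L j) →
    (∀ x', In2 K x₁ x' → ∀ j ≤ Fintype.card K,
      ε₁ j x' = (∏ y ∈ hx D x₁ x', (1 - C y * X) : L[X]).coeff j) →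
    (∀ x', In2 K x₂ x' → ∀ j ≤ Fintype.card K,
      ε₂ j x' = (∏ y ∈ hx D x₂ x', (1 - C y * X) : L[X]).coeff j) →
    (∀ x', In2 K (x₁ + x₂) x' → ∀ j ≤ Fintype.card K,
      ε₃ j x' = (∏ y ∈ hx D (x₁ + x₂) x', (1 - C y * X) : L[X]).coeff j) →
    ∃ G ∈ Pd K L m, ∀ s t : K,
      G (s • x₁ + t • x₂) = FF n₁ n₂ n₃ ε₁ ε₂ ε₃ (s • x₁ + t • x₂) ∧
      (s ≠ 0 → t ≠ 0 → s ≠ t → G (s • x₁ + t • x₂) = 0)

/-- **F2** (120 lines, uses `S_Ec`, `S_He`, `S_Hi`, `S_F1`).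

Proof. `x₃ = x₁ + x₂`; `ε_i` from `S_He` for `x_i`, `G` from `S_F1`. For `x'` independent of `x_i` `ε_i n_i x' = ∏_{y ∈ hx D x_i x'} (- y)` (the coefficient of
`X ^ n` in a product of `n` factors `1 - y X`, `S_Ec`), and by `S_Hi` it is zero iff `kap D x' = 0`. (1) `G x₃ = FF x₃ = ε₃ (n₃ - 1) x₃ * ε₁ n₁ x₃ * ε₂ n₂ x₃`, as
`ε₃ n₃ x₃ = 0` (`S_He`); `ε₃ (n₃ - 1) x₃ ≠ 0`, and `ε₁ n₁ x₃`, `ε₂ n₂ x₃ ≠ 0` if `kap D x₃ = 1`. (2) Let `kap D x₁ = 0`, `c ≠ 0`. Then `kap D (c x₁) = 0` (`(x₁, 0) ∈ U` iff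
`(c x₁, 0) ∈ U`), so `ε₂ n₂ (c x₁) = 0 = ε₃ n₃ (c x₁)` and `FF (c x₁) = 0`. (3) `kap D x₂ = 0`: `ε₁ n₁ (c x₂) = 0 = ε₃ n₃ (c x₂)`. -/
def S_F2 : Prop :=
  ∀ (K L : Type) [Field K] [Fintype K] [Field L] [Fintype L] [Algebra K L] (k : ℕ)
    (D : Finset (Submodule K (L × L))), Hm k D → 3 ≤ Fintype.card K → ∀ x₁ x₂ : L, In2 K x₁ x₂ →
    Gd k D x₁ → Gd k D x₂ → Gd k D (x₁ + x₂) → ∀ m : ℕ,
    3 * (Fintype.card K ^ k + Fintype.card K) ≤ (RX D x₁).card + (RX D x₂).card +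
      (RX D (x₁ + x₂)).card + ((Fintype.card K - 1) * (k - 2) + m + 1) →
    ∃ G ∈ Pd K L m, (∀ s t : K, s ≠ 0 → t ≠ 0 → s ≠ t → G (s • x₁ + t • x₂) = 0) ∧
      (kap D (x₁ + x₂) = 1 → G (x₁ + x₂) ≠ 0) ∧
      (kap D x₁ = 0 → ∀ c : K, c ≠ 0 → G (c • x₁) = 0) ∧
      (kap D x₂ = 0 → ∀ c : K, c ≠ 0 → G (c • x₂) = 0)

/-- **F3** (120 lines, uses `S_Ec`, `S_Eq`, `S_F1`).

Proof. `x₃ = x₁ + x₂`, all `n_i = q`, `m = 2`: `3 q ≤ (q - 1) (k - 2) + 3` as `k ≥ 5`. `ε_i` from `S_Eq`, `G` from `S_F1`. `ε_i q x' = pe D x_i x'` for `x'` independent of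
`x_i`. `ε_i q (c x_i) = 0`, `ε_i (q - 1) (c x_i) = - 1` for all `c ∈ K`, also for `c = 0`. So `FF 0 = 0`, and for `c ≠ 0`:
`FF (c x₁) = - ε₃ q * ε₁ (q - 1) * ε₂ q (c x₁) = pe D x₃ (c x₁) * pe D x₂ (c x₁)`; `FF (c x₂) = - ε₃ q * ε₂ (q - 1) * ε₁ q (c x₂) =
pe D x₃ (c x₂) * pe D x₁ (c x₂)`; `FF (c x₃) = ε₃ (q - 1) * ε₁ q * ε₂ q (c x₃) = - pe D x₁ (c x₃) * pe D x₂ (c x₃)`. -/
def S_F3 : Prop :=
  ∀ (K L : Type) [Field K] [Fintype K] [Field L] [Fintype L] [Algebra K L] (k : ℕ)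
    (D : Finset (Submodule K (L × L))), Hm k D → 5 ≤ k → 3 ≤ Fintype.card K → ∀ x₁ x₂ : L,
    In2 K x₁ x₂ → (∀ x, x = x₁ ∨ x = x₂ ∨ x = x₁ + x₂ → Gd k D x ∧
      (RX D x).card = Fintype.card K ^ k) →
    ∃ G ∈ Pd K L 2, (∀ s t : K, s ≠ 0 → t ≠ 0 → s ≠ t → G (s • x₁ + t • x₂) = 0) ∧ G 0 = 0 ∧
      ∀ c : K, c ≠ 0 → G (c • x₁) = pe D (x₁ + x₂) (c • x₁) * pe D x₂ (c • x₁) ∧
        G (c • x₂) = pe D (x₁ + x₂) (c • x₂) * pe D x₁ (c • x₂) ∧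
        G (c • (x₁ + x₂)) = -(pe D x₁ (c • (x₁ + x₂)) * pe D x₂ (c • (x₁ + x₂)))

/-- **Tr** (100 lines). Translations and multiples. (`L`-valued scalars: `c • x = algebraMap K L c * x`.)

Proof. `U ∈ RX D x`: `(x, 1) ∈ U`, so `(x', y) ∈ U` iff `(x' + c x, y + c) = (x', y) + c (x, 1) ∈ U`; and `(x', y) ∈ U` iff `(c x', c y) ∈ U` for `c ≠ 0`.
Third statement: `(x, 0) ∈ U` iff `(c x, 0) ∈ U`. -/
def S_Tr : Prop :=
  ∀ (K L : Type) [Field K] [Fintype K] [Field L] [Fintype L] [Algebra K L]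
    (D : Finset (Submodule K (L × L))) (x x' y : L) (c : K),
    (y + algebraMap K L c ∈ hx D x (x' + c • x) ↔ y ∈ hx D x x') ∧
    (c ≠ 0 → (algebraMap K L c * y ∈ hx D x (c • x') ↔ y ∈ hx D x x')) ∧
    (c ≠ 0 → kap D (c • x) = kap D x)

/-- **Pr** (150 lines, uses `S_Ec`, `S_Hi`, `S_Tr`). The six products.

Proof. Let `B = hx D x₁ x₂`, `#B = q` (`S_Ec`), `0 ∉ B` (`S_Hi`), `(- 1) ^ q = - 1` in `L` (`q` is a power of the characteristic). `P c = ∏_{y ∈ B} (y + c)`. By `S_Tr`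
`hx D x₁ (x₂ + c x₁) = B + c`; by `S_Hi` no element of `B + c` is zero (`kap = 1`), so `P c ≠ 0`, and `hx D x' x = {y⁻¹ | y ∈ hx D x x'}` for all
independent `x`, `x'`. So `pe D x₁ (x₂ + c x₁) = ∏ (- (y + c)) = - P c`, `pe D (x₂ + c x₁) x₁ = - (P c)⁻¹`. `hx D x₂ x₁ = B⁻¹`,
`hx D x₂ (x₁ + x₂) = B⁻¹ + 1` (`S_Tr` with `c = 1`), and `1 / y + 1 = (y + 1) / y`: `pe D x₂ (x₁ + x₂) = - P 1 / P 0`, and
`pe D (x₁ + x₂) x₂ = - P 0 / P 1`. Last statement: `pe D x (c x') = ∏_{y ∈ hx D x x'} (- c y) = c ^ q pe D x x' = c pe D x x'` (`S_Tr`, `S_Ec`). -/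
def S_Pr : Prop :=
  ∀ (K L : Type) [Field K] [Fintype K] [Field L] [Fintype L] [Algebra K L] (k : ℕ)
    (D : Finset (Submodule K (L × L))), Hm k D → (∀ x : L, x ≠ 0 → Gd k D x ∧
      (RX D x).card = Fintype.card K ^ k ∧ kap D x = 1) → ∀ x₁ x₂ : L, In2 K x₁ x₂ →
    (∀ c : K, (∏ y ∈ hx D x₁ x₂, (y + algebraMap K L c) ≠ 0) ∧
      pe D x₁ (x₂ + c • x₁) = -(∏ y ∈ hx D x₁ x₂, (y + algebraMap K L c)) ∧
      pe D (x₂ + c • x₁) x₁ = -(∏ y ∈ hx D x₁ x₂, (y + algebraMap K L c))⁻¹) ∧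
    pe D x₂ (x₁ + x₂) = -((∏ y ∈ hx D x₁ x₂, (y + 1)) / (∏ y ∈ hx D x₁ x₂, y)) ∧
    pe D (x₁ + x₂) x₂ = -((∏ y ∈ hx D x₁ x₂, y) / (∏ y ∈ hx D x₁ x₂, (y + 1))) ∧
    ∀ c : K, c ≠ 0 → pe D x₁ (c • x₂) = algebraMap K L c * pe D x₁ x₂

/-- **Mx** (150 lines, uses `S_X2`, `S_F2`, `S_D3`, `S_Tr`). All points are good.

Proof. `S_X2`. FIRST ALTERNATIVE: `#(RX D x) = Q + 1` for the three points, `3 (Q + q) ≤ 3 (Q + 1) + (q - 1) (k - 2) + 0 + 1` as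
`3 (q - 1) ≤ (q - 1) (k - 2)`. `S_F2` with `m = 0`: `G` is constant (`S_D3`), zero at `x₁ + t x₂` with `t ≠ 0, 1` (`q ≥ 3`), but not at `x₁ + x₂`:
contradiction. SECOND ALTERNATIVE: all `x ≠ 0` are good, `#(RX D x) = Q + 1 - kap D x`. CLAIM: if `kap D (x₁ + x₂) = 1`, `x₁`, `x₂` independent, then
`kap D x₁ = kap D x₂ = 1`. Otherwise `kap x₁ + kap x₂ ≤ 1`; `S_F2` with `m = kap x₁ + kap x₂` (`3 (Q + q) ≤ 3 (Q + 1) - m - 1 + (q - 1) (k - 2) + m + 1`).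
If `m = 0` a contradiction as before. If `m = 1`, say `kap x₂ = 0`: let `t ≠ 0, 1`. By `S_D3` (`a = 0 + x₂`, `b = x₁ + x₂`, `u = (t - 1) x₂`)
`G (t x₂) - G x₂ = G (x₁ + t x₂) - G (x₁ + x₂)`, so `G (x₁ + x₂) = 0`: contradiction. The case `kap x₁ = 0` is symmetric. Let `kap z = 1`, `z ≠ 0`. For
`x` independent of `z` the claim with `x₁ = x`, `x₂ = z - x` gives `kap x = 1`. For `x = c z`, `c ≠ 0`, `kap x = kap z = 1` (`S_Tr`). -/
def S_Mx : Prop :=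
  ∀ (K L : Type) [Field K] [Fintype K] [Field L] [Fintype L] [Algebra K L] (k : ℕ)
    (D : Finset (Submodule K (L × L))), Hm k D → 5 ≤ k → 3 ≤ Fintype.card K →
    (Fintype.card K ^ k - 1) * (Fintype.card K ^ k + 2) ≤ (Do D).card →
    ∀ x : L, x ≠ 0 → Gd k D x ∧ (RX D x).card = Fintype.card K ^ k ∧ kap D x = 1

/-- **K3** (150 lines, uses `S_Ec`, `S_D3`, `S_F3`, `S_Tr`, `S_Pr`). The case `q = 3`, `k = 5`.

Proof. The characteristic is `3`. (1) Let `x₁`, `x₂` be independent, `x₃ = x₁ + x₂`, `P c = ∏_{y ∈ hx D x₁ x₂} (y + c)`. `G` from `S_F3`. `S_D3` with `a = - x₂`,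
increments `x₂`, `x₂`, `x₁`: `G x₃ - G x₂ - 2 G x₁ + 2 G 0 + G (x₁ - x₂) - G (- x₂) = 0`. `G 0 = 0`, `G (x₁ - x₂) = 0` (`s = 1`, `t = - 1 ≠ 1`), and
`G (- x₂) = G x₂` (`c = - 1` in `S_F3`; `pe D x (- x₂) = - pe D x x₂` by `S_Pr`, for `(x, x₂)` independent). As `- 2 = 1`:
`G x₃ + G x₂ + G x₁ = 0`, that is `pe x₃ x₂ * pe x₁ x₂ + pe x₃ x₁ * pe x₂ x₁ = pe x₁ x₃ * pe x₂ x₃`, by `S_Pr` (`c = 0`, `1`; `x₂ + 1 x₁ = x₃`)
`P 0 ^ 2 / P 1 + 1 / (P 0 * P 1) = P 1 ^ 2 / P 0`, so `P 1 ^ 3 = P 0 ^ 3 + 1 = (P 0 + 1) ^ 3` and `P 1 = P 0 + 1`. (2) Apply (1) to `x₁`, `x₂ + c x₁`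
(`hx D x₁ (x₂ + c x₁) = hx D x₁ x₂ + c`, `S_Tr`): `P (c + 1) = P c + 1` for all `c`, so `P c = P 0 + c` for `c = 0, 1, 2`. (3) `R = ∏_{y ∈ B} (X + y)`,
`B = hx D x₁ x₂`, is monic of degree three (`S_Ec`), and `R - X ^ 3 - P 0`, of degree at most two, vanishes at `c = 0, 1, 2` (`c ^ 3 = c`), so
`R = X ^ 3 + P 0` and `y ^ 3 = P 0` for `y ∈ B` (`R(- y) = 0`). `B` has two different elements `y`, `y'`, but `(y - y') ^ 3 = y ^ 3 - y' ^ 3 = 0`. -/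
def S_K3 : Prop :=
  ∀ (K L : Type) [Field K] [Fintype K] [Field L] [Fintype L] [Algebra K L]
    (D : Finset (Submodule K (L × L))), Hm 5 D → Fintype.card K = 3 →
    (∀ x : L, x ≠ 0 → Gd 5 D x ∧ (RX D x).card = Fintype.card K ^ 5 ∧ kap D x = 1) → False

/-- **K4** (200 lines, uses `S_Ec`, `S_D3`, `S_F3`, `S_Tr`, `S_Pr`, `S_Hi`). The case `q = 4`, `k = 5`.

Proof. The characteristic is `2`; let `ω ∈ K`, `ω ≠ 0, 1`, so `ω ^ 2 + ω + 1 = 0`, `ω ^ 3 = 1`. (1) Let `x₁`, `x₂` be independent, `x₃ = x₁ + x₂`,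
`P c = ∏_{y ∈ hx D x₁ x₂} (y + c)`, `G` from `S_F3`. `S_D3` with `a = 0`, `u = x₁`, `v = x₁ + ω x₂`, `w = ω v`: `u + v + w = ω x₁ + x₂`,
`v + w = ω ^ 2 x₁ + x₂`, `v`, `w`: there `G = 0` (`s ≠ 0`, `t ≠ 0`, `s ≠ t`), `G 0 = 0`, `u + v = ω x₂`, `u + w = ω ^ 2 x₃`. So
`G x₁ - G (ω x₂) - G (ω ^ 2 x₃) = 0`; by `S_F3`, `S_Pr` (`pe D x (c x') = c pe D x x'`) with `α = pe x₃ x₁ * pe x₂ x₁`, `β = pe x₃ x₂ * pe x₁ x₂`,
`γ = pe x₁ x₃ * pe x₂ x₃`: `α + ω ^ 2 β + ω γ = 0`. The same with `ω ^ 2` in place of `ω`: `α + ω β + ω ^ 2 γ = 0`. So `α = β = γ`, by `S_Pr`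
`1 / (P 0 * P 1) = P 0 ^ 2 / P 1 = P 1 ^ 2 / P 0`, so `P 0 ^ 3 = 1`. (2) Apply (1) to `x₁`, `x₂ + c x₁` (`S_Tr`): `P c ^ 3 = 1` for all `c ∈ K`. As
`X ^ 3 - 1 = (X - 1) (X - ω) (X - ω ^ 2)`, `P c ∈ K` (the image of `K` in `L`). (3) `R = ∏_{y ∈ B} (X + y)`, `B = hx D x₁ x₂`, is monic of degree `4` (`S_Ec`) and
`R(c) = P c ∈ K` for the four `c ∈ K`; let `S ∈ K[X]` be the interpolation polynomial, `S(c) = P c`, of degree at most three (`Lagrange.interpolate`);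
`R - (X ^ 4 - X) - S` has degree at most three and four zeros, so `R = X ^ 4 - X + S ∈ K[X]`. Let `y ∈ B`. `y` (`= - y`) is a root of a monic
polynomial of degree `4` over `K`, so the degree of its minimal polynomial is at most `4` and divides `5` (`minpoly.degree_dvd`), so it is `1` and
`y = c ∈ K`. By `S_Tr` `0 = y - c ∈ hx D x₁ (x₂ - c x₁)`, by `S_Hi` `kap D (x₂ - c x₁) = 0`: contradiction. -/
def S_K4 : Prop :=
  ∀ (K L : Type) [Field K] [Fintype K] [Field L] [Fintype L] [Algebra K L]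
    (D : Finset (Submodule K (L × L))), Hm 5 D → Fintype.card K = 4 →
    (∀ x : L, x ≠ 0 → Gd 5 D x ∧ (RX D x).card = Fintype.card K ^ 5 ∧ kap D x = 1) → False

/-- **I2** (100 lines, uses `S_Mu`, `S_Ex`, `S_Hf`, `S_Mx`, `S_K3`, `S_K4`; adapt `Hom/Fi.lean`).

Proof. `Hm k D`. Suppose `#(Do D) ≥ (Q - 1) (Q + 2)`. `q ≥ 3` by `S_Ex`, so `k ≥ 5`. `S_Mx`. If `k = 5` and `q = 3` or `4`: `S_K3`, `S_K4`. Otherwise
`3 q < (q - 1) (k - 1)`; take independent `x₁`, `x₂` (`dim L ≥ 2`), `S_Hf`. So `#(Do D) < (Q - 1) (Q + 2)`, and it is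
`(Q - 1)` times a number (`S_Mu`), so `#(Do D) ≤ (Q - 1) (Q + 1) = q ^ (2 k) - 1`; `#D ≤ #(Do D) + 2`. -/
def S_I2 : Prop :=
  ∀ (K L : Type) [Field K] [Fintype K] [Field L] [Fintype L] [Algebra K L] (k : ℕ), 4 ≤ k →
    Module.finrank K L = k → (Fintype.card K = 2 ∨ 5 ≤ k) →
    ∀ D : Finset (Submodule K (L × L)), (∀ U ∈ D, Module.finrank K U = k) →
    (∀ U ∈ D, ∀ W ∈ D, U ≠ W → Module.finrank K ↥(U ⊓ W) ≤ 1) →
    (∀ b : L, b ≠ 0 → ∀ U ∈ D, U.map (LinearMap.id.prodMap (LinearMap.mulLeft K b)) ∈ D) →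
    D.card ≤ Fintype.card K ^ (2 * k) + 1

/-- **T2** (60 lines, uses `S_I2`; adapt `Hom/Th.lean`). The coordinate free version. -/
def S_T2 : Prop :=
  ∀ (K L X : Type) [Field K] [Fintype K] [Field L] [Fintype L] [Algebra K L] [AddCommGroup X]
    [Module K X] (k : ℕ), 4 ≤ k → Module.finrank K L = k → Module.finrank K X = k →
    (Fintype.card K = 2 ∨ 5 ≤ k) →
    ∀ D : Finset (Submodule K (X × L)), (∀ U ∈ D, Module.finrank K U = k) →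
    (∀ U ∈ D, ∀ W ∈ D, U ≠ W → Module.finrank K ↥(U ⊓ W) ≤ 1) →
    (∀ b : L, b ≠ 0 → ∀ U ∈ D, U.map (LinearMap.id.prodMap (LinearMap.mulLeft K b)) ∈ D) →
    D.card ≤ Fintype.card K ^ (2 * k) + 1

end Pool.Agent.MP8bH
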