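import Pool.Agent.Lib.MP_8b575b_co.Hom.SpecB

/-!
# MP_8b575b_co: translations and multiples
-/

set_option autoImplicit false

namespace Pool.Agent.MP8bH

open Finset Polynomial Pool.Agent.MP8bT

open scoped Classical

private theorem tr_add {K L : Type} [Field K] [Field L] [Algebra K L] (U : Submodule K (L × L))
    (x x' y : L) (c : K) (h : ((x, 1) : L × L) ∈ U) :
    ((x' + c • x, y + algebraMap K L c) : L × L) ∈ U ↔ ((x', y) : L × L) ∈ U := by
  have h1 : ((x' + c • x, y + algebraMap K L c) : L × L) = (x', y) + c • ((x, 1) : L × L) := by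
    rw [Prod.smul_mk, Prod.mk_add_mk, Algebra.smul_def c (1 : L), mul_one]
  rw [h1]
  exact U.add_mem_iff_left (U.smul_mem c h)

private theorem tr_smul {K L : Type} [Field K] [Field L] [Algebra K L] (U : Submodule K (L × L))
    (x' y : L) (c : K) (hc : c ≠ 0) :
    ((c • x', algebraMap K L c * y) : L × L) ∈ U ↔ ((x', y) : L × L) ∈ U := by
  have h1 : ((c • x', algebraMap K L c * y) : L × L) = c • ((x', y) : L × L) := by
    rw [Prod.smul_mk, Algebra.smul_def c y]
  rw [h1]
  exact U.smul_mem_iff hc

theorem tTr : S_Tr := by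
  intro K L _ _ _ _ _ D x x' y c
  refine ⟨?_, fun hc => ?_, fun hc => ?_⟩
  · unfold hx
    rw [mem_filter, mem_filter]
    simp only [mem_univ, true_and]
    refine forall_congr' fun U => forall_congr' fun hU => not_congr ?_
    exact tr_add U x x' y c (mem_filter.1 hU).2
  · unfold hx
    rw [mem_filter, mem_filter]
    simp only [mem_univ, true_and]
    refine forall_congr' fun U => forall_congr' fun _ => not_congr ?_
    exact tr_smul U x' y c hc
  · unfold kap
    have h1 : (∃ U ∈ Do D, ((c • x, 0) : L × L) ∈ U) ↔ ∃ U ∈ Do D, ((x, 0) : L × L) ∈ U := by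
      refine exists_congr fun U => and_congr_right fun _ => ?_
      have h2 := tr_smul U x 0 c hc
      rwa [mul_zero] at h2
    rw [if_congr h1 rfl rfl]

end Pool.Agent.MP8bH
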